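import Pool.Agent.Lib.MP_cd6b85_an.QuotLim
open Matrix Filter Topology MeasureTheory
open scoped ComplexOrder ENNReal
namespace Pool.Agent.MP_cd6b85_an

variable {m k N : ℕ}

theorem comb_lin (x y : ℂ) (u v : Fin m → ℂ) (Y : Fin m → Matrix (Fin k) (Fin k) ℂ) :
    x • comb u Y + y • comb v Y = comb (x • u + y • v) Y := by
  unfold comb
  rw [Finset.smul_sum, Finset.smul_sum, ← Finset.sum_add_distrib]
  refine Finset.sum_congr rfl fun a _ => ?_
  rw [smul_smul, smul_smul, ← add_smul]
  rfl

theorem comb_add_smul (y : ℂ) (u v : Fin m → ℂ) (Y : Fin m → Matrix (Fin k) (Fin k) ℂ) :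
    comb u Y + y • comb v Y = comb (u + y • v) Y := by
  have := comb_lin 1 y u v Y
  simpa using this

theorem comb_I (v : Fin m → ℂ) (Y : Fin m → Matrix (Fin k) (Fin k) ℂ) :
    Complex.I • comb v Y = comb (Complex.I • v) Y := by
  unfold comb
  rw [Finset.smul_sum]
  refine Finset.sum_congr rfl fun a _ => ?_
  rw [smul_smul]; rfl

theorem continuous_comb_sph {p : ℝ} (x : Fin m → ℂ) :
    Continuous fun Y : Sph p m k => comb x Y.1 :=
  (continuous_comb x).comp (continuous_val_sph p m k)

theorem qM_comb (p : ℝ) (u v : Fin m → ℂ) (Y : Fin m → Matrix (Fin k) (Fin k) ℂ) (t : ℝ) :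
    qM p (comb u Y) (comb v Y) t = (phi p (comb (u + (t : ℂ) • v) Y) +
      phi p (comb (u + ((-t : ℝ) : ℂ) • v) Y) - 2 * phi p (comb u Y)) / t ^ 2 := by
  unfold qM
  rw [comb_add_smul, comb_add_smul]

theorem continuous_qM_sph {p : ℝ} (hp : 0 < p) (u v : Fin m → ℂ) (t : ℝ) :
    Continuous fun Y : Sph p m k => qM p (comb u Y.1) (comb v Y.1) t := by
  simp only [qM_comb]
  have h := fun x => continuous_evalSph (k := k) hp (m := m) x
  exact (((h _).add (h _)).sub (continuous_const.mul (h _))).div_const _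

theorem integrable_sph {p : ℝ} (hp : 0 < p) (μ : ProbabilityMeasure (Sph p m k)) {f : Sph p m k → ℝ}
    (hf : Continuous f) : Integrable f (μ : Measure (Sph p m k)) := by
  have := compactSpace_sph hp m k
  exact hf.integrable_of_hasCompactSupport (HasCompactSupport.of_compactSpace _)

theorem integral_qM {p : ℝ} (hp : 0 < p) {E : Fin m → Matrix (Fin N) (Fin N) ℂ} {w : ℝ}
    {μ : ProbabilityMeasure (Sph p m k)}
    (hμ : ∀ x : Fin m → ℂ, ∫ Z, phi p (comb x Z.1) ∂(μ : Measure (Sph p m k)) =
      phi p (comb x E) / w) (u v : Fin m → ℂ) (t : ℝ) :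
    ∫ Y, qM p (comb u Y.1) (comb v Y.1) t ∂(μ : Measure (Sph p m k)) =
      qM p (comb u E) (comb v E) t / w := by
  simp only [qM_comb]
  have hI := fun x => integrable_sph hp μ (continuous_evalSph (k := k) hp (m := m) x)
  rw [integral_div, integral_sub, integral_add, integral_const_mul, hμ, hμ, hμ]
  · ring
  · exact hI _
  · exact hI _
  · exact (hI _).add (hI _)
  · exact (hI _).const_mul _

theorem integral_tm {ι : Type*} [Fintype ι] {p : ℝ} (hp : 0 < p)
    {E : Fin m → Matrix (Fin N) (Fin N) ℂ} {w : ℝ}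
    {μ : ProbabilityMeasure (Sph p m k)}
    (hμ : ∀ x : Fin m → ℂ, ∫ Z, phi p (comb x Z.1) ∂(μ : Measure (Sph p m k)) =
      phi p (comb x E) / w) (u v : Fin m → ℂ) (c α β : ι → ℝ) :
    ∫ Y, tm p c α β (comb u Y.1) (comb v Y.1) ∂(μ : Measure (Sph p m k)) =
      tm p c α β (comb u E) (comb v E) / w := by
  unfold tm
  simp only [comb_lin]
  have hI := fun x => integrable_sph hp μ (continuous_evalSph (k := k) hp (m := m) x)
  rw [integral_finsetSum _ (fun i _ => (hI _).const_mul _), Finset.sum_div]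
  refine Finset.sum_congr rfl fun i _ => ?_
  rw [integral_const_mul, hμ]; ring

theorem continuous_tm_sph {ι : Type*} [Fintype ι] {p : ℝ} (hp : 0 < p) (u v : Fin m → ℂ)
    (c α β : ι → ℝ) :
    Continuous fun Y : Sph p m k => tm p c α β (comb u Y.1) (comb v Y.1) := by
  unfold tm
  simp only [comb_lin]
  exact continuous_finsetSum _ fun i _ => continuous_const.mul (continuous_evalSph hp _)

theorem continuous_frob_sph {p : ℝ} (x : Fin m → ℂ) :
    Continuous fun Y : Sph p m k => frob (comb x Y.1) := by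
  have h := continuous_comb_sph (p := p) (k := k) x
  unfold frob
  exact continuous_finsetSum _ fun i _ => continuous_finsetSum _ fun j _ =>
    (continuous_norm.comp (h.matrix_elem i j)).pow 2

theorem continuous_qbd_sph {p : ℝ} (hp : 2 < p) (u v : Fin m → ℂ) :
    Continuous fun Y : Sph p m k => qbd p (comb u Y.1) (comb v Y.1) := by
  unfold qbd
  have h1 := continuous_frob_sph (p := p) (k := k) u
  have h2 := continuous_frob_sph (p := p) (k := k) v
  exact ((continuous_f2 hp).comp (Real.continuous_sqrt.comp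
    ((continuous_const.mul h1).add (continuous_const.mul h2)))).mul (continuous_const.mul h2)

theorem ae_rigid {p : ℝ} (hp : 2 < p) {E : Fin m → Matrix (Fin N) (Fin N) ℂ} {w : ℝ}
    {μ : ProbabilityMeasure (Sph p m k)}
    (hμ : ∀ x : Fin m → ℂ, ∫ Z, phi p (comb x Z.1) ∂(μ : Measure (Sph p m k)) =
      phi p (comb x E) / w) (u v : Fin m → ℂ)
    (hE : Tendsto (fun t => (p - 1) * qM p (comb u E) (Complex.I • comb v E) t -
      qM p (comb u E) (comb v E) t) (𝓝[≠] 0) (𝓝 0)) :
    ∀ᵐ Y ∂(μ : Measure (Sph p m k)),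
      Tendsto (fun t => (p - 1) * qM p (comb u Y.1) (Complex.I • comb v Y.1) t -
        qM p (comb u Y.1) (comb v Y.1) t) (𝓝[≠] 0) (𝓝 0) := by
  have hp0 : 0 < p := by linarith
  choose L hL0 hL using fun Y : Sph p m k => exists_lim hp (comb u Y.1) (comb v Y.1)
  let τ : ℕ → ℝ := fun i => 1 / ((i : ℝ) + 1)
  have hτ0 : ∀ i, τ i ≠ 0 := fun i => by positivity
  have hτ1 : ∀ i, |τ i| ≤ 1 := by
    intro i
    rw [abs_of_pos (by positivity)]
    rw [div_le_one (by positivity)]
    have : (0 : ℝ) ≤ i := Nat.cast_nonneg i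
    linarith
  have hτlim : Tendsto τ atTop (𝓝[≠] 0) := by
    apply tendsto_nhdsWithin_of_tendsto_nhds_of_eventually_within
    · exact tendsto_one_div_add_atTop_nhds_zero_nat
    · exact Eventually.of_forall fun i => hτ0 i
  let F : ℕ → Sph p m k → ℝ := fun i Y =>
    (p - 1) * qM p (comb u Y.1) (Complex.I • comb v Y.1) (τ i) -
      qM p (comb u Y.1) (comb v Y.1) (τ i)
  have hFc : ∀ i, Continuous (F i) := by
    intro i
    have h1 := continuous_qM_sph (k := k) hp0 u (Complex.I • v) (τ i)
    simp only [← comb_I] at h1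
    exact (continuous_const.mul h1).sub (continuous_qM_sph hp0 u v (τ i))
  let Bd : Sph p m k → ℝ := fun Y => (p - 1) * qbd p (comb u Y.1) (comb (Complex.I • v) Y.1) +
    qbd p (comb u Y.1) (comb v Y.1)
  have hBc : Continuous Bd :=
    (continuous_const.mul (continuous_qbd_sph hp u _)).add (continuous_qbd_sph hp u v)
  have hFb : ∀ i Y, ‖F i Y‖ ≤ Bd Y := by
    intro i Y
    have h1 := qM_bounds hp (comb u Y.1) (Complex.I • comb v Y.1) (hτ0 i) (hτ1 i)
    have h2 := qM_bounds hp (comb u Y.1) (comb v Y.1) (hτ0 i) (hτ1 i)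
    rw [Real.norm_eq_abs, abs_le]
    simp only [F, Bd, ← comb_I]
    have hp1 : 0 ≤ p - 1 := by linarith
    have h3 := mul_le_mul_of_nonneg_left h1.2 hp1
    have h4 := mul_nonneg hp1 h1.1
    have h5 : 0 ≤ (p - 1) * qbd p (comb u Y.1) (Complex.I • comb v Y.1) := h4.trans h3
    constructor <;> linarith [h2.1, h2.2]
  have hlim := MeasureTheory.tendsto_integral_of_dominated_convergence
    (μ := (μ : Measure (Sph p m k))) (F := F) (f := L) Bd
    (fun i => (hFc i).aestronglyMeasurable) (integrable_sph hp0 μ hBc)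
    (fun i => Eventually.of_forall fun Y => hFb i Y)
    (Eventually.of_forall fun Y => (hL Y).comp hτlim)
  have hint : ∀ i, ∫ Y, F i Y ∂(μ : Measure (Sph p m k)) =
      ((p - 1) * qM p (comb u E) (Complex.I • comb v E) (τ i) -
        qM p (comb u E) (comb v E) (τ i)) / w := by
    intro i
    have h1 := continuous_qM_sph (k := k) hp0 u (Complex.I • v) (τ i)
    simp only [F, comb_I]
    rw [integral_sub, integral_const_mul, integral_qM hp0 hμ, integral_qM hp0 hμ]
    · ring
    · exact (integrable_sph hp0 μ h1).const_mul _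
    · exact integrable_sph hp0 μ (continuous_qM_sph hp0 u v (τ i))
  have hlim2 : Tendsto (fun i => ∫ Y, F i Y ∂(μ : Measure (Sph p m k))) atTop (𝓝 0) := by
    simp only [hint]
    have := (hE.comp hτlim).div_const w
    simpa using this
  have hLint : ∫ Y, L Y ∂(μ : Measure (Sph p m k)) = 0 := tendsto_nhds_unique hlim hlim2
  have hLmeas : AEStronglyMeasurable L (μ : Measure (Sph p m k)) :=
    aestronglyMeasurable_of_tendsto_ae atTop (fun i => (hFc i).aestronglyMeasurable)
      (Eventually.of_forall fun Y => (hL Y).comp hτlim)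
  have hLI : Integrable L (μ : Measure (Sph p m k)) := by
    refine (integrable_sph hp0 μ hBc).mono' hLmeas (Eventually.of_forall fun Y => ?_)
    have h1 : Tendsto (fun i => ‖F i Y‖) atTop (𝓝 ‖L Y‖) := ((hL Y).comp hτlim).norm
    exact le_of_tendsto' h1 fun i => hFb i Y
  rw [integral_eq_zero_iff_of_nonneg (fun Y => hL0 Y) hLI] at hLint
  filter_upwards [hLint] with Y hY
  have := hL Y
  rw [hY] at this
  exact this

end Pool.Agent.MP_cd6b85_an
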