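import Pool.Agent.Lib.MP_cd6b85_an.Defs

/-!
Working copies of the definitions of `p`-width, with the type of operators written out.
-/

open scoped ENNReal InnerProductSpace

namespace Pool.Agent.MP_cd6b85_an

variable {H : Type} [NormedAddCommGroup H] [InnerProductSpace ℂ H] [CompleteSpace H]

/-- The subspace `X` of `S_p` has `p`-width `k`: it is finitely representable in
`(⊕_i S_p^k)_p`, that is, for every finite-dimensional subspace `Y` of `X` and every `ε > 0`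
there is a linear map `T` from `Y` to `(⊕_i S_p^k)_p` with
`α ‖y‖ ≤ ‖T y‖ ≤ β ‖y‖` for some `α > 0` and `β ≤ (1 + ε) α`. -/
def HasWidthAux (b : HilbertBasis ℕ ℂ H) (p : ℝ) (X : Submodule ℂ (H →L[ℂ] H)) (k : ℕ) : Prop :=
  ∀ Y : Submodule ℂ (H →L[ℂ] H), Y ≤ X → FiniteDimensional ℂ Y → ∀ ε : ℝ, 0 < ε →
    ∃ T : Y →ₗ[ℂ] (ℕ → Matrix (Fin k) (Fin k) ℂ), (∀ y, MemSum p (T y)) ∧
      ∃ α β : ℝ, 0 < α ∧ β ≤ (1 + ε) * α ∧
        ∀ y : Y, α * schattenNorm b p (y : H →L[ℂ] H) ≤ sumNorm p (T y) ∧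
          sumNorm p (T y) ≤ β * schattenNorm b p (y : H →L[ℂ] H)

/-- The subspace `X` of `S_p` has `p`-width at most `k`. -/
def HasWidthAtMostAux (b : HilbertBasis ℕ ℂ H) (p : ℝ) (X : Submodule ℂ (H →L[ℂ] H)) (k : ℕ) :
    Prop :=
  ∃ j ≤ k, HasWidthAux b p X j

/-- `X` is an `m`-dimensional subspace of `S_p`. -/
def IsSubspaceOfDimAux (b : HilbertBasis ℕ ℂ H) (p : ℝ) (m : ℕ)
    (X : Submodule ℂ (H →L[ℂ] H)) : Prop :=
  (∀ T ∈ X, MemSchatten b p T) ∧ Module.finrank ℂ X = m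

end Pool.Agent.MP_cd6b85_an
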