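import Pool.Agent.Lib.MP_cd6b85_an.Phi
open Matrix Filter Topology
open scoped ComplexOrder ENNReal
namespace Pool.Agent.MP_cd6b85_an

variable {n m l : Type*} [Fintype n] [DecidableEq n] [Fintype m] [DecidableEq m] [Fintype l]
  [DecidableEq l]

omit [DecidableEq n] [DecidableEq m] in
theorem posSemidef_diag_entry {A : Matrix n n ℂ} (hA : A.PosSemidef) (W : Matrix n m ℂ) (i : m) :
    0 ≤ ((Wᴴ * A * W) i i).re := by
  have h := (hA.conjTranspose_mul_mul_same W).diag_nonneg (i := i)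
  exact (Complex.le_def.mp h).1

theorem eig_conj {A : Matrix n n ℂ} (hA : A.IsHermitian) :
    (hA.eigenvectorUnitary : Matrix n n ℂ)ᴴ * A * (hA.eigenvectorUnitary : Matrix n n ℂ) =
      diagonal (fun i => (hA.eigenvalues i : ℂ)) := by
  have hU := unitary_conj_mul hA.eigenvectorUnitary.2
  have hd := herm_diag hA
  set U := (hA.eigenvectorUnitary : Matrix n n ℂ)
  calc Uᴴ * A * U = Uᴴ * (U * diagonal (fun i => (hA.eigenvalues i : ℂ)) * Uᴴ) * U :=
        congrArg (fun B => Uᴴ * B * U) hd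
    _ = (Uᴴ * U) * diagonal (fun i => (hA.eigenvalues i : ℂ)) * (Uᴴ * U) := by
          simp only [Matrix.mul_assoc]
    _ = _ := by rw [hU, Matrix.one_mul, Matrix.mul_one]

/-- equality in the Peierls inequality for an eigenbasis -/
theorem trF_eigen (f : ℝ → ℝ) {A : Matrix n n ℂ} (hA : A.IsHermitian) :
    trF f A = ∑ i, f (((hA.eigenvectorUnitary : Matrix n n ℂ)ᴴ * A *
      (hA.eigenvectorUnitary : Matrix n n ℂ)) i i).re := by
  rw [trF_eq _ hA]
  refine Finset.sum_congr rfl fun i _ => ?_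
  congr 1
  rw [eig_conj hA]
  simp

theorem trF_concave_midpoint {f : ℝ → ℝ} (hf : ConcaveOn ℝ (Set.Ici 0) f) {A B : Matrix n n ℂ}
    (hA : A.PosSemidef) (hB : B.PosSemidef) :
    trF f A + trF f B ≤ 2 * trF f ((1 / 2 : ℂ) • (A + B)) := by
  set C := (1 / 2 : ℂ) • (A + B) with hC
  have hCh : C.IsHermitian := by
    have h1 := hA.isHermitian.add hB.isHermitian
    rw [Matrix.IsHermitian, hC, Matrix.conjTranspose_smul, h1.eq]
    congr 1
    simp
  rw [trF_eigen f hCh]
  set W := (hCh.eigenvectorUnitary : Matrix n n ℂ) with hW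
  have hWu : W ∈ unitaryGroup n ℂ := hCh.eigenvectorUnitary.2
  have hpA := peierls_concave hf hA.isHermitian (fun i => hA.eigenvalues_nonneg i) hWu
  have hpB := peierls_concave hf hB.isHermitian (fun i => hB.eigenvalues_nonneg i) hWu
  have hsum : ∀ i, f ((Wᴴ * A * W) i i).re + f ((Wᴴ * B * W) i i).re ≤
      2 * f ((Wᴴ * C * W) i i).re := by
    intro i
    have e : ((Wᴴ * C * W) i i).re =
        (1 / 2 : ℝ) * ((Wᴴ * A * W) i i).re + (1 / 2 : ℝ) * ((Wᴴ * B * W) i i).re := by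
      rw [hC, Matrix.mul_smul, Matrix.smul_mul, Matrix.mul_add, Matrix.add_mul, Matrix.smul_apply,
        Matrix.add_apply, smul_eq_mul]
      have : (1 / 2 : ℂ) = ((1 / 2 : ℝ) : ℂ) := by push_cast; rfl
      rw [this, Complex.re_ofReal_mul, Complex.add_re]
      ring
    have h := hf.2 (posSemidef_diag_entry hA W i) (posSemidef_diag_entry hB W i)
      (show (0 : ℝ) ≤ 1 / 2 by norm_num) (show (0 : ℝ) ≤ 1 / 2 by norm_num) (by norm_num)
    simp only [smul_eq_mul] at h
    rw [e]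
    linarith
  calc trF f A + trF f B ≤ ∑ i, (f ((Wᴴ * A * W) i i).re + f ((Wᴴ * B * W) i i).re) := by
        rw [Finset.sum_add_distrib]; exact add_le_add hpA hpB
    _ ≤ ∑ i, 2 * f ((Wᴴ * C * W) i i).re := Finset.sum_le_sum fun i _ => hsum i
    _ = _ := by rw [Finset.mul_sum]

theorem trF_mono {f : ℝ → ℝ} (hf : ConcaveOn ℝ (Set.Ici 0) f) (hfm : MonotoneOn f (Set.Ici 0))
    {A B : Matrix n n ℂ} (hA : A.PosSemidef) (hAB : (B - A).PosSemidef) :
    trF f A ≤ trF f B := by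
  have hB : B.PosSemidef := by
    have := hA.add hAB
    rwa [add_sub_cancel] at this
  rw [trF_eigen f hB.isHermitian]
  set W := (hB.isHermitian.eigenvectorUnitary : Matrix n n ℂ) with hW
  have hWu : W ∈ unitaryGroup n ℂ := hB.isHermitian.eigenvectorUnitary.2
  refine (peierls_concave hf hA.isHermitian (fun i => hA.eigenvalues_nonneg i) hWu).trans ?_
  refine Finset.sum_le_sum fun i _ => ?_
  apply hfm (posSemidef_diag_entry hA W i) (posSemidef_diag_entry hB W i)
  have h := posSemidef_diag_entry hAB W i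
  rw [Matrix.mul_sub, Matrix.sub_mul, Matrix.sub_apply, Complex.sub_re] at h
  linarith

theorem trF_rotfeld {f : ℝ → ℝ} (hf : ConcaveOn ℝ (Set.Ici 0) f) (hf0 : f 0 = 0)
    (M : Matrix m n ℂ) (K : Matrix l n ℂ) :
    trF f (Mᴴ * M + Kᴴ * K) ≤ trF f (Mᴴ * M) + trF f (Kᴴ * K) := by
  have e1 : Mᴴ * M + Kᴴ * K = (fromRows M K)ᴴ * fromRows M K := by
    rw [Matrix.conjTranspose_fromRows_eq_fromCols_conjTranspose, Matrix.fromCols_mul_fromRows]
  rw [e1, trF_mul_comm' f hf0]
  set Z := fromRows M K * (fromRows M K)ᴴ with hZ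
  have hZb : Z = fromBlocks (M * Mᴴ) (M * Kᴴ) (K * Mᴴ) (K * Kᴴ) := by
    rw [hZ, Matrix.conjTranspose_fromRows_eq_fromCols_conjTranspose, Matrix.fromRows_mul_fromCols]
  have hZp : Z.PosSemidef := Matrix.posSemidef_self_mul_conjTranspose _
  have h1 := isHermitian_mul_conjTranspose_self M
  have h2 := isHermitian_mul_conjTranspose_self K
  set W1 := (h1.eigenvectorUnitary : Matrix m m ℂ) with hW1
  set W2 := (h2.eigenvectorUnitary : Matrix l l ℂ) with hW2
  have hW1u : W1 ∈ unitaryGroup m ℂ := h1.eigenvectorUnitary.2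
  have hW2u : W2 ∈ unitaryGroup l ℂ := h2.eigenvectorUnitary.2
  set W : Matrix (m ⊕ l) (m ⊕ l) ℂ := fromBlocks W1 0 0 W2 with hW
  have hWu : W ∈ unitaryGroup (m ⊕ l) ℂ := by
    rw [Matrix.mem_unitaryGroup_iff, Matrix.star_eq_conjTranspose, hW,
      Matrix.fromBlocks_conjTranspose, Matrix.fromBlocks_multiply]
    simp [unitary_mul_conj hW1u, unitary_mul_conj hW2u]
  refine (peierls_concave hf hZp.isHermitian (fun i => hZp.eigenvalues_nonneg i) hWu).trans ?_
  have e2 : Wᴴ * Z * W = fromBlocks (W1ᴴ * (M * Mᴴ) * W1) (W1ᴴ * (M * Kᴴ) * W2)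
      (W2ᴴ * (K * Mᴴ) * W1) (W2ᴴ * (K * Kᴴ) * W2) := by
    rw [hZb, hW, Matrix.fromBlocks_conjTranspose, Matrix.fromBlocks_multiply,
      Matrix.fromBlocks_multiply]
    simp
  rw [e2, Fintype.sum_sum_type]
  simp only [Matrix.fromBlocks_apply₁₁, Matrix.fromBlocks_apply₂₂]
  rw [← trF_eigen f h1, ← trF_eigen f h2, trF_mul_comm' f hf0 M, trF_mul_comm' f hf0 K]

theorem trF_rpow_smul {q : ℝ} {A : Matrix n n ℂ} (hA : A.PosSemidef) {c : ℝ} (hc : 0 ≤ c) :
    trF (fun x => x ^ q) ((c : ℂ) • A) = c ^ q * trF (fun x => x ^ q) A := by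
  have h1 := herm_diag hA.isHermitian
  set U := (hA.isHermitian.eigenvectorUnitary : Matrix n n ℂ) with hU
  have hUu : U ∈ unitaryGroup n ℂ := hA.isHermitian.eigenvectorUnitary.2
  have h2 : (c : ℂ) • A = U * diagonal (fun i => ((c * hA.isHermitian.eigenvalues i : ℝ) : ℂ)) * Uᴴ := by
    have e : diagonal (fun i => ((c * hA.isHermitian.eigenvalues i : ℝ) : ℂ)) =
        (c : ℂ) • diagonal (fun i => (hA.isHermitian.eigenvalues i : ℂ)) := by
      rw [← Matrix.diagonal_smul]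
      congr 1
      ext i
      simp
    rw [e, Matrix.mul_smul, Matrix.smul_mul, ← h1]
  rw [trF_of_diag _ hUu h2, trF_eq _ hA.isHermitian, Finset.mul_sum]
  exact Finset.sum_congr rfl fun i _ => Real.mul_rpow hc (hA.eigenvalues_nonneg i)

/-- Frobenius norm squared. -/
noncomputable def frob (K : Matrix m n ℂ) : ℝ := ∑ i, ∑ j, ‖K i j‖ ^ 2

omit [DecidableEq m] in
theorem frob_psd (K : Matrix m n ℂ) : (((frob K : ℝ) : ℂ) • (1 : Matrix n n ℂ) - Kᴴ * K).PosSemidef := by
  have hK := Matrix.posSemidef_conjTranspose_mul_self K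
  have hh := hK.isHermitian
  have htr : ∑ i, hh.eigenvalues i = frob K := by
    have h3 := hh.trace_eq_sum_eigenvalues
    have h2 : (Kᴴ * K).trace = ((frob K : ℝ) : ℂ) := by
      rw [Matrix.trace, frob, Finset.sum_comm]
      push_cast
      refine Finset.sum_congr rfl fun j _ => ?_
      rw [Matrix.diag_apply, Matrix.mul_apply]
      refine Finset.sum_congr rfl fun i _ => ?_
      rw [Matrix.conjTranspose_apply, Complex.star_def, ← Complex.normSq_eq_conj_mul_self,
        Complex.normSq_eq_norm_sq]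
      push_cast; rfl
    have h5 : ((∑ i, hh.eigenvalues i : ℝ) : ℂ) = ((frob K : ℝ) : ℂ) := by
      rw [← h2, h3]; push_cast; rfl
    exact_mod_cast h5
  have hle : ∀ i, hh.eigenvalues i ≤ frob K := by
    intro i
    rw [← htr]
    exact Finset.single_le_sum (fun j _ => hK.eigenvalues_nonneg j) (Finset.mem_univ i)
  set U := (hh.eigenvectorUnitary : Matrix n n ℂ) with hU
  have hUu : U ∈ unitaryGroup n ℂ := hh.eigenvectorUnitary.2
  have e : ((frob K : ℝ) : ℂ) • (1 : Matrix n n ℂ) - Kᴴ * K =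
      U * diagonal (fun i => ((frob K - hh.eigenvalues i : ℝ) : ℂ)) * Uᴴ := by
    have e1 : diagonal (fun i => ((frob K - hh.eigenvalues i : ℝ) : ℂ)) =
        ((frob K : ℝ) : ℂ) • (1 : Matrix n n ℂ) - diagonal (fun i => (hh.eigenvalues i : ℂ)) := by
      rw [← Matrix.diagonal_one, ← Matrix.diagonal_smul, Matrix.diagonal_sub]
      congr 1
      ext i
      simp
    rw [e1, Matrix.mul_sub, Matrix.sub_mul, ← herm_diag hh, Matrix.mul_smul, Matrix.smul_mul,
      Matrix.mul_one, unitary_mul_conj hUu]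
  rw [e]
  have hd : (diagonal (fun i => ((frob K - hh.eigenvalues i : ℝ) : ℂ))).PosSemidef := by
    rw [Matrix.posSemidef_diagonal_iff]
    intro i
    have := hle i
    exact_mod_cast sub_nonneg.mpr this
  exact hd.mul_mul_conjTranspose_same U

theorem concaveOn_rpow' {q : ℝ} (h0 : 0 ≤ q) (h1 : q ≤ 1) :
    ConcaveOn ℝ (Set.Ici 0) fun x : ℝ => x ^ q := Real.concaveOn_rpow h0 h1

theorem monotoneOn_rpow' {q : ℝ} (h0 : 0 ≤ q) : MonotoneOn (fun x : ℝ => x ^ q) (Set.Ici 0) :=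
  fun _ hx _ _ hxy => Real.rpow_le_rpow hx hxy h0

omit [DecidableEq l] in
/-- Sandwich estimate. -/
theorem trF_sandwich {q : ℝ} (h0 : 0 ≤ q) (h1 : q ≤ 1) (S : Matrix m n ℂ) (K : Matrix l m ℂ)
    {s : ℝ} (hs : 0 ≤ s) :
    trF (fun x => x ^ q) (Sᴴ * (1 + (s : ℂ) • (Kᴴ * K)) * S) ≤
      (1 + s * frob K) ^ q * trF (fun x => x ^ q) (Sᴴ * S) := by
  have hfr : 0 ≤ frob K := by unfold frob; positivity
  rw [← trF_rpow_smul (Matrix.posSemidef_conjTranspose_mul_self S) (by positivity)]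
  apply trF_mono (concaveOn_rpow' h0 h1) (monotoneOn_rpow' h0)
  · apply Matrix.PosSemidef.conjTranspose_mul_mul_same
    apply Matrix.PosSemidef.one.add
    exact (Matrix.posSemidef_conjTranspose_mul_self K).smul (by exact_mod_cast hs)
  · have e : (((1 + s * frob K : ℝ) : ℂ) • (Sᴴ * S) - Sᴴ * (1 + (s : ℂ) • (Kᴴ * K)) * S) =
      (s : ℂ) • (Sᴴ * ((((frob K : ℝ) : ℂ) • (1 : Matrix m m ℂ) - Kᴴ * K)) * S) := by
      rw [Matrix.mul_add, Matrix.add_mul, Matrix.mul_one, Matrix.mul_sub, Matrix.sub_mul,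
        Matrix.mul_smul, Matrix.smul_mul, Matrix.mul_smul, Matrix.smul_mul, Matrix.mul_one,
        smul_sub, smul_smul]
      push_cast
      rw [add_smul, one_smul]
      abel
    rw [e]
    exact ((frob_psd K).conjTranspose_mul_mul_same S).smul (by exact_mod_cast hs)

end Pool.Agent.MP_cd6b85_an
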