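import Mathlib

/-!
Definitions for MP_cd6b85_an (p-width of finite-dimensional subspaces of Schatten classes).
Throughout `H` is a complex Hilbert space with a Hilbert basis `b` indexed by `ℕ`, that is, a
separable infinite-dimensional complex Hilbert space.
-/

open scoped ENNReal InnerProductSpace

namespace Pool.Agent.MP_cd6b85_an

variable {H : Type} [NormedAddCommGroup H] [InnerProductSpace ℂ H] [CompleteSpace H]

/-- `|T|^p = (T* T)^(p/2)`, formed with the continuous functional calculus. -/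
noncomputable def absPow (p : ℝ) (T : H →L[ℂ] H) : H →L[ℂ] H :=
  CFC.rpow (star T * T) (p / 2)

/-- `tr |T|^p` in `[0, ∞]`, the trace being computed in the Hilbert basis `b`. -/
noncomputable def traceAbsPow (b : HilbertBasis ℕ ℂ H) (p : ℝ) (T : H →L[ℂ] H) : ℝ≥0∞ :=
  ∑' n : ℕ, ENNReal.ofReal (RCLike.re ⟪b n, absPow p T (b n)⟫_ℂ)

/-- Membership in the Schatten class `S_p`: compact with `tr |T|^p < ∞`. -/
def MemSchatten (b : HilbertBasis ℕ ℂ H) (p : ℝ) (T : H →L[ℂ] H) : Prop :=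
  IsCompactOperator T ∧ traceAbsPow b p T < ∞

/-- The norm of `S_p`: `(tr |T|^p)^(1/p)`. -/
noncomputable def schattenNorm (b : HilbertBasis ℕ ℂ H) (p : ℝ) (T : H →L[ℂ] H) : ℝ :=
  (traceAbsPow b p T).toReal ^ (1 / p)

/-- `tr |M|^p` for a `k × k` matrix: the sum of the `p/2`-th powers of the eigenvalues of
`M* M`, counted with multiplicity. -/
noncomputable def matTracePow (p : ℝ) {k : ℕ} (M : Matrix (Fin k) (Fin k) ℂ) : ℝ :=
  ∑ i, (Matrix.isHermitian_conjTranspose_mul_self M).eigenvalues i ^ (p / 2)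

/-- Membership in `(⊕_i S_p^k)_p`. -/
def MemSum (p : ℝ) {k : ℕ} (u : ℕ → Matrix (Fin k) (Fin k) ℂ) : Prop :=
  Summable fun i => matTracePow p (u i)

/-- The norm of `(⊕_i S_p^k)_p`. -/
noncomputable def sumNorm (p : ℝ) {k : ℕ} (u : ℕ → Matrix (Fin k) (Fin k) ℂ) : ℝ :=
  (∑' i, matTracePow p (u i)) ^ (1 / p)

/-- The bounded operators on `H`, with their usual vector space structure. -/
def Op (H : Type) [NormedAddCommGroup H] [InnerProductSpace ℂ H] : Type := H →L[ℂ] H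

noncomputable instance instAddCommGroupOp : AddCommGroup (Op H) :=
  inferInstanceAs (AddCommGroup (H →L[ℂ] H))
noncomputable instance instModuleOp : Module ℂ (Op H) := inferInstanceAs (Module ℂ (H →L[ℂ] H))

/-- Sequences of `k × k` matrices, with the usual vector space structure. -/
def MSeq (k : ℕ) : Type := ℕ → Matrix (Fin k) (Fin k) ℂ

noncomputable instance instAddCommGroupMSeq (k : ℕ) : AddCommGroup (MSeq k) :=
  inferInstanceAs (AddCommGroup (ℕ → Matrix (Fin k) (Fin k) ℂ))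
noncomputable instance instModuleMSeq (k : ℕ) : Module ℂ (MSeq k) :=
  inferInstanceAs (Module ℂ (ℕ → Matrix (Fin k) (Fin k) ℂ))

/-- `T` maps `Y` (a space of operators) into `(⊕_i S_p^k)_p` with
`α ‖y‖ ≤ ‖T y‖ ≤ β ‖y‖` for some `α > 0` and `β ≤ (1 + ε) α`. -/
def IsEmbedding (b : HilbertBasis ℕ ℂ H) (p : ℝ) {k : ℕ} (Y : Submodule ℂ (Op H))
    (T : Y → MSeq k) (ε : ℝ) : Prop :=
  (∀ y : Y, MemSum p (T y)) ∧ ∃ α β : ℝ, 0 < α ∧ β ≤ (1 + ε) * α ∧
    ∀ y : Y, α * schattenNorm b p (y : Op H) ≤ sumNorm p (T y) ∧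
      sumNorm p (T y) ≤ β * schattenNorm b p (y : Op H)

/-- The subspace `X` of `S_p` has `p`-width `k`: it is finitely representable in
`(⊕_i S_p^k)_p`, that is, for every finite-dimensional subspace `Y` of `X` and every `ε > 0`
there is a linear map `T` from `Y` to `(⊕_i S_p^k)_p` with `α ‖y‖ ≤ ‖T y‖ ≤ β ‖y‖` for some
`α > 0` and `β ≤ (1 + ε) α`. -/
def HasWidth (b : HilbertBasis ℕ ℂ H) (p : ℝ) (X : Submodule ℂ (Op H)) (k : ℕ) : Prop :=
  ∀ Y : Submodule ℂ (Op H), Y ≤ X → Module.Finite ℂ Y → ∀ ε : ℝ, 0 < ε →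
    ∃ T : Y →ₗ[ℂ] MSeq k, IsEmbedding b p Y T ε

/-- The subspace `X` of `S_p` has `p`-width at most `k`. -/
def HasWidthAtMost (b : HilbertBasis ℕ ℂ H) (p : ℝ) (X : Submodule ℂ (Op H)) (k : ℕ) :
    Prop :=
  ∃ j ≤ k, HasWidth b p X j

/-- `X` is an `m`-dimensional subspace of `S_p`. -/
def IsSubspaceOfDim (b : HilbertBasis ℕ ℂ H) (p : ℝ) (m : ℕ)
    (X : Submodule ℂ (Op H)) : Prop :=
  (∀ T ∈ X, MemSchatten b p T) ∧ Module.finrank ℂ X = m

end Pool.Agent.MP_cd6b85_an
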