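import Pool.Agent.Lib.MP_cd6b85_an.AeRigid
open Matrix Filter Topology MeasureTheory
open scoped ComplexOrder ENNReal
namespace Pool.Agent.MP_cd6b85_an

variable {m k N : ℕ}

theorem denom_bound {ι : Type*} [Fintype ι] {p : ℝ} (hp : 2 < p) {c α β : ι → ℝ}
    (hT : ∀ y0 y1, 0 ≤ tv p c α β y0 y1)
    (hT0 : ∀ y0 y1, y0 ≠ 0 → tv p c α β y0 y1 = 0 → ∃ z : ℤ, y1 = z * y0)
    {E : Fin m → Matrix (Fin N) (Fin N) ℂ} {q : ℕ} (u : Fin m → ℂ) (v : Fin q → Fin m → ℂ)
    {γ : ℝ} (huv : ∑ i, v i = (γ : ℂ) • u)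
    (hE1 : ∀ i, Tendsto (fun t => (p - 1) * qM p (comb u E) (Complex.I • comb (v i) E) t -
      qM p (comb u E) (comb (v i) E) t) (𝓝[≠] 0) (𝓝 0))
    (hE2 : ∀ i, tm p c α β (comb u E) (comb (v i) E) = 0)
    (hE3 : 0 < phi p (comb u E)) (hE4 : 0 < wt p E) (hrep : ApproxRep p E k) :
    ∃ d : ℕ, 1 ≤ d ∧ d ≤ k ∧ ∃ z : ℤ, γ * d = z := by
  have hp0 : 0 < p := by linarith
  obtain ⟨μ, hμ⟩ := measure_rep hp0 E hE4 hrep
  have h1 : ∀ i, ∀ᵐ Y ∂(μ : Measure (Sph p m k)),
      Tendsto (fun t => (p - 1) * qM p (comb u Y.1) (Complex.I • comb (v i) Y.1) t -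
        qM p (comb u Y.1) (comb (v i) Y.1) t) (𝓝[≠] 0) (𝓝 0) :=
    fun i => ae_rigid hp hμ u (v i) (hE1 i)
  have h2 : ∀ i, ∀ᵐ Y ∂(μ : Measure (Sph p m k)),
      tm p c α β (comb u Y.1) (comb (v i) Y.1) = 0 := by
    intro i
    have hnn : 0 ≤ᵐ[(μ : Measure (Sph p m k))] fun Y => tm p c α β (comb u Y.1) (comb (v i) Y.1) := by
      filter_upwards [h1 i] with Y hY
      obtain ⟨V, W, a, hV, hW, ha, hP⟩ := full_svd (comb u Y.1)
      have hc := compat_of_lim hp hY hV hW ha hP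
      rw [tm_svd c α β hV hW hP]
      exact tm_nonneg hT hc
    have hint := integral_tm hp0 hμ u (v i) c α β
    rw [hE2 i, zero_div] at hint
    rw [integral_eq_zero_iff_of_nonneg_ae hnn
      (integrable_sph hp0 μ (continuous_tm_sph hp0 u (v i) c α β))] at hint
    exact hint
  have h3 : ∃ Y : Sph p m k, (∀ i, Tendsto (fun t => (p - 1) * qM p (comb u Y.1)
        (Complex.I • comb (v i) Y.1) t - qM p (comb u Y.1) (comb (v i) Y.1) t) (𝓝[≠] 0) (𝓝 0)) ∧
      (∀ i, tm p c α β (comb u Y.1) (comb (v i) Y.1) = 0) ∧ phi p (comb u Y.1) ≠ 0 := by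
    by_contra hcon
    push Not at hcon
    have h4 : ∀ᵐ Y ∂(μ : Measure (Sph p m k)), phi p (comb u Y.1) = 0 := by
      filter_upwards [ae_all_iff.mpr h1, ae_all_iff.mpr h2] with Y hY1 hY2
      exact hcon Y hY1 hY2
    have h5 := hμ u
    rw [integral_congr_ae h4] at h5
    simp only [integral_zero] at h5
    have := div_pos hE3 hE4
    linarith
  obtain ⟨Y, hY1, hY2, hY3⟩ := h3
  obtain ⟨V, W, a, hV, hW, ha, hP⟩ := full_svd (comb u Y.1)
  have hc := fun i => compat_of_lim hp (hY1 i) hV hW ha hP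
  have hz : ∀ i, ∃ z : ℤ, ∑ j, (Vᴴ * comb (v i) Y.1 * W) j j / (a j : ℂ) = z := by
    intro i
    apply trace_int hT hT0 (hc i)
    rw [← tm_svd c α β hV hW hP]
    exact hY2 i
  choose z hz using hz
  have hsum : ∑ i, Vᴴ * comb (v i) Y.1 * W = (γ : ℂ) • diagonal (fun j => (a j : ℂ)) := by
    rw [← Finset.sum_mul, ← Finset.mul_sum]
    have h6 : ∑ i, comb (v i) Y.1 = (γ : ℂ) • comb u Y.1 := by
      have h7 : ∑ i, comb (v i) Y.1 = comb (∑ i, v i) Y.1 := by
        unfold comb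
        rw [Finset.sum_comm]
        refine Finset.sum_congr rfl fun a _ => ?_
        rw [← Finset.sum_smul, Finset.sum_apply]
      rw [h7, huv]
      unfold comb
      rw [Finset.smul_sum]
      refine Finset.sum_congr rfl fun a _ => ?_
      rw [smul_smul]; rfl
    rw [h6, Matrix.mul_smul, Matrix.smul_mul, svd_mid hV hW hP]
  refine ⟨(Finset.univ.filter fun j => a j ≠ 0).card, ?_, ?_, ∑ i, z i, ?_⟩
  · rw [Nat.one_le_iff_ne_zero, Finset.card_ne_zero]
    by_contra hne
    rw [Finset.not_nonempty_iff_eq_empty, Finset.filter_eq_empty_iff] at hne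
    apply hY3
    rw [phi_svd p hV hW (svd_mid hV hW hP), phi_diagonal]
    apply Finset.sum_eq_zero
    intro j _
    have := hne (Finset.mem_univ j)
    push Not at this
    rw [this]
    simp [Real.zero_rpow hp0.ne']
  · exact (Finset.card_filter_le _ _).trans (by simp)
  · have h8 : ∑ i, ∑ j, (Vᴴ * comb (v i) Y.1 * W) j j / (a j : ℂ) =
        (γ : ℂ) * ((Finset.univ.filter fun j => a j ≠ 0).card : ℂ) := by
      rw [Finset.sum_comm]
      have h9 : ∀ j, ∑ i, (Vᴴ * comb (v i) Y.1 * W) j j / (a j : ℂ) =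
          if a j ≠ 0 then (γ : ℂ) else 0 := by
        intro j
        rw [← Finset.sum_div]
        have h10 := congrFun (congrFun hsum j) j
        rw [Matrix.sum_apply, Matrix.smul_apply, Matrix.diagonal_apply_eq] at h10
        rw [h10, smul_eq_mul]
        split_ifs with h
        · rw [mul_div_assoc, div_self (by exact_mod_cast h), mul_one]
        · push Not at h
          rw [h]; simp
      simp only [h9]
      rw [← Finset.sum_filter, Finset.sum_const, nsmul_eq_mul, mul_comm]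
    simp only [hz] at h8
    exact_mod_cast h8.symm

/-- The `E`-side: `Q` a projection, `A` Hermitian supported in `Q`. -/
theorem proj_compat {n : Type*} [Fintype n] [DecidableEq n]
    {Q A : Matrix n n ℂ} (hQ : Q.IsHermitian) (hQ2 : Q * Q = Q) (hA : A.IsHermitian)
    (hAQ : A * Q = A) :
    ∃ (V : Matrix n n ℂ) (a : n → ℝ), V ∈ unitaryGroup n ℂ ∧ (∀ i, a i = 0 ∨ a i = 1) ∧
      Q = V * diagonal (fun i => (a i : ℂ)) * Vᴴ ∧ Compat a (Vᴴ * A * V) ∧
      (∀ i j, a i = 0 → (Vᴴ * A * V) i j = 0) := by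
  have hV : (hQ.eigenvectorUnitary : Matrix n n ℂ) ∈ unitaryGroup n ℂ := hQ.eigenvectorUnitary.2
  have hd := herm_diag hQ
  set V : Matrix n n ℂ := (hQ.eigenvectorUnitary : Matrix n n ℂ) with hVdef
  set a : n → ℝ := hQ.eigenvalues with ha
  have hmid := svd_mid hV hV hd
  have hQA : Q * A = A := by
    have := congrArg Matrix.conjTranspose hAQ
    rwa [Matrix.conjTranspose_mul, hA.eq, hQ.eq] at this
  have ha01 : ∀ i, a i = 0 ∨ a i = 1 := by
    intro i
    have h1 : (Vᴴ * Q * V) * (Vᴴ * Q * V) = Vᴴ * Q * V := by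
      calc (Vᴴ * Q * V) * (Vᴴ * Q * V) = Vᴴ * Q * (V * Vᴴ) * Q * V := by
            simp only [Matrix.mul_assoc]
        _ = Vᴴ * (Q * Q) * V := by
            rw [unitary_mul_conj hV, Matrix.mul_one]; simp only [Matrix.mul_assoc]
        _ = _ := by rw [hQ2]
    rw [hmid, Matrix.diagonal_mul_diagonal] at h1
    have h2 := congrFun (congrFun h1 i) i
    rw [Matrix.diagonal_apply_eq, Matrix.diagonal_apply_eq] at h2
    have h3 : a i * a i = a i := by exact_mod_cast h2
    have h4 : a i * (a i - 1) = 0 := by linarith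
    rcases mul_eq_zero.mp h4 with h | h
    · exact Or.inl h
    · exact Or.inr (by linarith)
  have hL : diagonal (fun i => (a i : ℂ)) * (Vᴴ * A * V) = Vᴴ * A * V := by
    calc diagonal (fun i => (a i : ℂ)) * (Vᴴ * A * V) = (Vᴴ * Q * V) * (Vᴴ * A * V) := by
          rw [hmid]
      _ = Vᴴ * Q * (V * Vᴴ) * A * V := by simp only [Matrix.mul_assoc]
      _ = Vᴴ * (Q * A) * V := by
          rw [unitary_mul_conj hV, Matrix.mul_one]; simp only [Matrix.mul_assoc]
      _ = _ := by rw [hQA]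
  have hR : (Vᴴ * A * V) * diagonal (fun i => (a i : ℂ)) = Vᴴ * A * V := by
    calc (Vᴴ * A * V) * diagonal (fun i => (a i : ℂ)) = (Vᴴ * A * V) * (Vᴴ * Q * V) := by
          rw [hmid]
      _ = Vᴴ * A * (V * Vᴴ) * Q * V := by simp only [Matrix.mul_assoc]
      _ = Vᴴ * (A * Q) * V := by
          rw [unitary_mul_conj hV, Matrix.mul_one]; simp only [Matrix.mul_assoc]
      _ = _ := by rw [hAQ]
  have hz1 : ∀ i j, a i = 0 → (Vᴴ * A * V) i j = 0 := by
    intro i j hi
    have h := congrFun (congrFun hL i) j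
    rw [Matrix.diagonal_mul, hi] at h
    rw [← h]; simp
  have hz2 : ∀ i j, a j = 0 → (Vᴴ * A * V) i j = 0 := by
    intro i j hj
    have h := congrFun (congrFun hR i) j
    rw [Matrix.mul_diagonal, hj] at h
    rw [← h]; simp
  refine ⟨V, a, hV, ha01, hd, ⟨?_, ?_⟩, hz1⟩
  · intro i j hij
    rcases ha01 i with h | h
    · exact hz1 i j h
    · rcases ha01 j with h' | h'
      · exact hz2 i j h'
      · exact absurd (h.trans h'.symm) hij
  · intro i j _ _
    have hH : (Vᴴ * A * V).IsHermitian := by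
      unfold Matrix.IsHermitian
      rw [Matrix.conjTranspose_mul, Matrix.conjTranspose_mul, Matrix.conjTranspose_conjTranspose,
        hA.eq, Matrix.mul_assoc]
    have := congrFun (congrFun hH i) j
    rw [Matrix.conjTranspose_apply] at this
    exact this.symm

end Pool.Agent.MP_cd6b85_an
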