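import Pool.Agent.Lib.MP_cd6b85_an.KleinLim
open Matrix Filter Topology MeasureTheory
open scoped ComplexOrder
namespace Pool.Agent.MP_cd6b85_an

variable {n : Type*} [Fintype n] [DecidableEq n]

/-- Hermitian dilation, in the basis in which a nonnegative diagonal matrix has diagonal
dilation. -/
noncomputable def dil (M : Matrix n n ℂ) : Matrix (n ⊕ n) (n ⊕ n) ℂ :=
  fromBlocks ((1 / 2 : ℂ) • (M + Mᴴ)) ((1 / 2 : ℂ) • (Mᴴ - M)) ((1 / 2 : ℂ) • (M - Mᴴ))
    (-((1 / 2 : ℂ) • (M + Mᴴ)))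

theorem dil_herm (M : Matrix n n ℂ) : (dil M).IsHermitian := by
  unfold Matrix.IsHermitian dil
  have h2 : star (1 / 2 : ℂ) = 1 / 2 := by simp
  rw [Matrix.fromBlocks_conjTranspose]
  simp only [Matrix.conjTranspose_smul, Matrix.conjTranspose_add, Matrix.conjTranspose_sub,
    Matrix.conjTranspose_neg, Matrix.conjTranspose_conjTranspose, h2]
  rw [add_comm Mᴴ M]

theorem trF_fromBlocks {m l : Type*} [Fintype m] [DecidableEq m] [Fintype l] [DecidableEq l]
    (f : ℝ → ℝ) (A : Matrix m m ℂ) (D : Matrix l l ℂ) :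
    trF f (fromBlocks A 0 0 D) = trF f A + trF f D := by
  unfold trF
  rw [Matrix.charpoly_fromBlocks_zero₂₁, Polynomial.roots_mul, Multiset.map_add, Multiset.sum_add]
  exact mul_ne_zero (Matrix.charpoly_monic _).ne_zero (Matrix.charpoly_monic _).ne_zero

theorem trF_sq {p : ℝ} {B : Matrix n n ℂ} (hB : B.IsHermitian) :
    trF (fun x => |x| ^ p) B = trF (fun x => x ^ (p / 2)) (B * B) := by
  have hU := hB.eigenvectorUnitary.2
  have h1 := herm_diag hB
  have h2 := diag_pow_conj (unitary_conj_mul hU) (unitary_mul_conj hU) h1 2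
  rw [pow_two] at h2
  have h3 : B * B = (hB.eigenvectorUnitary : Matrix n n ℂ) *
      diagonal (fun i => (((hB.eigenvalues i) ^ 2 : ℝ) : ℂ)) *
      (hB.eigenvectorUnitary : Matrix n n ℂ)ᴴ := by
    rw [h2]; push_cast; rfl
  rw [trF_of_diag _ hU h1, trF_of_diag _ hU h3]
  refine Finset.sum_congr rfl fun i _ => ?_
  rw [← sq_abs, ← Real.rpow_natCast, ← Real.rpow_mul (abs_nonneg _)]
  congr 1
  push_cast; ring

/-- Hadamard rotation -/
noncomputable def rot (n : Type*) [DecidableEq n] : Matrix (n ⊕ n) (n ⊕ n) ℂ :=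
  ((1 / Real.sqrt 2 : ℝ) : ℂ) • fromBlocks 1 1 1 (-1)

theorem rot_coef : ((1 / Real.sqrt 2 : ℝ) : ℂ) * ((1 / Real.sqrt 2 : ℝ) : ℂ) = 1 / 2 := by
  rw [← Complex.ofReal_mul, div_mul_div_comm, Real.mul_self_sqrt (by norm_num)]
  norm_num

theorem rot_mul_rot : rot n * rot n = 1 := by
  unfold rot
  rw [Matrix.smul_mul, Matrix.mul_smul, smul_smul, rot_coef, Matrix.fromBlocks_multiply]
  simp only [Matrix.mul_one, Matrix.one_mul, Matrix.mul_neg, Matrix.neg_mul, neg_neg,
    add_neg_cancel]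
  rw [Matrix.fromBlocks_smul, ← Matrix.fromBlocks_one]
  congr 1
  · rw [← two_smul ℂ, smul_smul]; norm_num
  · simp
  · simp
  · rw [← two_smul ℂ, smul_smul]; norm_num

theorem dil_sq (M : Matrix n n ℂ) :
    dil M * dil M = rot n * fromBlocks (M * Mᴴ) 0 0 (Mᴴ * M) * rot n := by
  unfold rot dil
  rw [Matrix.smul_mul, Matrix.smul_mul, Matrix.mul_smul, smul_smul, rot_coef,
    Matrix.fromBlocks_multiply, Matrix.fromBlocks_multiply, Matrix.fromBlocks_multiply,
    Matrix.fromBlocks_smul]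
  simp only [Matrix.mul_one, Matrix.one_mul, Matrix.mul_zero, zero_add, add_zero,
    Matrix.mul_neg, Matrix.neg_mul, neg_neg, Matrix.smul_mul, Matrix.mul_smul, smul_smul,
    Matrix.add_mul, Matrix.mul_add, Matrix.sub_mul, Matrix.mul_sub]
  have e4 : ∀ A B C D : Matrix n n ℂ, (1 / 2 * (1 / 2) : ℂ) • A = (1 / 4 : ℂ) • A := by
    intros; norm_num
  congr 1
  · module
  · module
  · module
  · module

theorem trF_dil {p : ℝ} (hp : 0 < p) (M : Matrix n n ℂ) :
    trF (fun x => |x| ^ p) (dil M) = 2 * phi p M := by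
  rw [trF_sq (dil_herm M), dil_sq, trF_conj _ _ _ _ rot_mul_rot, trF_fromBlocks]
  have h1 : trF (fun x => x ^ (p / 2)) (M * Mᴴ) = phi p M := by
    rw [← phi_conjTranspose hp M]
    unfold phi
    rw [Matrix.conjTranspose_conjTranspose]
  have h2 : trF (fun x => x ^ (p / 2)) (Mᴴ * M) = phi p M := rfl
  rw [h1, h2]; ring

/-- the spectrum of the dilation of `diag a` -/
def nu (a : n → ℝ) : n ⊕ n → ℝ := Sum.elim a (fun i => -a i)

theorem dil_pencil (a : n → ℝ) (K : Matrix n n ℂ) (t : ℝ) :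
    dil (diagonal (fun i => (a i : ℂ)) + (t : ℂ) • K) =
      diagonal (fun i => (nu a i : ℂ)) + (t : ℂ) • dil K := by
  have hd : (diagonal (fun i => (a i : ℂ)) : Matrix n n ℂ)ᴴ = diagonal (fun i => (a i : ℂ)) := by
    rw [Matrix.diagonal_conjTranspose]
    congr 1; ext1 i
    exact Complex.conj_ofReal _
  have ht : star (t : ℂ) = t := Complex.conj_ofReal _
  have hnu : (diagonal (fun i => (nu a i : ℂ)) : Matrix (n ⊕ n) (n ⊕ n) ℂ) =
      fromBlocks (diagonal (fun i => (a i : ℂ))) 0 0 (-(diagonal (fun i => (a i : ℂ)))) := by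
    rw [Matrix.diagonal_neg, Matrix.fromBlocks_diagonal]
    congr 1
    ext1 i
    rcases i with i | i <;> simp [nu]
  rw [hnu]
  unfold dil
  rw [Matrix.fromBlocks_smul, Matrix.fromBlocks_add]
  simp only [Matrix.conjTranspose_add, Matrix.conjTranspose_smul, hd, ht]
  congr 1 <;> module

/-- second difference quotient of `phi` at `diag a`. -/
noncomputable def pq (p : ℝ) (a : n → ℝ) (K : Matrix n n ℂ) (t : ℝ) : ℝ :=
  (phi p (diagonal (fun i => (a i : ℂ)) + (t : ℂ) • K) +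
   phi p (diagonal (fun i => (a i : ℂ)) + ((-t : ℝ) : ℂ) • K) -
    2 * phi p (diagonal (fun i => (a i : ℂ)) : Matrix n n ℂ)) / t ^ 2

theorem pq_eq {p : ℝ} (hp : 0 < p) (a : n → ℝ) (K : Matrix n n ℂ) (t : ℝ) :
    pq p a K t = (1 / 2) * sq2 p (nu a) (dil K) t := by
  unfold pq sq2
  rw [← dil_pencil, ← dil_pencil, trF_dil hp, trF_dil hp, phi_diagonal]
  have : ∑ i, |nu a i| ^ p = 2 * ∑ i, ‖(a i : ℂ)‖ ^ p := by
    rw [Fintype.sum_sum_type, two_mul]
    congr 1
    · refine Finset.sum_congr rfl fun i _ => ?_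
      simp [nu]
    · refine Finset.sum_congr rfl fun i _ => ?_
      simp [nu]
  rw [this]
  ring

end Pool.Agent.MP_cd6b85_an
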