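import Pool.Agent.Lib.MP_cd6b85_an.Phi
open Matrix
open scoped ComplexOrder InnerProductSpace
namespace Pool.Agent.MP_cd6b85_an

variable {H : Type} [NormedAddCommGroup H] [InnerProductSpace ℂ H] [CompleteSpace H]

omit [CompleteSpace H] in
theorem basis_inner (b : HilbertBasis ℕ ℂ H) (i j : ℕ) :
    ⟪b i, b j⟫_ℂ = if i = j then 1 else 0 :=
  orthonormal_iff_ite.mp b.orthonormal i j

/-- The embedding of `N × N` matrices in the bounded operators. -/
noncomputable def embFun (b : HilbertBasis ℕ ℂ H) (N : ℕ) (M : Matrix (Fin N) (Fin N) ℂ) :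
    H →L[ℂ] H :=
  ∑ i : Fin N, ∑ j : Fin N, M i j • InnerProductSpace.rankOne ℂ (b i) (b j)

omit [CompleteSpace H] in
theorem embFun_apply (b : HilbertBasis ℕ ℂ H) (N : ℕ) (M : Matrix (Fin N) (Fin N) ℂ) (x : H) :
    embFun b N M x = ∑ i : Fin N, (∑ j : Fin N, M i j * ⟪b j, x⟫_ℂ) • b i := by
  simp only [embFun, _root_.sum_apply, _root_.smul_apply, InnerProductSpace.rankOne_apply,
    Finset.sum_smul, smul_smul]

omit [CompleteSpace H] in
theorem inner_embFun (b : HilbertBasis ℕ ℂ H) (N : ℕ) (M : Matrix (Fin N) (Fin N) ℂ) (x : H)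
    (k : Fin N) : ⟪b k, embFun b N M x⟫_ℂ = ∑ j : Fin N, M k j * ⟪b j, x⟫_ℂ := by
  rw [embFun_apply, inner_sum]
  simp only [inner_smul_right, basis_inner, Fin.val_inj, mul_ite, mul_one, mul_zero]
  simp

omit [CompleteSpace H] in
theorem inner_embFun_ge (b : HilbertBasis ℕ ℂ H) (N : ℕ) (M : Matrix (Fin N) (Fin N) ℂ) (x : H)
    (k : ℕ) (hk : N ≤ k) : ⟪b k, embFun b N M x⟫_ℂ = 0 := by
  rw [embFun_apply, inner_sum]
  refine Finset.sum_eq_zero fun i _ => ?_
  have : k ≠ (i : ℕ) := by have := i.2; omega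
  simp only [inner_smul_right, basis_inner, this, if_false, mul_zero]

omit [CompleteSpace H] in
theorem embFun_mul (b : HilbertBasis ℕ ℂ H) (N : ℕ) (M M' : Matrix (Fin N) (Fin N) ℂ) :
    embFun b N (M * M') = embFun b N M * embFun b N M' := by
  ext x
  rw [mul_apply_eq_comp, embFun_apply, embFun_apply]
  refine Finset.sum_congr rfl fun i _ => ?_
  congr 1
  simp only [inner_embFun, Matrix.mul_apply, Finset.sum_mul, Finset.mul_sum, mul_assoc]
  rw [Finset.sum_comm]

theorem embFun_star (b : HilbertBasis ℕ ℂ H) (N : ℕ) (M : Matrix (Fin N) (Fin N) ℂ) :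
    embFun b N (star M) = star (embFun b N M) := by
  simp only [embFun, star_sum, star_smul, ContinuousLinearMap.star_eq_adjoint,
    InnerProductSpace.adjoint_rankOne, Matrix.star_apply]
  rw [Finset.sum_comm]

/-- The embedding of `N × N` matrices in the bounded operators, as a homomorphism. -/
noncomputable def emb (b : HilbertBasis ℕ ℂ H) (N : ℕ) :
    Matrix (Fin N) (Fin N) ℂ →⋆ₙₐ[ℂ] (H →L[ℂ] H) where
  toFun := embFun b N
  map_smul' c M := by
    simp only [embFun, Matrix.smul_apply, smul_eq_mul, MonoidHom.id_apply, Finset.smul_sum,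
      smul_smul]
  map_zero' := by simp [embFun]
  map_add' M M' := by
    simp only [embFun, Matrix.add_apply, add_smul, Finset.sum_add_distrib]
  map_mul' := embFun_mul b N
  map_star' := embFun_star b N

theorem emb_apply (b : HilbertBasis ℕ ℂ H) (N : ℕ) (M : Matrix (Fin N) (Fin N) ℂ) :
    emb b N M = embFun b N M := rfl

theorem continuous_emb (b : HilbertBasis ℕ ℂ H) (N : ℕ) : Continuous (emb b N) := by
  have : (emb b N : Matrix (Fin N) (Fin N) ℂ → (H →L[ℂ] H)) = embFun b N := rfl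
  rw [this]
  unfold embFun
  fun_prop

theorem emb_injective (b : HilbertBasis ℕ ℂ H) (N : ℕ) : Function.Injective (emb b N) := by
  intro M M' h
  ext i j
  have := congrArg (fun T : H →L[ℂ] H => ⟪b i, T (b j)⟫_ℂ) h
  simp only [emb_apply, inner_embFun, basis_inner, Fin.val_inj, mul_ite, mul_one, mul_zero] at this
  simpa using this

theorem emb_compact (b : HilbertBasis ℕ ℂ H) (N : ℕ) (M : Matrix (Fin N) (Fin N) ℂ) :
    IsCompactOperator (emb b N M) := by
  have h1 : ∀ x y : H, IsCompactOperator (InnerProductSpace.rankOne ℂ x y) := by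
    intro x y
    rw [InnerProductSpace.rankOne_def']
    have : IsCompactOperator (ContinuousLinearMap.toSpanSingleton ℂ x) :=
      isCompactOperator_of_locallyCompactSpace_rng _
    exact this.comp_clm _
  have h2 : ∀ (s : Finset (Fin N)) (g : Fin N → (H →L[ℂ] H)),
      (∀ i, IsCompactOperator (g i)) → IsCompactOperator (∑ i ∈ s, g i : H →L[ℂ] H) := by
    intro s g hg
    induction s using Finset.induction_on with
    | empty => simpa using isCompactOperator_zero
    | insert i s his ih =>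
      rw [Finset.sum_insert his]
      exact (hg i).add ih
  rw [emb_apply, embFun]
  exact h2 _ _ fun i => h2 _ _ fun j => (h1 _ _).smul _

theorem absPow_emb (b : HilbertBasis ℕ ℂ H) (N : ℕ) {p : ℝ} (hp : 0 < p)
    (M : Matrix (Fin N) (Fin N) ℂ) :
    absPow p (emb b N M) = emb b N (cfc (fun x : ℝ => x ^ (p / 2)) (Mᴴ * M)) := by
  have h0 : p / 2 ≠ 0 := by positivity
  have e1 : star (emb b N M) * emb b N M = emb b N (Mᴴ * M) := by
    rw [← map_star, ← map_mul]; rfl
  have hsa : IsSelfAdjoint (Mᴴ * M) := isHermitian_conjTranspose_mul_self M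
  have hcont : Continuous fun x : ℝ => x ^ (p / 2) := Real.continuous_rpow_const (by positivity)
  rw [absPow, CFC.rpow_eq_pow, CFC.rpow_eq_cfc_real (star_mul_self_nonneg _), e1,
    ← cfcₙ_eq_cfc (hf := hcont.continuousOn) (hf0 := Real.zero_rpow h0)]
  rw [← NonUnitalStarAlgHom.map_cfcₙ (S := ℂ) (emb b N) (fun x : ℝ => x ^ (p / 2)) (Mᴴ * M)
    hcont.continuousOn (Real.zero_rpow h0) (continuous_emb b N) hsa (hsa.map _),
    cfcₙ_eq_cfc (hf := hcont.continuousOn) (hf0 := Real.zero_rpow h0)]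

theorem cfc_gram_eq {n : Type*} [Fintype n] [DecidableEq n] (f : ℝ → ℝ) {A : Matrix n n ℂ}
    (hA : A.IsHermitian) : cfc f A = (hA.eigenvectorUnitary : Matrix n n ℂ) *
      diagonal (fun i => (f (hA.eigenvalues i) : ℂ)) *
      (hA.eigenvectorUnitary : Matrix n n ℂ)ᴴ := by
  rw [hA.cfc_eq, Matrix.IsHermitian.cfc, Unitary.conjStarAlgAut_apply]
  rfl

theorem traceAbsPow_emb (b : HilbertBasis ℕ ℂ H) (N : ℕ) {p : ℝ} (hp : 0 < p)
    (M : Matrix (Fin N) (Fin N) ℂ) :
    traceAbsPow b p (emb b N M) = ENNReal.ofReal (phi p M) := by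
  set K := cfc (fun x : ℝ => x ^ (p / 2)) (Mᴴ * M) with hK
  have hKe := cfc_gram_eq (fun x : ℝ => x ^ (p / 2)) (isHermitian_conjTranspose_mul_self M)
  rw [← hK] at hKe
  set U := ((isHermitian_conjTranspose_mul_self M).eigenvectorUnitary : Matrix (Fin N) (Fin N) ℂ)
    with hU
  have hUu : U ∈ unitaryGroup (Fin N) ℂ :=
    (isHermitian_conjTranspose_mul_self M).eigenvectorUnitary.2
  have hdiag : ∀ i, 0 ≤ (K i i).re := by
    intro i
    have h := conj_diag_entry
      (fun i => (isHermitian_conjTranspose_mul_self M).eigenvalues i ^ (p / 2)) Uᴴ i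
    rw [Matrix.conjTranspose_conjTranspose] at h
    rw [hKe, h, Complex.ofReal_re]
    exact Finset.sum_nonneg fun j _ => mul_nonneg (by positivity)
      (Real.rpow_nonneg (gram_eigenvalues_nonneg M j) _)
  have htr : ∑ i, (K i i).re = phi p M := by
    have h1 : (K.trace).re = ∑ i, (K i i).re := by
      rw [Matrix.trace, Complex.re_sum]; rfl
    rw [← h1, hKe, Matrix.trace_mul_comm, ← Matrix.mul_assoc, unitary_conj_mul hUu,
      Matrix.one_mul, Matrix.trace_diagonal, phi_eq, Complex.re_sum]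
    simp only [Complex.ofReal_re]
  have hterm : ∀ k : Fin N, RCLike.re ⟪b k, absPow p (emb b N M) (b k)⟫_ℂ = (K k k).re := by
    intro k
    rw [absPow_emb b N hp, emb_apply, inner_embFun]
    simp only [basis_inner, Fin.val_inj, mul_ite, mul_one, mul_zero]
    simp [hK]
  have hterm0 : ∀ k : ℕ, N ≤ k → RCLike.re ⟪b k, absPow p (emb b N M) (b k)⟫_ℂ = 0 := by
    intro k hk
    rw [absPow_emb b N hp, emb_apply, inner_embFun_ge b N _ _ k hk, map_zero]
  rw [traceAbsPow, tsum_eq_sum (s := Finset.range N), Finset.sum_range]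
  · rw [← htr, ENNReal.ofReal_sum_of_nonneg fun i _ => hdiag i]
    exact Finset.sum_congr rfl fun i _ => by rw [hterm]
  · intro k hk
    rw [hterm0 k (by simpa using hk), ENNReal.ofReal_zero]

theorem memSchatten_emb (b : HilbertBasis ℕ ℂ H) (N : ℕ) {p : ℝ} (hp : 0 < p)
    (M : Matrix (Fin N) (Fin N) ℂ) : MemSchatten b p (emb b N M) :=
  ⟨emb_compact b N M, by rw [traceAbsPow_emb b N hp]; exact ENNReal.ofReal_lt_top⟩

theorem schattenNorm_emb (b : HilbertBasis ℕ ℂ H) (N : ℕ) {p : ℝ} (hp : 0 < p)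
    (M : Matrix (Fin N) (Fin N) ℂ) : schattenNorm b p (emb b N M) = phi p M ^ (1 / p) := by
  rw [schattenNorm, traceAbsPow_emb b N hp, ENNReal.toReal_ofReal (phi_nonneg p M)]

end Pool.Agent.MP_cd6b85_an
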