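import Pool.Agent.Lib.MP_cd6b85_an.Rigid
open Matrix Filter Topology MeasureTheory
open scoped ComplexOrder
namespace Pool.Agent.MP_cd6b85_an

variable {n : Type*} [Fintype n] [DecidableEq n]

theorem sum_fib {β : Type*} [AddCommMonoid β] (a : n → ℝ) (α : ℝ) (f : n → β)
    (h : ∀ i, a i ≠ α → f i = 0) : ∑ i, f i = ∑ i : {i // a i = α}, f i := by
  rw [← Finset.sum_subtype (Finset.univ.filter fun i => a i = α) (by simp) f]
  symm
  apply Finset.sum_subset (Finset.subset_univ _)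
  intro i _ hi
  apply h
  simpa using hi

theorem sum_all_fib (a : n → ℝ) (f : n → ℂ) :
    ∑ i, f i = ∑ α ∈ Finset.univ.image a, ∑ i : {i // a i = α}, f i := by
  rw [← Finset.sum_fiberwise_of_maps_to (s := Finset.univ) (t := Finset.univ.image a) (g := a)
    (fun i _ => Finset.mem_image_of_mem a (Finset.mem_univ i))]
  refine Finset.sum_congr rfl fun α _ => ?_
  rw [← Finset.sum_subtype (Finset.univ.filter fun i => a i = α) (by simp) f]

theorem tsb_conj_mul (a : n → ℝ) {M : Matrix n n ℂ} (hM : ∀ i j, a i ≠ a j → M i j = 0) (α : ℝ) :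
    (Mᴴ * M).toSquareBlock a α = (M.toSquareBlock a α)ᴴ * M.toSquareBlock a α := by
  ext ⟨i, hi⟩ ⟨j, hj⟩
  rw [Matrix.toSquareBlock_def, Matrix.of_apply, Matrix.mul_apply, Matrix.mul_apply]
  simp only [Matrix.conjTranspose_apply, Matrix.toSquareBlock_def, Matrix.of_apply]
  apply sum_fib a α (fun k => star (M k i) * M k j)
  intro k hk
  rw [hM k j (by rw [hj]; exact hk), mul_zero]

theorem trF_fib (f : ℝ → ℝ) (a : n → ℝ) {M : Matrix n n ℂ}
    (hM : ∀ i j, a i ≠ a j → M i j = 0) :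
    trF f M = ∑ α ∈ Finset.univ.image a, trF f (M.toSquareBlock a α) := by
  have hbt : M.BlockTriangular a := fun i j hij => hM i j hij.ne'
  unfold trF
  rw [hbt.charpoly, Polynomial.roots_prod]
  · rw [Multiset.map_bind, Multiset.sum_bind]
    rfl
  · rw [Finset.prod_ne_zero_iff]
    intro α _
    exact (Matrix.charpoly_monic _).ne_zero

theorem phi_fib (p : ℝ) (a : n → ℝ) {M : Matrix n n ℂ}
    (hM : ∀ i j, a i ≠ a j → M i j = 0) :
    phi p M = ∑ α ∈ Finset.univ.image a, phi p (M.toSquareBlock a α) := by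
  unfold phi
  rw [trF_fib _ a]
  · refine Finset.sum_congr rfl fun α _ => ?_
    rw [tsb_conj_mul a hM]
  · intro i j hij
    rw [Matrix.mul_apply]
    apply Finset.sum_eq_zero
    intro k _
    rw [Matrix.conjTranspose_apply]
    by_cases h : a k = a j
    · rw [hM k i (by rw [h]; exact fun h' => hij h'.symm)]; simp
    · rw [hM k j h]; simp

/-- value of a test functional on a scalar -/
noncomputable def tv {ι : Type*} [Fintype ι] (p : ℝ) (c α β : ι → ℝ) (y0 y1 : ℝ) : ℝ :=
  ∑ i, c i * |α i * y0 + β i * y1| ^ p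

/-- value of a test functional on a pair of matrices -/
noncomputable def tm {ι : Type*} [Fintype ι] (p : ℝ) (c α β : ι → ℝ) (P K : Matrix n n ℂ) : ℝ :=
  ∑ i, c i * phi p (((α i : ℝ) : ℂ) • P + ((β i : ℝ) : ℂ) • K)

theorem tm_fib {ι : Type*} [Fintype ι] (p : ℝ) (c α β : ι → ℝ) {a : n → ℝ} {K : Matrix n n ℂ}
    (hK : Compat a K) :
    tm p c α β (diagonal fun i => (a i : ℂ)) K = ∑ s ∈ Finset.univ.image a,
      tm p c α β ((s : ℂ) • (1 : Matrix {i // a i = s} {i // a i = s} ℂ)) (K.toSquareBlock a s) := by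
  unfold tm
  rw [Finset.sum_comm]
  refine Finset.sum_congr rfl fun i _ => ?_
  rw [← Finset.mul_sum, phi_fib p a]
  · refine congrArg (fun z => c i * z) (Finset.sum_congr rfl fun s _ => ?_)
    refine congrArg (fun z => phi p z) ?_
    ext ⟨x, hx⟩ ⟨y, hy⟩
    simp only [Matrix.toSquareBlock_def, Matrix.of_apply, Matrix.add_apply, Matrix.smul_apply,
      smul_eq_mul]
    congr 2
    by_cases hxy : x = y
    · subst hxy
      rw [Matrix.diagonal_apply_eq, Matrix.one_apply_eq, hx, mul_one]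
    · rw [Matrix.diagonal_apply_ne _ hxy, Matrix.one_apply_ne, mul_zero]
      intro h; exact hxy (congrArg Subtype.val h)
  · intro x y hxy
    rw [Matrix.add_apply, Matrix.smul_apply, Matrix.smul_apply, hK.1 x y hxy,
      Matrix.diagonal_apply_ne _ (fun h => hxy (by rw [h]))]
    simp

theorem block_zero {ι : Type*} [Fintype ι] (p : ℝ) (c α β : ι → ℝ) (K : Matrix n n ℂ) :
    tm p c α β (((0 : ℝ) : ℂ) • (1 : Matrix n n ℂ)) K = tv p c α β 0 1 * phi p K := by
  unfold tm tv
  rw [Finset.sum_mul]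
  refine Finset.sum_congr rfl fun i _ => ?_
  rw [Complex.ofReal_zero, zero_smul, smul_zero, zero_add, phi_smul, Complex.norm_real,
    Real.norm_eq_abs, mul_zero, mul_one, zero_add, mul_assoc]

theorem block_herm {ι : Type*} [Fintype ι] {p : ℝ} (c α β : ι → ℝ) (s : ℝ)
    {K : Matrix n n ℂ} (hK : K.IsHermitian) :
    tm p c α β ((s : ℂ) • (1 : Matrix n n ℂ)) K = ∑ j, tv p c α β s (hK.eigenvalues j) := by
  unfold tm tv
  rw [Finset.sum_comm]
  refine Finset.sum_congr rfl fun i _ => ?_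
  rw [← Finset.mul_sum]
  congr 1
  set U : Matrix n n ℂ := (hK.eigenvectorUnitary : Matrix n n ℂ) with hU
  have hUm : U ∈ unitaryGroup n ℂ := hK.eigenvectorUnitary.2
  have hUm' : Uᴴ ∈ unitaryGroup n ℂ := Unitary.star_mem hUm
  have e : ((α i : ℝ) : ℂ) • ((s : ℂ) • (1 : Matrix n n ℂ)) + ((β i : ℝ) : ℂ) • K =
      U * diagonal (fun j => ((α i * s + β i * hK.eigenvalues j : ℝ) : ℂ)) * Uᴴ := by
    have h1 : diagonal (fun j => ((α i * s + β i * hK.eigenvalues j : ℝ) : ℂ)) =
        ((α i * s : ℝ) : ℂ) • (1 : Matrix n n ℂ) +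
          ((β i : ℝ) : ℂ) • diagonal (fun j => (hK.eigenvalues j : ℂ)) := by
      ext x y
      by_cases hxy : x = y
      · subst hxy; simp
      · simp [Matrix.diagonal_apply_ne _ hxy, Matrix.one_apply_ne hxy]
    rw [h1, Matrix.mul_add, Matrix.add_mul, Matrix.mul_smul, Matrix.smul_mul, Matrix.mul_smul,
      Matrix.smul_mul, ← herm_diag hK, Matrix.mul_one, unitary_mul_conj hUm, smul_smul]
    push_cast; rfl
  rw [e, phi_unitary p _ hUm hUm', phi_diagonal]
  refine Finset.sum_congr rfl fun j _ => ?_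
  rw [Complex.norm_real, Real.norm_eq_abs]

theorem block_isHermitian {a : n → ℝ} {K : Matrix n n ℂ} (hK : Compat a K) {s : ℝ} (hs : s ≠ 0) :
    (K.toSquareBlock a s).IsHermitian := by
  ext ⟨i, hi⟩ ⟨j, hj⟩
  simp only [Matrix.conjTranspose_apply, Matrix.toSquareBlock_def, Matrix.of_apply]
  exact (hK.2 i j (by rw [hi, hj]) (by rwa [hi])).symm

theorem block_nonneg {ι : Type*} [Fintype ι] {p : ℝ} {c α β : ι → ℝ}
    (hT : ∀ y0 y1, 0 ≤ tv p c α β y0 y1) {a : n → ℝ} {K : Matrix n n ℂ} (hK : Compat a K) (s : ℝ) :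
    0 ≤ tm p c α β ((s : ℂ) • (1 : Matrix {i // a i = s} {i // a i = s} ℂ))
      (K.toSquareBlock a s) := by
  by_cases hs : s = 0
  · subst hs
    rw [block_zero]
    exact mul_nonneg (hT _ _) (phi_nonneg _ _)
  · rw [block_herm c α β s (block_isHermitian hK hs)]
    exact Finset.sum_nonneg fun _ _ => hT _ _

theorem tm_nonneg {ι : Type*} [Fintype ι] {p : ℝ} {c α β : ι → ℝ}
    (hT : ∀ y0 y1, 0 ≤ tv p c α β y0 y1) {a : n → ℝ} {K : Matrix n n ℂ} (hK : Compat a K) :
    0 ≤ tm p c α β (diagonal fun i => (a i : ℂ)) K := by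
  rw [tm_fib p c α β hK]
  exact Finset.sum_nonneg fun s _ => block_nonneg hT hK s

theorem trace_int {ι : Type*} [Fintype ι] {p : ℝ} {c α β : ι → ℝ}
    (hT : ∀ y0 y1, 0 ≤ tv p c α β y0 y1)
    (hT0 : ∀ y0 y1, y0 ≠ 0 → tv p c α β y0 y1 = 0 → ∃ z : ℤ, y1 = z * y0)
    {a : n → ℝ} {K : Matrix n n ℂ} (hK : Compat a K)
    (h0 : tm p c α β (diagonal fun i => (a i : ℂ)) K = 0) :
    ∃ z : ℤ, ∑ i, K i i / (a i : ℂ) = z := by
  rw [tm_fib p c α β hK, Finset.sum_eq_zero_iff_of_nonneg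
    (fun s _ => block_nonneg hT hK s)] at h0
  have key : ∀ s ∈ Finset.univ.image a, ∃ z : ℤ,
      ∑ i : {i // a i = s}, K i i / (a i : ℂ) = z := by
    intro s hs
    by_cases hs0 : s = 0
    · refine ⟨0, ?_⟩
      rw [Finset.sum_eq_zero]
      · simp
      · rintro ⟨i, hi⟩ _
        simp [hi, hs0]
    · have hH := block_isHermitian hK hs0
      have h1 := h0 s hs
      rw [block_herm c α β s hH, Finset.sum_eq_zero_iff_of_nonneg (fun _ _ => hT _ _)] at h1
      choose! z hz using fun j => hT0 s (hH.eigenvalues j) hs0 (h1 j (Finset.mem_univ j))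
      refine ⟨∑ j, z j, ?_⟩
      have h2 := hH.trace_eq_sum_eigenvalues
      have h3 : ∑ i : {i // a i = s}, K i i / (a i : ℂ) =
          (K.toSquareBlock a s).trace / (s : ℂ) := by
        rw [Matrix.trace, Finset.sum_div]
        refine Finset.sum_congr rfl fun i _ => ?_
        rw [Matrix.diag_apply, Matrix.toSquareBlock_def, Matrix.of_apply, i.2]
      rw [h3, h2, Finset.sum_div]
      push_cast
      refine Finset.sum_congr rfl fun j _ => ?_
      rw [div_eq_iff (by exact_mod_cast hs0)]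
      have := hz j
      rw [this]
      push_cast
      rfl
  choose! z hz using key
  refine ⟨∑ s ∈ Finset.univ.image a, z s, ?_⟩
  rw [sum_all_fib a, Finset.sum_congr rfl hz]
  push_cast
  rfl

end Pool.Agent.MP_cd6b85_an
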