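import Pool.Agent.Lib.MP_cd6b85_an.Fiber
open Matrix Filter Topology MeasureTheory
open scoped ComplexOrder
namespace Pool.Agent.MP_cd6b85_an

variable {n : Type*} [Fintype n] [DecidableEq n]

/-- A square matrix whose Gram matrix is the square of a nonnegative diagonal matrix is a
unitary times this diagonal matrix. -/
theorem polar_aux (B : Matrix n n ℂ) (a : n → ℝ)
    (hB : Bᴴ * B = diagonal (fun i => ((a i : ℂ)) ^ 2)) :
    ∃ V ∈ unitaryGroup n ℂ, B = V * diagonal (fun i => (a i : ℂ)) := by
  classical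
  let v : n → EuclideanSpace ℂ n := fun j => WithLp.toLp 2 (fun i => B i j / a j)
  let s : Set n := {j | a j ≠ 0}
  have hentry : ∀ j l, ∑ i, star (B i j) * B i l = if j = l then ((a j : ℂ)) ^ 2 else 0 := by
    intro j l
    have h := congrFun (congrFun hB j) l
    rw [Matrix.mul_apply] at h
    simp only [Matrix.conjTranspose_apply, Matrix.diagonal_apply] at h
    exact h
  have hon : Orthonormal ℂ (s.domRestrict v) := by
    rw [orthonormal_iff_ite]
    rintro ⟨j, hj⟩ ⟨l, hl⟩
    have hj' : (a j : ℂ) ≠ 0 := by exact_mod_cast hj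
    have hl' : (a l : ℂ) ≠ 0 := by exact_mod_cast hl
    have h1 : inner ℂ (v j) (v l) = (∑ i, star (B i j) * B i l) / ((a j : ℂ) * a l) := by
      rw [EuclideanSpace.inner_eq_star_dotProduct, dotProduct, Finset.sum_div]
      refine Finset.sum_congr rfl fun i _ => ?_
      have : star (B i j / (a j : ℂ)) = star (B i j) / a j := by
        rw [Complex.star_def, map_div₀, Complex.conj_ofReal]
      simp only [v, Pi.star_apply]
      rw [this]
      field_simp
    rw [Set.domRestrict_apply, Set.domRestrict_apply, h1, hentry]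
    by_cases hjl : j = l
    · subst hjl
      rw [if_pos rfl, if_pos rfl]
      field_simp
    · rw [if_neg hjl, if_neg (by simpa using hjl)]; simp
  obtain ⟨b, hb⟩ := hon.exists_orthonormalBasis_extension_of_card_eq (by simp)
  let V : Matrix n n ℂ := Matrix.of fun i j => b j i
  have hV : Vᴴ * V = 1 := by
    ext j l
    rw [Matrix.mul_apply]
    have h1 := (orthonormal_iff_ite.mp b.orthonormal) j l
    rw [EuclideanSpace.inner_eq_star_dotProduct, dotProduct] at h1
    rw [Matrix.one_apply, ← h1]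
    refine Finset.sum_congr rfl fun i _ => ?_
    simp only [V, Matrix.conjTranspose_apply, Matrix.of_apply, Pi.star_apply]
    ring
  refine ⟨V, ?_, ?_⟩
  · rw [Matrix.mem_unitaryGroup_iff']; exact hV
  · ext i j
    rw [Matrix.mul_diagonal]
    by_cases hj : a j = 0
    · have h1 : ∑ i, ‖B i j‖ ^ 2 = 0 := by
        have h2 := hentry j j
        rw [if_pos rfl, hj] at h2
        have h3 : ((∑ i, ‖B i j‖ ^ 2 : ℝ) : ℂ) = 0 := by
          push_cast
          rw [show (0 : ℂ) = ((0 : ℝ) : ℂ) ^ 2 by simp, ← h2]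
          refine Finset.sum_congr rfl fun i _ => ?_
          rw [Complex.star_def, ← Complex.normSq_eq_conj_mul_self, Complex.normSq_eq_norm_sq]
          push_cast; rfl
        exact_mod_cast h3
      rw [Finset.sum_eq_zero_iff_of_nonneg (fun _ _ => sq_nonneg _)] at h1
      have := h1 i (Finset.mem_univ i)
      have h4 : B i j = 0 := norm_eq_zero.mp (pow_eq_zero_iff two_ne_zero |>.mp this)
      rw [h4, hj]; simp
    · have hj' : (a j : ℂ) ≠ 0 := by exact_mod_cast hj
      have h1 : b j = v j := hb j hj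
      simp only [V, Matrix.of_apply, h1, v]
      field_simp

/-- Full singular value decomposition. -/
theorem full_svd (M : Matrix n n ℂ) : ∃ (V W : Matrix n n ℂ) (a : n → ℝ),
    V ∈ unitaryGroup n ℂ ∧ W ∈ unitaryGroup n ℂ ∧ (∀ i, 0 ≤ a i) ∧
    M = V * diagonal (fun i => (a i : ℂ)) * Wᴴ := by
  have hH := isHermitian_conjTranspose_mul_self M
  set W : Matrix n n ℂ := (hH.eigenvectorUnitary : Matrix n n ℂ) with hWdef
  have hW : W ∈ unitaryGroup n ℂ := hH.eigenvectorUnitary.2
  set a : n → ℝ := fun i => Real.sqrt (hH.eigenvalues i) with ha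
  have hd := herm_diag hH
  rw [← hWdef] at hd
  have hB : (M * W)ᴴ * (M * W) = diagonal (fun i => ((a i : ℂ)) ^ 2) := by
    have h1 : (M * W)ᴴ * (M * W) = Wᴴ * (Mᴴ * M) * W := by
      rw [Matrix.conjTranspose_mul]; simp only [Matrix.mul_assoc]
    rw [h1, hd]
    have h2 : Wᴴ * (W * diagonal (fun i => (hH.eigenvalues i : ℂ)) * Wᴴ) * W =
        (Wᴴ * W) * diagonal (fun i => (hH.eigenvalues i : ℂ)) * (Wᴴ * W) := by
      simp only [Matrix.mul_assoc]
    rw [h2, unitary_conj_mul hW, Matrix.one_mul, Matrix.mul_one]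
    congr 1
    ext1 i
    rw [ha]
    simp only
    rw [← Complex.ofReal_pow, Real.sq_sqrt (gram_eigenvalues_nonneg M i)]
  obtain ⟨V, hV, hVB⟩ := polar_aux (M * W) a hB
  refine ⟨V, W, a, hV, hW, fun i => Real.sqrt_nonneg _, ?_⟩
  rw [← hVB, Matrix.mul_assoc, unitary_mul_conj hW, Matrix.mul_one]

end Pool.Agent.MP_cd6b85_an
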