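import Pool.Agent.Lib.MP_cd6b85_an.Svd
open Matrix Filter Topology
open scoped ComplexOrder ENNReal
namespace Pool.Agent.MP_cd6b85_an

variable {k r : ℕ}

theorem skeleton (B : Matrix (Fin k) (Fin k) ℂ) (V W : Matrix (Fin k) (Fin r) ℂ)
    (hdet : IsUnit (Vᴴ * B * W).det) (hr : B.rank ≤ r) :
    B * W * (Vᴴ * B * W)⁻¹ * (Vᴴ * B) = B := by
  have hle : LinearMap.range (B * W).mulVecLin ≤ LinearMap.range B.mulVecLin := by
    rw [Matrix.mulVecLin_mul]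
    exact LinearMap.range_comp_le_range _ _
  have hrk : r ≤ (B * W).rank := by
    have h1 : (Vᴴ * B * W).rank = r := by
      have := Matrix.rank_of_isUnit (Vᴴ * B * W) ((Matrix.isUnit_iff_isUnit_det _).mpr hdet)
      simpa using this
    calc r = (Vᴴ * B * W).rank := h1.symm
      _ = (Vᴴ * (B * W)).rank := by rw [Matrix.mul_assoc]
      _ ≤ (B * W).rank := Matrix.rank_mul_le_right _ _
  have heq : LinearMap.range (B * W).mulVecLin = LinearMap.range B.mulVecLin := by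
    apply Submodule.eq_of_le_of_finrank_le hle
    exact hr.trans hrk
  have hz : ∀ j : Fin k, ∃ z : Fin r → ℂ, (B * W) *ᵥ z = B *ᵥ Pi.single j 1 := by
    intro j
    have : B *ᵥ Pi.single j 1 ∈ LinearMap.range (B * W).mulVecLin := by
      rw [heq]
      exact ⟨Pi.single j 1, rfl⟩
    obtain ⟨z, hz⟩ := this
    exact ⟨z, hz⟩
  choose z hz using hz
  let Z : Matrix (Fin r) (Fin k) ℂ := Matrix.of fun i j => z j i
  have hZ : B * W * Z = B := by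
    ext i j
    have := congrFun (hz j) i
    rw [Matrix.mulVec_single_one] at this
    rw [Matrix.mul_apply]
    exact this
  have hZ2 : (Vᴴ * B * W) * Z = Vᴴ * B := by
    conv_rhs => rw [← hZ]
    simp only [Matrix.mul_assoc]
  have hZ3 : Z = (Vᴴ * B * W)⁻¹ * (Vᴴ * B) := by
    have h5 := congrArg (fun Q => (Vᴴ * B * W)⁻¹ * Q) hZ2
    rwa [← Matrix.mul_assoc, Matrix.nonsing_inv_mul _ hdet, Matrix.one_mul] at h5
  rw [Matrix.mul_assoc, ← hZ3, hZ]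

/-- the key inequality -/
theorem key_ineq {p : ℝ} (hp0 : 0 < p) (hp2 : p ≤ 2) (M K : Matrix (Fin k) (Fin k) ℂ)
    (V W : Matrix (Fin k) (Fin r) ℂ) (hV : Vᴴ * V = 1) (hW : Wᴴ * W = 1)
    (hVM : V * Vᴴ * M = M) (hMW : M * (W * Wᴴ) = M) (t : ℝ)
    (hdet : IsUnit (Vᴴ * (M + (t : ℂ) • K) * W).det) (hr : (M + (t : ℂ) • K).rank ≤ r) :
    phi p (M + (t : ℂ) • K) ≤
      (1 + t ^ 2 * frob ((1 - V * Vᴴ) * K * W * (Vᴴ * (M + (t : ℂ) • K) * W)⁻¹)) ^ (p / 2) *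
      ((1 + t ^ 2 * frob (((Vᴴ * (M + (t : ℂ) • K) * W)⁻¹ * (Vᴴ * K * (1 - W * Wᴴ)))ᴴ)) ^ (p / 2) *
      phi p (Vᴴ * (M + (t : ℂ) • K) * W)) := by
  set B := M + (t : ℂ) • K with hB
  set D := Vᴴ * B * W with hD
  set X := (1 - V * Vᴴ) * K * W * D⁻¹ with hX
  set N := Vᴴ * K * (1 - W * Wᴴ) with hN
  set A := B * W * D⁻¹ with hA
  set R := Vᴴ * B with hR
  have hDD : D * D⁻¹ = 1 := Matrix.mul_nonsing_inv _ hdet
  have hsk : A * R = B := skeleton B V W hdet hr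
  have hVA : Vᴴ * A = 1 := by
    rw [hA, ← Matrix.mul_assoc, ← Matrix.mul_assoc, ← hDD]
  have hPA : (1 - V * Vᴴ) * A = (t : ℂ) • X := by
    rw [hA, hX, ← Matrix.mul_assoc, ← Matrix.mul_assoc, hB, Matrix.mul_add, Matrix.sub_mul,
      Matrix.one_mul, hVM, sub_self, zero_add, Matrix.mul_smul, Matrix.smul_mul, Matrix.smul_mul]
  have hAA : Aᴴ * A = 1 + ((t ^ 2 : ℝ) : ℂ) • (Xᴴ * X) := by
    have e1 : Aᴴ * A = (Vᴴ * A)ᴴ * (Vᴴ * A) + ((1 - V * Vᴴ) * A)ᴴ * ((1 - V * Vᴴ) * A) := by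
      simp only [Matrix.conjTranspose_mul, Matrix.conjTranspose_sub, Matrix.conjTranspose_one,
        Matrix.conjTranspose_conjTranspose, Matrix.sub_mul, Matrix.mul_sub, Matrix.one_mul,
        Matrix.mul_one]
      have e2 : Aᴴ * (V * Vᴴ) * (V * Vᴴ * A) = Aᴴ * V * (Vᴴ * A) := by
        calc Aᴴ * (V * Vᴴ) * (V * Vᴴ * A) = Aᴴ * V * (Vᴴ * V) * (Vᴴ * A) := by
              simp only [Matrix.mul_assoc]
          _ = _ := by rw [hV, Matrix.mul_one]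
      have e3 : Aᴴ * (V * Vᴴ) * A = Aᴴ * V * (Vᴴ * A) := by simp only [Matrix.mul_assoc]
      have e4 : Aᴴ * (V * Vᴴ * A) = Aᴴ * V * (Vᴴ * A) := by simp only [Matrix.mul_assoc]
      rw [e2, e3, e4]
      abel
    rw [e1, hVA, hPA, Matrix.conjTranspose_one, Matrix.one_mul, Matrix.conjTranspose_smul,
      Matrix.smul_mul, Matrix.mul_smul, smul_smul]
    congr 2
    rw [Complex.star_def, Complex.conj_ofReal]
    push_cast; ring
  have hRW : R * W = D := rfl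
  have hRP : R * (1 - W * Wᴴ) = (t : ℂ) • N := by
    rw [hR, hN, hB, Matrix.mul_add, Matrix.mul_sub, Matrix.mul_one, Matrix.add_mul,
      Matrix.mul_assoc Vᴴ M, hMW]
    rw [Matrix.mul_smul, Matrix.smul_mul, Matrix.mul_sub, Matrix.mul_one, smul_sub]
    abel
  have hRR : R * Rᴴ = D * (1 + ((t ^ 2 : ℝ) : ℂ) • (((D⁻¹ * N)ᴴ)ᴴ * (D⁻¹ * N)ᴴ)) * Dᴴ := by
    have e1 : R * Rᴴ = (R * W) * (R * W)ᴴ + (R * (1 - W * Wᴴ)) * (R * (1 - W * Wᴴ))ᴴ := by
      simp only [Matrix.conjTranspose_mul, Matrix.conjTranspose_sub, Matrix.conjTranspose_one,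
        Matrix.conjTranspose_conjTranspose, Matrix.sub_mul, Matrix.mul_sub, Matrix.one_mul,
        Matrix.mul_one]
      have e2 : R * (W * Wᴴ) * (W * Wᴴ * Rᴴ) = R * W * (Wᴴ * Rᴴ) := by
        calc R * (W * Wᴴ) * (W * Wᴴ * Rᴴ) = R * W * (Wᴴ * W) * (Wᴴ * Rᴴ) := by
              simp only [Matrix.mul_assoc]
          _ = _ := by rw [hW, Matrix.mul_one]
      have e3 : R * (W * Wᴴ) * Rᴴ = R * W * (Wᴴ * Rᴴ) := by simp only [Matrix.mul_assoc]
      have e4 : R * (W * Wᴴ * Rᴴ) = R * W * (Wᴴ * Rᴴ) := by simp only [Matrix.mul_assoc]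
      rw [e2, e3, e4]
      abel
    have hDN : D * (D⁻¹ * N) = N := by rw [← Matrix.mul_assoc, hDD, Matrix.one_mul]
    have e6 : ((t : ℂ) • N) * ((t : ℂ) • N)ᴴ = ((t ^ 2 : ℝ) : ℂ) • (N * Nᴴ) := by
      rw [Matrix.conjTranspose_smul, Matrix.smul_mul, Matrix.mul_smul, smul_smul]
      congr 1
      rw [Complex.star_def, Complex.conj_ofReal]
      push_cast; ring
    have e5 : D * (D⁻¹ * N * (D⁻¹ * N)ᴴ) * Dᴴ = (D * (D⁻¹ * N)) * (D * (D⁻¹ * N))ᴴ := by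
      rw [Matrix.conjTranspose_mul D]
      simp only [Matrix.mul_assoc]
    rw [e1, hRW, hRP, e6, Matrix.conjTranspose_conjTranspose, Matrix.mul_add, Matrix.mul_one,
      Matrix.add_mul, Matrix.mul_smul, Matrix.smul_mul, e5, hDN]
  have hq0 : 0 ≤ p / 2 := by positivity
  have hq1 : p / 2 ≤ 1 := by linarith
  have s1 : phi p B ≤ (1 + t ^ 2 * frob X) ^ (p / 2) * phi p R := by
    have : Bᴴ * B = Rᴴ * (1 + ((t ^ 2 : ℝ) : ℂ) • (Xᴴ * X)) * R := by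
      rw [← hAA, ← hsk, Matrix.conjTranspose_mul]
      simp only [Matrix.mul_assoc]
    rw [phi, this]
    exact trF_sandwich hq0 hq1 R X (by positivity)
  have s2 : phi p R ≤ (1 + t ^ 2 * frob ((D⁻¹ * N)ᴴ)) ^ (p / 2) * phi p D := by
    rw [← phi_conjTranspose hp0 R, ← phi_conjTranspose hp0 D, phi, phi,
      Matrix.conjTranspose_conjTranspose, hRR]
    have := trF_sandwich hq0 hq1 Dᴴ ((D⁻¹ * N)ᴴ) (s := t ^ 2) (by positivity)
    simpa only [Matrix.conjTranspose_conjTranspose] using this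
  have hfr : 0 ≤ frob X := by unfold frob; positivity
  exact s1.trans (mul_le_mul_of_nonneg_left s2 (by positivity))

theorem phi_thin {p : ℝ} (hp : 0 < p) {V W : Matrix (Fin k) (Fin r) ℂ} (hV : Vᴴ * V = 1)
    (hW : Wᴴ * W = 1) (S : Matrix (Fin r) (Fin r) ℂ) : phi p (V * S * Wᴴ) = phi p S := by
  have h0 : p / 2 ≠ 0 := by positivity
  have hz : (fun x : ℝ => x ^ (p / 2)) 0 = 0 := Real.zero_rpow h0
  have e1 : (V * S * Wᴴ)ᴴ * (V * S * Wᴴ) = W * (Sᴴ * S * Wᴴ) := by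
    calc (V * S * Wᴴ)ᴴ * (V * S * Wᴴ) = W * (Sᴴ * (Vᴴ * V) * S * Wᴴ) := by
          simp only [Matrix.conjTranspose_mul, Matrix.conjTranspose_conjTranspose,
            Matrix.mul_assoc]
      _ = _ := by rw [hV, Matrix.mul_one]
  rw [phi, e1, trF_mul_comm' _ hz, Matrix.mul_assoc, hW, Matrix.mul_one, phi]

/-- second difference at an invertible matrix -/
theorem second_diff_invertible {p : ℝ} (hp0 : 0 < p) (hp2 : p ≤ 2)
    (S K : Matrix (Fin r) (Fin r) ℂ) (hS : IsUnit S.det) (t : ℝ) :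
    phi p (S + (t : ℂ) • K) + phi p (S + ((-t : ℝ) : ℂ) • K) ≤
      2 * ((1 + t ^ 2 * frob (K * S⁻¹)) ^ (p / 2) * phi p S) := by
  have hq0 : 0 ≤ p / 2 := by positivity
  have hq1 : p / 2 ≤ 1 := by linarith
  have h1 := trF_concave_midpoint (concaveOn_rpow' hq0 hq1)
    (Matrix.posSemidef_conjTranspose_mul_self (S + (t : ℂ) • K))
    (Matrix.posSemidef_conjTranspose_mul_self (S + ((-t : ℝ) : ℂ) • K))
  have e1 : (1 / 2 : ℂ) • ((S + (t : ℂ) • K)ᴴ * (S + (t : ℂ) • K) +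
      (S + ((-t : ℝ) : ℂ) • K)ᴴ * (S + ((-t : ℝ) : ℂ) • K)) =
      Sᴴ * (1 + ((t ^ 2 : ℝ) : ℂ) • ((K * S⁻¹)ᴴ * (K * S⁻¹))) * S := by
    have e2 : Sᴴ * ((K * S⁻¹)ᴴ * (K * S⁻¹)) * S = Kᴴ * K := by
      calc Sᴴ * ((K * S⁻¹)ᴴ * (K * S⁻¹)) * S = (K * (S⁻¹ * S))ᴴ * (K * (S⁻¹ * S)) := by
            simp only [Matrix.conjTranspose_mul, Matrix.mul_assoc]
        _ = _ := by rw [Matrix.nonsing_inv_mul _ hS, Matrix.mul_one]
    have eR : Sᴴ * (1 + ((t ^ 2 : ℝ) : ℂ) • ((K * S⁻¹)ᴴ * (K * S⁻¹))) * S =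
        Sᴴ * S + ((t ^ 2 : ℝ) : ℂ) • (Kᴴ * K) := by
      rw [Matrix.mul_add, Matrix.add_mul, Matrix.mul_one, Matrix.mul_smul, Matrix.smul_mul, e2]
    rw [eR]
    simp only [Matrix.conjTranspose_add, Matrix.conjTranspose_smul, Matrix.add_mul, Matrix.mul_add,
      Matrix.smul_mul, Matrix.mul_smul, Complex.star_def, Complex.conj_ofReal, smul_add, smul_smul]
    push_cast
    have : (Sᴴ * S) = (1 / 2 : ℂ) • (Sᴴ * S) + (1 / 2 : ℂ) • (Sᴴ * S) := by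
      rw [← add_smul]; norm_num
    have h3 : (t : ℂ) ^ 2 • (Kᴴ * K) = (1 / 2 * ((t : ℂ) * t)) • (Kᴴ * K) +
        (1 / 2 * (-(t : ℂ) * -(t : ℂ))) • (Kᴴ * K) := by
      rw [← add_smul]; congr 1; ring
    rw [h3]
    conv_rhs => rw [this]
    have h4 : (1 / 2 * -(t : ℂ)) • (Sᴴ * K) = -((1 / 2 * (t : ℂ)) • (Sᴴ * K)) := by
      rw [← neg_smul]; congr 1; ring
    have h5 : (1 / 2 * -(t : ℂ)) • (Kᴴ * S) = -((1 / 2 * (t : ℂ)) • (Kᴴ * S)) := by
      rw [← neg_smul]; congr 1; ring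
    rw [h4, h5]
    abel
  rw [e1] at h1
  have h2 := trF_sandwich hq0 hq1 S (K * S⁻¹) (s := t ^ 2) (by positivity)
  calc _ ≤ _ := h1
    _ ≤ _ := mul_le_mul_of_nonneg_left h2 (by norm_num)

theorem frob_nonneg {m n : Type*} [Fintype m] [Fintype n] (K : Matrix m n ℂ) : 0 ≤ frob K := by
  unfold frob; positivity

theorem continuous_frob {m n : Type*} [Fintype m] [Fintype n] :
    Continuous fun K : Matrix m n ℂ => frob K := by
  unfold frob; fun_prop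

theorem continuousAt_inv' {m : Type*} [Fintype m] [DecidableEq m] (D : ℝ → Matrix m m ℂ)
    (hD : Continuous D) (h0 : (D 0).det ≠ 0) : ContinuousAt (fun t => (D t)⁻¹) 0 := by
  have : (fun t => (D t)⁻¹) = fun t => ((D t).det)⁻¹ • (D t).adjugate := by
    ext1 t
    rw [Matrix.inv_def, Ring.inverse_eq_inv']
  rw [this]
  have h1 : Continuous fun t => (D t).det := hD.matrix_det
  have h2 : Continuous fun t => (D t).adjugate := hD.matrix_adjugate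
  exact (h1.continuousAt.inv₀ h0).smul h2.continuousAt

/-- The good point estimate. -/
theorem good_point {p : ℝ} (hp0 : 0 < p) (hp2 : p ≤ 2) (M K : Matrix (Fin k) (Fin k) ℂ)
    (V W : Matrix (Fin k) (Fin r) ℂ) (σ : Fin r → ℝ) (hσ : ∀ i, 0 < σ i) (hV : Vᴴ * V = 1)
    (hW : Wᴴ * W = 1) (hM : M = V * diagonal (fun i => (σ i : ℂ)) * Wᴴ)
    (hr : ∀ t : ℝ, (M + (t : ℂ) • K).rank ≤ r) :
    ∃ C : ℝ, ∀ᶠ t : ℝ in 𝓝 0, phi p (M + (t : ℂ) • K) + phi p (M + ((-t : ℝ) : ℂ) • K) ≤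
      2 * phi p M + C * t ^ 2 := by
  set S : Matrix (Fin r) (Fin r) ℂ := diagonal (fun i => (σ i : ℂ)) with hS
  have hSdet : S.det ≠ 0 := by
    rw [hS, Matrix.det_diagonal]
    exact Finset.prod_ne_zero_iff.mpr fun i _ => by exact_mod_cast (hσ i).ne'
  have hVM : V * Vᴴ * M = M := by
    rw [hM]
    calc V * Vᴴ * (V * S * Wᴴ) = V * (Vᴴ * V) * S * Wᴴ := by simp only [Matrix.mul_assoc]
      _ = _ := by rw [hV, Matrix.mul_one]
  have hMW : M * (W * Wᴴ) = M := by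
    rw [hM]
    calc V * S * Wᴴ * (W * Wᴴ) = V * S * (Wᴴ * W) * Wᴴ := by simp only [Matrix.mul_assoc]
      _ = _ := by rw [hW, Matrix.mul_one]
  let D : ℝ → Matrix (Fin r) (Fin r) ℂ := fun t => Vᴴ * (M + (t : ℂ) • K) * W
  have hDc : Continuous D := by
    simp only [D]; fun_prop
  have hDt : ∀ t : ℝ, D t = S + (t : ℂ) • (Vᴴ * K * W) := by
    intro t
    simp only [D]
    rw [Matrix.mul_add, Matrix.add_mul, Matrix.mul_smul, Matrix.smul_mul]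
    congr 1
    rw [hM]
    calc Vᴴ * (V * S * Wᴴ) * W = (Vᴴ * V) * S * (Wᴴ * W) := by simp only [Matrix.mul_assoc]
      _ = _ := by rw [hV, hW, Matrix.one_mul, Matrix.mul_one]
  have hD0 : (D 0).det ≠ 0 := by
    rw [hDt]; simpa using hSdet
  have hinv := continuousAt_inv' D hDc hD0
  let X : ℝ → Matrix (Fin k) (Fin r) ℂ := fun t => (1 - V * Vᴴ) * K * W * (D t)⁻¹
  let N : ℝ → Matrix (Fin k) (Fin r) ℂ := fun t => ((D t)⁻¹ * (Vᴴ * K * (1 - W * Wᴴ)))ᴴ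
  have hXc : ContinuousAt (fun t => frob (X t)) 0 := by
    apply continuous_frob.continuousAt.comp
    have : Continuous fun Q : Matrix (Fin r) (Fin r) ℂ => (1 - V * Vᴴ) * K * W * Q := by fun_prop
    exact this.continuousAt.comp hinv
  have hNc : ContinuousAt (fun t => frob (N t)) 0 := by
    apply continuous_frob.continuousAt.comp
    have : Continuous fun Q : Matrix (Fin r) (Fin r) ℂ => (Q * (Vᴴ * K * (1 - W * Wᴴ)))ᴴ := by
      fun_prop
    exact this.continuousAt.comp hinv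
  set κ : ℝ := frob (X 0) + frob (N 0) + frob ((Vᴴ * K * W) * S⁻¹) + 1 with hκ
  have f1 := frob_nonneg (X 0)
  have f2 := frob_nonneg (N 0)
  have f3 := frob_nonneg ((Vᴴ * K * W) * S⁻¹)
  have hκ0 : 0 ≤ κ := by rw [hκ]; linarith
  have ev1 : ∀ᶠ t in 𝓝 (0 : ℝ), frob (X t) < κ :=
    hXc.eventually_lt_const (by rw [hκ]; linarith)
  have ev2 : ∀ᶠ t in 𝓝 (0 : ℝ), frob (N t) < κ :=
    hNc.eventually_lt_const (by rw [hκ]; linarith)
  have ev3 : ∀ᶠ t in 𝓝 (0 : ℝ), (D t).det ≠ 0 :=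
    hDc.matrix_det.continuousAt.eventually_ne hD0
  have ev4 : ∀ᶠ t in 𝓝 (0 : ℝ), |t| < 1 := by
    have : ContinuousAt (fun t : ℝ => |t|) 0 := continuous_abs.continuousAt
    exact this.eventually_lt_const (by simp)
  -- the one-sided estimate
  have hone : ∀ t : ℝ, frob (X t) < κ → frob (N t) < κ → (D t).det ≠ 0 →
      phi p (M + (t : ℂ) • K) ≤ (1 + t ^ 2 * κ) ^ 2 * phi p (D t) := by
    intro t h1 h2 h3
    have hk := key_ineq hp0 hp2 M K V W hV hW hVM hMW t (isUnit_iff_ne_zero.mpr h3) (hr t)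
    refine hk.trans ?_
    have hb : ∀ y : ℝ, 0 ≤ y → y ≤ κ → (1 + t ^ 2 * y) ^ (p / 2) ≤ 1 + t ^ 2 * κ := by
      intro y hy0 hy
      calc (1 + t ^ 2 * y) ^ (p / 2) ≤ (1 + t ^ 2 * y) ^ (1 : ℝ) :=
            Real.rpow_le_rpow_of_exponent_le (by nlinarith [sq_nonneg t]) (by linarith)
        _ = 1 + t ^ 2 * y := Real.rpow_one _
        _ ≤ 1 + t ^ 2 * κ := by nlinarith [sq_nonneg t]
    have b1 := hb _ (frob_nonneg (X t)) h1.le
    have b2 := hb _ (frob_nonneg (N t)) h2.le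
    have hpos : 0 ≤ 1 + t ^ 2 * κ := by positivity
    have hphi := phi_nonneg p (D t)
    calc _ ≤ (1 + t ^ 2 * κ) * ((1 + t ^ 2 * κ) * phi p (D t)) := by
          apply mul_le_mul b1 _ _ hpos
          · exact mul_le_mul_of_nonneg_right b2 hphi
          · exact mul_nonneg (Real.rpow_nonneg (by nlinarith [sq_nonneg t, frob_nonneg (N t)]) _) hphi
      _ = _ := by ring
  refine ⟨2 * phi p M * (κ * (3 + 3 * κ + κ ^ 2)), ?_⟩
  have evneg : ∀ {P : ℝ → Prop}, (∀ᶠ t in 𝓝 (0 : ℝ), P t) → ∀ᶠ t in 𝓝 (0 : ℝ), P (-t) := by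
    intro P hP
    have : Tendsto (fun t : ℝ => -t) (𝓝 0) (𝓝 0) := by
      simpa using (continuous_neg (G := ℝ)).tendsto 0
    exact this.eventually hP
  filter_upwards [ev1, ev2, ev3, ev4, evneg ev1, evneg ev2, evneg ev3] with t a1 a2 a3 a4 c1 c2 c3
  have e1 := hone t a1 a2 a3
  have e2 := hone (-t) c1 c2 c3
  have e3 := second_diff_invertible hp0 hp2 S (Vᴴ * K * W) (isUnit_iff_ne_zero.mpr hSdet) t
  rw [← hDt, ← hDt] at e3
  have hphiS : phi p S = phi p M := by rw [hM]; exact (phi_thin hp0 hV hW S).symm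
  rw [hphiS] at e3
  have ht2 : t ^ 2 ≤ 1 := by
    have := abs_lt.mp a4
    nlinarith
  have hM0 := phi_nonneg p M
  have e4 : phi p (D t) + phi p (D (-t)) ≤ 2 * ((1 + t ^ 2 * κ) * phi p M) := by
    refine e3.trans ?_
    have : (1 + t ^ 2 * frob ((Vᴴ * K * W) * S⁻¹)) ^ (p / 2) ≤ 1 + t ^ 2 * κ := by
      calc (1 + t ^ 2 * frob ((Vᴴ * K * W) * S⁻¹)) ^ (p / 2)
          ≤ (1 + t ^ 2 * frob ((Vᴴ * K * W) * S⁻¹)) ^ (1 : ℝ) :=
            Real.rpow_le_rpow_of_exponent_le (by nlinarith [sq_nonneg t]) (by linarith)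
        _ = 1 + t ^ 2 * frob ((Vᴴ * K * W) * S⁻¹) := Real.rpow_one _
        _ ≤ 1 + t ^ 2 * κ := by
          have : frob ((Vᴴ * K * W) * S⁻¹) ≤ κ := by rw [hκ]; linarith
          nlinarith [sq_nonneg t]
    gcongr
  have hneg : (-t) ^ 2 = t ^ 2 := by ring
  rw [hneg] at e2
  have hpos : 0 ≤ 1 + t ^ 2 * κ := by positivity
  calc phi p (M + (t : ℂ) • K) + phi p (M + ((-t : ℝ) : ℂ) • K)
      ≤ (1 + t ^ 2 * κ) ^ 2 * phi p (D t) + (1 + t ^ 2 * κ) ^ 2 * phi p (D (-t)) :=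
        add_le_add e1 e2
    _ = (1 + t ^ 2 * κ) ^ 2 * (phi p (D t) + phi p (D (-t))) := by ring
    _ ≤ (1 + t ^ 2 * κ) ^ 2 * (2 * ((1 + t ^ 2 * κ) * phi p M)) := by gcongr
    _ = 2 * phi p M * (1 + t ^ 2 * κ * (3 + 3 * (t ^ 2 * κ) + (t ^ 2 * κ) ^ 2)) := by ring
    _ ≤ 2 * phi p M * (1 + t ^ 2 * κ * (3 + 3 * κ + κ ^ 2)) := by
        have h1 : t ^ 2 * κ ≤ κ := by nlinarith
        have h0 : 0 ≤ t ^ 2 * κ := by positivity
        gcongr
    _ = _ := by ring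

end Pool.Agent.MP_cd6b85_an
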