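import Pool.Agent.Lib.MP_cd6b85_an.Denom
open Matrix Filter Topology MeasureTheory
open scoped ComplexOrder ENNReal
namespace Pool.Agent.MP_cd6b85_an

variable {n : Type*} [Fintype n] [DecidableEq n]

theorem tm_proj_zero {ι : Type*} [Fintype ι] {p : ℝ} (hp0 : 0 < p) {c α β : ι → ℝ}
    {Q A : Matrix n n ℂ} (hQ : Q.IsHermitian) (hQ2 : Q * Q = Q) (hA : A.IsHermitian)
    (hAQ : A * Q = A)
    (hs : ∀ κ : ℝ, (∃ v : n → ℂ, v ≠ 0 ∧ A *ᵥ v = (κ : ℂ) • v) → tv p c α β 1 κ = 0) :
    tm p c α β Q A = 0 := by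
  obtain ⟨V, a, hV, ha, hd, hK, hz⟩ := proj_compat hQ hQ2 hA hAQ
  rw [tm_svd c α β hV hV hd, tm_fib p c α β hK]
  refine Finset.sum_eq_zero fun s hs' => ?_
  set K := Vᴴ * A * V with hKdef
  rw [Finset.mem_image] at hs'
  obtain ⟨i0, _, hi0⟩ := hs'
  rcases ha i0 with h | h
  · rw [h] at hi0
    subst hi0
    rw [block_zero]
    have : K.toSquareBlock a 0 = 0 := by
      ext ⟨i, hi⟩ ⟨j, hj⟩
      rw [Matrix.toSquareBlock_def, Matrix.of_apply]
      exact hz i j hi
    rw [this, phi_zero hp0, mul_zero]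
  · rw [h] at hi0
    subst hi0
    have hH := block_isHermitian hK (s := 1) one_ne_zero
    rw [block_herm c α β 1 hH]
    refine Finset.sum_eq_zero fun j _ => ?_
    apply hs
    set κ := hH.eigenvalues j with hκ
    set w : {i // a i = 1} → ℂ := ⇑(hH.eigenvectorBasis j) with hw
    have hw0 : w ≠ 0 := by
      intro h0
      have h1 := (hH.eigenvectorBasis.orthonormal.ne_zero j)
      apply h1
      ext i
      exact congrFun h0 i
    have hev : (K.toSquareBlock a 1) *ᵥ w = (κ : ℂ) • w := by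
      have := hH.mulVec_eigenvectorBasis j
      rw [hw, this]
      rfl
    let w' : n → ℂ := fun i => if h : a i = 1 then w ⟨i, h⟩ else 0
    have hw'0 : w' ≠ 0 := by
      intro h0
      apply hw0
      ext ⟨i, hi⟩
      have := congrFun h0 i
      simp only [w', dif_pos hi] at this
      simpa using this
    have hKw : K *ᵥ w' = (κ : ℂ) • w' := by
      ext i
      rw [Matrix.mulVec, dotProduct, sum_fib a 1 (fun j => K i j * w' j)
        (fun j hj => by simp [w', dif_neg hj])]
      by_cases hi : a i = 1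
      · have h1 := congrFun hev ⟨i, hi⟩
        rw [Matrix.mulVec, dotProduct] at h1
        rw [Pi.smul_apply, show w' i = w ⟨i, hi⟩ from dif_pos hi, ← Pi.smul_apply, ← h1]
        refine Finset.sum_congr rfl fun x _ => ?_
        rw [Matrix.toSquareBlock_def, Matrix.of_apply, show w' x = w x from dif_pos x.2]
      · rw [Finset.sum_eq_zero]
        · rw [Pi.smul_apply, show w' i = 0 from dif_neg hi, smul_zero]
        · intro x _
          rw [hK.1 i x (by rw [x.2]; exact hi), zero_mul]
    refine ⟨V *ᵥ w', ?_, ?_⟩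
    · intro h0
      apply hw'0
      have : Vᴴ *ᵥ (V *ᵥ w') = w' := by
        rw [Matrix.mulVec_mulVec, unitary_conj_mul hV, Matrix.one_mulVec]
      rw [← this, h0, Matrix.mulVec_zero]
    · have h1 : A * V = V * K := by
        rw [hKdef, ← Matrix.mul_assoc, ← Matrix.mul_assoc, unitary_mul_conj hV, Matrix.one_mul]
      rw [Matrix.mulVec_mulVec, h1, ← Matrix.mulVec_mulVec, hKw, Matrix.mulVec_smul]

end Pool.Agent.MP_cd6b85_an
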