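import Pool.Agent.Lib.MP_cd6b85_an.ScalarInt
import Pool.Agent.Lib.MP_cd6b85_an.Fiber
open MeasureTheory Filter Topology Set
namespace Pool.Agent.MP_cd6b85_an

/-- second difference -/
def dlt (h : ℝ) (F : ℝ → ℝ) : ℝ → ℝ := fun x => F (x + h) + F (x - h) - 2 * F x

theorem dlt_hasDerivAt {F F' : ℝ → ℝ} (hF : ∀ x, HasDerivAt F (F' x) x) (h x : ℝ) :
    HasDerivAt (dlt h F) (dlt h F' x) x := by
  unfold dlt
  have h1 : HasDerivAt (fun x => F (x + h)) (F' (x + h)) x := (hF (x + h)).comp_add_const x h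
  have h2 : HasDerivAt (fun x => F (x - h)) (F' (x - h)) x := (hF (x - h)).comp_sub_const x h
  exact (h1.add h2).sub ((hF x).const_mul 2)

theorem dlt_pos_of_strict {g : ℝ → ℝ} (hg : StrictConvexOn ℝ univ g) {h : ℝ} (hh : h ≠ 0) (x : ℝ) :
    0 < dlt h g x := by
  have h1 := hg.2 (mem_univ (x + h)) (mem_univ (x - h)) (by
    intro he; apply hh; linarith) (show (0 : ℝ) < 1 / 2 by norm_num)
    (show (0 : ℝ) < 1 / 2 by norm_num) (by norm_num)
  simp only [smul_eq_mul] at h1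
  rw [show 1 / 2 * (x + h) + 1 / 2 * (x - h) = x by ring] at h1
  unfold dlt
  linarith

theorem dlt_strict {G G1 g : ℝ → ℝ} (hG : ∀ x, HasDerivAt G (G1 x) x)
    (hG1 : ∀ x, HasDerivAt G1 (g x) x) (hg : StrictConvexOn ℝ univ g) {h : ℝ} (hh : h ≠ 0) :
    StrictConvexOn ℝ univ (dlt h G) := by
  have e1 : deriv (dlt h G) = dlt h G1 := by
    ext x; exact (dlt_hasDerivAt hG h x).deriv
  have e2 : deriv (dlt h G1) = dlt h g := by
    ext x; exact (dlt_hasDerivAt hG1 h x).deriv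
  apply strictConvexOn_univ_of_deriv2_pos
  · exact continuous_iff_continuousAt.mpr fun x => (dlt_hasDerivAt hG h x).continuousAt
  · intro x
    simp only [Function.iterate_succ, Function.iterate_zero, Function.comp_apply, id]
    rw [e1, e2]
    exact dlt_pos_of_strict hg hh x

theorem strictConvexOn_abs_rpow {q : ℝ} (hq : 1 < q) :
    StrictConvexOn ℝ univ fun x : ℝ => |x| ^ q := by
  refine ⟨convex_univ, fun x _ y _ hxy a b ha hb hab => ?_⟩
  simp only [smul_eq_mul]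
  have h1 : |a * x + b * y| ≤ a * |x| + b * |y| := by
    calc |a * x + b * y| ≤ |a * x| + |b * y| := abs_add_le _ _
      _ = _ := by rw [abs_mul, abs_mul, abs_of_pos ha, abs_of_pos hb]
  by_cases h : |x| = |y|
  · have hxy' : x = -y := by
      rcases abs_eq_abs.mp h with h | h
      · exact absurd h hxy
      · exact h
    have hy : y ≠ 0 := by
      intro h0; apply hxy; rw [hxy', h0]; simp
    have hy' : 0 < |y| := abs_pos.mpr hy
    rw [hxy', abs_neg, ← add_mul, hab, one_mul]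
    have h2 : |a * -y + b * y| < |y| := by
      have : a * -y + b * y = (b - a) * y := by ring
      rw [this, abs_mul]
      have h3 : |b - a| < 1 := by rw [abs_lt]; constructor <;> linarith
      nlinarith
    exact Real.rpow_lt_rpow (abs_nonneg _) h2 (by linarith)
  · have h2 := (strictConvexOn_rpow hq).2 (abs_nonneg x) (abs_nonneg y) h ha hb hab
    simp only [smul_eq_mul] at h2
    exact lt_of_le_of_lt (Real.rpow_le_rpow (abs_nonneg _) h1 (by linarith)) h2

theorem StrictConvexOn.const_mul' {g : ℝ → ℝ} (hg : StrictConvexOn ℝ univ g) {C : ℝ} (hC : 0 < C) :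
    StrictConvexOn ℝ univ fun x => C * g x := by
  refine ⟨convex_univ, fun x hx y hy hxy a b ha hb hab => ?_⟩
  have := hg.2 hx hy hxy ha hb hab
  simp only [smul_eq_mul] at this ⊢
  nlinarith

theorem dlt3_pos {p : ℝ} (hp : 5 < p) {a b c : ℝ} (ha : a ≠ 0) (hb : b ≠ 0) (hc : c ≠ 0) (x : ℝ) :
    0 < dlt a (dlt b (dlt c fun x => |x| ^ p)) x := by
  have s1 : StrictConvexOn ℝ univ (f2 (p - 2)) := by
    have h1 := strictConvexOn_abs_rpow (q := p - 2 - 2) (by linarith)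
    exact StrictConvexOn.const_mul' h1 (mul_pos (by linarith) (by linarith))
  have s2 : StrictConvexOn ℝ univ (dlt c fun x => |x| ^ (p - 2)) :=
    dlt_strict (fun x => hasDerivAt_f0 (by linarith) x) (fun x => hasDerivAt_f1 (by linarith) x)
      s1 hc
  have s3 : StrictConvexOn ℝ univ (dlt c (f2 p)) := by
    have h1 := StrictConvexOn.const_mul' s2 (C := p * (p - 1))
      (mul_pos (by linarith) (by linarith))
    have h2 : (fun x => p * (p - 1) * (dlt c fun x => |x| ^ (p - 2)) x) = dlt c (f2 p) := by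
      ext x; unfold dlt f2; ring
    rwa [h2] at h1
  have s4 : StrictConvexOn ℝ univ (dlt b (dlt c fun x => |x| ^ p)) :=
    dlt_strict (G1 := dlt c (f1 p)) (g := dlt c (f2 p))
      (fun x => dlt_hasDerivAt (fun x => hasDerivAt_f0 (by linarith) x) c x)
      (fun x => dlt_hasDerivAt (fun x => hasDerivAt_f1 (by linarith) x) c x) s3 hb
  exact dlt_pos_of_strict s4 ha x

theorem D3_eq_dlt {p : ℝ} (hp : 0 < p) {a b c : ℝ} (h : a + b + c = 0) :
    2 * D3 p a b c = dlt a (dlt b (dlt c fun x => |x| ^ p)) 0 := by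
  have hc : c = -(a + b) := by linarith
  subst hc
  unfold dlt D3
  beta_reduce
  have e2 : ∀ x : ℝ, |2 * x| ^ p = (2 : ℝ) ^ p * |x| ^ p := by
    intro x
    rw [abs_mul, Real.mul_rpow (abs_nonneg _) (abs_nonneg _), abs_two]
  have e0 : |(0 : ℝ)| ^ p = 0 := by rw [abs_zero, Real.zero_rpow hp.ne']
  have n : ∀ x y : ℝ, x = -y → |x| ^ p = |y| ^ p := by
    intro x y h; rw [h, abs_neg]
  have t1 : |0 + a + b + -(a + b)| ^ p = 0 := by rw [show 0 + a + b + -(a + b) = 0 by ring, e0]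
  have t2 : |0 + a + b - -(a + b)| ^ p = (2 : ℝ) ^ p * |-(a + b)| ^ p := by
    rw [← e2]; exact n _ _ (by ring)
  have t3 : |0 + a - b + -(a + b)| ^ p = (2 : ℝ) ^ p * |b| ^ p := by
    rw [← e2]; exact n _ _ (by ring)
  have t4 : |0 + a - b - -(a + b)| ^ p = (2 : ℝ) ^ p * |a| ^ p := by
    rw [← e2]; congr 2; ring
  have t5 : |0 - a + b + -(a + b)| ^ p = (2 : ℝ) ^ p * |a| ^ p := by
    rw [← e2]; exact n _ _ (by ring)
  have t6 : |0 - a + b - -(a + b)| ^ p = (2 : ℝ) ^ p * |b| ^ p := by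
    rw [← e2]; congr 2; ring
  have t7 : |0 - a - b + -(a + b)| ^ p = (2 : ℝ) ^ p * |-(a + b)| ^ p := by
    rw [← e2]; congr 2; ring
  have t8 : |0 - a - b - -(a + b)| ^ p = 0 := by rw [show 0 - a - b - -(a + b) = 0 by ring, e0]
  have u1 : |0 + a + b| ^ p = |-(a + b)| ^ p := n _ _ (by ring)
  have u2 : |0 + a - b| ^ p = |a - b| ^ p := by congr 2; ring
  have u3 : |0 - a + b| ^ p = |a - b| ^ p := n _ _ (by ring)
  have u4 : |0 - a - b| ^ p = |-(a + b)| ^ p := by congr 2; ring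
  have v1 : |0 + a + -(a + b)| ^ p = |b| ^ p := n _ _ (by ring)
  have v2 : |0 + a - -(a + b)| ^ p = |-(a + b) - a| ^ p := n _ _ (by ring)
  have v3 : |0 - a + -(a + b)| ^ p = |-(a + b) - a| ^ p := by congr 2; ring
  have v4 : |0 - a - -(a + b)| ^ p = |b| ^ p := by congr 2; ring
  have w1 : |0 + b + -(a + b)| ^ p = |a| ^ p := n _ _ (by ring)
  have w2 : |0 + b - -(a + b)| ^ p = |b - -(a + b)| ^ p := by congr 2; ring
  have w3 : |0 - b + -(a + b)| ^ p = |b - -(a + b)| ^ p := n _ _ (by ring)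
  have w4 : |0 - b - -(a + b)| ^ p = |a| ^ p := by congr 2; ring
  have x1 : |0 + a| ^ p = |a| ^ p := by congr 2; ring
  have x2 : |0 - a| ^ p = |a| ^ p := n _ _ (by ring)
  have x3 : |0 + b| ^ p = |b| ^ p := by congr 2; ring
  have x4 : |0 - b| ^ p = |b| ^ p := n _ _ (by ring)
  have x5 : |0 + -(a + b)| ^ p = |-(a + b)| ^ p := by congr 2; ring
  have x6 : |0 - -(a + b)| ^ p = |-(a + b)| ^ p := n _ _ (by ring)
  rw [t1, t2, t3, t4, t5, t6, t7, t8, u1, u2, u3, u4, v1, v2, v3, v4, w1, w2, w3, w4, x1, x2, x3,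
    x4, x5, x6, e0]
  ring

theorem D3_zero {p : ℝ} (hp : 0 < p) {a b c : ℝ} (h : a + b + c = 0)
    (h0 : a = 0 ∨ b = 0 ∨ c = 0) : D3 p a b c = 0 := by
  have e2 : ∀ x : ℝ, |2 * x| ^ p = (2 : ℝ) ^ p * |x| ^ p := by
    intro x
    rw [abs_mul, Real.mul_rpow (abs_nonneg _) (abs_nonneg _), abs_two]
  have e0 : |(0 : ℝ)| ^ p = 0 := by rw [abs_zero, Real.zero_rpow hp.ne']
  have n : ∀ x y : ℝ, x = -y → |x| ^ p = |y| ^ p := by
    intro x y h; rw [h, abs_neg]
  unfold D3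
  rcases h0 with h0 | h0 | h0
  · subst h0
    have hc : c = -b := by linarith
    subst hc
    rw [e0, n (0 - b) b (by ring), n (-b) b rfl, n (-b - 0) b (by ring),
      show b - -b = 2 * b by ring, e2]; ring
  · subst h0
    have hc : c = -a := by linarith
    subst hc
    rw [e0, show a - 0 = a by ring, n (-a) a rfl, show 0 - -a = a by ring,
      n (-a - a) (2 * a) (by ring), e2]; ring
  · subst h0
    have hc : b = -a := by linarith
    subst hc
    rw [e0, show a - -a = 2 * a by ring, n (-a) a rfl, n (-a - 0) a (by ring),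
      n (0 - a) a (by ring), e2]; ring

/-- sign of the test functional -/
noncomputable def eps (p : ℝ) : ℝ := if p < 4 then -1 else 1

theorem D3_sign {p : ℝ} (hp : 2 < p) (hp4 : p ≠ 4) {a b c : ℝ} (h : a + b + c = 0)
    (ha : a ≠ 0) (hb : b ≠ 0) (hc : c ≠ 0) : 0 < eps p * D3 p a b c := by
  by_cases hp6 : p < 6
  · have hf := D3_formula (by linarith) hp6 h
    have hJ := J_pos (by linarith) hp6 ha hb hc
    have hcc := cc_nonneg p
    unfold eps
    split_ifs with h4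
    · have hg := (g_sign hp).1 h4
      have h5 : cc p * D3 p a b c < 0 := by rw [hf]; exact mul_neg_of_neg_of_pos hg hJ
      by_contra hcon
      push Not at hcon
      have : 0 ≤ cc p * D3 p a b c := mul_nonneg hcc (by linarith)
      linarith
    · have h4' : 4 < p := lt_of_le_of_ne (not_lt.mp h4) (Ne.symm hp4)
      have hg := (g_sign hp).2 h4'
      have h5 : 0 < cc p * D3 p a b c := by rw [hf]; exact mul_pos hg hJ
      by_contra hcon
      push Not at hcon
      have : cc p * D3 p a b c ≤ 0 := mul_nonpos_of_nonneg_of_nonpos hcc (by linarith)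
      linarith
  · have h1 := dlt3_pos (p := p) (by linarith) ha hb hc 0
    rw [← D3_eq_dlt (by linarith) h] at h1
    unfold eps
    rw [if_neg (by linarith)]
    linarith

/-! ### the test functionals -/

noncomputable def tc3 (p : ℝ) : Fin 6 → ℝ :=
  ![eps p * ((2 : ℝ) ^ p + 2), eps p * ((2 : ℝ) ^ p + 2), eps p * ((2 : ℝ) ^ p + 2),
    eps p * (-2), eps p * (-2), eps p * (-2)]
def ta3 : Fin 6 → ℝ := ![0, 2, -2, -2, 4, -2]
def tb3 : Fin 6 → ℝ := ![1, -2, 1, 3, -3, 0]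

theorem tv3_eq (p y0 y1 : ℝ) : tv p (tc3 p) ta3 tb3 y0 y1 =
    eps p * D3 p y1 (2 * y0 - 2 * y1) (y1 - 2 * y0) := by
  unfold tv D3
  simp only [Fin.sum_univ_succ, tc3, ta3, tb3, Matrix.cons_val_zero, Matrix.cons_val_succ,
    Finset.univ_eq_empty, Finset.sum_empty]
  simp only [Matrix.cons_val_fin_one, zero_mul, one_mul, zero_add, add_zero]
  rw [show 2 * y0 + -2 * y1 = 2 * y0 - 2 * y1 by ring, show -2 * y0 + y1 = y1 - 2 * y0 by ring,
    show -2 * y0 + 3 * y1 = y1 - (2 * y0 - 2 * y1) by ring,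
    show 4 * y0 + -3 * y1 = 2 * y0 - 2 * y1 - (y1 - 2 * y0) by ring,
    show -2 * y0 = y1 - 2 * y0 - y1 by ring]
  ring

theorem tv3_nonneg {p : ℝ} (hp : 2 < p) (hp4 : p ≠ 4) (y0 y1 : ℝ) :
    0 ≤ tv p (tc3 p) ta3 tb3 y0 y1 := by
  rw [tv3_eq]
  by_cases h : y1 = 0 ∨ 2 * y0 - 2 * y1 = 0 ∨ y1 - 2 * y0 = 0
  · rw [D3_zero (by linarith) (by ring) h, mul_zero]
  · push Not at h
    exact (D3_sign hp hp4 (by ring) h.1 h.2.1 h.2.2).le

theorem tv3_zero {p : ℝ} (hp : 2 < p) (hp4 : p ≠ 4) (y0 y1 : ℝ)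
    (h0 : tv p (tc3 p) ta3 tb3 y0 y1 = 0) : ∃ z : ℤ, y1 = z * y0 := by
  rw [tv3_eq] at h0
  by_cases h : y1 = 0 ∨ 2 * y0 - 2 * y1 = 0 ∨ y1 - 2 * y0 = 0
  · rcases h with h | h | h
    · exact ⟨0, by rw [h]; simp⟩
    · exact ⟨1, by push_cast; linarith⟩
    · exact ⟨2, by push_cast; linarith⟩
  · push Not at h
    have := D3_sign hp hp4 (by ring) h.1 h.2.1 h.2.2
    linarith

theorem tv3_atom {p : ℝ} (hp : 2 < p) {κ : ℝ} (hκ : κ * (κ - 1) * (κ - 2) = 0) :
    tv p (tc3 p) ta3 tb3 1 κ = 0 := by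
  rw [tv3_eq, D3_zero (by linarith) (by ring), mul_zero]
  rcases mul_eq_zero.mp hκ with h | h
  · rcases mul_eq_zero.mp h with h | h
    · exact Or.inl h
    · right; left; linarith
  · right; right; linarith

def tc2 : Fin 4 → ℝ := ![1, 1, -2, -2]
def ta2 : Fin 4 → ℝ := ![1, 1, 1, 0]
def tb2 : Fin 4 → ℝ := ![0, -2, -1, 1]

theorem tv2_eq (y0 y1 : ℝ) : tv 4 tc2 ta2 tb2 y0 y1 = 12 * y1 ^ 2 * (y0 - y1) ^ 2 := by
  unfold tv
  have h4 : ∀ x : ℝ, |x| ^ (4 : ℝ) = x ^ 4 := by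
    intro x
    rw [show (4 : ℝ) = ((4 : ℕ) : ℝ) by norm_num, Real.rpow_natCast]
    exact (Even.pow_abs (by decide) x)
  simp only [h4, Fin.sum_univ_succ, tc2, ta2, tb2, Matrix.cons_val_zero, Matrix.cons_val_succ,
    Finset.univ_eq_empty, Finset.sum_empty]
  ring

end Pool.Agent.MP_cd6b85_an
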