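import Pool.Agent.Lib.MP_cd6b85_an.StarRep
import Pool.Agent.Lib.MP_cd6b85_an.ProjTest
import Pool.Agent.Lib.MP_cd6b85_an.ScalarTest
open Matrix Filter Topology
open scoped ComplexOrder
namespace Pool.Agent.MP_cd6b85_an

theorem phi_submatrix {m n : Type*} [Fintype m] [DecidableEq m] [Fintype n] [DecidableEq n]
    (p : ℝ) (e : m ≃ n) (M : Matrix n n ℂ) : phi p (M.submatrix e e) = phi p M := by
  unfold phi
  rw [Matrix.conjTranspose_submatrix, Matrix.submatrix_mul_equiv]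
  unfold trF
  have := Matrix.charpoly_reindex e.symm (Mᴴ * M)
  rw [Matrix.reindex_apply, Equiv.symm_symm] at this
  rw [this]

theorem phi_pad {p : ℝ} (hp : 0 < p) {N r : ℕ} (M : Matrix (Fin N) (Fin N) ℂ) :
    phi p (fromBlocks M 0 0 (0 : Matrix (Fin r) (Fin r) ℂ)) = phi p M := by
  unfold phi
  rw [Matrix.fromBlocks_conjTranspose, Matrix.fromBlocks_multiply]
  simp only [Matrix.conjTranspose_zero, Matrix.zero_mul, Matrix.mul_zero, add_zero]
  rw [trF_fromBlocks]
  have : trF (fun x : ℝ => x ^ (p / 2)) (0 : Matrix (Fin r) (Fin r) ℂ) = 0 := by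
    rw [← Matrix.diagonal_zero, trF_diagonal]
    apply Finset.sum_eq_zero
    intro i _
    simp only [Complex.zero_re]
    exact Real.zero_rpow (by positivity)
  rw [this, add_zero]

/-- pad with zeros -/
def pad {N : ℕ} (r : ℕ) (M : Matrix (Fin N) (Fin N) ℂ) : Matrix (Fin (N + r)) (Fin (N + r)) ℂ :=
  (fromBlocks M 0 0 (0 : Matrix (Fin r) (Fin r) ℂ)).submatrix finSumFinEquiv.symm
    finSumFinEquiv.symm

theorem pad_comb {m N : ℕ} (r : ℕ) (x : Fin m → ℂ) (E : Fin m → Matrix (Fin N) (Fin N) ℂ) :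
    comb x (fun a => pad r (E a)) = pad r (comb x E) := by
  unfold comb pad
  ext i j
  rw [Matrix.sum_apply, Matrix.submatrix_apply]
  simp only [Matrix.smul_apply, Matrix.submatrix_apply]
  rcases finSumFinEquiv.symm i with i | i <;> rcases finSumFinEquiv.symm j with j | j <;>
    simp [Matrix.sum_apply]

theorem ApproxRep.unpad {p : ℝ} (hp : 0 < p) {m N k : ℕ} (r : ℕ)
    {E : Fin m → Matrix (Fin N) (Fin N) ℂ}
    (h : ApproxRep p (fun a => pad r (E a)) k) : ApproxRep p E k := by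
  intro ε hε
  obtain ⟨Y, hY⟩ := h ε hε
  refine ⟨Y, fun x => ?_⟩
  have h1 := hY x
  have h2 : phi p (comb x fun a => pad r (E a)) = phi p (comb x E) := by
    rw [pad_comb, pad, phi_submatrix, phi_pad hp]
  rw [h2] at h1
  exact h1

/-- The star-shaped family yields non-representable tuples. -/
theorem high_core {ι : Type*} [Fintype ι] {p : ℝ} (hp : 2 < p) {c α β : ι → ℝ}
    (hT : ∀ y0 y1, 0 ≤ tv p c α β y0 y1)
    (hT0 : ∀ y0 y1, y0 ≠ 0 → tv p c α β y0 y1 = 0 → ∃ z : ℤ, y1 = z * y0)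
    {S : Set ℝ} (hTS : ∀ κ, κ = 0 ∨ κ ∈ S → tv p c α β 1 κ = 0) {q : ℕ} {γ : ℝ}
    (hrep : Rep (q + 1) S γ) {k : ℕ}
    (hγ : ∀ d : ℕ, 1 ≤ d → d ≤ k → ¬ ∃ z : ℤ, γ * d = z) :
    ∃ (N : ℕ) (E : Fin (q + 1) → Matrix (Fin N) (Fin N) ℂ), ∀ k' ≤ k, ¬ ApproxRep p E k' := by
  obtain ⟨κ, _, _, Q₀, A₀, hQ, hQ2, hQ0, hA, hAQ, hSp, hsum⟩ := hrep
  have hp0 : 0 < p := by linarith
  let e : κ ≃ Fin (Fintype.card κ) := Fintype.equivFin κ
  set N := Fintype.card κ with hN
  let Q : Matrix (Fin N) (Fin N) ℂ := Q₀.submatrix e.symm e.symm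
  let A : Fin (q + 1) → Matrix (Fin N) (Fin N) ℂ := fun i => (A₀ i).submatrix e.symm e.symm
  have hQ' : Q.IsHermitian := hQ.submatrix _
  have hQ2' : Q * Q = Q := by
    simp only [Q]
    rw [Matrix.submatrix_mul_equiv, hQ2]
  have hQ0' : Q ≠ 0 := by
    intro h
    apply hQ0
    ext i j
    have := congrFun (congrFun h (e i)) (e j)
    simpa [Q] using this
  have hA' : ∀ i, (A i).IsHermitian := fun i => (hA i).submatrix _
  have hAQ' : ∀ i, A i * Q = A i := by
    intro i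
    simp only [Q, A]
    rw [Matrix.submatrix_mul_equiv, hAQ]
  have hsum' : ∑ i, A i = (γ : ℂ) • Q := by
    ext i j
    have := congrFun (congrFun hsum (e.symm i)) (e.symm j)
    rw [Matrix.sum_apply] at this ⊢
    exact this
  have hSp' : ∀ i, ∀ κ : ℝ, (∃ v : Fin N → ℂ, v ≠ 0 ∧ A i *ᵥ v = (κ : ℂ) • v) →
      tv p c α β 1 κ = 0 := by
    rintro i s ⟨v, hv0, hv⟩
    apply hTS
    apply hSp i
    refine ⟨v ∘ e, ?_, ?_⟩
    · intro h
      apply hv0
      ext j
      have := congrFun h (e.symm j)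
      simpa using this
    · ext j
      have h1 := congrFun hv (e j)
      simp only [A, Matrix.mulVec, dotProduct, Matrix.submatrix_apply, Equiv.symm_apply_apply] at h1
      rw [Matrix.mulVec, dotProduct]
      rw [Pi.smul_apply] at h1 ⊢
      rw [Function.comp_apply, ← h1, ← Equiv.sum_comp e (fun x => A₀ i j (e.symm x) * v x)]
      refine Finset.sum_congr rfl fun x _ => ?_
      simp
  let E : Fin (q + 1) → Matrix (Fin N) (Fin N) ℂ := Fin.cons Q (fun i => A i.succ)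
  let u : Fin (q + 1) → ℂ := Pi.single 0 1
  let v : Fin (q + 1) → Fin (q + 1) → ℂ :=
    Fin.cons ((γ : ℂ) • u - ∑ i : Fin q, Pi.single i.succ 1) (fun i => Pi.single i.succ 1)
  have hu : comb u E = Q := by
    simp only [u]
    rw [comb_single]; rfl
  have hv : ∀ i, comb (v i) E = A i := by
    intro i
    refine Fin.cases ?_ (fun i => ?_) i
    · have h1 : comb (v 0) E = (γ : ℂ) • comb u E - ∑ i : Fin q, comb (Pi.single i.succ 1) E := by
        simp only [v, Fin.cons_zero]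
        unfold comb
        simp only [Pi.sub_apply, Pi.smul_apply, Finset.sum_apply, sub_smul, Finset.sum_sub_distrib,
          Finset.smul_sum, smul_smul, smul_eq_mul, Finset.sum_smul]
        congr 1
        rw [Finset.sum_comm]
      rw [h1, hu, ← hsum', Fin.sum_univ_succ]
      have h2 : ∀ i : Fin q, comb (Pi.single i.succ 1) E = A i.succ := by
        intro i
        rw [comb_single]; rfl
      simp only [h2]
      abel
    · simp only [v, Fin.cons_succ]
      rw [comb_single]; rfl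
  refine ⟨N, E, fun k' hk' hrep => ?_⟩
  have hphiQ : 0 < phi p Q := by
    apply lt_of_le_of_ne (phi_nonneg _ _)
    intro h
    exact hQ0' (phi_eq_zero hp0 h.symm)
  have g1 : ∑ i, v i = (γ : ℂ) • u := by
    rw [Fin.sum_univ_succ]
    simp only [v, Fin.cons_zero, Fin.cons_succ]
    abel
  have g2 : ∀ i, Tendsto (fun t => (p - 1) * qM p (comb u E) (Complex.I • comb (v i) E) t -
      qM p (comb u E) (comb (v i) E) t) (𝓝[≠] 0) (𝓝 0) := by
    intro i
    rw [hu, hv]
    obtain ⟨V, a, hV, ha, hd, hK, _⟩ := proj_compat hQ' hQ2' (hA' i) (hAQ' i)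
    exact lim_of_compat hp hV hV (fun i => by rcases ha i with h | h <;> rw [h] <;> norm_num) hd hK
  have g3 : ∀ i, tm p c α β (comb u E) (comb (v i) E) = 0 := by
    intro i
    rw [hu, hv]
    exact tm_proj_zero hp0 hQ' hQ2' (hA' i) (hAQ' i) (hSp' i)
  have g4 : 0 < phi p (comb u E) := by rw [hu]; exact hphiQ
  have g5 : 0 < wt p E := by
    have h1 : phi p (E 0) ≤ wt p E :=
      Finset.single_le_sum (f := fun a => phi p (E a)) (fun _ _ => phi_nonneg _ _)
        (Finset.mem_univ 0)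
    exact lt_of_lt_of_le hphiQ h1
  obtain ⟨d, hd1, hd2, hd3⟩ := denom_bound hp hT hT0 u v g1 g2 g3 g4 g5 hrep
  exact hγ d hd1 (hd2.trans hk') hd3

/-- `p > 2`, `p ≠ 4`, three-dimensional. -/
theorem high3 {p : ℝ} (hp : 2 < p) (hp4 : p ≠ 4) (k : ℕ) :
    ∃ (N : ℕ) (E : Fin 3 → Matrix (Fin N) (Fin N) ℂ), ∀ k' ≤ k, ¬ ApproxRep p E k' := by
  obtain ⟨γ, _, hrep, hγ⟩ := exists_rep3 k
  refine high_core hp (c := tc3 p) (α := ta3) (β := tb3) (tv3_nonneg hp hp4)
    (fun y0 y1 _ h => tv3_zero hp hp4 y0 y1 h) (S := {1, 2}) ?_ hrep hγ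
  rintro κ (rfl | rfl | rfl)
  · exact tv3_atom hp (by ring)
  · exact tv3_atom hp (by ring)
  · exact tv3_atom hp (by ring)

/-- `p = 4`, four-dimensional. -/
theorem four4 (k : ℕ) :
    ∃ (N : ℕ) (E : Fin 4 → Matrix (Fin N) (Fin N) ℂ), ∀ k' ≤ k, ¬ ApproxRep 4 E k' := by
  obtain ⟨γ, _, hrep, hγ⟩ := exists_rep4 k
  refine high_core (by norm_num) (c := tc2) (α := ta2) (β := tb2) ?_ ?_ (S := {1}) ?_ hrep hγ
  · intro y0 y1; rw [tv2_eq]; positivity
  · intro y0 y1 _ h
    rw [tv2_eq] at h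
    have h1 : y1 * (y0 - y1) = 0 := by
      have : (y1 * (y0 - y1)) ^ 2 = 0 := by linarith
      exact pow_eq_zero_iff two_ne_zero |>.mp this
    rcases mul_eq_zero.mp h1 with h | h
    · exact ⟨0, by rw [h]; simp⟩
    · exact ⟨1, by push_cast; linarith⟩
  · rintro κ (rfl | rfl)
    · rw [tv2_eq]; ring
    · rw [tv2_eq]; ring

end Pool.Agent.MP_cd6b85_an
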