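import Pool.Agent.Lib.MP_cd6b85_an.ScalarFn
import Pool.Agent.Lib.MP_cd6b85_an.Concave
open Matrix Filter Topology MeasureTheory
open scoped ComplexOrder
namespace Pool.Agent.MP_cd6b85_an

variable {n : Type*} [Fintype n] [DecidableEq n]

/-- The quadratic remainder in Klein's identity. -/
noncomputable def kq (p : ℝ) (ν : n → ℝ) (H U : Matrix n n ℂ) (d : n → ℝ) : ℝ :=
  ∑ i, ∑ j, ‖(H * U) i j‖ ^ 2 * dd p (ν i) (d j)

theorem klein {p : ℝ} (ν : n → ℝ) (H U : Matrix n n ℂ) (d : n → ℝ) (t : ℝ)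
    (hU : U ∈ unitaryGroup n ℂ)
    (hB : diagonal (fun i => (ν i : ℂ)) + (t : ℂ) • H = U * diagonal (fun i => (d i : ℂ)) * Uᴴ) :
    trF (fun x => |x| ^ p) (diagonal (fun i => (ν i : ℂ)) + (t : ℂ) • H) =
      ∑ i, |ν i| ^ p + t * ∑ i, f1 p (ν i) * (H i i).re + t ^ 2 * kq p ν H U d := by
  have hU1 := unitary_conj_mul hU
  have hU2 := unitary_mul_conj hU
  have h1 : trF (fun x => |x| ^ p) (diagonal (fun i => (ν i : ℂ)) + (t : ℂ) • H) =
      ∑ j, |d j| ^ p := by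
    rw [trF_of_diag _ hU hB]
  have hkey : ∀ i j, (t : ℂ) * (H * U) i j = ((d j - ν i : ℝ) : ℂ) * U i j := by
    intro i j
    have h2 : (diagonal (fun i => (ν i : ℂ)) + (t : ℂ) • H) * U = U * diagonal (fun i => (d i : ℂ)) := by
      rw [hB, Matrix.mul_assoc, hU1, Matrix.mul_one]
    have h3 := congrFun (congrFun h2 i) j
    rw [Matrix.add_mul, Matrix.add_apply, Matrix.diagonal_mul, Matrix.mul_diagonal,
      Matrix.smul_mul, Matrix.smul_apply, smul_eq_mul] at h3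
    push_cast
    linear_combination h3
  have hterm : ∀ i j, t ^ 2 * (‖(H * U) i j‖ ^ 2 * dd p (ν i) (d j)) =
      ‖U i j‖ ^ 2 * (|d j| ^ p - |ν i| ^ p - f1 p (ν i) * (d j - ν i)) := by
    intro i j
    have h4 : t ^ 2 * ‖(H * U) i j‖ ^ 2 = (d j - ν i) ^ 2 * ‖U i j‖ ^ 2 := by
      have h5 := congrArg (fun z : ℂ => ‖z‖ ^ 2) (hkey i j)
      simp only [norm_mul, Complex.norm_real, mul_pow, Real.norm_eq_abs, sq_abs] at h5
      exact h5
    rw [← dd_mul, ← mul_assoc, h4]; ring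
  have hrow := fun i => row_sum hU2 i
  have hcol := fun j => col_sum hU1 j
  have hdiag : ∀ i, ∑ j, ‖U i j‖ ^ 2 * d j = ν i + t * (H i i).re := by
    intro i
    have h6 := congrFun (congrFun hB i) i
    have h7 := conj_diag_entry d (Uᴴ) i
    rw [Matrix.conjTranspose_conjTranspose] at h7
    rw [h7] at h6
    have h8 := congrArg Complex.re h6
    rw [Complex.ofReal_re] at h8
    simp only [Matrix.add_apply, Matrix.diagonal_apply_eq, Matrix.smul_apply, smul_eq_mul,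
      Complex.add_re, Complex.ofReal_re, Complex.mul_re, Complex.ofReal_im, zero_mul,
      sub_zero, Matrix.conjTranspose_apply, norm_star] at h8
    rw [← h8]
  rw [h1, kq, Finset.mul_sum]
  simp only [Finset.mul_sum, hterm]
  have e1 : ∀ i, ∑ j, ‖U i j‖ ^ 2 * (|d j| ^ p - |ν i| ^ p - f1 p (ν i) * (d j - ν i)) =
      ∑ j, ‖U i j‖ ^ 2 * |d j| ^ p - |ν i| ^ p - f1 p (ν i) * (t * (H i i).re) := by
    intro i
    have : ∀ j, ‖U i j‖ ^ 2 * (|d j| ^ p - |ν i| ^ p - f1 p (ν i) * (d j - ν i)) =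
        ‖U i j‖ ^ 2 * |d j| ^ p - ‖U i j‖ ^ 2 * |ν i| ^ p -
          f1 p (ν i) * (‖U i j‖ ^ 2 * d j) + f1 p (ν i) * ν i * ‖U i j‖ ^ 2 := by
      intro j; ring
    simp only [this, Finset.sum_add_distrib, Finset.sum_sub_distrib, ← Finset.mul_sum,
      ← Finset.sum_mul, hrow, hdiag]
    ring
  simp only [e1, Finset.sum_sub_distrib]
  have e2 : ∑ i, ∑ j, ‖U i j‖ ^ 2 * |d j| ^ p = ∑ j, |d j| ^ p := by
    rw [Finset.sum_comm]
    refine Finset.sum_congr rfl fun j _ => ?_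
    rw [← Finset.sum_mul, hcol, one_mul]
  rw [e2]
  have e3 : ∑ i, f1 p (ν i) * (t * (H i i).re) = ∑ i, t * (f1 p (ν i) * (H i i).re) :=
    Finset.sum_congr rfl fun i _ => by ring
  rw [e3]; ring

/-- The value of the remainder in the limit. -/
theorem kq_limit {p : ℝ} (ν : n → ℝ) (H U : Matrix n n ℂ) (d : n → ℝ)
    (hU : U ∈ unitaryGroup n ℂ)
    (hB : diagonal (fun i => (ν i : ℂ)) = U * diagonal (fun i => (d i : ℂ)) * Uᴴ) :
    kq p ν H U d = ∑ i, ∑ l, ‖H i l‖ ^ 2 * dd p (ν i) (ν l) := by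
  have hU1 := unitary_conj_mul hU
  have hU2 := unitary_mul_conj hU
  have h1 : ∀ l j, U l j ≠ 0 → ν l = d j := by
    intro l j hlj
    have h2 : diagonal (fun i => (ν i : ℂ)) * U = U * diagonal (fun i => (d i : ℂ)) := by
      rw [hB, Matrix.mul_assoc, hU1, Matrix.mul_one]
    have h3 := congrFun (congrFun h2 l) j
    rw [Matrix.diagonal_mul, Matrix.mul_diagonal, mul_comm] at h3
    exact_mod_cast mul_left_cancel₀ hlj h3
  unfold kq
  refine Finset.sum_congr rfl fun i _ => ?_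
  -- both sides as complex numbers
  have e1 : ((∑ j, ‖(H * U) i j‖ ^ 2 * dd p (ν i) (d j) : ℝ) : ℂ) =
      ∑ j, ((H * U) i j * (dd p (ν i) (d j) : ℂ)) * (Uᴴ * Hᴴ) j i := by
    push_cast
    refine Finset.sum_congr rfl fun j _ => ?_
    rw [← Matrix.conjTranspose_mul, Matrix.conjTranspose_apply, Complex.star_def, mul_right_comm,
      Complex.mul_conj, Complex.normSq_eq_norm_sq]
    push_cast; rfl
  have e2 : ∀ j, (H * U) i j * (dd p (ν i) (d j) : ℂ) =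
      ∑ l, (H i l * (dd p (ν i) (ν l) : ℂ)) * U l j := by
    intro j
    rw [Matrix.mul_apply, Finset.sum_mul]
    refine Finset.sum_congr rfl fun l _ => ?_
    by_cases hlj : U l j = 0
    · rw [hlj]; simp
    · rw [h1 l j hlj]; ring
  have e3 : ∑ j, ((H * U) i j * (dd p (ν i) (d j) : ℂ)) * (Uᴴ * Hᴴ) j i =
      (((Matrix.of fun i l => H i l * (dd p (ν i) (ν l) : ℂ)) * U) * (Uᴴ * Hᴴ)) i i := by
    rw [Matrix.mul_apply]
    refine Finset.sum_congr rfl fun j _ => ?_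
    rw [e2, Matrix.mul_apply]
    rfl
  have e4 : ((Matrix.of fun i l => H i l * (dd p (ν i) (ν l) : ℂ)) * U) * (Uᴴ * Hᴴ) =
      (Matrix.of fun i l => H i l * (dd p (ν i) (ν l) : ℂ)) * Hᴴ := by
    rw [Matrix.mul_assoc, ← Matrix.mul_assoc U, hU2, Matrix.one_mul]
  have e5 : ((∑ l, ‖H i l‖ ^ 2 * dd p (ν i) (ν l) : ℝ) : ℂ) =
      ((Matrix.of fun i l => H i l * (dd p (ν i) (ν l) : ℂ)) * Hᴴ) i i := by
    rw [Matrix.mul_apply]
    push_cast
    refine Finset.sum_congr rfl fun l _ => ?_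
    rw [Matrix.of_apply, Matrix.conjTranspose_apply, Complex.star_def, mul_right_comm,
      Complex.mul_conj, Complex.normSq_eq_norm_sq]
    push_cast; rfl
  have e6 := e1.trans (e3.trans ((congrFun (congrFun e4 i) i).trans e5.symm))
  exact_mod_cast e6

theorem frob_mul_unitary (H U : Matrix n n ℂ) (hU : U ∈ unitaryGroup n ℂ) :
    ∑ i, ∑ j, ‖(H * U) i j‖ ^ 2 = ∑ i, ∑ j, ‖H i j‖ ^ 2 := by
  have hU2 := unitary_mul_conj hU
  refine Finset.sum_congr rfl fun i _ => ?_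
  have e1 : ∀ M : Matrix n n ℂ, ((∑ j, ‖M i j‖ ^ 2 : ℝ) : ℂ) = (M * Mᴴ) i i := by
    intro M
    rw [Matrix.mul_apply]
    push_cast
    refine Finset.sum_congr rfl fun l _ => ?_
    rw [Matrix.conjTranspose_apply, Complex.star_def,
      Complex.mul_conj, Complex.normSq_eq_norm_sq]
    push_cast; rfl
  have e2 : (H * U) * (H * U)ᴴ = H * Hᴴ := by
    rw [Matrix.conjTranspose_mul, Matrix.mul_assoc, ← Matrix.mul_assoc U, hU2, Matrix.one_mul]
  have e3 := (e1 (H * U)).trans ((congrFun (congrFun e2 i) i).trans (e1 H).symm)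
  exact_mod_cast e3

theorem kq_nonneg {p : ℝ} (hp : 2 < p) (ν : n → ℝ) (H U : Matrix n n ℂ) (d : n → ℝ) :
    0 ≤ kq p ν H U d :=
  Finset.sum_nonneg fun _ _ => Finset.sum_nonneg fun _ _ =>
    mul_nonneg (sq_nonneg _) (dd_nonneg hp _ _)

theorem kq_le {p : ℝ} (hp : 2 < p) (ν : n → ℝ) (H U : Matrix n n ℂ) (d : n → ℝ)
    (hU : U ∈ unitaryGroup n ℂ) {R : ℝ} (hν : ∀ i, |ν i| ≤ R) (hd : ∀ i, |d i| ≤ R) :
    kq p ν H U d ≤ f2 p R * ∑ i, ∑ j, ‖H i j‖ ^ 2 := by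
  rw [← frob_mul_unitary H U hU, Finset.mul_sum]
  unfold kq
  refine Finset.sum_le_sum fun i _ => ?_
  rw [Finset.mul_sum]
  refine Finset.sum_le_sum fun j _ => ?_
  rw [mul_comm]
  exact mul_le_mul_of_nonneg_right (dd_le hp (hν i) (hd j)) (sq_nonneg _)

/-- eigenvalues are bounded by the Frobenius norm -/
theorem eig_bound {B U : Matrix n n ℂ} {d : n → ℝ} (hU : U ∈ unitaryGroup n ℂ)
    (hB : B = U * diagonal (fun i => (d i : ℂ)) * Uᴴ) (i : n) :
    (d i) ^ 2 ≤ ∑ i, ∑ j, ‖B i j‖ ^ 2 := by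
  have hU' : Uᴴ ∈ unitaryGroup n ℂ := Unitary.star_mem hU
  have h1 : ∑ i, ∑ j, ‖(B * U) i j‖ ^ 2 = ∑ i, ∑ j, ‖B i j‖ ^ 2 := frob_mul_unitary B U hU
  have h2 : B * U = U * diagonal (fun i => (d i : ℂ)) := by
    rw [hB, Matrix.mul_assoc, unitary_conj_mul hU, Matrix.mul_one]
  rw [← h1, h2, Finset.sum_comm]
  have h3 : ∀ j, ∑ i, ‖(U * diagonal (fun i => (d i : ℂ))) i j‖ ^ 2 = (d j) ^ 2 := by
    intro j
    have : ∀ i, ‖(U * diagonal (fun i => (d i : ℂ))) i j‖ ^ 2 = ‖U i j‖ ^ 2 * (d j) ^ 2 := by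
      intro i
      rw [Matrix.mul_diagonal, norm_mul, mul_pow, Complex.norm_real, Real.norm_eq_abs, sq_abs]
    simp only [this]
    rw [← Finset.sum_mul, col_sum (unitary_conj_mul hU), one_mul]
  simp only [h3]
  exact Finset.single_le_sum (f := fun i => (d i) ^ 2) (fun _ _ => sq_nonneg _) (Finset.mem_univ i)

end Pool.Agent.MP_cd6b85_an
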