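import Pool.Agent.Lib.MP_cd6b85_an.Klein
open Matrix Filter Topology MeasureTheory
open scoped ComplexOrder
namespace Pool.Agent.MP_cd6b85_an

variable {n : Type*} [Fintype n] [DecidableEq n]

theorem tendsto_udu {U : ℕ → Matrix n n ℂ} {d : ℕ → n → ℝ} {U' : Matrix n n ℂ} {d' : n → ℝ}
    (hU : Tendsto U atTop (𝓝 U')) (hd : Tendsto d atTop (𝓝 d')) :
    Tendsto (fun i => U i * diagonal (fun j => (d i j : ℂ)) * (U i)ᴴ) atTop
      (𝓝 (U' * diagonal (fun j => (d' j : ℂ)) * U'ᴴ)) := by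
  have hc : Continuous fun M : Matrix n n ℂ × (n → ℝ) =>
      M.1 * diagonal (fun j => (M.2 j : ℂ)) * (M.1)ᴴ := by
    apply Continuous.matrix_mul
    · apply Continuous.matrix_mul continuous_fst
      apply Continuous.matrix_diagonal
      fun_prop
    · exact continuous_fst.matrix_conjTranspose
  have h := (hc.tendsto (U', d')).comp (hU.prodMk_nhds hd)
  simpa only [Function.comp_def] using h

theorem tendsto_kq {p : ℝ} (hp : 2 < p) (ν : n → ℝ) (H : Matrix n n ℂ)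
    {U : ℕ → Matrix n n ℂ} {d : ℕ → n → ℝ} {U' : Matrix n n ℂ} {d' : n → ℝ}
    (hU : Tendsto U atTop (𝓝 U')) (hd : Tendsto d atTop (𝓝 d')) :
    Tendsto (fun i => kq p ν H (U i) (d i)) atTop (𝓝 (kq p ν H U' d')) := by
  have hc : Continuous fun M : Matrix n n ℂ × (n → ℝ) => kq p ν H M.1 M.2 := by
    unfold kq
    refine continuous_finsetSum _ fun i _ => continuous_finsetSum _ fun j _ => ?_
    apply Continuous.mul
    · have h7 : Continuous fun M : Matrix n n ℂ × (n → ℝ) => (H * M.1) i j :=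
        (continuous_const.matrix_mul continuous_fst).matrix_elem i j
      exact (continuous_norm.comp h7).pow 2
    · exact (continuous_dd hp (ν i)).comp ((continuous_apply j).comp continuous_snd)
  have h := (hc.tendsto (U', d')).comp (hU.prodMk_nhds hd)
  simpa only [Function.comp_def] using h

theorem herm_pencil (ν : n → ℝ) {H : Matrix n n ℂ} (hH : H.IsHermitian) (t : ℝ) :
    (diagonal (fun i => (ν i : ℂ)) + (t : ℂ) • H).IsHermitian := by
  apply Matrix.IsHermitian.add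
  · rw [Matrix.isHermitian_diagonal_iff]
    intro i
    exact Complex.conj_ofReal _
  · unfold Matrix.IsHermitian
    rw [Matrix.conjTranspose_smul, hH.eq, Complex.star_def, Complex.conj_ofReal]

/-- bound for the eigenvalues along the pencil -/
noncomputable def pr (ν : n → ℝ) (H : Matrix n n ℂ) : ℝ :=
  Real.sqrt (2 * ∑ i, (ν i) ^ 2 + 2 * ∑ i, ∑ j, ‖H i j‖ ^ 2)

theorem pencil_frob (ν : n → ℝ) (H : Matrix n n ℂ) {t : ℝ} (ht : |t| ≤ 1) :
    ∑ i, ∑ j, ‖(diagonal (fun i => (ν i : ℂ)) + (t : ℂ) • H) i j‖ ^ 2 ≤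
      2 * ∑ i, (ν i) ^ 2 + 2 * ∑ i, ∑ j, ‖H i j‖ ^ 2 := by
  have h1 : ∀ i j, ‖(diagonal (fun i => (ν i : ℂ)) + (t : ℂ) • H) i j‖ ^ 2 ≤
      2 * ‖(diagonal (fun i => (ν i : ℂ)) : Matrix n n ℂ) i j‖ ^ 2 + 2 * ‖H i j‖ ^ 2 := by
    intro i j
    rw [Matrix.add_apply, Matrix.smul_apply, smul_eq_mul]
    have h2 := norm_add_le ((diagonal (fun i => (ν i : ℂ)) : Matrix n n ℂ) i j) ((t : ℂ) * H i j)
    rw [norm_mul, Complex.norm_real, Real.norm_eq_abs] at h2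
    have h3 : |t| * ‖H i j‖ ≤ ‖H i j‖ := mul_le_of_le_one_left (norm_nonneg _) ht
    have h4 : ‖(diagonal (fun i => (ν i : ℂ)) : Matrix n n ℂ) i j + (t : ℂ) * H i j‖ ≤
      ‖(diagonal (fun i => (ν i : ℂ)) : Matrix n n ℂ) i j‖ + ‖H i j‖ := by linarith
    have h5 := pow_le_pow_left₀ (norm_nonneg _) h4 2
    nlinarith [sq_nonneg (‖(diagonal (fun i => (ν i : ℂ)) : Matrix n n ℂ) i j‖ - ‖H i j‖)]
  have h2 : ∑ i, ∑ j, ‖(diagonal (fun i => (ν i : ℂ)) : Matrix n n ℂ) i j‖ ^ 2 = ∑ i, (ν i) ^ 2 := by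
    refine Finset.sum_congr rfl fun i _ => ?_
    rw [Finset.sum_eq_single i]
    · rw [Matrix.diagonal_apply_eq, Complex.norm_real, Real.norm_eq_abs, sq_abs]
    · intro j _ hj
      rw [Matrix.diagonal_apply_ne _ hj.symm]; simp
    · simp
  rw [← h2, Finset.mul_sum, Finset.mul_sum, ← Finset.sum_add_distrib]
  refine Finset.sum_le_sum fun i _ => ?_
  rw [Finset.mul_sum, Finset.mul_sum, ← Finset.sum_add_distrib]
  exact Finset.sum_le_sum fun j _ => h1 i j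

theorem nu_le_pr (ν : n → ℝ) (H : Matrix n n ℂ) (i : n) : |ν i| ≤ pr ν H := by
  unfold pr
  rw [← Real.sqrt_sq_eq_abs]
  apply Real.sqrt_le_sqrt
  have h1 := Finset.single_le_sum (f := fun i => (ν i) ^ 2) (fun _ _ => sq_nonneg _)
    (Finset.mem_univ i)
  have h2 : 0 ≤ ∑ i, ∑ j, ‖H i j‖ ^ 2 :=
    Finset.sum_nonneg fun _ _ => Finset.sum_nonneg fun _ _ => sq_nonneg _
  have h3 : 0 ≤ ∑ i, (ν i) ^ 2 := Finset.sum_nonneg fun _ _ => sq_nonneg _
  linarith

/-- the first-order remainder quotient -/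
noncomputable def rq (p : ℝ) (ν : n → ℝ) (H : Matrix n n ℂ) (t : ℝ) : ℝ :=
  (trF (fun x => |x| ^ p) (diagonal (fun i => (ν i : ℂ)) + (t : ℂ) • H) -
    ∑ i, |ν i| ^ p - t * ∑ i, f1 p (ν i) * (H i i).re) / t ^ 2

theorem rq_eq {p : ℝ} (ν : n → ℝ) {H : Matrix n n ℂ} (hH : H.IsHermitian) {t : ℝ} (ht0 : t ≠ 0)
    (ht : |t| ≤ 1) :
    ∃ (U : Matrix n n ℂ) (d : n → ℝ), U ∈ unitaryGroup n ℂ ∧
      diagonal (fun i => (ν i : ℂ)) + (t : ℂ) • H = U * diagonal (fun i => (d i : ℂ)) * Uᴴ ∧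
      (∀ i, |d i| ≤ pr ν H) ∧ rq p ν H t = kq p ν H U d := by
  have hB := herm_pencil ν hH t
  refine ⟨_, _, hB.eigenvectorUnitary.2, herm_diag hB, ?_, ?_⟩
  · intro i
    unfold pr
    rw [← Real.sqrt_sq_eq_abs]
    apply Real.sqrt_le_sqrt
    exact (eig_bound hB.eigenvectorUnitary.2 (herm_diag hB) i).trans (pencil_frob ν H ht)
  · unfold rq
    rw [klein ν H _ _ t hB.eigenvectorUnitary.2 (herm_diag hB)]
    have : t ^ 2 ≠ 0 := pow_ne_zero _ ht0
    field_simp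
    ring

theorem rq_nonneg {p : ℝ} (hp : 2 < p) (ν : n → ℝ) {H : Matrix n n ℂ} (hH : H.IsHermitian) {t : ℝ}
    (ht0 : t ≠ 0) (ht : |t| ≤ 1) : 0 ≤ rq p ν H t := by
  obtain ⟨U, d, _, _, _, h⟩ := rq_eq (p := p) ν hH ht0 ht
  rw [h]; exact kq_nonneg hp _ _ _ _

theorem rq_le {p : ℝ} (hp : 2 < p) (ν : n → ℝ) {H : Matrix n n ℂ} (hH : H.IsHermitian) {t : ℝ}
    (ht0 : t ≠ 0) (ht : |t| ≤ 1) : rq p ν H t ≤ f2 p (pr ν H) * ∑ i, ∑ j, ‖H i j‖ ^ 2 := by
  obtain ⟨U, d, hU, _, hd, h⟩ := rq_eq (p := p) ν hH ht0 ht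
  rw [h]; exact kq_le hp ν H U d hU (nu_le_pr ν H) hd

theorem norm_entry_le_one {U : Matrix n n ℂ} (hU : U ∈ unitaryGroup n ℂ) (i j : n) :
    ‖U i j‖ ≤ 1 := by
  have h1 := col_sum (unitary_conj_mul hU) j
  have h2 := Finset.single_le_sum (f := fun i => ‖U i j‖ ^ 2) (fun _ _ => sq_nonneg _)
    (Finset.mem_univ i)
  rw [h1] at h2
  nlinarith [norm_nonneg (U i j)]

theorem rq_tendsto {p : ℝ} (hp : 2 < p) (ν : n → ℝ) {H : Matrix n n ℂ} (hH : H.IsHermitian) :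
    Tendsto (rq p ν H) (𝓝[≠] 0) (𝓝 (∑ i, ∑ l, ‖H i l‖ ^ 2 * dd p (ν i) (ν l))) := by
  apply tendsto_of_subseq_tendsto
  intro ts hts
  have h0 : Tendsto ts atTop (𝓝 0) := hts.mono_right nhdsWithin_le_nhds
  have hne : ∀ᶠ i in atTop, ts i ≠ 0 := (hts.eventually self_mem_nhdsWithin)
  have hle : ∀ᶠ i in atTop, |ts i| ≤ 1 := by
    have := h0.eventually (Metric.closedBall_mem_nhds (0 : ℝ) one_pos)
    exact this.mono fun i hi => by simpa [Real.norm_eq_abs] using hi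
  obtain ⟨N, hN⟩ := (hne.and hle).exists_forall_of_atTop
  have hc := fun i => rq_eq (p := p) ν hH (hN (N + i) (by omega)).1 (hN (N + i) (by omega)).2
  choose U d hU hB hd hrq using hc
  -- compactness
  have hK1 : IsCompact (Set.pi Set.univ fun _ : n => Set.pi Set.univ fun _ : n =>
      Metric.closedBall (0 : ℂ) 1) :=
    isCompact_univ_pi fun _ => isCompact_univ_pi fun _ => isCompact_closedBall _ _
  have hK2 : IsCompact (Set.pi Set.univ fun _ : n => Metric.closedBall (0 : ℝ) (pr ν H)) :=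
    isCompact_univ_pi fun _ => isCompact_closedBall _ _
  obtain ⟨U', d', φ, hφ, hUl, hdl⟩ : ∃ (U' : Matrix n n ℂ) (d' : n → ℝ) (φ : ℕ → ℕ),
      StrictMono φ ∧ Tendsto (fun i => U (φ i)) atTop (𝓝 U') ∧
      Tendsto (fun i => d (φ i)) atTop (𝓝 d') := by
    let x : ℕ → (n → n → ℂ) × (n → ℝ) := fun i => (U i, d i)
    obtain ⟨Z, _, φ, hφ, hlim⟩ := (hK1.prod hK2).tendsto_subseq
      (x := x) (fun i => by
        constructor
        · intro a _ b _
          rw [mem_closedBall_zero_iff]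
          exact norm_entry_le_one (hU i) a b
        · intro a _
          rw [mem_closedBall_zero_iff]
          exact hd i a)
    exact ⟨Z.1, Z.2, φ, hφ, (continuous_fst.tendsto _).comp hlim,
      (continuous_snd.tendsto _).comp hlim⟩
  have hU' : U' ∈ unitaryGroup n ℂ := by
    rw [Matrix.mem_unitaryGroup_iff]
    have h1 : Tendsto (fun i => U (φ i) * star (U (φ i))) atTop
        (𝓝 (U' * star U')) := by
      have hc : Continuous fun M : Matrix n n ℂ => M * star M := by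
        exact continuous_id.matrix_mul continuous_id.matrix_conjTranspose
      exact (hc.tendsto _).comp hUl
    have h2 : (fun i => U (φ i) * star (U (φ i))) = fun _ => 1 := by
      ext1 i; exact Matrix.mem_unitaryGroup_iff.mp (hU (φ i))
    rw [h2] at h1
    exact (tendsto_nhds_unique h1 tendsto_const_nhds)
  have hB' : diagonal (fun i => (ν i : ℂ)) = U' *
      diagonal (fun i => (d' i : ℂ)) * U'ᴴ := by
    have h1 := tendsto_udu hUl hdl
    have h2 : Tendsto (fun i => U (φ i) * diagonal (fun j => (d (φ i) j : ℂ)) * (U (φ i))ᴴ) atTop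
        (𝓝 (diagonal (fun i => (ν i : ℂ)))) := by
      have h3 : ∀ i, U (φ i) * diagonal (fun j => (d (φ i) j : ℂ)) * (U (φ i))ᴴ =
          diagonal (fun i => (ν i : ℂ)) + ((ts (N + φ i) : ℝ) : ℂ) • H := fun i => (hB (φ i)).symm
      simp only [h3]
      have h4 : Tendsto (fun i => ts (N + φ i)) atTop (𝓝 0) :=
        h0.comp (tendsto_atTop_mono (fun i => (by omega : φ i ≤ N + φ i)) hφ.tendsto_atTop)
      have hc : Continuous fun t : ℝ => diagonal (fun i => (ν i : ℂ)) + ((t : ℝ) : ℂ) • H := by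
        fun_prop
      have h5 := (hc.tendsto 0).comp h4
      simpa [Function.comp_def] using h5
    exact tendsto_nhds_unique h2 h1
  refine ⟨fun i => N + φ i, ?_⟩
  have h6 : ∀ i, rq p ν H (ts (N + φ i)) = kq p ν H (U (φ i)) (d (φ i)) := fun i => hrq (φ i)
  simp only [h6]
  rw [← kq_limit ν H U' d' hU' hB']
  exact tendsto_kq hp ν H hUl hdl

/-- second difference quotient -/
noncomputable def sq2 (p : ℝ) (ν : n → ℝ) (H : Matrix n n ℂ) (t : ℝ) : ℝ :=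
  (trF (fun x => |x| ^ p) (diagonal (fun i => (ν i : ℂ)) + (t : ℂ) • H) +
   trF (fun x => |x| ^ p) (diagonal (fun i => (ν i : ℂ)) + ((-t : ℝ) : ℂ) • H) -
    2 * ∑ i, |ν i| ^ p) / t ^ 2

theorem sq2_eq (p : ℝ) (ν : n → ℝ) (H : Matrix n n ℂ) (t : ℝ) :
    sq2 p ν H t = rq p ν H t + rq p ν H (-t) := by
  unfold sq2 rq
  rw [neg_sq, ← add_div]
  congr 1
  ring

theorem sq2_nonneg {p : ℝ} (hp : 2 < p) (ν : n → ℝ) {H : Matrix n n ℂ} (hH : H.IsHermitian) {t : ℝ}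
    (ht0 : t ≠ 0) (ht : |t| ≤ 1) : 0 ≤ sq2 p ν H t := by
  rw [sq2_eq]
  have h1 := rq_nonneg hp ν hH ht0 ht
  have h2 := rq_nonneg hp ν hH (neg_ne_zero.mpr ht0) (by rwa [abs_neg])
  linarith

theorem sq2_le {p : ℝ} (hp : 2 < p) (ν : n → ℝ) {H : Matrix n n ℂ} (hH : H.IsHermitian) {t : ℝ}
    (ht0 : t ≠ 0) (ht : |t| ≤ 1) :
    sq2 p ν H t ≤ 2 * (f2 p (pr ν H) * ∑ i, ∑ j, ‖H i j‖ ^ 2) := by
  rw [sq2_eq]
  have h1 := rq_le hp ν hH ht0 ht
  have h2 := rq_le hp ν hH (neg_ne_zero.mpr ht0) (by rwa [abs_neg])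
  linarith

theorem sq2_tendsto {p : ℝ} (hp : 2 < p) (ν : n → ℝ) {H : Matrix n n ℂ} (hH : H.IsHermitian) :
    Tendsto (sq2 p ν H) (𝓝[≠] 0) (𝓝 (2 * ∑ i, ∑ l, ‖H i l‖ ^ 2 * dd p (ν i) (ν l))) := by
  have h1 := rq_tendsto hp ν hH
  have hneg : Tendsto (fun t : ℝ => -t) (𝓝[≠] 0) (𝓝[≠] 0) := by
    apply tendsto_nhdsWithin_of_tendsto_nhds_of_eventually_within
    · have := (continuous_neg (G := ℝ)).tendsto 0
      rw [neg_zero] at this
      exact this.mono_left nhdsWithin_le_nhds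
    · filter_upwards [self_mem_nhdsWithin] with t ht
      exact neg_ne_zero.mpr ht
  have h2 := h1.add (h1.comp hneg)
  rw [← two_mul] at h2
  refine h2.congr fun t => ?_
  rw [sq2_eq]; rfl

end Pool.Agent.MP_cd6b85_an
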