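import Pool.Agent.Lib.MP_cd6b85_an.Sphere
open Matrix Filter Topology Polynomial
open scoped ComplexOrder ENNReal
namespace Pool.Agent.MP_cd6b85_an

/-- Kronecker substitution `v ↦ X^n`, `u ↦ X`. -/
noncomputable def kron (n : ℕ) : ℂ[X][X] →+* ℂ[X] :=
  Polynomial.eval₂RingHom (Polynomial.expand ℂ n : ℂ[X] →+* ℂ[X]) X

theorem kron_coeff {n : ℕ} (Q : ℂ[X][X]) (hQ : Q.natDegree < n) (a b : ℕ) (ha : a < n) :
    (kron n Q).coeff (n * b + a) = (Q.coeff a).coeff b := by
  have hn : 0 < n := by omega
  have e : kron n Q = ∑ i ∈ Finset.range n, (Polynomial.expand ℂ n (Q.coeff i)) * X ^ i := by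
    unfold kron
    rw [Polynomial.coe_eval₂RingHom, Polynomial.eval₂_eq_sum_range' _ hQ]
    rfl
  rw [e, Polynomial.finsetSum_coeff, Finset.sum_eq_single a]
  · rw [Polynomial.coeff_mul_X_pow', if_pos (by omega)]
    rw [show n * b + a - a = n * b by omega, Polynomial.coeff_expand hn, if_pos (Dvd.intro _ rfl),
      Nat.mul_div_cancel_left _ hn]
  · intro i hi hia
    rw [Polynomial.coeff_mul_X_pow']
    split_ifs with h
    · rw [Polynomial.coeff_expand hn, if_neg]
      rintro ⟨c, hc⟩
      have hi' := Finset.mem_range.mp hi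
      have h1 : n * b + a = n * c + i := by omega
      have h2 : (n * b + a) % n = (n * c + i) % n := by rw [h1]
      rw [Nat.mul_add_mod, Nat.mul_add_mod, Nat.mod_eq_of_lt ha, Nat.mod_eq_of_lt hi'] at h2
      exact hia h2.symm
    · rfl
  · intro h
    exact absurd (Finset.mem_range.mpr ha) h

theorem kron_X (n : ℕ) : kron n X = X := by
  unfold kron
  rw [Polynomial.coe_eval₂RingHom, Polynomial.eval₂_X]

theorem kron_C (n : ℕ) (c : ℂ[X]) : kron n (C c) = Polynomial.expand ℂ n c := by
  unfold kron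
  rw [Polynomial.coe_eval₂RingHom, Polynomial.eval₂_C]
  rfl

theorem kron_injective {n : ℕ} (Q : ℂ[X][X]) (hQ : Q.natDegree < n) (h : kron n Q = 0) :
    Q = 0 := by
  ext a b
  by_cases ha : a < n
  · rw [← kron_coeff Q hQ a b ha, h]; simp
  · rw [Polynomial.coeff_eq_zero_of_natDegree_lt (p := Q) (by omega)]
    simp

theorem natDegree_det_le {r n : ℕ} (A : Matrix (Fin r) (Fin r) ℂ[X])
    (hA : ∀ i j, (A i j).natDegree ≤ n) : A.det.natDegree ≤ n * r := by
  rw [Matrix.det_apply]
  refine Polynomial.natDegree_sum_le_of_forall_le _ _ fun σ _ => ?_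
  have h1 : (∏ i, A (σ i) i).natDegree ≤ n * r := by
    refine (Polynomial.natDegree_prod_le _ _).trans ?_
    calc ∑ i, (A (σ i) i).natDegree ≤ ∑ _i : Fin r, n := Finset.sum_le_sum fun i _ => hA _ _
      _ = n * r := by simp [mul_comm]
  rcases Int.units_eq_one_or (Equiv.Perm.sign σ) with h | h
  · rw [h, one_smul]; exact h1
  · rw [h]
    simpa using h1

theorem det_poly {r n : ℕ} (hr : r < n) (A0 A1 A2 : Matrix (Fin r) (Fin r) ℂ) (x : Fin 3 → ℂ)
    (hx : (x 0 • A0 + x 1 • A1 + x 2 • A2).det ≠ 0) :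
    ∃ P : ℂ[X], P ≠ 0 ∧ P.natDegree ≤ n * r ∧
      ∀ s : ℂ, P.eval s = (s • A0 + A1 + s ^ n • A2).det := by
  let B : Matrix (Fin r) (Fin r) ℂ[X] := (X : ℂ[X]) • A0.map C + A1.map C + (X ^ n : ℂ[X]) • A2.map C
  refine ⟨B.det, ?_, ?_, ?_⟩
  · intro h0
    let A0' : Matrix (Fin r) (Fin r) ℂ[X] := A0.map C
    let B' : Matrix (Fin r) (Fin r) ℂ[X] := A1.map C + (X : ℂ[X]) • A2.map C
    let Q : ℂ[X][X] := det ((X : ℂ[X][X]) • A0'.map C + B'.map C)
    have hQd : Q.natDegree < n :=
      lt_of_le_of_lt (Polynomial.natDegree_det_X_add_C_le A0' B') (by simpa using hr)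
    have hQk : kron n Q = B.det := by
      simp only [Q, RingHom.map_det]
      congr 1
      ext1 i j
      simp only [B, A0', B', RingHom.mapMatrix_apply, Matrix.map_apply, Matrix.add_apply,
        Matrix.smul_apply, smul_eq_mul]
      rw [RingHom.map_add, RingHom.map_mul, kron_X, kron_C, kron_C, map_add, map_mul,
        Polynomial.expand_X, Polynomial.expand_C, Polynomial.expand_C, Polynomial.expand_C]
      ring
    have hQ0 : Q = 0 := kron_injective Q hQd (hQk.trans h0)
    have hall : ∀ u v : ℂ, (u • A0 + A1 + v • A2).det = 0 := by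
      intro u v
      have h1 : ((Polynomial.evalRingHom u).comp (Polynomial.mapRingHom (Polynomial.evalRingHom v))) Q
          = (u • A0 + A1 + v • A2).det := by
        simp only [Q, RingHom.map_det]
        congr 1
        ext1 i j
        simp only [A0', B', RingHom.mapMatrix_apply, Matrix.map_apply, Matrix.add_apply,
          Matrix.smul_apply, smul_eq_mul, RingHom.coe_comp,
          Function.comp_apply, Polynomial.coe_mapRingHom, Polynomial.coe_evalRingHom,
          Polynomial.map_add, Polynomial.map_mul,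
          Polynomial.map_X, Polynomial.map_C, Polynomial.eval_add, Polynomial.eval_mul,
          Polynomial.eval_X, Polynomial.eval_C]
        ring
      rw [← h1, hQ0, map_zero]
    have hne : ∀ τ : ℂ, τ ≠ 0 → (x 0 • A0 + τ • A1 + x 2 • A2).det = 0 := by
      intro τ hτ
      have : x 0 • A0 + τ • A1 + x 2 • A2 = τ • ((x 0 / τ) • A0 + A1 + (x 2 / τ) • A2) := by
        rw [smul_add, smul_add, smul_smul, smul_smul, mul_div_cancel₀ _ hτ, mul_div_cancel₀ _ hτ]
      rw [this, Matrix.det_smul, hall, mul_zero]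
    have hcont : Continuous fun τ : ℂ => (x 0 • A0 + τ • A1 + x 2 • A2).det := by
      apply Continuous.matrix_det
      fun_prop
    have hz : ∀ τ : ℂ, (x 0 • A0 + τ • A1 + x 2 • A2).det = 0 := by
      have hd : Dense ({0}ᶜ : Set ℂ) := dense_compl_singleton 0
      have := hcont.ext_on hd (continuous_const (y := (0 : ℂ))) fun τ hτ => hne τ hτ
      intro τ
      exact congrFun this τ
    exact hx (hz (x 1))
  · apply natDegree_det_le
    intro i j
    simp only [B, Matrix.add_apply, Matrix.smul_apply, Matrix.map_apply, smul_eq_mul]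
    have hn : 1 ≤ n := by omega
    refine (Polynomial.natDegree_add_le _ _).trans (max_le ?_ ?_)
    · refine (Polynomial.natDegree_add_le _ _).trans (max_le ?_ ?_)
      · refine (Polynomial.natDegree_mul_le).trans ?_
        simp only [Polynomial.natDegree_X, Polynomial.natDegree_C]; omega
      · simp
    · refine (Polynomial.natDegree_mul_le).trans ?_
      simp
  · intro s
    rw [← Polynomial.coe_evalRingHom, RingHom.map_det]
    congr 1
    ext1 i j
    simp only [B, RingHom.mapMatrix_apply, Matrix.map_apply, Matrix.add_apply,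
      Matrix.smul_apply, smul_eq_mul, Polynomial.coe_evalRingHom, Polynomial.eval_add,
      Polynomial.eval_mul, Polynomial.eval_X, Polynomial.eval_C, Polynomial.eval_pow]

end Pool.Agent.MP_cd6b85_an
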