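import Pool.Agent.Lib.MP_cd6b85_an.Sphere
open Matrix MeasureTheory Filter Topology
open scoped ComplexOrder ENNReal
namespace Pool.Agent.MP_cd6b85_an

theorem exists_discrete {p : ℝ} (hp : 0 < p) {m k : ℕ}
    (Y : ℕ → Fin m → Matrix (Fin k) (Fin k) ℂ)
    (hs : ∀ x : Fin m → ℂ, Summable (fun i => phi p (comb x (Y i))))
    (hpos : 0 < ∑' i, wt p (Y i)) :
    ∃ μ : ProbabilityMeasure (Sph p m k), ∀ x : Fin m → ℂ,
      ∫ Z, phi p (comb x Z.1) ∂(μ : Measure (Sph p m k)) =
        (∑' i, phi p (comb x (Y i))) / ∑' i, wt p (Y i) := by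
  have hws : Summable fun i => wt p (Y i) := by
    unfold wt
    refine summable_sum fun a _ => ?_
    have := hs (Pi.single a 1)
    simpa only [comb_single] using this
  set Ω := ∑' i, wt p (Y i) with hΩ
  -- some nonzero index
  obtain ⟨i₀, hi₀⟩ : ∃ i, wt p (Y i) ≠ 0 := by
    by_contra hcon
    push Not at hcon
    rw [hΩ] at hpos
    simp [hcon] at hpos
  have hpos' : ∀ i, wt p (Y i) ≠ 0 → 0 < wt p (Y i) := fun i hi =>
    lt_of_le_of_ne (wt_nonneg _) (Ne.symm hi)
  have hnorm : ∀ i, wt p (Y i) ≠ 0 →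
      wt p ((((wt p (Y i)) ^ (-1 / p) : ℝ) : ℂ) • Y i) = 1 := by
    intro i hi
    have h0 := hpos' i hi
    rw [wt_smul, Complex.norm_real, Real.norm_eq_abs,
      abs_of_nonneg (Real.rpow_nonneg h0.le _), ← Real.rpow_mul h0.le]
    have : -1 / p * p = -1 := by field_simp
    rw [this, Real.rpow_neg_one, inv_mul_cancel₀ hi]
  have hex : ∀ i, ∃ z : Sph p m k, wt p (Y i) ≠ 0 →
      z.1 = (((wt p (Y i)) ^ (-1 / p) : ℝ) : ℂ) • Y i := by
    intro i
    by_cases h : wt p (Y i) ≠ 0
    · exact ⟨⟨_, hnorm i h⟩, fun _ => rfl⟩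
    · exact ⟨⟨_, hnorm i₀ hi₀⟩, fun h' => absurd h' h⟩
  choose y hy using hex
  have hval : ∀ (x : Fin m → ℂ) i, wt p (Y i) * phi p (comb x (y i).1) = phi p (comb x (Y i)) := by
    intro x i
    by_cases hi : wt p (Y i) ≠ 0
    · have h0 := hpos' i hi
      rw [hy i hi, comb_smul_right, phi_smul, Complex.norm_real, Real.norm_eq_abs,
        abs_of_nonneg (Real.rpow_nonneg h0.le _), ← Real.rpow_mul h0.le]
      have : -1 / p * p = -1 := by field_simp
      rw [this, Real.rpow_neg_one, mul_inv_cancel_left₀ hi]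
    · push Not at hi
      have hz := wt_eq_zero hp hi
      rw [hi, zero_mul, hz]
      have : comb x (0 : Fin m → Matrix (Fin k) (Fin k) ℂ) = 0 := by simp [comb]
      rw [this, phi_zero hp]
  have hsum1 : HasSum (fun i => ENNReal.ofReal (wt p (Y i) / Ω)) 1 := by
    have h1 : HasSum (fun i => wt p (Y i) / Ω) 1 := by
      have := hws.hasSum.div_const Ω
      rwa [← hΩ, div_self hpos.ne'] at this
    have h2 : HasSum (fun i => (wt p (Y i) / Ω).toNNReal) 1 := by
      rw [← NNReal.hasSum_coe]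
      convert h1 using 1
      · ext i
        rw [Real.coe_toNNReal _ (div_nonneg (wt_nonneg _) hpos.le)]
      · simp
    have h3 := ENNReal.hasSum_coe.mpr h2
    exact h3
  let q : PMF ℕ := ⟨_, hsum1⟩
  have hym : Measurable y := measurable_from_top
  let μ : Measure (Sph p m k) := Measure.map y q.toMeasure
  have hμ : IsProbabilityMeasure μ := Measure.isProbabilityMeasure_map hym.aemeasurable
  refine ⟨⟨μ, hμ⟩, fun x => ?_⟩
  have hcont := continuous_evalSph (m := m) (k := k) hp x
  have := compactSpace_sph hp m k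
  obtain ⟨C, hC⟩ : ∃ C, ∀ Z : Sph p m k, ‖phi p (comb x Z.1)‖ ≤ C := by
    let g : BoundedContinuousFunction (Sph p m k) ℝ :=
      BoundedContinuousFunction.mkOfCompact ⟨_, hcont⟩
    exact ⟨‖g‖, fun Z => g.norm_coe_le_norm Z⟩
  change ∫ Z, phi p (comb x Z.1) ∂(Measure.map y q.toMeasure) = _
  rw [integral_map hym.aemeasurable hcont.aestronglyMeasurable]
  rw [PMF.integral_eq_tsum]
  · have : ∀ i, (q i).toReal • phi p (comb x (y i).1) = phi p (comb x (Y i)) / Ω := by
      intro i
      have e : q i = ENNReal.ofReal (wt p (Y i) / Ω) := rfl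
      rw [e, ENNReal.toReal_ofReal (div_nonneg (wt_nonneg _) hpos.le), smul_eq_mul, ← hval x i]
      ring
    simp only [this]
    rw [tsum_div_const]
  · refine Integrable.of_bound (measurable_from_top.aestronglyMeasurable) C ?_
    exact Filter.Eventually.of_forall fun i => hC (y i)

theorem measure_rep {p : ℝ} (hp : 0 < p) {m N k : ℕ} (E : Fin m → Matrix (Fin N) (Fin N) ℂ)
    (hE : 0 < wt p E) (h : ApproxRep p E k) :
    ∃ μ : ProbabilityMeasure (Sph p m k), ∀ x : Fin m → ℂ,
      ∫ Z, phi p (comb x Z.1) ∂(μ : Measure (Sph p m k)) = phi p (comb x E) / wt p E := by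
  have := compactSpace_sph hp m k
  have hε : ∀ n : ℕ, (0 : ℝ) < 1 / ((n : ℝ) + 1) := fun n => by positivity
  choose Y hY using fun n : ℕ => h (1 / ((n : ℝ) + 1)) (hε n)
  have hwt : ∀ n, ∑' i, wt p (Y n i) = ∑ a, ∑' i, phi p (comb (Pi.single a 1) (Y n i)) := by
    intro n
    unfold wt
    simp only [comb_single]
    rw [Summable.tsum_finsetSum]
    intro a _
    have := (hY n (Pi.single a 1)).1
    simpa only [comb_single] using this
  have hlow : ∀ n, wt p E ≤ ∑' i, wt p (Y n i) := by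
    intro n
    rw [hwt, wt]
    refine Finset.sum_le_sum fun a _ => ?_
    have := (hY n (Pi.single a 1)).2.1
    rwa [comb_single] at this
  have hup : ∀ n : ℕ, ∑' i, wt p (Y n i) ≤ (1 + 1 / ((n : ℝ) + 1)) * wt p E := by
    intro n
    rw [hwt, wt, Finset.mul_sum]
    refine Finset.sum_le_sum fun a _ => ?_
    have := (hY n (Pi.single a 1)).2.2
    rwa [comb_single a E] at this
  have hpos : ∀ n, 0 < ∑' i, wt p (Y n i) := fun n => lt_of_lt_of_le hE (hlow n)
  choose μ hμ using fun n => exists_discrete hp (Y n) (fun x => (hY n x).1) (hpos n)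
  -- the limits
  have hlim1 : Tendsto (fun n : ℕ => (1 + 1 / ((n : ℝ) + 1))) atTop (𝓝 1) := by
    have := (tendsto_one_div_add_atTop_nhds_zero_nat (𝕜 := ℝ)).const_add 1
    simpa using this
  have hwtlim : Tendsto (fun n => ∑' i, wt p (Y n i)) atTop (𝓝 (wt p E)) := by
    refine tendsto_of_tendsto_of_tendsto_of_le_of_le tendsto_const_nhds ?_ hlow hup
    simpa using hlim1.mul_const (wt p E)
  have hlim : ∀ x : Fin m → ℂ, Tendsto (fun n => ∫ Z, phi p (comb x Z.1) ∂(μ n : Measure (Sph p m k)))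
      atTop (𝓝 (phi p (comb x E) / wt p E)) := by
    intro x
    simp only [hμ]
    refine Tendsto.div ?_ hwtlim hE.ne'
    refine tendsto_of_tendsto_of_tendsto_of_le_of_le tendsto_const_nhds ?_
      (fun n => (hY n x).2.1) (fun n => (hY n x).2.2)
    simpa using hlim1.mul_const (phi p (comb x E))
  -- ultrafilter limit
  let U : Ultrafilter ℕ := hyperfilter ℕ
  have hU : (U : Filter ℕ) ≤ atTop := by
    have := Filter.hyperfilter_le_cofinite (α := ℕ)
    rwa [Nat.cofinite_eq_atTop] at this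
  obtain ⟨ν, -, hν⟩ := isCompact_univ.ultrafilter_le_nhds (U.map μ) (by simp)
  refine ⟨ν, fun x => ?_⟩
  have hcont := continuous_evalSph (m := m) (k := k) hp x
  let g : BoundedContinuousFunction (Sph p m k) ℝ :=
    BoundedContinuousFunction.mkOfCompact ⟨_, hcont⟩
  have ht : Tendsto μ U (𝓝 ν) := hν
  have h1 := (ProbabilityMeasure.tendsto_iff_forall_integral_tendsto.mp ht) g
  have h2 := (hlim x).mono_left hU
  exact tendsto_nhds_unique h1 h2

end Pool.Agent.MP_cd6b85_an
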