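import Pool.Agent.Lib.MP_cd6b85_an.Kron
import Pool.Agent.Lib.MP_cd6b85_an.GoodPoint
import Pool.Agent.Lib.MP_cd6b85_an.MeasureRep
open Matrix Filter Topology MeasureTheory
open scoped ComplexOrder ENNReal
namespace Pool.Agent.MP_cd6b85_an

variable {m n : Type*} [Fintype m] [DecidableEq m] [Fintype n] [DecidableEq n]

/-- Upper bound for second differences, `p ≤ 2`. -/
theorem lowp_upper {p : ℝ} (hp0 : 0 < p) (hp2 : p ≤ 2) (M K : Matrix m n ℂ) :
    phi p (M + K) + phi p (M - K) ≤ 2 * phi p M + 2 * phi p K := by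
  have hc : ConcaveOn ℝ (Set.Ici 0) (fun x : ℝ => x ^ (p / 2)) :=
    concaveOn_rpow' (by linarith) (by linarith)
  have h1 := trF_concave_midpoint hc (Matrix.posSemidef_conjTranspose_mul_self (M + K))
    (Matrix.posSemidef_conjTranspose_mul_self (M - K))
  have h2 := trF_rotfeld hc (by simp [Real.zero_rpow (show p / 2 ≠ 0 by positivity)]) M K
  have h3 : (1 / 2 : ℂ) • ((M + K)ᴴ * (M + K) + (M - K)ᴴ * (M - K)) = Mᴴ * M + Kᴴ * K := by
    have : (M + K)ᴴ * (M + K) + (M - K)ᴴ * (M - K) = (2 : ℂ) • (Mᴴ * M + Kᴴ * K) := by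
      rw [Matrix.conjTranspose_add, Matrix.conjTranspose_sub, Matrix.add_mul, Matrix.mul_add,
        Matrix.mul_add, Matrix.sub_mul, Matrix.mul_sub, Matrix.mul_sub, two_smul]
      abel
    rw [this, smul_smul]; norm_num
  rw [h3] at h1
  unfold phi
  linarith

theorem rank_thin {M : Matrix m n ℂ} {r : ℕ} {V : Matrix m (Fin r) ℂ} {W : Matrix n (Fin r) ℂ}
    {σ : Fin r → ℝ} (hσ : ∀ i, 0 < σ i) (hV : Vᴴ * V = 1) (hW : Wᴴ * W = 1)
    (hM : M = V * diagonal (fun i => (σ i : ℂ)) * Wᴴ) : M.rank = r := by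
  apply le_antisymm
  · rw [hM]
    refine (Matrix.rank_mul_le_right _ _).trans ?_
    simpa using Matrix.rank_le_card_height Wᴴ
  · have h1 : Vᴴ * M * W = diagonal (fun i => (σ i : ℂ)) := by
      rw [hM]
      calc Vᴴ * (V * diagonal (fun i => (σ i : ℂ)) * Wᴴ) * W
          = (Vᴴ * V) * diagonal (fun i => (σ i : ℂ)) * (Wᴴ * W) := by simp only [Matrix.mul_assoc]
        _ = _ := by rw [hV, hW, Matrix.one_mul, Matrix.mul_one]
    have h2 : (diagonal (fun i => (σ i : ℂ)) : Matrix (Fin r) (Fin r) ℂ).rank = r := by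
      rw [Matrix.rank_of_isUnit]
      · simp
      · rw [Matrix.isUnit_iff_isUnit_det, Matrix.det_diagonal, isUnit_iff_ne_zero,
          Finset.prod_ne_zero_iff]
        intro i _
        exact_mod_cast (hσ i).ne'
    rw [← h2, ← h1]
    exact (Matrix.rank_mul_le_left _ _).trans (Matrix.rank_mul_le_right _ _)

theorem rank_ge_of_det {M : Matrix m n ℂ} {r : ℕ} {V : Matrix m (Fin r) ℂ}
    {W : Matrix n (Fin r) ℂ} (h : (Vᴴ * M * W).det ≠ 0) : r ≤ M.rank := by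
  have h2 : (Vᴴ * M * W).rank = r := by
    rw [Matrix.rank_of_isUnit]
    · simp
    · rwa [Matrix.isUnit_iff_isUnit_det, isUnit_iff_ne_zero]
  calc r = (Vᴴ * M * W).rank := h2.symm
    _ ≤ M.rank := (Matrix.rank_mul_le_left _ _).trans (Matrix.rank_mul_le_right _ _)

theorem comb_three {k : ℕ} (x : Fin 3 → ℂ) (Y : Fin 3 → Matrix (Fin k) (Fin k) ℂ) :
    comb x Y = x 0 • Y 0 + x 1 • Y 1 + x 2 • Y 2 := by
  simp [comb, Fin.sum_univ_three]

/-- For each tuple, all but at most `n * k` of the points `(s, 1, s^n)` are good. -/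
theorem bad_finite {p : ℝ} (hp0 : 0 < p) (hp2 : p ≤ 2) {k n : ℕ} (hkn : k < n)
    (Y : Fin 3 → Matrix (Fin k) (Fin k) ℂ) :
    ∃ B : Finset ℂ, B.card ≤ n * k ∧ ∀ s : ℂ, s ∉ B → ∃ C : ℝ, ∀ᶠ t : ℝ in 𝓝 0,
      phi p (comb ![s + t, 1, s ^ n] Y) + phi p (comb ![s - t, 1, s ^ n] Y) ≤
      2 * phi p (comb ![s, 1, s ^ n] Y) + C * t ^ 2 := by
  classical
  -- maximal rank
  have hex : ∃ r : ℕ, ∃ x : Fin 3 → ℂ, (comb x Y).rank = r ∧ ∀ y : Fin 3 → ℂ,
      (comb y Y).rank ≤ r := by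
    have hfin : (Set.range fun x : Fin 3 → ℂ => (comb x Y).rank).Finite := by
      refine (Set.finite_Iic k).subset ?_
      rintro _ ⟨x, rfl⟩
      simpa using (Matrix.rank_le_card_width (comb x Y))
    have hne : (Set.range fun x : Fin 3 → ℂ => (comb x Y).rank).Nonempty := ⟨_, ⟨0, rfl⟩⟩
    obtain ⟨r, ⟨x, hx⟩, hmax⟩ := hfin.exists_maximal hne
    refine ⟨r, x, hx, fun y => ?_⟩
    by_contra hcon
    push Not at hcon
    have := hmax ⟨y, rfl⟩ hcon.le
    simp only at this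
    omega
  obtain ⟨r, x, hx, hmax⟩ := hex
  obtain ⟨r', V, W, σ, hσ, hV, hW, hM⟩ := thin_svd (comb x Y)
  have hr' : r' = r := by rw [← hx, rank_thin hσ hV hW hM]
  subst hr'
  have hrk : r' ≤ k := by
    rw [← hx]; simpa using (Matrix.rank_le_card_width (comb x Y))
  have hcompr : ∀ y : Fin 3 → ℂ, Vᴴ * comb y Y * W =
      y 0 • (Vᴴ * Y 0 * W) + y 1 • (Vᴴ * Y 1 * W) + y 2 • (Vᴴ * Y 2 * W) := by
    intro y
    rw [comb_three]
    simp only [Matrix.mul_add, Matrix.add_mul, Matrix.mul_smul, Matrix.smul_mul]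
  have hdet : (x 0 • (Vᴴ * Y 0 * W) + x 1 • (Vᴴ * Y 1 * W) + x 2 • (Vᴴ * Y 2 * W)).det ≠ 0 := by
    rw [← hcompr, hM]
    have : Vᴴ * (V * diagonal (fun i => (σ i : ℂ)) * Wᴴ) * W = diagonal (fun i => (σ i : ℂ)) := by
      calc Vᴴ * (V * diagonal (fun i => (σ i : ℂ)) * Wᴴ) * W
          = (Vᴴ * V) * diagonal (fun i => (σ i : ℂ)) * (Wᴴ * W) := by simp only [Matrix.mul_assoc]
        _ = _ := by rw [hV, hW, Matrix.one_mul, Matrix.mul_one]
    rw [this, Matrix.det_diagonal, Finset.prod_ne_zero_iff]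
    intro i _
    exact_mod_cast (hσ i).ne'
  obtain ⟨P, hP0, hPd, hPe⟩ := det_poly (lt_of_le_of_lt hrk hkn) _ _ _ x hdet
  refine ⟨P.roots.toFinset, ?_, ?_⟩
  · calc P.roots.toFinset.card ≤ Multiset.card P.roots := Multiset.toFinset_card_le _
      _ ≤ P.natDegree := P.card_roots'
      _ ≤ n * r' := hPd
      _ ≤ n * k := Nat.mul_le_mul_left _ hrk
  · intro s hs
    have hs' : P.eval s ≠ 0 := by
      intro h0
      apply hs
      rw [Multiset.mem_toFinset, Polynomial.mem_roots hP0]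
      exact h0
    rw [hPe] at hs'
    have hrank : (comb ![s, 1, s ^ n] Y).rank = r' := by
      apply le_antisymm (hmax _)
      apply rank_ge_of_det (V := V) (W := W)
      rw [hcompr]
      simpa using hs'
    obtain ⟨r₂, V₂, W₂, σ₂, hσ₂, hV₂, hW₂, hM₂⟩ := thin_svd (comb ![s, 1, s ^ n] Y)
    have hr₂ : r₂ = r' := by rw [← hrank, rank_thin hσ₂ hV₂ hW₂ hM₂]
    subst hr₂
    have e1 : ∀ t : ℂ, comb ![s, 1, s ^ n] Y + t • Y 0 = comb ![s + t, 1, s ^ n] Y := by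
      intro t
      rw [comb_three, comb_three]
      simp [add_smul]
      abel
    obtain ⟨C, hC⟩ := good_point hp0 hp2 (comb ![s, 1, s ^ n] Y) (Y 0) V₂ W₂ σ₂ hσ₂ hV₂ hW₂ hM₂
      (fun t => by rw [e1]; exact hmax _)
    refine ⟨C, hC.mono fun t ht => ?_⟩
    rw [e1, e1] at ht
    simpa [sub_eq_add_neg] using ht

end Pool.Agent.MP_cd6b85_an
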