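import Pool.Agent.Lib.MP_cd6b85_an.LowA
open Matrix Filter Topology MeasureTheory
open scoped ComplexOrder ENNReal
namespace Pool.Agent.MP_cd6b85_an

/-- The three-dimensional family `1, N, e_{n,1}`. -/
def lowE (n : ℕ) : Fin 3 → Matrix (Fin n) (Fin n) ℂ :=
  ![1, Matrix.of fun i j => if (i : ℕ) + 1 = j then -1 else 0,
    Matrix.of fun i j => if (i : ℕ) + 1 = n ∧ (j : ℕ) = 0 then -1 else 0]

/-- The Vandermonde type unitary. -/
noncomputable def vdm (n : ℕ) (ω s : ℂ) : Matrix (Fin n) (Fin n) ℂ :=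
  Matrix.of fun i l => ((1 / Real.sqrt n : ℝ) : ℂ) * (s * ω ^ (l : ℕ)) ^ (i : ℕ)

theorem geom_zero {n : ℕ} {ω : ℂ} (hω : IsPrimitiveRoot ω n) (a b : Fin n)
    (hab : a ≠ b) : ∑ i ∈ Finset.range n, (ω ^ (a : ℕ) / ω ^ (b : ℕ)) ^ i = 0 := by
  have hn : 0 < n := a.pos
  have hω0 : ω ≠ 0 := hω.ne_zero hn.ne'
  have hz : (ω ^ (a : ℕ) / ω ^ (b : ℕ)) ≠ 1 := by
    intro h
    rw [div_eq_one_iff_eq (pow_ne_zero _ hω0)] at h
    exact hab (Fin.ext (hω.pow_inj a.2 b.2 h))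
  rw [geom_sum_eq hz, div_pow, ← pow_mul, ← pow_mul, mul_comm, pow_mul, hω.pow_eq_one,
    mul_comm, pow_mul, hω.pow_eq_one]
  simp

theorem vdm_unitary {n : ℕ} {ω s : ℂ} (hn : 0 < n) (hω : IsPrimitiveRoot ω n) (hs : ‖s‖ = 1) :
    (vdm n ω s)ᴴ * vdm n ω s = 1 := by
  have hω1 : ‖ω‖ = 1 := hω.norm'_eq_one hn.ne'
  have hω0 : ω ≠ 0 := hω.ne_zero hn.ne'
  have hs0 : s ≠ 0 := by intro h; simp [h] at hs
  have hstar : ∀ z : ℂ, ‖z‖ = 1 → star z = z⁻¹ := by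
    intro z hz
    rw [Complex.inv_def, Complex.normSq_eq_norm_sq, hz]; simp
  have hnn : (0 : ℝ) < n := by exact_mod_cast hn
  have hsq : ((1 / Real.sqrt n : ℝ) : ℂ) * ((1 / Real.sqrt n : ℝ) : ℂ) = 1 / n := by
    rw [← Complex.ofReal_mul, div_mul_div_comm, Real.mul_self_sqrt hnn.le]; simp
  ext a b
  rw [Matrix.mul_apply]
  simp only [Matrix.conjTranspose_apply, vdm, Matrix.of_apply]
  have e1 : ∀ i : Fin n, star (((1 / Real.sqrt n : ℝ) : ℂ) * (s * ω ^ (a : ℕ)) ^ (i : ℕ)) *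
      (((1 / Real.sqrt n : ℝ) : ℂ) * (s * ω ^ (b : ℕ)) ^ (i : ℕ)) =
      (1 / n : ℂ) * (ω ^ (b : ℕ) / ω ^ (a : ℕ)) ^ (i : ℕ) := by
    intro i
    rw [star_mul', star_pow, hstar (s * ω ^ (a : ℕ)) (by rw [norm_mul, norm_pow, hs, hω1]; simp)]
    have : star ((1 / Real.sqrt n : ℝ) : ℂ) = ((1 / Real.sqrt n : ℝ) : ℂ) := Complex.conj_ofReal _
    rw [this]
    calc ((1 / Real.sqrt n : ℝ) : ℂ) * (s * ω ^ (a : ℕ))⁻¹ ^ (i : ℕ) *
          (((1 / Real.sqrt n : ℝ) : ℂ) * (s * ω ^ (b : ℕ)) ^ (i : ℕ))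
        = (((1 / Real.sqrt n : ℝ) : ℂ) * ((1 / Real.sqrt n : ℝ) : ℂ)) *
            ((s * ω ^ (a : ℕ))⁻¹ * (s * ω ^ (b : ℕ))) ^ (i : ℕ) := by rw [mul_pow]; ring
      _ = _ := by
        rw [hsq]
        congr 2
        field_simp
  rw [Finset.sum_congr rfl fun i _ => e1 i, ← Finset.mul_sum,
    Fin.sum_univ_eq_sum_range (fun i => (ω ^ (b : ℕ) / ω ^ (a : ℕ)) ^ i) n]
  by_cases hab : a = b
  · subst hab
    rw [div_self (pow_ne_zero _ hω0)]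
    have : (n : ℂ) ≠ 0 := by exact_mod_cast hn.ne'
    simp [this]
  · rw [geom_zero hω b a (Ne.symm hab), mul_zero, Matrix.one_apply_ne hab]

theorem lowE_diag {n : ℕ} {ω s : ℂ} (hn : 0 < n) (hω : IsPrimitiveRoot ω n) (u : ℂ) :
    comb ![u, 1, s ^ n] (lowE n) * vdm n ω s =
      vdm n ω s * diagonal (fun l : Fin n => u - s * ω ^ (l : ℕ)) := by
  rw [comb_three]
  ext i l
  rw [Matrix.mul_diagonal, Matrix.mul_apply]
  simp only [lowE, Matrix.add_apply, Matrix.smul_apply, Matrix.of_apply, smul_eq_mul,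
    Matrix.cons_val_zero, Matrix.cons_val_one, Matrix.cons_val]
  simp only [add_mul, Finset.sum_add_distrib]
  have h1 : ∑ j, u * (1 : Matrix (Fin n) (Fin n) ℂ) i j * vdm n ω s j l = u * vdm n ω s i l := by
    rw [Finset.sum_eq_single i]
    · simp
    · intro b _ hb; rw [Matrix.one_apply_ne hb.symm]; ring
    · simp
  rw [h1]
  by_cases hi : (i : ℕ) + 1 < n
  · have h2 : ∑ j : Fin n, 1 * (if (i : ℕ) + 1 = (j : ℕ) then (-1 : ℂ) else 0) * vdm n ω s j l =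
        - vdm n ω s ⟨i + 1, hi⟩ l := by
      rw [Finset.sum_eq_single ⟨i + 1, hi⟩]
      · simp
      · intro b _ hb
        rw [if_neg]; · ring
        intro h; exact hb (Fin.ext h.symm)
      · simp
    have h3 : ∑ j : Fin n, s ^ n * (if (i : ℕ) + 1 = n ∧ (j : ℕ) = 0 then (-1 : ℂ) else 0) *
        vdm n ω s j l = 0 := by
      apply Finset.sum_eq_zero
      intro j _
      rw [if_neg (by omega)]; ring
    rw [h2, h3]
    simp only [vdm, Matrix.of_apply]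
    ring
  · have hi' : (i : ℕ) + 1 = n := by omega
    have h2 : ∑ j : Fin n, 1 * (if (i : ℕ) + 1 = (j : ℕ) then (-1 : ℂ) else 0) * vdm n ω s j l =
        0 := by
      apply Finset.sum_eq_zero
      intro j _
      rw [if_neg (by have := j.2; omega)]; ring
    have h3 : ∑ j : Fin n, s ^ n * (if (i : ℕ) + 1 = n ∧ (j : ℕ) = 0 then (-1 : ℂ) else 0) *
        vdm n ω s j l = - s ^ n * vdm n ω s ⟨0, hn⟩ l := by
      rw [Finset.sum_eq_single ⟨0, hn⟩]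
      · simp [hi']
      · intro b _ hb
        rw [if_neg]; · ring
        rintro ⟨_, h⟩; exact hb (Fin.ext h)
      · simp
    rw [h2, h3]
    simp only [vdm, Matrix.of_apply]
    have h4 : (s * ω ^ (l : ℕ)) ^ (i : ℕ) * (s * ω ^ (l : ℕ)) = s ^ n := by
      rw [← pow_succ, hi', mul_pow, ← pow_mul, mul_comm (l : ℕ), pow_mul, hω.pow_eq_one]; simp
    calc u * (((1 / Real.sqrt n : ℝ) : ℂ) * (s * ω ^ (l : ℕ)) ^ (i : ℕ)) + 0 +
          -s ^ n * (((1 / Real.sqrt n : ℝ) : ℂ) * (s * ω ^ (l : ℕ)) ^ 0)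
        = u * (((1 / Real.sqrt n : ℝ) : ℂ) * (s * ω ^ (l : ℕ)) ^ (i : ℕ)) -
          ((1 / Real.sqrt n : ℝ) : ℂ) * ((s * ω ^ (l : ℕ)) ^ (i : ℕ) * (s * ω ^ (l : ℕ))) := by
          rw [h4]; ring
      _ = _ := by ring

theorem phi_lowE {p : ℝ} {n : ℕ} {ω s : ℂ} (hn : 0 < n) (hω : IsPrimitiveRoot ω n)
    (hs : ‖s‖ = 1) (u : ℂ) :
    phi p (comb ![u, 1, s ^ n] (lowE n)) = ∑ l : Fin n, ‖u - s * ω ^ (l : ℕ)‖ ^ p := by
  have hU := vdm_unitary hn hω hs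
  have hU' : vdm n ω s * (vdm n ω s)ᴴ = 1 := mul_eq_one_comm.mp hU
  have h1 : comb ![u, 1, s ^ n] (lowE n) = vdm n ω s *
      diagonal (fun l : Fin n => u - s * ω ^ (l : ℕ)) * (vdm n ω s)ᴴ := by
    rw [← lowE_diag hn hω u, Matrix.mul_assoc, hU', Matrix.mul_one]
  have hmem : vdm n ω s ∈ unitaryGroup (Fin n) ℂ := by
    rw [Matrix.mem_unitaryGroup_iff]; exact hU'
  rw [h1]
  have := phi_unitary p (diagonal (fun l : Fin n => u - s * ω ^ (l : ℕ))) hmem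
    (V := (vdm n ω s)ᴴ) ?_
  · rw [this, phi_diagonal]
  · rw [Matrix.mem_unitaryGroup_iff]
    simpa [Matrix.star_eq_conjTranspose] using hU

theorem norm_rpow_mid {p : ℝ} (hp : 1 ≤ p) (a t : ℂ) :
    2 * ‖a‖ ^ p ≤ ‖a + t‖ ^ p + ‖a - t‖ ^ p := by
  have hc := convexOn_rpow hp
  have h1 := hc.2 (norm_nonneg (a + t)) (norm_nonneg (a - t)) (show (0 : ℝ) ≤ 1 / 2 by norm_num)
    (show (0 : ℝ) ≤ 1 / 2 by norm_num) (by norm_num)
  simp only [smul_eq_mul] at h1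
  have h2 : ‖a‖ ≤ 1 / 2 * ‖a + t‖ + 1 / 2 * ‖a - t‖ := by
    have h3 : a = (1 / 2 : ℂ) * (a + t) + (1 / 2 : ℂ) * (a - t) := by ring
    calc ‖a‖ = ‖(1 / 2 : ℂ) * (a + t) + (1 / 2 : ℂ) * (a - t)‖ := by rw [← h3]
      _ ≤ _ := by
        refine (norm_add_le _ _).trans ?_
        rw [norm_mul, norm_mul]; norm_num
  have h3 := Real.rpow_le_rpow (norm_nonneg a) h2 (show 0 ≤ p by linarith)
  linarith

/-- The second difference on the `E`-side is large. -/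
theorem lowE_lower {p : ℝ} (hp : 1 ≤ p) {n : ℕ} {s : ℂ} (hn : 0 < n) (hs : ‖s‖ = 1) (t : ℝ) :
    2 * phi p (comb ![s, 1, s ^ n] (lowE n)) + 2 * |t| ^ p ≤
      phi p (comb ![s + t, 1, s ^ n] (lowE n)) + phi p (comb ![s - t, 1, s ^ n] (lowE n)) := by
  have hω : IsPrimitiveRoot (Complex.exp (2 * Real.pi * Complex.I / n)) n :=
    Complex.isPrimitiveRoot_exp n hn.ne'
  set ω := Complex.exp (2 * Real.pi * Complex.I / n) with hωdef
  rw [phi_lowE hn hω hs, phi_lowE hn hω hs, phi_lowE hn hω hs, Finset.mul_sum,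
    ← Finset.sum_add_distrib]
  have h0 : ∀ l : Fin n, 2 * ‖s - s * ω ^ (l : ℕ)‖ ^ p ≤
      ‖s + t - s * ω ^ (l : ℕ)‖ ^ p + ‖s - t - s * ω ^ (l : ℕ)‖ ^ p := by
    intro l
    have := norm_rpow_mid hp (s - s * ω ^ (l : ℕ)) (t : ℂ)
    rw [show s + t - s * ω ^ (l : ℕ) = s - s * ω ^ (l : ℕ) + t by ring,
      show s - t - s * ω ^ (l : ℕ) = s - s * ω ^ (l : ℕ) - t by ring]
    exact this
  rw [← Finset.add_sum_erase _ _ (Finset.mem_univ (⟨0, hn⟩ : Fin n)),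
    ← Finset.add_sum_erase _ (fun l : Fin n => ‖s + t - s * ω ^ (l : ℕ)‖ ^ p +
      ‖s - t - s * ω ^ (l : ℕ)‖ ^ p) (Finset.mem_univ (⟨0, hn⟩ : Fin n))]
  have h1 := Finset.sum_le_sum (s := Finset.univ.erase (⟨0, hn⟩ : Fin n)) fun l _ => h0 l
  have h2 : 2 * ‖s - s * ω ^ ((⟨0, hn⟩ : Fin n) : ℕ)‖ ^ p = 0 := by
    simp [Real.zero_rpow (show p ≠ 0 by linarith)]
  have h3 : ‖s + t - s * ω ^ ((⟨0, hn⟩ : Fin n) : ℕ)‖ ^ p +
      ‖s - t - s * ω ^ ((⟨0, hn⟩ : Fin n) : ℕ)‖ ^ p = 2 * |t| ^ p := by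
    have e1 : s + t - s * ω ^ ((⟨0, hn⟩ : Fin n) : ℕ) = t := by simp
    have e2 : s - t - s * ω ^ ((⟨0, hn⟩ : Fin n) : ℕ) = -t := by simp
    rw [e1, e2, norm_neg, Complex.norm_real, Real.norm_eq_abs]; ring
  rw [h2, h3]
  linarith

end Pool.Agent.MP_cd6b85_an
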