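import Pool.Agent.Lib.MP_cd6b85_an.LowB
open Matrix Filter Topology MeasureTheory
open scoped ComplexOrder ENNReal
namespace Pool.Agent.MP_cd6b85_an

/-- `|t|^{-p}` times the second difference at `(s,1,s^n)` in direction `e_0`. -/
noncomputable def dq (p : ℝ) {k : ℕ} (n : ℕ) (s : ℂ) (t : ℝ) (Y : Fin 3 → Matrix (Fin k) (Fin k) ℂ) :
    ℝ :=
  (|t| ^ p)⁻¹ * (phi p (comb ![s + t, 1, s ^ n] Y) + phi p (comb ![s - t, 1, s ^ n] Y) -
    2 * phi p (comb ![s, 1, s ^ n] Y))

theorem dq_le {p : ℝ} (hp0 : 0 < p) (hp2 : p ≤ 2) {k : ℕ} (n : ℕ) (s : ℂ) {t : ℝ} (ht : t ≠ 0)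
    (Y : Fin 3 → Matrix (Fin k) (Fin k) ℂ) : dq p n s t Y ≤ 2 * phi p (Y 0) := by
  have ht' : 0 < |t| ^ p := Real.rpow_pos_of_pos (abs_pos.mpr ht) p
  have h1 := lowp_upper hp0 hp2 (comb ![s, 1, s ^ n] Y) ((t : ℂ) • Y 0)
  have e1 : comb ![s, 1, s ^ n] Y + (t : ℂ) • Y 0 = comb ![s + t, 1, s ^ n] Y := by
    rw [comb_three, comb_three]
    simp [add_smul]
    abel
  have e2 : comb ![s, 1, s ^ n] Y - (t : ℂ) • Y 0 = comb ![s - t, 1, s ^ n] Y := by
    rw [comb_three, comb_three]
    simp [sub_smul]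
    abel
  rw [e1, e2, phi_smul, Complex.norm_real, Real.norm_eq_abs] at h1
  unfold dq
  rw [inv_mul_le_iff₀ ht']
  linarith

theorem continuous_dq {p : ℝ} (hp0 : 0 < p) {k : ℕ} (n : ℕ) (s : ℂ) (t : ℝ) :
    Continuous fun Y : Sph p 3 k => dq p n s t Y.1 := by
  unfold dq
  have h := fun x => continuous_evalSph (k := k) hp0 (m := 3) x
  exact continuous_const.mul (((h _).add (h _)).sub (continuous_const.mul (h _)))

theorem lowp_contra {p : ℝ} (hp1 : 1 ≤ p) (hp2 : p < 2) {k n : ℕ} (hkn : k < n) :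
    ¬ ApproxRep p (lowE n) k := by
  classical
  intro hrep
  have hp0 : 0 < p := by linarith
  have hn : 0 < n := by omega
  have hphi0 : phi p (lowE n 0) = n := by
    have : lowE n 0 = diagonal (fun _ => (1 : ℂ)) := by simp [lowE]
    rw [this, phi_diagonal]; simp
  have hwt : 0 < wt p (lowE n) := by
    have h1 : phi p (lowE n 0) ≤ wt p (lowE n) :=
      Finset.single_le_sum (f := fun a => phi p (lowE n a)) (fun _ _ => phi_nonneg _ _)
        (Finset.mem_univ 0)
    rw [hphi0] at h1
    have : (0 : ℝ) < n := by exact_mod_cast hn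
    linarith
  obtain ⟨μ, hμ⟩ := measure_rep hp0 (lowE n) hwt hrep
  have := compactSpace_sph hp0 3 k
  -- the points
  obtain ⟨S, hScard, hS1⟩ : ∃ S : Finset ℂ, S.card = n * k * n + 1 ∧ ∀ s ∈ S, ‖s‖ = 1 := by
    have hinf : (Metric.sphere (0 : ℂ) 1).Infinite := by
      intro hfin
      have h2 : (Set.range fun j : ℕ => Complex.exp ((j : ℝ) * Complex.I)).Finite := by
        refine hfin.subset ?_
        rintro _ ⟨j, rfl⟩
        simp only [mem_sphere_zero_iff_norm]
        exact Complex.norm_exp_ofReal_mul_I _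
      have hinj : Function.Injective fun j : ℕ => Complex.exp ((j : ℝ) * Complex.I) := by
        intro a b hab
        simp only at hab
        rw [Complex.exp_eq_exp_iff_exists_int] at hab
        obtain ⟨l, hl⟩ := hab
        have h3 : (a : ℝ) = b + l * (2 * Real.pi) := by
          have h4 : ((a : ℝ) : ℂ) * Complex.I = ((b + l * (2 * Real.pi) : ℝ) : ℂ) * Complex.I := by
            rw [hl]; push_cast; ring
          have h5 := mul_right_cancel₀ Complex.I_ne_zero h4
          exact_mod_cast h5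
        by_cases hl0 : l = 0
        · subst hl0
          simp only [Int.cast_zero, zero_mul, add_zero] at h3
          exact_mod_cast h3
        · exfalso
          have h6 : Real.pi = ((((a : ℤ) - b : ℤ) : ℚ) / ((2 * l : ℤ) : ℚ) : ℚ) := by
            push_cast
            have : (l : ℝ) ≠ 0 := by exact_mod_cast hl0
            field_simp
            linarith
          exact irrational_pi ⟨_, h6.symm⟩
      exact (Set.infinite_range_of_injective hinj) h2
    obtain ⟨S, hS, hc⟩ := hinf.exists_subset_card_eq (n * k * n + 1)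
    exact ⟨S, hc, fun s hs => by simpa using hS hs⟩
  set c : ℝ := 2 * (n * k : ℕ) with hc
  let τ : ℕ → ℝ := fun i => 1 / ((i : ℝ) + 1)
  have hτ0 : ∀ i, 0 < τ i := fun i => by positivity
  have hτlim : Tendsto τ atTop (𝓝 0) := tendsto_one_div_add_atTop_nhds_zero_nat
  let G : ℕ → Sph p 3 k → ℝ := fun i Y => ∑ s ∈ S, dq p n s (τ i) Y.1
  let h : ℕ → Sph p 3 k → ℝ := fun i Y => max 0 (G i Y - c * phi p (Y.1 0))
  have hphi_cont : Continuous fun Y : Sph p 3 k => phi p (Y.1 0) := by
    have := continuous_evalSph (k := k) hp0 (m := 3) (Pi.single 0 1)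
    simpa [comb_single] using this
  have hphi_le : ∀ Y : Sph p 3 k, phi p (Y.1 0) ≤ 1 := by
    intro Y
    have h1 : wt p Y.1 = 1 := Y.2
    have h2 := Finset.single_le_sum (f := fun a => phi p (Y.1 a)) (fun _ _ => phi_nonneg _ _)
      (Finset.mem_univ 0)
    unfold wt at h1
    linarith
  have hGcont : ∀ i, Continuous (G i) := fun i =>
    continuous_finsetSum _ fun s _ => continuous_dq hp0 n s (τ i)
  have hhcont : ∀ i, Continuous (h i) := fun i =>
    continuous_const.max ((hGcont i).sub (continuous_const.mul hphi_cont))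
  have hGle : ∀ i Y, G i Y ≤ 2 * S.card := by
    intro i Y
    calc G i Y ≤ ∑ _s ∈ S, (2 : ℝ) := Finset.sum_le_sum fun s _ =>
          (dq_le hp0 hp2.le n s (hτ0 i).ne' Y.1).trans (by have := hphi_le Y; linarith)
      _ = 2 * S.card := by simp [mul_comm]
  have hc0 : 0 ≤ c := by positivity
  have hhbd : ∀ i Y, ‖h i Y‖ ≤ 2 * S.card := by
    intro i Y
    rw [Real.norm_of_nonneg (le_max_left _ _)]
    apply max_le (by positivity)
    have := hGle i Y
    have h2 : 0 ≤ c * phi p (Y.1 0) := mul_nonneg hc0 (phi_nonneg _ _)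
    linarith
  have hhlim : ∀ Y : Sph p 3 k, Tendsto (fun i => h i Y) atTop (𝓝 0) := by
    intro Y
    obtain ⟨B, hB, hgood⟩ := bad_finite hp0 hp2.le hkn Y.1
    choose! C hC using hgood
    -- bound
    have hev : ∀ᶠ i in atTop, h i Y ≤ ∑ s ∈ S \ B, |C s| * (τ i) ^ (2 - p) := by
      have h1 : ∀ s ∈ S \ B, ∀ᶠ i in atTop,
          dq p n s (τ i) Y.1 ≤ |C s| * (τ i) ^ (2 - p) := by
        intro s hs
        have hsB : s ∉ B := (Finset.mem_sdiff.mp hs).2
        have h2 := hτlim.eventually (hC s hsB)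
        refine h2.mono fun i hi => ?_
        have ht' : 0 < |τ i| ^ p := Real.rpow_pos_of_pos (abs_pos.mpr (hτ0 i).ne') p
        unfold dq
        rw [inv_mul_le_iff₀ ht', abs_of_pos (hτ0 i)]
        have h3 : (τ i) ^ p * (|C s| * (τ i) ^ (2 - p)) = |C s| * (τ i) ^ 2 := by
          rw [mul_left_comm, ← Real.rpow_add (hτ0 i)]
          rw [show p + (2 - p) = ((2 : ℕ) : ℝ) by norm_num, Real.rpow_natCast]
        rw [h3]
        have h4 : C s * (τ i) ^ 2 ≤ |C s| * (τ i) ^ 2 :=
          mul_le_mul_of_nonneg_right (le_abs_self _) (sq_nonneg _)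
        linarith
      have h1' := (Finset.eventually_all (S \ B)).mpr h1
      refine h1'.mono fun i hi => ?_
      apply max_le
      · exact Finset.sum_nonneg fun s _ => mul_nonneg (abs_nonneg _)
          (Real.rpow_nonneg (hτ0 i).le _)
      · have h5 : G i Y = ∑ s ∈ S \ B, dq p n s (τ i) Y.1 + ∑ s ∈ S ∩ B, dq p n s (τ i) Y.1 := by
          rw [add_comm, Finset.sum_inter_add_sum_sdiff]
        have h6 : ∑ s ∈ S \ B, dq p n s (τ i) Y.1 ≤ ∑ s ∈ S \ B, |C s| * (τ i) ^ (2 - p) :=
          Finset.sum_le_sum hi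
        have h7 : ∑ s ∈ S ∩ B, dq p n s (τ i) Y.1 ≤ c * phi p (Y.1 0) := by
          calc ∑ s ∈ S ∩ B, dq p n s (τ i) Y.1 ≤ ∑ _s ∈ S ∩ B, 2 * phi p (Y.1 0) :=
                Finset.sum_le_sum fun s _ => dq_le hp0 hp2.le n s (hτ0 i).ne' Y.1
            _ = (S ∩ B).card * (2 * phi p (Y.1 0)) := by simp
            _ ≤ (n * k : ℕ) * (2 * phi p (Y.1 0)) := by
                apply mul_le_mul_of_nonneg_right _ (by have := phi_nonneg p (Y.1 0); linarith)
                exact_mod_cast (Finset.card_le_card Finset.inter_subset_right).trans hB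
            _ = c * phi p (Y.1 0) := by rw [hc]; ring
        linarith
    have hlim0 : Tendsto (fun i => ∑ s ∈ S \ B, |C s| * (τ i) ^ (2 - p)) atTop (𝓝 0) := by
      have h8 : Tendsto (fun i => (τ i) ^ (2 - p)) atTop (𝓝 0) := by
        have := hτlim.rpow_const (p := 2 - p) (Or.inr (by linarith))
        rwa [Real.zero_rpow (by linarith)] at this
      have h9 := tendsto_finsetSum (S \ B) fun s _ => h8.const_mul (|C s|)
      simpa using h9
    exact tendsto_of_tendsto_of_tendsto_of_le_of_le' tendsto_const_nhds hlim0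
      (Eventually.of_forall fun i => le_max_left _ _) hev
  have hint := MeasureTheory.tendsto_integral_of_dominated_convergence (μ := (μ : Measure _))
    (F := h) (f := fun _ => (0 : ℝ)) (fun _ => 2 * (S.card : ℝ))
    (fun i => (hhcont i).aestronglyMeasurable) (integrable_const _)
    (fun i => Eventually.of_forall fun Y => hhbd i Y)
    (Eventually.of_forall fun Y => hhlim Y)
  rw [integral_zero] at hint
  -- integrals
  have hIeval : ∀ x : Fin 3 → ℂ, Integrable (fun Y : Sph p 3 k => phi p (comb x Y.1))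
      (μ : Measure _) := fun x =>
    (continuous_evalSph hp0 x).integrable_of_hasCompactSupport
      (HasCompactSupport.of_compactSpace _)
  have hdqint : ∀ s t, ∫ Y : Sph p 3 k, dq p n s t Y.1 ∂(μ : Measure _) =
      dq p n s t (lowE n) / wt p (lowE n) := by
    intro s t
    unfold dq
    rw [integral_const_mul, integral_sub, integral_add, integral_const_mul, hμ, hμ, hμ]
    · ring
    · exact hIeval _
    · exact hIeval _
    · exact (hIeval _).add (hIeval _)
    · exact (hIeval _).const_mul _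
  have hGint : ∀ i, Integrable (G i) (μ : Measure _) := fun i =>
    (hGcont i).integrable_of_hasCompactSupport (HasCompactSupport.of_compactSpace _)
  have hhint : ∀ i, Integrable (h i) (μ : Measure _) := fun i =>
    (hhcont i).integrable_of_hasCompactSupport (HasCompactSupport.of_compactSpace _)
  have hphiint : Integrable (fun Y : Sph p 3 k => phi p (Y.1 0)) (μ : Measure _) :=
    hphi_cont.integrable_of_hasCompactSupport (HasCompactSupport.of_compactSpace _)
  have hlow : ∀ i, (2 * S.card - c * n) / wt p (lowE n) ≤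
      ∫ Y, h i Y ∂(μ : Measure (Sph p 3 k)) := by
    intro i
    have h1 : ∫ Y, (G i Y - c * phi p (Y.1 0)) ∂(μ : Measure (Sph p 3 k)) ≤
        ∫ Y, h i Y ∂(μ : Measure (Sph p 3 k)) :=
      integral_mono ((hGint i).sub (hphiint.const_mul c)) (hhint i) fun Y => le_max_right _ _
    rw [integral_sub (hGint i) (hphiint.const_mul c), integral_const_mul] at h1
    have h2 : ∫ Y, G i Y ∂(μ : Measure (Sph p 3 k)) = ∑ s ∈ S, dq p n s (τ i) (lowE n) /
        wt p (lowE n) := by
      rw [integral_finsetSum]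
      · exact Finset.sum_congr rfl fun s _ => hdqint s (τ i)
      · intro s _
        exact (continuous_dq hp0 n s (τ i)).integrable_of_hasCompactSupport
          (HasCompactSupport.of_compactSpace _)
    have h3 : ∫ Y, phi p (Y.1 0) ∂(μ : Measure (Sph p 3 k)) = n / wt p (lowE n) := by
      have := hμ (Pi.single 0 1)
      simpa [comb_single, hphi0] using this
    rw [h2, h3] at h1
    refine le_trans ?_ h1
    have h4 : ∀ s ∈ S, 2 / wt p (lowE n) ≤ dq p n s (τ i) (lowE n) / wt p (lowE n) := by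
      intro s hs
      apply div_le_div_of_nonneg_right _ hwt.le
      have ht' : 0 < |τ i| ^ p := Real.rpow_pos_of_pos (abs_pos.mpr (hτ0 i).ne') p
      have := lowE_lower hp1 (n := n) hn (hS1 s hs) (τ i)
      unfold dq
      rw [le_inv_mul_iff₀ ht']
      linarith
    have h5 := Finset.sum_le_sum h4
    rw [Finset.sum_const, nsmul_eq_mul] at h5
    calc (2 * (S.card : ℝ) - c * n) / wt p (lowE n)
        = S.card * (2 / wt p (lowE n)) - c * (n / wt p (lowE n)) := by ring
      _ ≤ _ := by linarith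
  have hfin := ge_of_tendsto' hint hlow
  have h10 : 0 < 2 * (S.card : ℝ) - c * n := by
    rw [hScard, hc]
    push_cast
    ring_nf
    norm_num
  have h11 := div_pos h10 hwt
  linarith

end Pool.Agent.MP_cd6b85_an
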