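import Pool.Agent.Lib.MP_cd6b85_an.Sphere
import Pool.Agent.Lib.MP_cd6b85_an.Embed
import Pool.Agent.Lib.MP_cd6b85_an.AuxWidth
open Matrix Filter Topology
open scoped ComplexOrder ENNReal
namespace Pool.Agent.MP_cd6b85_an

variable {H : Type} [NormedAddCommGroup H] [InnerProductSpace ℂ H] [CompleteSpace H]

theorem exists_delta {p ε : ℝ} (hε : 0 < ε) : ∃ δ : ℝ, 0 < δ ∧ (1 + δ) ^ p ≤ 1 + ε := by
  have hc : ContinuousAt (fun δ : ℝ => (1 + δ) ^ p) 0 := by
    apply ContinuousAt.rpow_const (by fun_prop)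
    left; norm_num
  have h1 : Tendsto (fun δ : ℝ => (1 + δ) ^ p) (𝓝[>] 0) (𝓝 1) := by
    have := hc.tendsto
    simp only [add_zero, Real.one_rpow] at this
    exact this.mono_left nhdsWithin_le_nhds
  have h2 : ∀ᶠ δ in 𝓝[>] (0 : ℝ), (1 + δ) ^ p < 1 + ε := h1.eventually_lt_const (by linarith)
  obtain ⟨δ, hδ1, hδ2⟩ := (h2.and self_mem_nhdsWithin).exists
  exact ⟨δ, hδ2, hδ1.le⟩

theorem approxRep_of_hasWidth (b : HilbertBasis ℕ ℂ H) {p : ℝ} (hp : 0 < p) {m N k : ℕ}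
    (E : Fin m → Matrix (Fin N) (Fin N) ℂ)
    (h : HasWidthAux b p (Submodule.span ℂ (Set.range fun a => emb b N (E a))) k) :
    ApproxRep p E k := by
  intro ε hε
  obtain ⟨δ, hδ, hδε⟩ := exists_delta (p := p) hε
  set X := Submodule.span ℂ (Set.range fun a => emb b N (E a)) with hX
  have hfin : FiniteDimensional ℂ X := FiniteDimensional.span_of_finite ℂ (Set.finite_range _)
  obtain ⟨T, hT1, α, β, hα, hβ, hT2⟩ := h X le_rfl hfin δ hδ
  let z : Fin m → X := fun a => ⟨emb b N (E a), Submodule.subset_span ⟨a, rfl⟩⟩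
  let Z : (Fin m → ℂ) → X := fun x => ∑ a, x a • z a
  have hZ : ∀ x, ((Z x : X) : H →L[ℂ] H) = emb b N (comb x E) := by
    intro x
    simp only [Z, comb, map_sum, map_smul, z, AddSubmonoidClass.coe_finsetSum, SetLike.val_smul]
  have hcomb : ∀ x i, comb x (fun a => ((α⁻¹ : ℝ) : ℂ) • T (z a) i) =
      ((α⁻¹ : ℝ) : ℂ) • T (Z x) i := by
    intro x i
    have : (fun a => ((α⁻¹ : ℝ) : ℂ) • T (z a) i) = ((α⁻¹ : ℝ) : ℂ) • fun a => T (z a) i := rfl
    rw [this, comb_smul_right]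
    congr 1
    simp only [comb, Z, map_sum, map_smul, Finset.sum_apply, Pi.smul_apply]
  have hphi : ∀ x i, phi p (comb x (fun a => ((α⁻¹ : ℝ) : ℂ) • T (z a) i)) =
      α ^ (-p) * matTracePow p (T (Z x) i) := by
    intro x i
    rw [hcomb, phi_smul, Complex.norm_real, Real.norm_eq_abs, abs_of_pos (inv_pos.mpr hα),
      Real.inv_rpow hα.le, Real.rpow_neg hα.le, matTracePow_eq]
  refine ⟨fun i a => ((α⁻¹ : ℝ) : ℂ) • T (z a) i, fun x => ?_⟩
  have hsum : Summable fun i => matTracePow p (T (Z x) i) := hT1 (Z x)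
  have hnn : 0 ≤ ∑' i, matTracePow p (T (Z x) i) :=
    tsum_nonneg fun i => by rw [matTracePow_eq]; exact phi_nonneg _ _
  have h2 := hT2 (Z x)
  rw [hZ, schattenNorm_emb b N hp, sumNorm] at h2
  set F := phi p (comb x E) with hF
  have hFnn : 0 ≤ F := phi_nonneg _ _
  set S := ∑' i, matTracePow p (T (Z x) i) with hS
  have hαp : 0 < α ^ p := Real.rpow_pos_of_pos hα p
  have e1 : ∀ t : ℝ, 0 ≤ t → (t ^ (1 / p)) ^ p = t := fun t ht => by
    rw [← Real.rpow_mul ht, one_div_mul_cancel hp.ne', Real.rpow_one]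
  have hlow : α ^ p * F ≤ S := by
    have := Real.rpow_le_rpow (by positivity) h2.1 hp.le
    rwa [Real.mul_rpow hα.le (by positivity), e1 F hFnn, e1 S hnn] at this
  have hup : S ≤ α ^ p * ((1 + ε) * F) := by
    have h3 : S ^ (1 / p) ≤ ((1 + δ) * α) * F ^ (1 / p) :=
      h2.2.trans (mul_le_mul_of_nonneg_right hβ (by positivity))
    have := Real.rpow_le_rpow (by positivity) h3 hp.le
    rw [Real.mul_rpow (by positivity) (by positivity), e1 F hFnn, e1 S hnn,
      Real.mul_rpow (by positivity) hα.le] at this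
    calc S ≤ (1 + δ) ^ p * α ^ p * F := this
      _ ≤ (1 + ε) * α ^ p * F := by gcongr
      _ = α ^ p * ((1 + ε) * F) := by ring
  refine ⟨?_, ?_, ?_⟩
  · simp only [hphi]
    exact hsum.mul_left _
  · simp only [hphi]
    rw [tsum_mul_left, ← hS, Real.rpow_neg hα.le, inv_mul_eq_div, le_div_iff₀ hαp]
    linarith
  · simp only [hphi]
    rw [tsum_mul_left, ← hS, Real.rpow_neg hα.le, inv_mul_eq_div, div_le_iff₀ hαp]
    linarith

theorem comb_reindex {m m' N : ℕ} (σ : Fin m' → Fin m) (E : Fin m → Matrix (Fin N) (Fin N) ℂ)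
    (x : Fin m' → ℂ) : comb x (fun a => E (σ a)) =
      comb (fun c => ∑ a, if σ a = c then x a else 0) E := by
  unfold comb
  simp only [Finset.sum_smul]
  rw [Finset.sum_comm]
  refine Finset.sum_congr rfl fun a _ => ?_
  simp

theorem ApproxRep.reindex {p : ℝ} {m m' N k : ℕ} (σ : Fin m' → Fin m)
    {E : Fin m → Matrix (Fin N) (Fin N) ℂ} (h : ApproxRep p E k) :
    ApproxRep p (fun a => E (σ a)) k := by
  intro ε hε
  obtain ⟨Y, hY⟩ := h ε hε
  refine ⟨fun i a => Y i (σ a), fun x => ?_⟩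
  have := hY (fun c => ∑ a, if σ a = c then x a else 0)
  simp only [comb_reindex σ]
  exact this

end Pool.Agent.MP_cd6b85_an
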