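import Pool.Agent.Lib.MP_cd6b85_an.HighP
import Pool.Agent.Lib.MP_cd6b85_an.LowP
import Pool.Agent.Lib.MP_cd6b85_an.Width
open Matrix Filter Topology Module
open scoped ComplexOrder
namespace Pool.Agent.MP_cd6b85_an

theorem exists_between {V : Type*} [AddCommGroup V] [Module ℂ V] (W U : Submodule ℂ V)
    [FiniteDimensional ℂ U] (hWU : W ≤ U) (m : ℕ) (h1 : finrank ℂ W ≤ m) (h2 : m ≤ finrank ℂ U) :
    ∃ X : Submodule ℂ V, W ≤ X ∧ X ≤ U ∧ finrank ℂ X = m := by
  induction m, h1 using Nat.le_induction with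
  | base => exact ⟨W, le_rfl, hWU, rfl⟩
  | succ m hm ih =>
    obtain ⟨X, hWX, hXU, hX⟩ := ih (by omega)
    have hne : ¬ U ≤ X := by
      intro hUX
      have : X = U := le_antisymm hXU hUX
      rw [this] at hX
      omega
    obtain ⟨v, hvU, hvX⟩ := Set.not_subset.mp hne
    have hX'U : X ⊔ Submodule.span ℂ {v} ≤ U :=
      sup_le hXU (by rw [Submodule.span_le]; simpa using hvU)
    have hfin : FiniteDimensional ℂ ↥(X ⊔ Submodule.span ℂ {v}) :=
      Submodule.finiteDimensional_of_le hX'U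
    have hfinX : FiniteDimensional ℂ X := Submodule.finiteDimensional_of_le hXU
    refine ⟨X ⊔ Submodule.span ℂ {v}, hWX.trans le_sup_left, hX'U, ?_⟩
    apply le_antisymm
    · have h3 := Submodule.finrank_add_le_finrank_add_finrank X (Submodule.span ℂ {v})
      have h4 : finrank ℂ (Submodule.span ℂ {v}) ≤ 1 := by
        have := finrank_span_le_card (R := ℂ) ({v} : Set V)
        simpa using this
      omega
    · have h5 : X < X ⊔ Submodule.span ℂ {v} := by
        apply lt_of_le_of_ne le_sup_left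
        intro he
        apply hvX
        have : v ∈ X ⊔ Submodule.span ℂ {v} :=
          Submodule.mem_sup_right (Submodule.mem_span_singleton_self v)
        rwa [← he] at this
      have := Submodule.finrank_lt_finrank_of_lt h5
      omega

variable {H : Type} [NormedAddCommGroup H] [InnerProductSpace ℂ H] [CompleteSpace H]

theorem HasWidthAux.mono {b : HilbertBasis ℕ ℂ H} {p : ℝ} {X X' : Submodule ℂ (H →L[ℂ] H)} {k : ℕ}
    (h : HasWidthAux b p X k) (hX : X' ≤ X) : HasWidthAux b p X' k :=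
  fun Y hY hf ε hε => h Y (hY.trans hX) hf ε hε

/-- the embedding as a linear map -/
noncomputable def embL (b : HilbertBasis ℕ ℂ H) (N : ℕ) :
    Matrix (Fin N) (Fin N) ℂ →ₗ[ℂ] (H →L[ℂ] H) where
  toFun := emb b N
  map_add' := map_add _
  map_smul' c M := by simp

theorem subspace_of_tuple (b : HilbertBasis ℕ ℂ H) {p : ℝ} (hp : 0 < p) {m₀ m k N : ℕ}
    (hm : m₀ ≤ m) (E : Fin m₀ → Matrix (Fin N) (Fin N) ℂ)
    (hE : ∀ k' ≤ k, ¬ ApproxRep p E k') :
    ∃ X : Submodule ℂ (H →L[ℂ] H), IsSubspaceOfDimAux b p m X ∧ ¬ HasWidthAtMostAux b p X k := by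
  let E' : Fin m₀ → Matrix (Fin (N + m)) (Fin (N + m)) ℂ := fun a => pad m (E a)
  set X₀ := Submodule.span ℂ (Set.range fun a => emb b (N + m) (E' a)) with hX₀
  set U := LinearMap.range (embL b (N + m)) with hU
  have hinj : Function.Injective (embL b (N + m)) := emb_injective b (N + m)
  have hX₀U : X₀ ≤ U := by
    rw [hX₀, Submodule.span_le]
    rintro _ ⟨a, rfl⟩
    exact ⟨E' a, rfl⟩
  have hUdim : finrank ℂ U = (N + m) * (N + m) := by
    rw [hU, LinearMap.finrank_range_of_inj hinj, Module.finrank_matrix]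
    simp
  have h1 : finrank ℂ X₀ ≤ m := by
    refine (finrank_range_le_card (R := ℂ) fun a => emb b (N + m) (E' a)).trans ?_
    simpa using hm
  have h2 : m ≤ finrank ℂ U := by
    rw [hUdim]
    nlinarith [Nat.zero_le N, Nat.zero_le m]
  obtain ⟨X, hX1, hX2, hX3⟩ := exists_between X₀ U hX₀U m h1 h2
  refine ⟨X, ⟨?_, hX3⟩, ?_⟩
  · intro T hT
    obtain ⟨M, rfl⟩ := hX2 hT
    exact memSchatten_emb b (N + m) hp M
  · rintro ⟨j, hj, hw⟩
    have h3 := approxRep_of_hasWidth b hp E' (hw.mono hX1)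
    exact hE j hj (h3.unpad hp m)

/-- **Main theorem.** For all real `p ≥ 1`, `p ≠ 2`, and all `m ≥ 3` with `(p, m) ≠ (4, 3)`, and
every `k`, some `m`-dimensional subspace of `S_p` does not have `p`-width at most `k`. -/
theorem main_theorem (b : HilbertBasis ℕ ℂ H) {p : ℝ} (hp1 : 1 ≤ p) (hp2 : p ≠ 2) {m : ℕ}
    (hm : 3 ≤ m) (hpm : ¬ (p = 4 ∧ m = 3)) (k : ℕ) :
    ∃ X : Submodule ℂ (H →L[ℂ] H), IsSubspaceOfDimAux b p m X ∧ ¬ HasWidthAtMostAux b p X k := by
  rcases lt_or_gt_of_ne hp2 with h | h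
  · exact subspace_of_tuple b (by linarith) hm (lowE (k + 1))
      fun k' hk' => lowp_contra hp1 h (by omega)
  · by_cases hp4 : p = 4
    · subst hp4
      obtain ⟨N, E, hE⟩ := four4 k
      have hm4 : 4 ≤ m := by
        rcases Nat.lt_or_ge m 4 with h' | h'
        · exact absurd ⟨rfl, by omega⟩ hpm
        · exact h'
      exact subspace_of_tuple b (by norm_num) hm4 E hE
    · obtain ⟨N, E, hE⟩ := high3 h hp4 k
      exact subspace_of_tuple b (by linarith) hm E hE

theorem main_theorem' (b : HilbertBasis ℕ ℂ H) (p : ℝ) (hp1 : 1 ≤ p) (hp2 : p ≠ 2) (m : ℕ)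
    (hm : 3 ≤ m) (hpm : ¬ (p = 4 ∧ m = 3)) (k : ℕ) :
    ∃ X : Submodule ℂ (Op H), IsSubspaceOfDim b p m X ∧ ¬ HasWidthAtMost b p X k := by
  obtain ⟨X, hX1, hX2⟩ := main_theorem b hp1 hp2 hm hpm k
  exact ⟨X, hX1, hX2⟩

end Pool.Agent.MP_cd6b85_an
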