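import Pool.Agent.Lib.MP_cd6b85_an.TraceFn
import Pool.Agent.Lib.MP_cd6b85_an.Defs
open Matrix
open scoped ComplexOrder
namespace Pool.Agent.MP_cd6b85_an

variable {n m : Type*} [Fintype n] [DecidableEq n] [Fintype m] [DecidableEq m]

/-- `tr |M|^p` for a rectangular matrix. -/
noncomputable def phi (p : ℝ) (M : Matrix m n ℂ) : ℝ := trF (fun x => x ^ (p / 2)) (Mᴴ * M)

omit [DecidableEq m] in
theorem gram_eigenvalues_nonneg (M : Matrix m n ℂ) (i : n) :
    0 ≤ (isHermitian_conjTranspose_mul_self M).eigenvalues i :=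
  (Matrix.posSemidef_conjTranspose_mul_self M).eigenvalues_nonneg i

theorem matTracePow_eq (p : ℝ) {k : ℕ} (M : Matrix (Fin k) (Fin k) ℂ) :
    matTracePow p M = phi p M := by
  rw [matTracePow, phi, trF_eq _ (isHermitian_conjTranspose_mul_self M)]

omit [DecidableEq m] in
theorem phi_eq (p : ℝ) (M : Matrix m n ℂ) :
    phi p M = ∑ i, (isHermitian_conjTranspose_mul_self M).eigenvalues i ^ (p / 2) := by
  rw [phi, trF_eq _ (isHermitian_conjTranspose_mul_self M)]

omit [DecidableEq m] in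
theorem phi_nonneg (p : ℝ) (M : Matrix m n ℂ) : 0 ≤ phi p M := by
  rw [phi_eq]
  exact Finset.sum_nonneg fun i _ => Real.rpow_nonneg (gram_eigenvalues_nonneg M i) _

omit [DecidableEq m] in
theorem continuous_phi {p : ℝ} (hp : 0 ≤ p) : Continuous fun M : Matrix m n ℂ => phi p M :=
  continuous_trF_gram (Real.continuous_rpow_const (by positivity))

/-- If `M* M = W diag(d) W*` with `W` unitary then `phi p M = ∑ d_i^(p/2)`. -/
theorem trF_of_diag (f : ℝ → ℝ) {A W : Matrix n n ℂ} {d : n → ℝ} (hW : W ∈ unitaryGroup n ℂ)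
    (h : A = W * diagonal (fun i => (d i : ℂ)) * Wᴴ) : trF f A = ∑ i, f (d i) := by
  rw [h, trF_conj _ _ _ _ (unitary_conj_mul hW), trF_diagonal]
  simp

theorem phi_unitary (p : ℝ) (M : Matrix m n ℂ) {U : Matrix m m ℂ} {V : Matrix n n ℂ}
    (hU : U ∈ unitaryGroup m ℂ) (hV : V ∈ unitaryGroup n ℂ) : phi p (U * M * V) = phi p M := by
  unfold phi
  have : (U * M * V)ᴴ * (U * M * V) = Vᴴ * (Mᴴ * M) * V := by
    simp only [Matrix.conjTranspose_mul, Matrix.mul_assoc]
    rw [← Matrix.mul_assoc Uᴴ U, unitary_conj_mul hU, Matrix.one_mul]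
  rw [this, trF_conj _ _ _ _ (unitary_mul_conj hV)]

theorem phi_conjTranspose {p : ℝ} (hp : 0 < p) (M : Matrix m n ℂ) : phi p Mᴴ = phi p M := by
  unfold phi
  have h0 : p / 2 ≠ 0 := by positivity
  rw [Matrix.conjTranspose_conjTranspose]
  exact trF_mul_comm' (fun x => x ^ (p / 2)) (Real.zero_rpow h0) _ _

theorem phi_diagonal {p : ℝ} (d : n → ℂ) : phi p (diagonal d) = ∑ i, ‖d i‖ ^ p := by
  unfold phi
  rw [Matrix.diagonal_conjTranspose, Matrix.diagonal_mul_diagonal, trF_diagonal]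
  refine Finset.sum_congr rfl fun i _ => ?_
  have : ((star d) i * d i).re = ‖d i‖ ^ 2 := by
    rw [Pi.star_apply, Complex.star_def, ← Complex.normSq_eq_conj_mul_self,
      Complex.normSq_eq_norm_sq, Complex.ofReal_re]
  rw [this, ← Real.rpow_natCast, ← Real.rpow_mul (norm_nonneg _)]
  congr 1
  push_cast
  ring

omit [DecidableEq m] in
theorem phi_of_diag {p : ℝ} {M : Matrix m n ℂ} {W : Matrix n n ℂ} {d : n → ℝ}
    (hW : W ∈ unitaryGroup n ℂ) (h : Mᴴ * M = W * diagonal (fun i => (d i : ℂ)) * Wᴴ) :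
    phi p M = ∑ i, d i ^ (p / 2) := trF_of_diag _ hW h

theorem exists_herm_diag {A : Matrix n n ℂ} (hA : A.IsHermitian) :
    ∃ U ∈ unitaryGroup n ℂ, ∃ d : n → ℝ, A = U * diagonal (fun i => (d i : ℂ)) * Uᴴ :=
  ⟨_, hA.eigenvectorUnitary.2, _, herm_diag hA⟩

omit [DecidableEq m] in
theorem exists_gram_diag (M : Matrix m n ℂ) :
    ∃ U ∈ unitaryGroup n ℂ, ∃ d : n → ℝ, (∀ i, 0 ≤ d i) ∧
      Mᴴ * M = U * diagonal (fun i => (d i : ℂ)) * Uᴴ :=
  ⟨_, (isHermitian_conjTranspose_mul_self M).eigenvectorUnitary.2, _, gram_eigenvalues_nonneg M,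
    herm_diag (isHermitian_conjTranspose_mul_self M)⟩

omit [DecidableEq m] in
theorem phi_smul {p : ℝ} (c : ℂ) (M : Matrix m n ℂ) : phi p (c • M) = ‖c‖ ^ p * phi p M := by
  obtain ⟨U, hU, d, hd, h1⟩ := exists_gram_diag M
  have h2 : (c • M)ᴴ * (c • M) = U * diagonal (fun i => ((‖c‖ ^ 2 * d i : ℝ) : ℂ)) * Uᴴ := by
    have e : diagonal (fun i => ((‖c‖ ^ 2 * d i : ℝ) : ℂ)) =
        ((‖c‖ ^ 2 : ℝ) : ℂ) • diagonal (fun i => (d i : ℂ)) := by
      rw [← Matrix.diagonal_smul]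
      congr 1
      ext i
      simp
    have e2 : (c • M)ᴴ * (c • M) = (star c * c) • (Mᴴ * M) := by
      rw [Matrix.conjTranspose_smul, Matrix.smul_mul, Matrix.mul_smul, smul_smul]
    rw [e2, h1, e, Matrix.mul_smul, Matrix.smul_mul, Complex.star_def,
      ← Complex.normSq_eq_conj_mul_self, Complex.normSq_eq_norm_sq]
  rw [phi_of_diag hU h2, phi_of_diag hU h1, Finset.mul_sum]
  refine Finset.sum_congr rfl fun i _ => ?_
  rw [Real.mul_rpow (by positivity) (hd i), ← Real.rpow_natCast,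
    ← Real.rpow_mul (norm_nonneg _)]
  congr 2
  push_cast
  ring

omit [DecidableEq m] in
theorem phi_zero {p : ℝ} (hp : 0 < p) : phi p (0 : Matrix m n ℂ) = 0 := by
  have := phi_smul (p := p) 0 (0 : Matrix m n ℂ)
  rw [norm_zero, Real.zero_rpow hp.ne', zero_mul, smul_zero] at this
  exact this

omit [DecidableEq m] in
theorem phi_eq_zero {p : ℝ} (hp : 0 < p) {M : Matrix m n ℂ} (h : phi p M = 0) : M = 0 := by
  rw [phi_eq, Finset.sum_eq_zero_iff_of_nonneg fun i _ =>
    Real.rpow_nonneg (gram_eigenvalues_nonneg M i) _] at h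
  have h2 : (isHermitian_conjTranspose_mul_self M).eigenvalues = 0 := by
    ext i
    have := h i (Finset.mem_univ i)
    rw [Real.rpow_eq_zero (gram_eigenvalues_nonneg M i) (by positivity)] at this
    simpa using this
  rw [Matrix.IsHermitian.eigenvalues_eq_zero_iff] at h2
  exact Matrix.conjTranspose_mul_self_eq_zero.mp h2

end Pool.Agent.MP_cd6b85_an
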