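import Pool.Agent.Lib.MP_cd6b85_an.FullSvd
import Pool.Agent.Lib.MP_cd6b85_an.MeasureRep
open Matrix Filter Topology MeasureTheory
open scoped ComplexOrder ENNReal
namespace Pool.Agent.MP_cd6b85_an

variable {n : Type*} [Fintype n] [DecidableEq n]

/-- second difference quotient of `phi` at `P` in direction `K`. -/
noncomputable def qM (p : ℝ) (P K : Matrix n n ℂ) (t : ℝ) : ℝ :=
  (phi p (P + (t : ℂ) • K) + phi p (P + ((-t : ℝ) : ℂ) • K) - 2 * phi p P) / t ^ 2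

theorem phi_svd (p : ℝ) {V W M M' : Matrix n n ℂ} (hV : V ∈ unitaryGroup n ℂ)
    (hW : W ∈ unitaryGroup n ℂ) (h : Vᴴ * M * W = M') : phi p M = phi p M' := by
  have hV' : Vᴴ ∈ unitaryGroup n ℂ := Unitary.star_mem hV
  rw [← h, phi_unitary p M hV' hW]

theorem svd_mid {V W P : Matrix n n ℂ} {a : n → ℝ} (hV : V ∈ unitaryGroup n ℂ)
    (hW : W ∈ unitaryGroup n ℂ) (hP : P = V * diagonal (fun i => (a i : ℂ)) * Wᴴ) :
    Vᴴ * P * W = diagonal (fun i => (a i : ℂ)) := by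
  rw [hP]
  calc Vᴴ * (V * diagonal (fun i => (a i : ℂ)) * Wᴴ) * W
      = (Vᴴ * V) * diagonal (fun i => (a i : ℂ)) * (Wᴴ * W) := by simp only [Matrix.mul_assoc]
    _ = _ := by rw [unitary_conj_mul hV, unitary_conj_mul hW, Matrix.one_mul, Matrix.mul_one]

theorem svd_lin {V W P K : Matrix n n ℂ} {a : n → ℝ} (hV : V ∈ unitaryGroup n ℂ)
    (hW : W ∈ unitaryGroup n ℂ) (hP : P = V * diagonal (fun i => (a i : ℂ)) * Wᴴ) (x y : ℂ) :
    Vᴴ * (x • P + y • K) * W = x • diagonal (fun i => (a i : ℂ)) + y • (Vᴴ * K * W) := by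
  rw [Matrix.mul_add, Matrix.add_mul, Matrix.mul_smul, Matrix.smul_mul, svd_mid hV hW hP,
    Matrix.mul_smul, Matrix.smul_mul]

theorem qM_eq {p : ℝ} {V W P : Matrix n n ℂ} {a : n → ℝ} (hV : V ∈ unitaryGroup n ℂ)
    (hW : W ∈ unitaryGroup n ℂ) (hP : P = V * diagonal (fun i => (a i : ℂ)) * Wᴴ)
    (K : Matrix n n ℂ) (t : ℝ) : qM p P K t = pq p a (Vᴴ * K * W) t := by
  unfold qM pq
  have h := fun y : ℂ => phi_svd p hV hW (by simpa using svd_lin (K := K) hV hW hP 1 y)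
  rw [h, h, phi_svd p hV hW (svd_mid hV hW hP)]

theorem tm_svd {ι : Type*} [Fintype ι] {p : ℝ} (c α β : ι → ℝ) {V W P : Matrix n n ℂ} {a : n → ℝ}
    (hV : V ∈ unitaryGroup n ℂ)
    (hW : W ∈ unitaryGroup n ℂ) (hP : P = V * diagonal (fun i => (a i : ℂ)) * Wᴴ)
    (K : Matrix n n ℂ) :
    tm p c α β P K = tm p c α β (diagonal (fun i => (a i : ℂ))) (Vᴴ * K * W) := by
  unfold tm
  refine Finset.sum_congr rfl fun i _ => ?_
  rw [phi_svd p hV hW (svd_lin (K := K) hV hW hP _ _)]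

theorem frob_unitary_left {m : Type*} [Fintype m] [DecidableEq m] (K : Matrix n m ℂ)
    {V : Matrix n n ℂ} (hV : V ∈ unitaryGroup n ℂ) : frob (Vᴴ * K) = frob K := by
  unfold frob
  rw [Finset.sum_comm, Finset.sum_comm (f := fun i j => ‖K i j‖ ^ 2)]
  refine Finset.sum_congr rfl fun j _ => ?_
  have e1 : ∀ M : Matrix n m ℂ, ((∑ i, ‖M i j‖ ^ 2 : ℝ) : ℂ) = (Mᴴ * M) j j := by
    intro M
    rw [Matrix.mul_apply]
    push_cast
    refine Finset.sum_congr rfl fun l _ => ?_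
    rw [Matrix.conjTranspose_apply, Complex.star_def,
      ← Complex.normSq_eq_conj_mul_self, Complex.normSq_eq_norm_sq]
    push_cast; rfl
  have e2 : (Vᴴ * K)ᴴ * (Vᴴ * K) = Kᴴ * K := by
    rw [Matrix.conjTranspose_mul, Matrix.conjTranspose_conjTranspose, Matrix.mul_assoc,
      ← Matrix.mul_assoc V, unitary_mul_conj hV, Matrix.one_mul]
  have e3 := (e1 (Vᴴ * K)).trans ((congrFun (congrFun e2 j) j).trans (e1 K).symm)
  exact_mod_cast e3

theorem frob_unitary {K V W : Matrix n n ℂ} (hV : V ∈ unitaryGroup n ℂ)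
    (hW : W ∈ unitaryGroup n ℂ) : frob (Vᴴ * K * W) = frob K := by
  rw [← frob_unitary_left K hV]
  exact frob_mul_unitary _ _ hW

theorem frob_dil (K : Matrix n n ℂ) : frob (dil K) ≤ 4 * frob K := by
  have hb : ∀ z w : ℂ, ‖(1 / 2 : ℂ) * (z + w)‖ ^ 2 ≤ (‖z‖ ^ 2 + ‖w‖ ^ 2) / 2 := by
    intro z w
    rw [norm_mul, mul_pow]
    have h1 := norm_add_le z w
    have h2 := pow_le_pow_left₀ (norm_nonneg _) h1 2
    norm_num
    nlinarith [sq_nonneg (‖z‖ - ‖w‖)]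
  have hb' : ∀ z w : ℂ, ‖(1 / 2 : ℂ) * (z - w)‖ ^ 2 ≤ (‖z‖ ^ 2 + ‖w‖ ^ 2) / 2 := by
    intro z w
    have := hb z (-w)
    rwa [← sub_eq_add_neg, norm_neg] at this
  unfold frob
  simp only [Fintype.sum_sum_type]
  have e11 : ∀ i j, ‖dil K (Sum.inl i) (Sum.inl j)‖ ^ 2 ≤ (‖K i j‖ ^ 2 + ‖K j i‖ ^ 2) / 2 := by
    intro i j
    simp only [dil, Matrix.fromBlocks_apply₁₁, Matrix.smul_apply, Matrix.add_apply,
      Matrix.conjTranspose_apply, smul_eq_mul]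
    have := hb (K i j) (star (K j i))
    rwa [norm_star] at this
  have e12 : ∀ i j, ‖dil K (Sum.inl i) (Sum.inr j)‖ ^ 2 ≤ (‖K i j‖ ^ 2 + ‖K j i‖ ^ 2) / 2 := by
    intro i j
    simp only [dil, Matrix.fromBlocks_apply₁₂, Matrix.smul_apply, Matrix.sub_apply,
      Matrix.conjTranspose_apply, smul_eq_mul]
    have := hb' (star (K j i)) (K i j)
    rw [norm_star] at this
    linarith
  have e21 : ∀ i j, ‖dil K (Sum.inr i) (Sum.inl j)‖ ^ 2 ≤ (‖K i j‖ ^ 2 + ‖K j i‖ ^ 2) / 2 := by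
    intro i j
    simp only [dil, Matrix.fromBlocks_apply₂₁, Matrix.smul_apply, Matrix.sub_apply,
      Matrix.conjTranspose_apply, smul_eq_mul]
    have := hb' (K i j) (star (K j i))
    rwa [norm_star] at this
  have e22 : ∀ i j, ‖dil K (Sum.inr i) (Sum.inr j)‖ ^ 2 ≤ (‖K i j‖ ^ 2 + ‖K j i‖ ^ 2) / 2 := by
    intro i j
    simp only [dil, Matrix.fromBlocks_apply₂₂, Matrix.neg_apply, Matrix.smul_apply,
      Matrix.add_apply, Matrix.conjTranspose_apply, smul_eq_mul, norm_neg]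
    have := hb (K i j) (star (K j i))
    rwa [norm_star] at this
  have h1 : ∑ i, ∑ j, ‖K j i‖ ^ 2 = ∑ i, ∑ j, ‖K i j‖ ^ 2 := Finset.sum_comm
  have hs : ∀ G : n → n → ℝ, (∀ i j, G i j ≤ (‖K i j‖ ^ 2 + ‖K j i‖ ^ 2) / 2) →
      ∑ i, ∑ j, G i j ≤ ∑ i, ∑ j, ‖K i j‖ ^ 2 := by
    intro G hG
    calc ∑ i, ∑ j, G i j ≤ ∑ i, ∑ j, (‖K i j‖ ^ 2 + ‖K j i‖ ^ 2) / 2 :=
          Finset.sum_le_sum fun i _ => Finset.sum_le_sum fun j _ => hG i j
      _ = (∑ i, ∑ j, ‖K i j‖ ^ 2 + ∑ i, ∑ j, ‖K j i‖ ^ 2) / 2 := by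
          rw [← Finset.sum_add_distrib, Finset.sum_div]
          refine Finset.sum_congr rfl fun i _ => ?_
          rw [← Finset.sum_add_distrib, Finset.sum_div]
      _ = _ := by rw [h1]; ring
  simp only [Finset.sum_add_distrib]
  have h11 := hs _ e11
  have h12 := hs _ e12
  have h21 := hs _ e21
  have h22 := hs _ e22
  linarith

theorem f2_mono {p : ℝ} (hp : 2 < p) {x y : ℝ} (hx : 0 ≤ x) (hxy : x ≤ y) : f2 p x ≤ f2 p y := by
  unfold f2
  have h1 : 0 ≤ p * (p - 1) := mul_nonneg (by linarith) (by linarith)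
  apply mul_le_mul_of_nonneg_left _ h1
  rw [abs_of_nonneg hx, abs_of_nonneg (hx.trans hxy)]
  exact Real.rpow_le_rpow hx hxy (by linarith)

theorem f2_nonneg {p : ℝ} (hp : 2 < p) (x : ℝ) : 0 ≤ f2 p x := by
  have := dd_nonneg hp x x
  rw [dd_self] at this; linarith

/-- uniform bound for second difference quotients -/
noncomputable def qbd (p : ℝ) (P K : Matrix n n ℂ) : ℝ :=
  f2 p (Real.sqrt (4 * frob P + 8 * frob K)) * (4 * frob K)

theorem qM_bounds {p : ℝ} (hp : 2 < p) (P K : Matrix n n ℂ) {t : ℝ} (ht0 : t ≠ 0) (ht : |t| ≤ 1) :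
    0 ≤ qM p P K t ∧ qM p P K t ≤ qbd p P K := by
  obtain ⟨V, W, a, hV, hW, ha, hP⟩ := full_svd P
  rw [qM_eq hV hW hP, pq_eq (by linarith)]
  have h1 := sq2_nonneg hp (nu a) (dil_herm (Vᴴ * K * W)) ht0 ht
  have h2 := sq2_le hp (nu a) (dil_herm (Vᴴ * K * W)) ht0 ht
  refine ⟨by linarith, ?_⟩
  have hfd : ∑ i, ∑ j, ‖dil (Vᴴ * K * W) i j‖ ^ 2 ≤ 4 * frob K := by
    have := frob_dil (Vᴴ * K * W)
    rw [frob_unitary hV hW] at this
    exact this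
  have hfP : ∑ i, (nu a i) ^ 2 = 2 * frob P := by
    have h3 : frob (diagonal (fun i => (a i : ℂ))) = frob P := by
      rw [← svd_mid hV hW hP, frob_unitary hV hW]
    have h4 : frob (diagonal (fun i => (a i : ℂ))) = ∑ i, (a i) ^ 2 := by
      unfold frob
      refine Finset.sum_congr rfl fun i _ => ?_
      rw [Finset.sum_eq_single i]
      · rw [Matrix.diagonal_apply_eq, Complex.norm_real, Real.norm_eq_abs, sq_abs]
      · intro j _ hj
        rw [Matrix.diagonal_apply_ne _ hj.symm]; simp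
      · simp
    rw [← h3, h4, Fintype.sum_sum_type]
    simp [nu]; ring
  have hpr : pr (nu a) (dil (Vᴴ * K * W)) ≤ Real.sqrt (4 * frob P + 8 * frob K) := by
    unfold pr
    apply Real.sqrt_le_sqrt
    rw [hfP]
    linarith
  have hpr0 : 0 ≤ pr (nu a) (dil (Vᴴ * K * W)) := Real.sqrt_nonneg _
  have h5 : f2 p (pr (nu a) (dil (Vᴴ * K * W))) * ∑ i, ∑ j, ‖dil (Vᴴ * K * W) i j‖ ^ 2 ≤
      qbd p P K := by
    unfold qbd
    apply mul_le_mul (f2_mono hp hpr0 hpr) hfd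
    · exact Finset.sum_nonneg fun _ _ => Finset.sum_nonneg fun _ _ => sq_nonneg _
    · exact f2_nonneg hp _
  linarith

theorem exists_lim {p : ℝ} (hp : 2 < p) (P K : Matrix n n ℂ) :
    ∃ L : ℝ, 0 ≤ L ∧ Tendsto (fun t => (p - 1) * qM p P (Complex.I • K) t - qM p P K t)
      (𝓝[≠] 0) (𝓝 L) := by
  obtain ⟨V, W, a, hV, hW, ha, hP⟩ := full_svd P
  refine ⟨Lam p a (Vᴴ * K * W), Lam_nonneg hp ha _, ?_⟩
  have h1 := (pq_tendsto hp a (Complex.I • (Vᴴ * K * W))).const_mul (p - 1)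
  have h2 := pq_tendsto hp a (Vᴴ * K * W)
  refine (h1.sub h2).congr fun t => ?_
  rw [qM_eq hV hW hP, qM_eq hV hW hP, Matrix.mul_smul, Matrix.smul_mul]

theorem compat_of_lim {p : ℝ} (hp : 2 < p) {P K : Matrix n n ℂ}
    (h : Tendsto (fun t => (p - 1) * qM p P (Complex.I • K) t - qM p P K t) (𝓝[≠] 0) (𝓝 0))
    {V W : Matrix n n ℂ} {a : n → ℝ} (hV : V ∈ unitaryGroup n ℂ)
    (hW : W ∈ unitaryGroup n ℂ) (ha : ∀ i, 0 ≤ a i)
    (hP : P = V * diagonal (fun i => (a i : ℂ)) * Wᴴ) : Compat a (Vᴴ * K * W) := by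
  have h1 := (pq_tendsto hp a (Complex.I • (Vᴴ * K * W))).const_mul (p - 1)
  have h2 := pq_tendsto hp a (Vᴴ * K * W)
  have h3 := (h1.sub h2)
  have h4 : Tendsto (fun t => (p - 1) * qM p P (Complex.I • K) t - qM p P K t) (𝓝[≠] 0)
      (𝓝 (Lam p a (Vᴴ * K * W))) := by
    refine h3.congr fun t => ?_
    rw [qM_eq hV hW hP, qM_eq hV hW hP, Matrix.mul_smul, Matrix.smul_mul]
  exact Lam_eq_zero hp ha _ (tendsto_nhds_unique h4 h)

theorem lim_of_compat {p : ℝ} (hp : 2 < p) {P K : Matrix n n ℂ}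
    {V W : Matrix n n ℂ} {a : n → ℝ} (hV : V ∈ unitaryGroup n ℂ)
    (hW : W ∈ unitaryGroup n ℂ) (ha : ∀ i, 0 ≤ a i)
    (hP : P = V * diagonal (fun i => (a i : ℂ)) * Wᴴ) (hK : Compat a (Vᴴ * K * W)) :
    Tendsto (fun t => (p - 1) * qM p P (Complex.I • K) t - qM p P K t) (𝓝[≠] 0) (𝓝 0) := by
  have h1 := (pq_tendsto hp a (Complex.I • (Vᴴ * K * W))).const_mul (p - 1)
  have h2 := pq_tendsto hp a (Vᴴ * K * W)
  have h3 := (h1.sub h2)
  have h5 : Lam p a (Vᴴ * K * W) = 0 := Lam_of_compat hp ha hK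
  unfold Lam at h5
  rw [h5] at h3
  refine h3.congr fun t => ?_
  rw [qM_eq hV hW hP, qM_eq hV hW hP, Matrix.mul_smul, Matrix.smul_mul]

end Pool.Agent.MP_cd6b85_an
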