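import Pool.Agent.Lib.MP_cd6b85_an.Dilate
open Matrix Filter Topology MeasureTheory
open scoped ComplexOrder
namespace Pool.Agent.MP_cd6b85_an

/-! ### scalar inequalities -/

theorem f1_of_nonneg {p : ℝ} (hp : 2 < p) {a : ℝ} (ha : 0 ≤ a) : f1 p a = p * a ^ (p - 1) := by
  unfold f1
  rw [abs_of_nonneg ha]
  rcases ha.eq_or_lt with rfl | h
  · rw [Real.zero_rpow (by linarith), Real.zero_rpow (by linarith)]; ring
  · rw [mul_assoc, ← Real.rpow_add_one h.ne']; congr 2; ring

theorem scalar_main {r : ℝ} (hr : 1 < r) {a b : ℝ} (hb : 0 ≤ b) (hab : b < a) :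
    (a ^ r - b ^ r) * (a + b) < r * (a ^ r + b ^ r) * (a - b) := by
  have ha : 0 < a := by linarith
  let G : ℝ → ℝ := fun x => r * (a ^ r + x ^ r) * (a - x) - (a ^ r - x ^ r) * (a + x)
  have hanti : StrictAntiOn G (Set.Icc b a) := by
    apply strictAntiOn_of_deriv_neg (convex_Icc b a)
    · have h1 : Continuous fun x : ℝ => x ^ r := continuous_id.rpow_const fun _ => Or.inr (by linarith)
      have : Continuous G := by
        exact ((continuous_const.mul (continuous_const.add h1)).mul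
          (continuous_const.sub continuous_id)).sub
          ((continuous_const.sub h1).mul (continuous_const.add continuous_id))
      exact this.continuousOn
    · intro x hx
      rw [interior_Icc] at hx
      have hx0 : 0 < x := by linarith [hx.1]
      have hd : HasDerivAt (fun x : ℝ => x ^ r) (r * x ^ (r - 1)) x :=
        Real.hasDerivAt_rpow_const (Or.inl hx0.ne')
      have hG : HasDerivAt G (r * (r * x ^ (r - 1)) * (a - x) + r * (a ^ r + x ^ r) * (-1) -
          ((-(r * x ^ (r - 1))) * (a + x) + (a ^ r - x ^ r) * 1)) x := by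
        have e1 := ((hd.const_add (a ^ r)).const_mul r).mul ((hasDerivAt_id x).const_sub a)
        have e2 := (hd.const_sub (a ^ r)).mul ((hasDerivAt_id x).const_add a)
        exact e1.sub e2
      rw [hG.deriv]
      have hxr : x ^ r = x ^ (r - 1) * x := by
        rw [← Real.rpow_add_one hx0.ne']; congr 1; ring
      -- Bernoulli
      have hs : (0 : ℝ) < a / x - 1 := by
        rw [sub_pos, lt_div_iff₀ hx0]; linarith [hx.2]
      have hB := one_add_mul_self_lt_rpow_one_add (by linarith : (-1 : ℝ) ≤ a / x - 1) hs.ne' hr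
      rw [show 1 + (a / x - 1) = a / x by ring, Real.div_rpow ha.le hx0.le,
        lt_div_iff₀ (Real.rpow_pos_of_pos hx0 r)] at hB
      have hB2 : (1 + r * (a / x - 1)) * x ^ r = r * a * x ^ (r - 1) - (r - 1) * x ^ r := by
        rw [hxr]; field_simp; ring
      rw [hB2] at hB
      have e : r * (r * x ^ (r - 1)) * (a - x) + r * (a ^ r + x ^ r) * (-1) -
          ((-(r * x ^ (r - 1))) * (a + x) + (a ^ r - x ^ r) * 1) =
          (r + 1) * (r * a * x ^ (r - 1) - (r - 1) * x ^ r - a ^ r) := by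
        rw [hxr]; ring
      rw [e]
      exact mul_neg_of_pos_of_neg (by linarith) (by linarith)
  have h := hanti (Set.left_mem_Icc.mpr hab.le) (Set.right_mem_Icc.mpr hab.le) hab
  simp only [G] at h
  have e0 : r * (a ^ r + a ^ r) * (a - a) - (a ^ r - a ^ r) * (a + a) = 0 := by ring
  rw [e0] at h
  linarith

/-- `f'[a,b]` -/
noncomputable def SS (p a b : ℝ) : ℝ := dd p a b + dd p b a
/-- `f'[a,-b]` -/
noncomputable def DD (p a b : ℝ) : ℝ := dd p a (-b) + dd p (-b) a

theorem SS_comm (p a b : ℝ) : SS p a b = SS p b a := add_comm _ _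
theorem DD_comm (p a b : ℝ) : DD p a b = DD p b a := by
  unfold DD
  rw [← dd_neg p a (-b), ← dd_neg p (-b) a, neg_neg, add_comm]

theorem SS_self (p a : ℝ) : SS p a a = f2 p a := by unfold SS; rw [dd_self]; ring
theorem SS_ne {p a b : ℝ} (h : a ≠ b) : SS p a b = (f1 p a - f1 p b) / (a - b) := dd_symm a b h
theorem DD_ne {p a b : ℝ} (h : a + b ≠ 0) : DD p a b = (f1 p a + f1 p b) / (a + b) := by
  have : a ≠ -b := fun h' => h (by rw [h']; ring)
  unfold DD
  rw [dd_symm a (-b) this, f1_neg, sub_neg_eq_add, sub_neg_eq_add]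

theorem f2_zero {p : ℝ} (hp : 2 < p) : f2 p 0 = 0 := by
  unfold f2; rw [abs_zero, Real.zero_rpow (by linarith), mul_zero]

theorem DD_zero {p : ℝ} (hp : 2 < p) : DD p 0 0 = 0 := by
  unfold DD; rw [neg_zero, dd_self, f2_zero hp]; ring

theorem DD_self {p : ℝ} (hp : 2 < p) {a : ℝ} (ha : 0 ≤ a) : (p - 1) * DD p a a = SS p a a := by
  rcases ha.eq_or_lt with rfl | h
  · rw [SS_self, f2_zero hp, DD_zero hp, mul_zero]
  · rw [SS_self, DD_ne (by linarith), f2, f1, abs_of_pos h]
    field_simp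

theorem ineq1_aux {p : ℝ} (hp : 2 < p) {a b : ℝ} (hb : 0 ≤ b) (hab : b < a) :
    SS p a b < (p - 1) * DD p a b := by
  have ha : 0 ≤ a := by linarith
  rw [SS_ne hab.ne', DD_ne (by linarith), f1_of_nonneg hp ha, f1_of_nonneg hp hb, ← mul_div_assoc,
    div_lt_div_iff₀ (by linarith) (by linarith)]
  have h := scalar_main (r := p - 1) (by linarith) hb hab
  have hp0 : 0 < p := by linarith
  have := mul_lt_mul_of_pos_left h hp0
  linarith

theorem ineq1 {p : ℝ} (hp : 2 < p) {a b : ℝ} (ha : 0 ≤ a) (hb : 0 ≤ b) (hab : a ≠ b) :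
    SS p a b < (p - 1) * DD p a b := by
  rcases lt_or_gt_of_ne hab with h | h
  · rw [SS_comm, DD_comm]; exact ineq1_aux hp ha h
  · exact ineq1_aux hp hb h

theorem ineq2_aux {p : ℝ} (hp : 2 < p) {a b : ℝ} (hb : 0 ≤ b) (hab : b < a) :
    DD p a b < (p - 1) * SS p a b := by
  have ha : 0 < a := by linarith
  have hSS : 0 < SS p a b := by
    rw [SS_ne hab.ne', f1_of_nonneg hp ha.le, f1_of_nonneg hp hb]
    apply div_pos _ (by linarith)
    have := Real.rpow_lt_rpow hb hab (show 0 < p - 1 by linarith)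
    have hp0 : 0 < p := by linarith
    have := mul_lt_mul_of_pos_left this hp0
    linarith
  have hle : DD p a b ≤ SS p a b := by
    rw [SS_ne hab.ne', DD_ne (by linarith), f1_of_nonneg hp ha.le, f1_of_nonneg hp hb,
      div_le_div_iff₀ (by linarith) (by linarith)]
    rcases hb.eq_or_lt with rfl | hb'
    · rw [Real.zero_rpow (by linarith)]; simp
    · have e1 : a ^ (p - 1) = a ^ (p - 2) * a := by
        rw [← Real.rpow_add_one ha.ne']; congr 1; ring
      have e2 : b ^ (p - 1) = b ^ (p - 2) * b := by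
        rw [← Real.rpow_add_one hb'.ne']; congr 1; ring
      have e3 : b ^ (p - 2) ≤ a ^ (p - 2) := Real.rpow_le_rpow hb hab.le (by linarith)
      rw [e1, e2]
      have e4 : 0 ≤ p * (a * b) * (a ^ (p - 2) - b ^ (p - 2)) :=
        mul_nonneg (mul_nonneg (by linarith) (mul_nonneg ha.le hb)) (by linarith)
      nlinarith
  nlinarith

theorem ineq2 {p : ℝ} (hp : 2 < p) {a b : ℝ} (ha : 0 ≤ a) (hb : 0 ≤ b) (h0 : a ≠ 0 ∨ b ≠ 0) :
    DD p a b < (p - 1) * SS p a b := by
  rcases lt_trichotomy a b with h | h | h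
  · rw [SS_comm, DD_comm]; exact ineq2_aux hp ha h
  · subst h
    have ha' : 0 < a := lt_of_le_of_ne ha (Ne.symm (by tauto))
    have h1 := DD_self hp ha
    have h2 : 0 < SS p a a := by
      rw [SS_self, f2, abs_of_pos ha']
      have := Real.rpow_pos_of_pos ha' (p - 2)
      have h1 : 0 < p * (p - 1) := mul_pos (by linarith) (by linarith)
      positivity
    have h3 : DD p a a = SS p a a / (p - 1) := by
      rw [eq_div_iff (by linarith), mul_comm]; exact h1
    rw [h3, div_lt_iff₀ (by linarith)]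
    have : SS p a a * 1 < SS p a a * ((p - 1) * (p - 1)) :=
      mul_lt_mul_of_pos_left (by nlinarith) h2
    linarith
  · exact ineq2_aux hp hb h

theorem SS_zero {p : ℝ} (hp : 2 < p) : SS p 0 0 = 0 := by rw [SS_self, f2_zero hp]


/-! ### the functional -/
variable {n : Type*} [Fintype n] [DecidableEq n]

/-- limit of second differences -/
noncomputable def L2 (p : ℝ) (a : n → ℝ) (K : Matrix n n ℂ) : ℝ :=
  ∑ i, ∑ j, (‖K i j + star (K j i)‖ ^ 2 * SS p (a i) (a j) +
    ‖K i j - star (K j i)‖ ^ 2 * DD p (a i) (a j)) / 4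

theorem sum_symm_half (F : n → n → ℝ) (g : n → n → ℝ) (hF : ∀ i j, F i j = F j i) :
    ∑ i, ∑ j, F i j * g i j = ∑ i, ∑ j, F i j * (g i j + g j i) / 2 := by
  have h1 : ∑ i, ∑ j, F i j * g i j = ∑ i, ∑ j, F i j * g j i := by
    rw [Finset.sum_comm]
    refine Finset.sum_congr rfl fun i _ => Finset.sum_congr rfl fun j _ => ?_
    rw [hF]
  have h2 : ∑ i, ∑ j, F i j * (g i j + g j i) / 2 =
      (∑ i, ∑ j, F i j * g i j + ∑ i, ∑ j, F i j * g j i) / 2 := by
    rw [← Finset.sum_add_distrib, Finset.sum_div]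
    refine Finset.sum_congr rfl fun i _ => ?_
    rw [← Finset.sum_add_distrib, Finset.sum_div]
    refine Finset.sum_congr rfl fun j _ => ?_
    ring
  rw [h2, ← h1]; ring

theorem L2_eq (p : ℝ) (a : n → ℝ) (K : Matrix n n ℂ) :
    ∑ i, ∑ l, ‖dil K i l‖ ^ 2 * dd p (nu a i) (nu a l) = L2 p a K := by
  have hs : ∀ i j, ‖K i j + star (K j i)‖ = ‖K j i + star (K i j)‖ := by
    intro i j
    rw [← norm_star (K j i + star (K i j)), star_add, star_star, add_comm]
  have hd : ∀ i j, ‖K i j - star (K j i)‖ = ‖K j i - star (K i j)‖ := by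
    intro i j
    rw [← norm_star (K j i - star (K i j)), star_sub, star_star, norm_sub_rev]
  have e11 : ∀ i j, ‖dil K (Sum.inl i) (Sum.inl j)‖ ^ 2 = ‖K i j + star (K j i)‖ ^ 2 / 4 := by
    intro i j
    simp only [dil, Matrix.fromBlocks_apply₁₁, Matrix.smul_apply, Matrix.add_apply,
      Matrix.conjTranspose_apply, smul_eq_mul, norm_mul, mul_pow]
    norm_num; ring
  have e12 : ∀ i j, ‖dil K (Sum.inl i) (Sum.inr j)‖ ^ 2 = ‖K i j - star (K j i)‖ ^ 2 / 4 := by
    intro i j
    simp only [dil, Matrix.fromBlocks_apply₁₂, Matrix.smul_apply, Matrix.sub_apply,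
      Matrix.conjTranspose_apply, smul_eq_mul, norm_mul, mul_pow]
    rw [norm_sub_rev]
    norm_num; ring
  have e21 : ∀ i j, ‖dil K (Sum.inr i) (Sum.inl j)‖ ^ 2 = ‖K i j - star (K j i)‖ ^ 2 / 4 := by
    intro i j
    simp only [dil, Matrix.fromBlocks_apply₂₁, Matrix.smul_apply, Matrix.sub_apply,
      Matrix.conjTranspose_apply, smul_eq_mul, norm_mul, mul_pow]
    norm_num; ring
  have e22 : ∀ i j, ‖dil K (Sum.inr i) (Sum.inr j)‖ ^ 2 = ‖K i j + star (K j i)‖ ^ 2 / 4 := by
    intro i j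
    simp only [dil, Matrix.fromBlocks_apply₂₂, Matrix.neg_apply, Matrix.smul_apply,
      Matrix.add_apply, Matrix.conjTranspose_apply, smul_eq_mul, norm_neg, norm_mul, mul_pow]
    norm_num; ring
  simp only [Fintype.sum_sum_type, e11, e12, e21, e22, nu, Sum.elim_inl, Sum.elim_inr, dd_neg]
  have e3 : ∀ i j, dd p (-a i) (a j) = dd p (a i) (-a j) := by
    intro i j
    rw [← dd_neg, neg_neg]
  simp only [e3]
  unfold L2
  simp only [add_div, Finset.sum_add_distrib]
  have s1 := sum_symm_half (fun i j => ‖K i j + star (K j i)‖ ^ 2 / 4)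
    (fun i j => dd p (a i) (a j)) (fun i j => by rw [hs])
  have s2 := sum_symm_half (fun i j => ‖K i j - star (K j i)‖ ^ 2 / 4)
    (fun i j => dd p (a i) (-a j)) (fun i j => by rw [hd])
  rw [s1, s2]
  have t1 : ∀ i j, ‖K i j + star (K j i)‖ ^ 2 / 4 * (dd p (a i) (a j) + dd p (a j) (a i)) / 2 =
      ‖K i j + star (K j i)‖ ^ 2 * SS p (a i) (a j) / 4 / 2 := by
    intro i j; unfold SS; ring
  have t2 : ∀ i j, ‖K i j - star (K j i)‖ ^ 2 / 4 * (dd p (a i) (-a j) + dd p (a j) (-a i)) / 2 =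
      ‖K i j - star (K j i)‖ ^ 2 * DD p (a i) (a j) / 4 / 2 := by
    intro i j
    unfold DD
    rw [← dd_neg p (a j) (-a i), neg_neg]; ring
  simp only [t1, t2, ← Finset.sum_div]
  ring

theorem pq_tendsto {p : ℝ} (hp : 2 < p) (a : n → ℝ) (K : Matrix n n ℂ) :
    Tendsto (pq p a K) (𝓝[≠] 0) (𝓝 (L2 p a K)) := by
  have h := (sq2_tendsto hp (nu a) (dil_herm K)).const_mul (1 / 2 : ℝ)
  have e : (1 / 2 : ℝ) * (2 * ∑ i, ∑ l, ‖dil K i l‖ ^ 2 * dd p (nu a i) (nu a l)) = L2 p a K := by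
    rw [← L2_eq]; ring
  rw [e] at h
  refine h.congr fun t => ?_
  rw [pq_eq (by linarith)]

theorem L2_I (p : ℝ) (a : n → ℝ) (K : Matrix n n ℂ) :
    L2 p a (Complex.I • K) = ∑ i, ∑ j, (‖K i j - star (K j i)‖ ^ 2 * SS p (a i) (a j) +
    ‖K i j + star (K j i)‖ ^ 2 * DD p (a i) (a j)) / 4 := by
  unfold L2
  refine Finset.sum_congr rfl fun i _ => Finset.sum_congr rfl fun j _ => ?_
  simp only [Matrix.smul_apply, smul_eq_mul, star_mul', Complex.star_def, Complex.conj_I]
  have e1 : Complex.I * K i j + -Complex.I * (starRingEnd ℂ) (K j i) =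
      Complex.I * (K i j - (starRingEnd ℂ) (K j i)) := by ring
  have e2 : Complex.I * K i j - -Complex.I * (starRingEnd ℂ) (K j i) =
      Complex.I * (K i j + (starRingEnd ℂ) (K j i)) := by ring
  rw [e1, e2]
  simp

/-- the rigidity functional -/
noncomputable def Lam (p : ℝ) (a : n → ℝ) (K : Matrix n n ℂ) : ℝ :=
  (p - 1) * L2 p a (Complex.I • K) - L2 p a K

theorem Lam_eq (p : ℝ) (a : n → ℝ) (K : Matrix n n ℂ) :
    Lam p a K = ∑ i, ∑ j,
      (‖K i j + star (K j i)‖ ^ 2 * ((p - 1) * DD p (a i) (a j) - SS p (a i) (a j)) +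
       ‖K i j - star (K j i)‖ ^ 2 * ((p - 1) * SS p (a i) (a j) - DD p (a i) (a j))) / 4 := by
  unfold Lam
  rw [L2_I, L2, Finset.mul_sum, ← Finset.sum_sub_distrib]
  refine Finset.sum_congr rfl fun i _ => ?_
  rw [Finset.mul_sum, ← Finset.sum_sub_distrib]
  refine Finset.sum_congr rfl fun j _ => ?_
  ring

theorem Lam_term_nonneg {p : ℝ} (hp : 2 < p) {a : n → ℝ} (ha : ∀ i, 0 ≤ a i)
    (K : Matrix n n ℂ) (i j : n) :
    0 ≤ ‖K i j + star (K j i)‖ ^ 2 * ((p - 1) * DD p (a i) (a j) - SS p (a i) (a j)) ∧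
    0 ≤ ‖K i j - star (K j i)‖ ^ 2 * ((p - 1) * SS p (a i) (a j) - DD p (a i) (a j)) := by
  constructor
  · apply mul_nonneg (sq_nonneg _)
    by_cases h : a i = a j
    · rw [h, DD_self hp (ha j)]; simp
    · linarith [ineq1 hp (ha i) (ha j) h]
  · apply mul_nonneg (sq_nonneg _)
    by_cases h : a i ≠ 0 ∨ a j ≠ 0
    · linarith [ineq2 hp (ha i) (ha j) h]
    · push Not at h
      rw [h.1, h.2, SS_zero hp, DD_zero hp]; simp

theorem Lam_nonneg {p : ℝ} (hp : 2 < p) {a : n → ℝ} (ha : ∀ i, 0 ≤ a i) (K : Matrix n n ℂ) :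
    0 ≤ Lam p a K := by
  rw [Lam_eq]
  refine Finset.sum_nonneg fun i _ => Finset.sum_nonneg fun j _ => ?_
  have h := Lam_term_nonneg hp ha K i j
  linarith [h.1, h.2]

/-- compatibility of `K` with `diag a` -/
def Compat (a : n → ℝ) (K : Matrix n n ℂ) : Prop :=
  (∀ i j, a i ≠ a j → K i j = 0) ∧ (∀ i j, a i = a j → a i ≠ 0 → K i j = star (K j i))

theorem Lam_eq_zero {p : ℝ} (hp : 2 < p) {a : n → ℝ} (ha : ∀ i, 0 ≤ a i) (K : Matrix n n ℂ)
    (h : Lam p a K = 0) : Compat a K := by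
  rw [Lam_eq] at h
  have hterm : ∀ i j, ‖K i j + star (K j i)‖ ^ 2 * ((p - 1) * DD p (a i) (a j) - SS p (a i) (a j)) = 0
      ∧ ‖K i j - star (K j i)‖ ^ 2 * ((p - 1) * SS p (a i) (a j) - DD p (a i) (a j)) = 0 := by
    intro i j
    have h1 := (Finset.sum_eq_zero_iff_of_nonneg (fun i _ => Finset.sum_nonneg fun j _ => by
      have h := Lam_term_nonneg hp ha K i j
      linarith [h.1, h.2])).mp h i (Finset.mem_univ i)
    have h2 := (Finset.sum_eq_zero_iff_of_nonneg (fun j _ => by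
      have h := Lam_term_nonneg hp ha K i j
      linarith [h.1, h.2])).mp h1 j (Finset.mem_univ j)
    have h3 := Lam_term_nonneg hp ha K i j
    constructor <;> linarith [h3.1, h3.2]
  constructor
  · intro i j hij
    have hor : a i ≠ 0 ∨ a j ≠ 0 := by
      by_contra hc
      push Not at hc
      exact hij (by rw [hc.1, hc.2])
    have h1 := (hterm i j).1
    have h2 := (hterm i j).2
    have g1 := ineq1 hp (ha i) (ha j) hij
    have g2 := ineq2 hp (ha i) (ha j) hor
    have h3 : K i j + star (K j i) = 0 := by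
      rcases mul_eq_zero.mp h1 with h | h
      · exact norm_eq_zero.mp (pow_eq_zero_iff (two_ne_zero) |>.mp h)
      · linarith
    have h4 : K i j - star (K j i) = 0 := by
      rcases mul_eq_zero.mp h2 with h | h
      · exact norm_eq_zero.mp (pow_eq_zero_iff (two_ne_zero) |>.mp h)
      · linarith
    have h5 : (2 : ℂ) * K i j = 0 := by linear_combination h3 + h4
    simpa using h5
  · intro i j hij hi
    have h2 := (hterm i j).2
    have g2 := ineq2 hp (ha i) (ha j) (Or.inl hi)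
    rcases mul_eq_zero.mp h2 with h | h
    · exact sub_eq_zero.mp (norm_eq_zero.mp (pow_eq_zero_iff (two_ne_zero) |>.mp h))
    · linarith

theorem Lam_of_compat {p : ℝ} (hp : 2 < p) {a : n → ℝ} (ha : ∀ i, 0 ≤ a i) {K : Matrix n n ℂ}
    (h : Compat a K) : Lam p a K = 0 := by
  rw [Lam_eq]
  refine Finset.sum_eq_zero fun i _ => Finset.sum_eq_zero fun j _ => ?_
  by_cases hij : a i = a j
  · rw [hij, DD_self hp (ha j)]
    by_cases hj : a j = 0
    · rw [hj, SS_zero hp, DD_zero hp]; simp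
    · rw [h.2 i j hij (by rwa [hij])]; simp
  · rw [h.1 i j hij, h.1 j i (Ne.symm hij)]; simp

end Pool.Agent.MP_cd6b85_an
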