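import Pool.Agent.Lib.MP_cd6b85_an.Phi
open Matrix Filter Topology MeasureTheory
namespace Pool.Agent.MP_cd6b85_an

/-- first derivative of `|x|^p` -/
noncomputable def f1 (p x : ℝ) : ℝ := p * |x| ^ (p - 2) * x
/-- second derivative of `|x|^p` -/
noncomputable def f2 (p x : ℝ) : ℝ := p * (p - 1) * |x| ^ (p - 2)

theorem hasDerivAt_f0 {p : ℝ} (hp : 2 < p) (x : ℝ) : HasDerivAt (fun x : ℝ => |x| ^ p) (f1 p x) x :=
  hasDerivAt_abs_rpow x (by linarith)

theorem hasDerivAt_f1 {p : ℝ} (hp : 2 < p) (x : ℝ) : HasDerivAt (f1 p) (f2 p x) x := by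
  unfold f1 f2
  rcases eq_or_ne x 0 with rfl | hx
  · rw [abs_zero, Real.zero_rpow (by linarith), mul_zero, hasDerivAt_iff_tendsto_slope_zero]
    have : ∀ t : ℝ, t ≠ 0 → t⁻¹ • (p * |0 + t| ^ (p - 2) * (0 + t) - p * |(0 : ℝ)| ^ (p - 2) * 0) =
        p * |t| ^ (p - 2) := by
      intro t ht
      rw [smul_eq_mul]; field_simp; ring
    have h2 : Tendsto (fun t : ℝ => p * |t| ^ (p - 2)) (𝓝[≠] 0) (𝓝 0) := by
      have h3 : Continuous fun t : ℝ => p * |t| ^ (p - 2) :=
        continuous_const.mul (continuous_abs.rpow_const fun _ => Or.inr (by linarith))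
      have h4 := h3.tendsto 0
      rw [abs_zero, Real.zero_rpow (by linarith), mul_zero] at h4
      exact h4.mono_left nhdsWithin_le_nhds
    refine h2.congr' ?_
    filter_upwards [self_mem_nhdsWithin] with t ht
    exact (this t ht).symm
  · rcases lt_or_gt_of_ne hx with h | h
    · have h1 : HasDerivAt (fun x : ℝ => p * (-x) ^ (p - 2) * x)
          (p * ((p - 2) * (-x) ^ (p - 2 - 1) * (-1)) * x + p * (-x) ^ (p - 2) * 1) x := by
        have h0 : HasDerivAt (fun x : ℝ => (-x) ^ (p - 2)) ((-1) * (p - 2) * (-x) ^ (p - 2 - 1)) x :=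
          (hasDerivAt_id x).neg.rpow_const (Or.inl (by simp; linarith))
        have := ((h0.const_mul p).mul (hasDerivAt_id x))
        refine this.congr_deriv ?_
        simp only [id]; ring
      have h2 : (fun x : ℝ => p * |x| ^ (p - 2) * x) =ᶠ[𝓝 x] fun x : ℝ => p * (-x) ^ (p - 2) * x := by
        filter_upwards [gt_mem_nhds h] with y hy
        rw [abs_of_neg hy]
      refine (h1.congr_of_eventuallyEq h2).congr_deriv ?_
      rw [abs_of_neg h]
      have h3 : (-x) ^ (p - 2) = (-x) ^ (p - 2 - 1) * (-x) := by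
        rw [← Real.rpow_add_one (by linarith)]; ring_nf
      rw [h3]; ring
    · have h1 : HasDerivAt (fun x : ℝ => p * x ^ (p - 2) * x)
          (p * ((p - 2) * x ^ (p - 2 - 1)) * x + p * x ^ (p - 2) * 1) x := by
        have h0 : HasDerivAt (fun x : ℝ => x ^ (p - 2)) ((p - 2) * x ^ (p - 2 - 1)) x :=
          Real.hasDerivAt_rpow_const (Or.inl h.ne')
        exact ((h0.const_mul p).mul (hasDerivAt_id x))
      have h2 : (fun x : ℝ => p * |x| ^ (p - 2) * x) =ᶠ[𝓝 x] fun x : ℝ => p * x ^ (p - 2) * x := by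
        filter_upwards [lt_mem_nhds h] with y hy
        rw [abs_of_pos hy]
      refine (h1.congr_of_eventuallyEq h2).congr_deriv ?_
      rw [abs_of_pos h]
      have h3 : x ^ (p - 2) = x ^ (p - 2 - 1) * x := by
        rw [← Real.rpow_add_one (by linarith)]; ring_nf
      rw [h3]; ring

theorem continuous_f2 {p : ℝ} (hp : 2 < p) : Continuous (f2 p) :=
  continuous_const.mul (continuous_abs.rpow_const fun _ => Or.inr (by linarith))

theorem f1_neg (p x : ℝ) : f1 p (-x) = - f1 p x := by unfold f1; rw [abs_neg]; ring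
theorem f2_neg (p x : ℝ) : f2 p (-x) = f2 p x := by unfold f2; rw [abs_neg]

/-- second divided difference `f[a,a,b]` of `|x|^p`. -/
noncomputable def dd (p a b : ℝ) : ℝ :=
  if a = b then f2 p a / 2 else (|b| ^ p - |a| ^ p - f1 p a * (b - a)) / (b - a) ^ 2

theorem dd_self (p a : ℝ) : dd p a a = f2 p a / 2 := by simp [dd]

theorem dd_mul (p a b : ℝ) : dd p a b * (b - a) ^ 2 = |b| ^ p - |a| ^ p - f1 p a * (b - a) := by
  unfold dd
  split_ifs with h
  · subst h; simp
  · have : (b - a) ^ 2 ≠ 0 := pow_ne_zero _ (sub_ne_zero.mpr (Ne.symm h))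
    rw [div_mul_cancel₀ _ this]

theorem dd_neg (p a b : ℝ) : dd p (-a) (-b) = dd p a b := by
  unfold dd
  rw [abs_neg, abs_neg, f1_neg, f2_neg]
  by_cases h : a = b
  · simp [h]
  · rw [if_neg h, if_neg (by simpa using h)]
    congr 1
    · ring
    · ring

theorem dd_mean_lt {p : ℝ} (hp : 2 < p) {a b : ℝ} (h : a < b) :
    ∃ c ∈ Set.Icc a b, dd p a b = f2 p c / 2 := by
  have hF : ∀ x : ℝ, HasDerivAt (fun x : ℝ => |x| ^ p - |a| ^ p - f1 p a * (x - a))
      (f1 p x - f1 p a) x := by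
    intro x
    have := ((hasDerivAt_f0 hp x).sub_const (|a| ^ p)).sub
      (((hasDerivAt_id x).sub_const a).const_mul (f1 p a))
    refine this.congr_deriv ?_
    ring
  have hG : ∀ x : ℝ, HasDerivAt (fun x : ℝ => (x - a) ^ 2) (2 * (x - a)) x := by
    intro x
    have := ((hasDerivAt_id x).sub_const a).pow 2
    refine this.congr_deriv ?_
    simp
  obtain ⟨c, hc, hc2⟩ := exists_ratio_hasDerivAt_eq_ratio_slope _ _ h
    (fun x _ => (hF x).continuousAt.continuousWithinAt) (fun x _ => hF x) _ _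
    (fun x _ => (hG x).continuousAt.continuousWithinAt) (fun x _ => hG x)
  obtain ⟨d, hd, hd2⟩ := exists_hasDerivAt_eq_slope (f1 p) (f2 p) hc.1
    (fun x _ => (hasDerivAt_f1 hp x).continuousAt.continuousWithinAt)
    (fun x _ => hasDerivAt_f1 hp x)
  refine ⟨d, ⟨hd.1.le, (hd.2.trans hc.2).le⟩, ?_⟩
  have hca : c - a ≠ 0 := sub_ne_zero.mpr hc.1.ne'
  have hba : b - a ≠ 0 := sub_ne_zero.mpr h.ne'
  rw [dd, if_neg h.ne, hd2, div_div, div_eq_div_iff (pow_ne_zero _ hba)
    (mul_ne_zero hca two_ne_zero)]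
  linear_combination -hc2

theorem dd_mean {p : ℝ} (hp : 2 < p) (a b : ℝ) :
    ∃ c, |c - a| ≤ |b - a| ∧ |c| ≤ max |a| |b| ∧ dd p a b = f2 p c / 2 := by
  rcases lt_trichotomy a b with h | h | h
  · obtain ⟨c, hc, hc2⟩ := dd_mean_lt hp h
    refine ⟨c, ?_, ?_, hc2⟩
    · rw [abs_of_nonneg (by linarith [hc.1]), abs_of_nonneg (by linarith)]; linarith [hc.2]
    · exact abs_le_max_abs_abs hc.1 hc.2
  · subst h
    exact ⟨a, by simp, by simp, dd_self p a⟩
  · obtain ⟨c, hc, hc2⟩ := dd_mean_lt hp (neg_lt_neg h)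
    refine ⟨-c, ?_, ?_, ?_⟩
    · have h1 := hc.1; have h2 := hc.2
      rw [abs_of_nonpos (by linarith), abs_of_nonpos (by linarith)]; linarith
    · have := abs_le_max_abs_abs hc.1 hc.2
      rwa [abs_neg, abs_neg, ← abs_neg c] at this
    · rw [f2_neg, ← hc2, dd_neg]

theorem dd_nonneg {p : ℝ} (hp : 2 < p) (a b : ℝ) : 0 ≤ dd p a b := by
  obtain ⟨c, _, _, h⟩ := dd_mean hp a b
  rw [h]
  have : 0 ≤ f2 p c := by
    unfold f2
    have := Real.rpow_nonneg (abs_nonneg c) (p - 2)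
    have h1 : 0 ≤ p * (p - 1) := mul_nonneg (by linarith) (by linarith)
    positivity
  linarith

theorem dd_le {p : ℝ} (hp : 2 < p) {a b R : ℝ} (ha : |a| ≤ R) (hb : |b| ≤ R) :
    dd p a b ≤ f2 p R := by
  obtain ⟨c, _, hc, h⟩ := dd_mean hp a b
  have hR : 0 ≤ R := (abs_nonneg a).trans ha
  have h1 : f2 p c ≤ f2 p R := by
    unfold f2
    have h1 : 0 ≤ p * (p - 1) := mul_nonneg (by linarith) (by linarith)
    apply mul_le_mul_of_nonneg_left _ h1
    apply Real.rpow_le_rpow (abs_nonneg c) _ (by linarith)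
    rw [abs_of_nonneg hR]
    exact hc.trans (max_le ha hb)
  have h2 : 0 ≤ f2 p c := by
    have := dd_nonneg hp c c
    rw [dd_self] at this; linarith
  rw [h]; linarith

theorem continuous_dd {p : ℝ} (hp : 2 < p) (a : ℝ) : Continuous (dd p a) := by
  rw [continuous_iff_continuousAt]
  intro b
  by_cases h : a = b
  · subst h
    rw [Metric.continuousAt_iff]
    intro ε hε
    obtain ⟨δ, hδ, h1⟩ := Metric.continuousAt_iff.mp (continuous_f2 hp).continuousAt ε hε
    refine ⟨δ, hδ, fun {b} hb => ?_⟩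
    obtain ⟨c, hc, _, hc2⟩ := dd_mean hp a b
    rw [dd_self, hc2, Real.dist_eq]
    have h2 := @h1 c (by rw [Real.dist_eq] at hb ⊢; exact hc.trans_lt hb)
    rw [Real.dist_eq] at h2
    rw [← sub_div, abs_div, abs_two]
    linarith [abs_nonneg (f2 p c - f2 p a)]
  · have h1 : dd p a =ᶠ[𝓝 b] fun b => (|b| ^ p - |a| ^ p - f1 p a * (b - a)) / (b - a) ^ 2 := by
      filter_upwards [isOpen_ne.mem_nhds (Ne.symm h)] with c hc
      rw [dd, if_neg (Ne.symm hc)]
    refine ContinuousAt.congr ?_ h1.symm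
    have h2 : (b - a) ^ 2 ≠ 0 := pow_ne_zero _ (sub_ne_zero.mpr (Ne.symm h))
    refine ContinuousAt.div (f := fun b => |b| ^ p - |a| ^ p - f1 p a * (b - a)) (g := fun b => (b - a) ^ 2) ?_ ?_ h2
    · have h3 : Continuous fun b : ℝ => |b| ^ p :=
        continuous_abs.rpow_const fun _ => Or.inr (by linarith)
      have h4 : Continuous fun b : ℝ => |b| ^ p - |a| ^ p - f1 p a * (b - a) := by
        exact (h3.sub continuous_const).sub (continuous_const.mul (continuous_id.sub continuous_const))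
      exact h4.continuousAt
    · fun_prop

/-- first divided difference of `f'` -/
theorem dd_symm {p : ℝ} (a b : ℝ) (h : a ≠ b) :
    dd p a b + dd p b a = (f1 p a - f1 p b) / (a - b) := by
  have h1 : a - b ≠ 0 := sub_ne_zero.mpr h
  have h2 : b - a ≠ 0 := sub_ne_zero.mpr (Ne.symm h)
  rw [dd, if_neg h, dd, if_neg (Ne.symm h)]
  have : (b - a) ^ 2 = (a - b) ^ 2 := by ring
  rw [this, ← add_div, div_eq_div_iff (pow_ne_zero _ h1) h1]
  ring

end Pool.Agent.MP_cd6b85_an
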