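import Mathlib
open MeasureTheory Filter Topology Set
namespace Pool.Agent.MP_cd6b85_an

theorem one_sub_cos_nonneg (x : ℝ) : 0 ≤ 1 - Real.cos x := by linarith [Real.cos_le_one x]
theorem one_sub_cos_le_two (x : ℝ) : 1 - Real.cos x ≤ 2 := by linarith [Real.neg_one_le_cos x]
theorem one_sub_cos_le_sq (x : ℝ) : 1 - Real.cos x ≤ x ^ 2 / 2 := by
  linarith [Real.one_sub_sq_div_two_le_cos (x := x)]

/-- integrability of `f(s) s^{-1-p}` for `0 < p < 6`. -/
theorem integrable_kernel {p : ℝ} (hp0 : 0 < p) (hp6 : p < 6) {f : ℝ → ℝ} (hf : Continuous f)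
    {C : ℝ} (h1 : ∀ s, 0 < s → |f s| ≤ C) (h2 : ∀ s, 0 < s → |f s| ≤ C * s ^ 6) :
    IntegrableOn (fun s => f s * s ^ (-1 - p)) (Ioi 0) := by
  have hmeas : AEStronglyMeasurable (fun s => f s * s ^ (-1 - p)) (volume.restrict (Ioi 0)) := by
    apply ContinuousOn.aestronglyMeasurable _ measurableSet_Ioi
    apply hf.continuousOn.mul
    intro s hs
    exact (Real.continuousAt_rpow_const s _ (Or.inl (ne_of_gt hs))).continuousWithinAt
  rw [← Ioc_union_Ioi_eq_Ioi (zero_le_one (α := ℝ))]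
  apply IntegrableOn.union
  · have h3 : IntegrableOn (fun s : ℝ => C * s ^ (5 - p)) (Ioc 0 1) := by
      have := (intervalIntegral.intervalIntegrable_rpow' (a := 0) (b := 1)
        (r := 5 - p) (by linarith)).const_mul C
      rwa [intervalIntegrable_iff_integrableOn_Ioc_of_le zero_le_one] at this
    refine Integrable.mono' h3 (hmeas.mono_set Ioc_subset_Ioi_self) ?_
    refine (ae_restrict_iff' measurableSet_Ioc).mpr (Eventually.of_forall fun s hs => ?_)
    rw [norm_mul, Real.norm_eq_abs, Real.norm_of_nonneg (Real.rpow_nonneg hs.1.le _)]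
    calc |f s| * s ^ (-1 - p) ≤ (C * s ^ 6) * s ^ (-1 - p) :=
          mul_le_mul_of_nonneg_right (h2 s hs.1) (Real.rpow_nonneg hs.1.le _)
      _ = C * s ^ (5 - p) := by
          rw [mul_assoc, ← Real.rpow_natCast, ← Real.rpow_add hs.1]
          congr 2; push_cast; ring
  · have h3 : IntegrableOn (fun s : ℝ => C * s ^ (-1 - p)) (Ioi 1) :=
      (integrableOn_Ioi_rpow_of_lt (by linarith) one_pos).const_mul C
    refine Integrable.mono' h3 (hmeas.mono_set (Ioi_subset_Ioi zero_le_one)) ?_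
    refine (ae_restrict_iff' measurableSet_Ioi).mpr (Eventually.of_forall fun s hs => ?_)
    have hs0 : (0 : ℝ) < s := lt_trans one_pos hs
    rw [norm_mul, Real.norm_eq_abs, Real.norm_of_nonneg (Real.rpow_nonneg hs0.le _)]
    exact mul_le_mul_of_nonneg_right (h1 s hs0) (Real.rpow_nonneg hs0.le _)

/-- product of three factors `1 - cos` -/
noncomputable def pc (a b c s : ℝ) : ℝ :=
  (1 - Real.cos (s * a)) * (1 - Real.cos (s * b)) * (1 - Real.cos (s * c))

theorem pc_nonneg (a b c s : ℝ) : 0 ≤ pc a b c s :=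
  mul_nonneg (mul_nonneg (one_sub_cos_nonneg _) (one_sub_cos_nonneg _)) (one_sub_cos_nonneg _)

theorem continuous_pc (a b c : ℝ) : Continuous (pc a b c) := by unfold pc; fun_prop

theorem integrable_pc {p : ℝ} (hp0 : 0 < p) (hp6 : p < 6) (a b c : ℝ) :
    IntegrableOn (fun s => pc a b c s * s ^ (-1 - p)) (Ioi 0) := by
  apply integrable_kernel hp0 hp6 (continuous_pc a b c) (C := 8 + a ^ 2 * b ^ 2 * c ^ 2)
  · intro s _
    rw [abs_of_nonneg (pc_nonneg a b c s)]
    have h1 : pc a b c s ≤ 2 * 2 * 2 := by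
      unfold pc
      apply mul_le_mul _ (one_sub_cos_le_two _) (one_sub_cos_nonneg _) (by norm_num)
      exact mul_le_mul (one_sub_cos_le_two _) (one_sub_cos_le_two _) (one_sub_cos_nonneg _)
        (by norm_num)
    have : 0 ≤ a ^ 2 * b ^ 2 * c ^ 2 := by positivity
    linarith
  · intro s hs
    rw [abs_of_nonneg (pc_nonneg a b c s)]
    have h1 : pc a b c s ≤ (s * a) ^ 2 / 2 * ((s * b) ^ 2 / 2) * ((s * c) ^ 2 / 2) := by
      unfold pc
      apply mul_le_mul _ (one_sub_cos_le_sq _) (one_sub_cos_nonneg _) (by positivity)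
      exact mul_le_mul (one_sub_cos_le_sq _) (one_sub_cos_le_sq _) (one_sub_cos_nonneg _)
        (by positivity)
    have h2 : 0 ≤ a ^ 2 * b ^ 2 * c ^ 2 * s ^ 6 := by positivity
    have h3 : 0 ≤ s ^ 6 := by positivity
    have h4 : (s * a) ^ 2 / 2 * ((s * b) ^ 2 / 2) * ((s * c) ^ 2 / 2) =
      a ^ 2 * b ^ 2 * c ^ 2 * s ^ 6 / 8 := by ring
    rw [h4] at h1
    nlinarith

/-- scaling -/
theorem scale_pc {p : ℝ} (a b c : ℝ) {t : ℝ} (ht : 0 < t) :
    ∫ s in Ioi (0 : ℝ), pc (t * a) (t * b) (t * c) s * s ^ (-1 - p) =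
      t ^ p * ∫ s in Ioi (0 : ℝ), pc a b c s * s ^ (-1 - p) := by
  have h1 := integral_comp_mul_right_Ioi (fun s => pc a b c s * s ^ (-1 - p)) 0 ht
  rw [zero_mul, smul_eq_mul] at h1
  have h2 : ∫ s in Ioi (0 : ℝ), pc (t * a) (t * b) (t * c) s * s ^ (-1 - p) =
      t ^ (1 + p) * ∫ s in Ioi (0 : ℝ), pc a b c (s * t) * (s * t) ^ (-1 - p) := by
    rw [← integral_const_mul]
    refine setIntegral_congr_fun measurableSet_Ioi fun s hs => ?_
    have hs0 : (0 : ℝ) < s := hs
    have e1 : pc (t * a) (t * b) (t * c) s = pc a b c (s * t) := by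
      unfold pc; simp only [mul_assoc]
    have e2 : (s * t) ^ (-1 - p) = s ^ (-1 - p) * t ^ (-1 - p) := Real.mul_rpow hs0.le ht.le
    have e3 : t ^ (1 + p) * t ^ (-1 - p) = 1 := by
      rw [← Real.rpow_add ht]; simp
    rw [e1, e2]
    calc pc a b c (s * t) * s ^ (-1 - p) = pc a b c (s * t) * s ^ (-1 - p) *
          (t ^ (1 + p) * t ^ (-1 - p)) := by rw [e3, mul_one]
      _ = _ := by ring
  rw [h2, h1, ← mul_assoc]
  congr 1
  rw [Real.rpow_add ht, Real.rpow_one]
  field_simp

theorem pc_abs (a b c s : ℝ) : pc a b c s = pc |a| |b| |c| s := by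
  unfold pc
  have h : ∀ x, Real.cos (s * |x|) = Real.cos (s * x) := by
    intro x
    rcases abs_choice x with h | h
    · rw [h]
    · rw [h, mul_neg, Real.cos_neg]
  rw [h, h, h]

/-- the trigonometric identity behind the sixth difference -/
theorem trig_id {a b c : ℝ} (h : a + b + c = 0) :
    Real.cos (2 * a) + Real.cos (2 * b) + Real.cos (2 * c) +
      2 * (Real.cos a + Real.cos b + Real.cos c) -
      2 * (Real.cos (a - b) + Real.cos (b - c) + Real.cos (c - a)) - 3 =
    -4 * ((1 - Real.cos a) * (1 - Real.cos b) * (1 - Real.cos c)) := by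
  have hc : c = -(a + b) := by linarith
  subst hc
  have e1 : b - -(a + b) = a + 2 * b := by ring
  have e2 : -(a + b) - a = -(2 * a + b) := by ring
  have e3 : 2 * -(a + b) = -(2 * a + 2 * b) := by ring
  rw [e1, e2, e3]
  simp only [Real.cos_neg, Real.cos_add, Real.cos_sub, Real.cos_two_mul, Real.sin_two_mul]
  ring


/-- The test functional with three atoms. -/
noncomputable def D3 (p a b c : ℝ) : ℝ :=
  ((2 : ℝ) ^ p + 2) * (|a| ^ p + |b| ^ p + |c| ^ p) -
    2 * (|a - b| ^ p + |b - c| ^ p + |c - a| ^ p)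

noncomputable def cc (p : ℝ) : ℝ := ∫ s in Ioi (0 : ℝ), pc 1 1 1 s * s ^ (-1 - p)

theorem cc_nonneg (p : ℝ) : 0 ≤ cc p :=
  setIntegral_nonneg measurableSet_Ioi fun s hs =>
    mul_nonneg (pc_nonneg _ _ _ _) (Real.rpow_nonneg (le_of_lt hs) _)

theorem int_pc_t {p : ℝ} (hp0 : 0 < p) (t : ℝ) :
    ∫ s in Ioi (0 : ℝ), pc t t t s * s ^ (-1 - p) = |t| ^ p * cc p := by
  have h1 : ∀ s, pc t t t s = pc |t| |t| |t| s := fun s => pc_abs t t t s
  simp only [h1]
  rcases (abs_nonneg t).eq_or_lt with h | h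
  · rw [← h, Real.zero_rpow hp0.ne', zero_mul]
    have : ∀ s, pc 0 0 0 s = 0 := fun s => by simp [pc]
    simp [this]
  · have := scale_pc (p := p) 1 1 1 h
    simp only [mul_one] at this
    exact this

theorem cube_id (x : ℝ) : (1 - Real.cos x) * (1 - Real.cos x) * (1 - Real.cos x) =
    5 / 2 - 15 / 4 * Real.cos x + 3 / 2 * Real.cos (2 * x) - 1 / 4 * Real.cos (3 * x) := by
  rw [Real.cos_two_mul, Real.cos_three_mul]; ring

theorem pointwise_id {a b c : ℝ} (h : a + b + c = 0) (s : ℝ) :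
    (pc (2 * a) (2 * a) (2 * a) s + pc (2 * b) (2 * b) (2 * b) s + pc (2 * c) (2 * c) (2 * c) s) +
      2 * (pc a a a s + pc b b b s + pc c c c s) -
      2 * (pc (a - b) (a - b) (a - b) s + pc (b - c) (b - c) (b - c) s +
        pc (c - a) (c - a) (c - a) s) =
    15 * pc a b c s - 6 * pc (2 * a) (2 * b) (2 * c) s + pc (3 * a) (3 * b) (3 * c) s := by
  have h1 := trig_id (a := s * a) (b := s * b) (c := s * c) (by linear_combination s * h)
  have h2 := trig_id (a := 2 * (s * a)) (b := 2 * (s * b)) (c := 2 * (s * c))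
    (by linear_combination 2 * s * h)
  have h3 := trig_id (a := 3 * (s * a)) (b := 3 * (s * b)) (c := 3 * (s * c))
    (by linear_combination 3 * s * h)
  unfold pc
  simp only [cube_id]
  have e : ∀ x y z : ℝ, Real.cos (x * (y * z)) = Real.cos (y * (x * z)) := by
    intro x y z; congr 1; ring
  have m1 : ∀ x y : ℝ, s * (x - y) = s * x - s * y := fun x y => by ring
  have m2 : ∀ x y : ℝ, 2 * (s * x - s * y) = 2 * (s * x) - 2 * (s * y) := fun x y => by ring
  have m3 : ∀ x y : ℝ, 3 * (s * x - s * y) = 3 * (s * x) - 3 * (s * y) := fun x y => by ring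
  have m4 : ∀ x : ℝ, s * (2 * x) = 2 * (s * x) := fun x => by ring
  have m5 : ∀ x : ℝ, s * (3 * x) = 3 * (s * x) := fun x => by ring
  have m6 : ∀ x : ℝ, 3 * (2 * (s * x)) = 2 * (3 * (s * x)) := fun x => by ring
  simp only [m4, m5, m1, m2, m3, m6]
  linear_combination -15 / 4 * h1 + 3 / 2 * h2 - 1 / 4 * h3

theorem D3_formula {p : ℝ} (hp0 : 0 < p) (hp6 : p < 6) {a b c : ℝ} (h : a + b + c = 0) :
    cc p * D3 p a b c = (15 - 6 * (2 : ℝ) ^ p + (3 : ℝ) ^ p) *
      ∫ s in Ioi (0 : ℝ), pc a b c s * s ^ (-1 - p) := by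
  have hI := fun x y z => integrable_pc hp0 hp6 x y z
  have hint : ∫ s in Ioi (0 : ℝ), ((pc (2 * a) (2 * a) (2 * a) s * s ^ (-1 - p) +
      pc (2 * b) (2 * b) (2 * b) s * s ^ (-1 - p) + pc (2 * c) (2 * c) (2 * c) s * s ^ (-1 - p)) +
      2 * (pc a a a s * s ^ (-1 - p) + pc b b b s * s ^ (-1 - p) + pc c c c s * s ^ (-1 - p)) -
      2 * (pc (a - b) (a - b) (a - b) s * s ^ (-1 - p) +
        pc (b - c) (b - c) (b - c) s * s ^ (-1 - p) +
        pc (c - a) (c - a) (c - a) s * s ^ (-1 - p))) =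
      ∫ s in Ioi (0 : ℝ), (15 * (pc a b c s * s ^ (-1 - p)) -
        6 * (pc (2 * a) (2 * b) (2 * c) s * s ^ (-1 - p)) +
        pc (3 * a) (3 * b) (3 * c) s * s ^ (-1 - p)) := by
    congr 1
    ext1 s
    linear_combination (s ^ (-1 - p)) * pointwise_id h s
  rw [integral_sub, integral_add, integral_add, integral_add, integral_const_mul, integral_add,
    integral_add, integral_const_mul, integral_add, integral_add, int_pc_t hp0, int_pc_t hp0,
    int_pc_t hp0, int_pc_t hp0, int_pc_t hp0, int_pc_t hp0, int_pc_t hp0, int_pc_t hp0,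
    int_pc_t hp0, integral_add, integral_sub, integral_const_mul, integral_const_mul,
    scale_pc a b c (by norm_num : (0 : ℝ) < 2), scale_pc a b c (by norm_num : (0 : ℝ) < 3)] at hint
  · have e2 : ∀ x : ℝ, |2 * x| ^ p = (2 : ℝ) ^ p * |x| ^ p := by
      intro x
      rw [abs_mul, Real.mul_rpow (abs_nonneg _) (abs_nonneg _), abs_two]
    rw [e2, e2, e2] at hint
    unfold D3
    linear_combination hint
  all_goals first
    | exact hI _ _ _
    | exact (hI _ _ _).const_mul _
    | exact (hI _ _ _).add (hI _ _ _)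
    | exact ((hI _ _ _).add (hI _ _ _)).add (hI _ _ _)
    | exact (((hI _ _ _).add (hI _ _ _)).add (hI _ _ _)).const_mul _
    | exact ((hI _ _ _).const_mul _).sub ((hI _ _ _).const_mul _)
    | exact (((hI _ _ _).add (hI _ _ _)).add (hI _ _ _)).add
        ((((hI _ _ _).add (hI _ _ _)).add (hI _ _ _)).const_mul _)

theorem J_pos {p : ℝ} (hp0 : 0 < p) (hp6 : p < 6) {a b c : ℝ} (ha : a ≠ 0) (hb : b ≠ 0)
    (hc : c ≠ 0) : 0 < ∫ s in Ioi (0 : ℝ), pc a b c s * s ^ (-1 - p) := by
  have hnn : 0 ≤ᵐ[volume.restrict (Ioi (0 : ℝ))] fun s => pc a b c s * s ^ (-1 - p) := by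
    refine (ae_restrict_iff' measurableSet_Ioi).mpr (Eventually.of_forall fun s hs => ?_)
    exact mul_nonneg (pc_nonneg _ _ _ _) (Real.rpow_nonneg (le_of_lt hs) _)
  rw [setIntegral_pos_iff_support_of_nonneg_ae hnn (integrable_pc hp0 hp6 a b c)]
  set δ : ℝ := 1 / (|a| + |b| + |c|) with hδ
  have hsum : 0 < |a| + |b| + |c| := by positivity
  have hδ0 : 0 < δ := by positivity
  have hsub : Ioo 0 δ ⊆ Function.support (fun s => pc a b c s * s ^ (-1 - p)) ∩ Ioi 0 := by
    intro s hs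
    have hs0 : 0 < s := hs.1
    have hpos : ∀ x : ℝ, x ≠ 0 → |x| ≤ |a| + |b| + |c| → 0 < 1 - Real.cos (s * x) := by
      intro x hx hle
      have h1 : |s * x| < 2 * Real.pi := by
        rw [abs_mul, abs_of_pos hs0]
        have h2 : s * |x| < δ * (|a| + |b| + |c|) := by
          calc s * |x| ≤ s * (|a| + |b| + |c|) := mul_le_mul_of_nonneg_left hle hs0.le
            _ < δ * (|a| + |b| + |c|) := mul_lt_mul_of_pos_right hs.2 hsum
        rw [hδ, one_div_mul_cancel hsum.ne'] at h2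
        linarith [Real.pi_gt_three]
      have h3 : Real.cos (s * x) ≠ 1 := by
        intro h4
        have h5 := abs_lt.mp h1
        rw [Real.cos_eq_one_iff_of_lt_of_lt h5.1 h5.2] at h4
        rcases mul_eq_zero.mp h4 with h | h
        · exact hs0.ne' h
        · exact hx h
      have h4 := lt_of_le_of_ne (Real.cos_le_one (s * x)) h3
      linarith
    refine ⟨?_, hs0⟩
    rw [Function.mem_support]
    apply ne_of_gt
    apply mul_pos _ (Real.rpow_pos_of_pos hs0 _)
    unfold pc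
    have h1 := hpos a ha (by linarith [abs_nonneg b, abs_nonneg c])
    have h2 := hpos b hb (by linarith [abs_nonneg a, abs_nonneg c])
    have h3 := hpos c hc (by linarith [abs_nonneg a, abs_nonneg b])
    exact mul_pos (mul_pos h1 h2) h3
  refine lt_of_lt_of_le ?_ (measure_mono hsub)
  rw [Real.volume_Ioo]
  simpa using hδ0

/-- the one-variable function deciding the sign -/
theorem g_sign {p : ℝ} (hp : 2 < p) :
    (p < 4 → 15 - 6 * (2 : ℝ) ^ p + (3 : ℝ) ^ p < 0) ∧
    (4 < p → 0 < 15 - 6 * (2 : ℝ) ^ p + (3 : ℝ) ^ p) := by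
  let l2 := Real.log 2
  let l3 := Real.log 3
  have hl2 : 0 < l2 := Real.log_pos (by norm_num)
  have hl3 : l2 < l3 := Real.log_lt_log (by norm_num) (by norm_num)
  let h : ℝ → ℝ := fun x => 15 * Real.exp (-(x * l2)) + Real.exp (x * (l3 - l2))
  have hconv : ∀ x y θ : ℝ, x ≠ y → 0 < θ → θ < 1 →
      h ((1 - θ) * x + θ * y) < (1 - θ) * h x + θ * h y := by
    intro x y θ hxy h0 h1
    have e1 := strictConvexOn_exp.2 (mem_univ (-(x * l2))) (mem_univ (-(y * l2)))
      (by
        intro he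
        apply hxy
        have : x * l2 = y * l2 := by linarith
        exact mul_right_cancel₀ hl2.ne' this)
      (show 0 < 1 - θ by linarith) h0 (by ring)
    have e2 := strictConvexOn_exp.2 (mem_univ (x * (l3 - l2))) (mem_univ (y * (l3 - l2)))
      (by
        intro he
        apply hxy
        exact mul_right_cancel₀ (sub_pos.mpr hl3).ne' he)
      (show 0 < 1 - θ by linarith) h0 (by ring)
    simp only [smul_eq_mul] at e1 e2
    have e3 : (1 - θ) * -(x * l2) + θ * -(y * l2) = -(((1 - θ) * x + θ * y) * l2) := by ring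
    have e4 : (1 - θ) * (x * (l3 - l2)) + θ * (y * (l3 - l2)) =
      ((1 - θ) * x + θ * y) * (l3 - l2) := by ring
    rw [e3] at e1
    rw [e4] at e2
    simp only [h]
    linarith
  have hg : ∀ x : ℝ, 15 - 6 * (2 : ℝ) ^ x + (3 : ℝ) ^ x = (2 : ℝ) ^ x * (h x - 6) := by
    intro x
    have e2 : (2 : ℝ) ^ x = Real.exp (x * l2) := by
      rw [Real.rpow_def_of_pos (by norm_num), mul_comm]
    have e3 : (3 : ℝ) ^ x = Real.exp (x * l3) := by
      rw [Real.rpow_def_of_pos (by norm_num), mul_comm]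
    rw [e2, e3]
    simp only [h]
    have e5 : Real.exp (x * l2) * Real.exp (-(x * l2)) = 1 := by
      rw [← Real.exp_add]; simp
    have e6 : Real.exp (x * l2) * Real.exp (x * (l3 - l2)) = Real.exp (x * l3) := by
      rw [← Real.exp_add]; congr 1; ring
    linear_combination (-15) * e5 - e6
  have h2 : h 2 = 6 := by
    have := hg 2
    norm_num at this
    linarith
  have h4 : h 4 = 6 := by
    have := hg 4
    norm_num at this
    linarith
  constructor
  · intro hp4
    rw [hg]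
    apply mul_neg_of_pos_of_neg (by positivity)
    have := hconv 2 4 ((p - 2) / 2) (by norm_num) (by linarith) (by linarith)
    rw [h2, h4, show (1 - (p - 2) / 2) * 2 + (p - 2) / 2 * 4 = p by ring] at this
    linarith
  · intro hp4
    rw [hg]
    apply mul_pos (by positivity)
    have hθ1 : 2 / (p - 2) < 1 := by rw [div_lt_one (by linarith)]; linarith
    have hθ0 : 0 < 2 / (p - 2) := by apply div_pos <;> linarith
    have := hconv 2 p (2 / (p - 2)) (by linarith) hθ0 hθ1
    have e : (1 - 2 / (p - 2)) * 2 + 2 / (p - 2) * p = 4 := by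
      have : p - 2 ≠ 0 := by linarith
      field_simp; ring
    rw [e, h4, h2] at this
    have h5 : 2 / (p - 2) * 6 < 2 / (p - 2) * h p := by linarith
    have := lt_of_mul_lt_mul_left h5 hθ0.le
    linarith

end Pool.Agent.MP_cd6b85_an
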