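import Pool.Agent.Lib.MP_cd6b85_an.Phi
open Matrix MeasureTheory Filter Topology
open scoped ComplexOrder ENNReal
namespace Pool.Agent.MP_cd6b85_an

/-- `∑ x_a Y_a` -/
def comb {m k : ℕ} (x : Fin m → ℂ) (Y : Fin m → Matrix (Fin k) (Fin k) ℂ) :
    Matrix (Fin k) (Fin k) ℂ := ∑ a, x a • Y a

/-- normalising weight of a tuple -/
noncomputable def wt (p : ℝ) {m k : ℕ} (Y : Fin m → Matrix (Fin k) (Fin k) ℂ) : ℝ :=
  ∑ a, phi p (Y a)

/-- approximate representability of the tuple `E` by tuples of `k × k` matrices. -/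
def ApproxRep (p : ℝ) {m N : ℕ} (E : Fin m → Matrix (Fin N) (Fin N) ℂ) (k : ℕ) : Prop :=
  ∀ ε : ℝ, 0 < ε → ∃ Y : ℕ → Fin m → Matrix (Fin k) (Fin k) ℂ, ∀ x : Fin m → ℂ,
    Summable (fun i => phi p (comb x (Y i))) ∧
    phi p (comb x E) ≤ ∑' i, phi p (comb x (Y i)) ∧
    ∑' i, phi p (comb x (Y i)) ≤ (1 + ε) * phi p (comb x E)

theorem comb_single {m k : ℕ} (a : Fin m) (Y : Fin m → Matrix (Fin k) (Fin k) ℂ) :
    comb (Pi.single a 1) Y = Y a := by
  unfold comb
  rw [Finset.sum_eq_single a]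
  · simp
  · intro c _ hc
    simp [Pi.single_eq_of_ne hc]
  · simp

theorem comb_smul_right {m k : ℕ} (x : Fin m → ℂ) (c : ℂ)
    (Y : Fin m → Matrix (Fin k) (Fin k) ℂ) : comb x (c • Y) = c • comb x Y := by
  simp only [comb, Pi.smul_apply, Finset.smul_sum]
  exact Finset.sum_congr rfl fun a _ => smul_comm _ _ _

theorem continuous_comb {m k : ℕ} (x : Fin m → ℂ) :
    Continuous fun Y : Fin m → Matrix (Fin k) (Fin k) ℂ => comb x Y := by
  unfold comb
  fun_prop

theorem continuous_wt {p : ℝ} (hp : 0 < p) {m k : ℕ} :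
    Continuous fun Y : Fin m → Matrix (Fin k) (Fin k) ℂ => wt p Y := by
  unfold wt
  exact continuous_finsetSum _ fun a _ => (continuous_phi hp.le).comp (continuous_apply a)

theorem wt_nonneg {p : ℝ} {m k : ℕ} (Y : Fin m → Matrix (Fin k) (Fin k) ℂ) : 0 ≤ wt p Y :=
  Finset.sum_nonneg fun _ _ => phi_nonneg _ _

theorem wt_smul {p : ℝ} {m k : ℕ} (c : ℂ) (Y : Fin m → Matrix (Fin k) (Fin k) ℂ) :
    wt p (c • Y) = ‖c‖ ^ p * wt p Y := by
  simp only [wt, Pi.smul_apply, phi_smul, Finset.mul_sum]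

theorem wt_eq_zero {p : ℝ} (hp : 0 < p) {m k : ℕ} {Y : Fin m → Matrix (Fin k) (Fin k) ℂ}
    (h : wt p Y = 0) : Y = 0 := by
  unfold wt at h
  rw [Finset.sum_eq_zero_iff_of_nonneg fun a _ => phi_nonneg p (Y a)] at h
  ext1 a
  exact phi_eq_zero hp (h a (Finset.mem_univ a))

/-- entries are bounded by `phi`. -/
theorem entry_bound {p : ℝ} (hp : 0 < p) {k : ℕ} {M : Matrix (Fin k) (Fin k) ℂ}
    (h : phi p M ≤ 1) (i j : Fin k) : ‖M i j‖ ^ 2 ≤ k := by
  have h1 : ∀ l, (isHermitian_conjTranspose_mul_self M).eigenvalues l ≤ 1 := by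
    intro l
    by_contra hl
    push Not at hl
    rw [phi_eq] at h
    have := Finset.single_le_sum
      (f := fun i => (isHermitian_conjTranspose_mul_self M).eigenvalues i ^ (p / 2))
      (fun i _ => Real.rpow_nonneg (gram_eigenvalues_nonneg M i) _) (Finset.mem_univ l)
    have h2 : 1 < (isHermitian_conjTranspose_mul_self M).eigenvalues l ^ (p / 2) :=
      Real.one_lt_rpow hl (by positivity)
    linarith
  have h2 : (Mᴴ * M).trace = ((∑ j, ∑ i, ‖M i j‖ ^ 2 : ℝ) : ℂ) := by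
    rw [Matrix.trace]
    push_cast
    refine Finset.sum_congr rfl fun j _ => ?_
    rw [Matrix.diag_apply, Matrix.mul_apply]
    refine Finset.sum_congr rfl fun i _ => ?_
    rw [Matrix.conjTranspose_apply, Complex.star_def, ← Complex.normSq_eq_conj_mul_self,
      Complex.normSq_eq_norm_sq]
    push_cast; rfl
  have h3 := (isHermitian_conjTranspose_mul_self M).trace_eq_sum_eigenvalues
  rw [h2] at h3
  have h4 : (∑ j, ∑ i, ‖M i j‖ ^ 2 : ℝ) =
      ∑ l, (isHermitian_conjTranspose_mul_self M).eigenvalues l := by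
    have h5 : ((∑ j, ∑ i, ‖M i j‖ ^ 2 : ℝ) : ℂ) =
      ((∑ l, (isHermitian_conjTranspose_mul_self M).eigenvalues l : ℝ) : ℂ) := by
      rw [h3]; push_cast; rfl
    exact_mod_cast h5
  calc ‖M i j‖ ^ 2 ≤ ∑ i, ‖M i j‖ ^ 2 :=
        Finset.single_le_sum (f := fun i => ‖M i j‖ ^ 2) (fun _ _ => by positivity)
          (Finset.mem_univ i)
    _ ≤ ∑ j, ∑ i, ‖M i j‖ ^ 2 :=
        Finset.single_le_sum (f := fun j => ∑ i, ‖M i j‖ ^ 2) (fun _ _ => by positivity)
          (Finset.mem_univ j)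
    _ = ∑ l, (isHermitian_conjTranspose_mul_self M).eigenvalues l := h4
    _ ≤ ∑ _l : Fin k, (1 : ℝ) := Finset.sum_le_sum fun l _ => h1 l
    _ = k := by simp

theorem isCompact_sph {p : ℝ} (hp : 0 < p) (m k : ℕ) :
    IsCompact {Y : Fin m → Matrix (Fin k) (Fin k) ℂ | wt p Y = 1} := by
  have hK : IsCompact (Set.pi Set.univ fun _ : Fin m => Set.pi Set.univ fun _ : Fin k =>
      Set.pi Set.univ fun _ : Fin k => Metric.closedBall (0 : ℂ) (Real.sqrt k)) := by
    refine isCompact_univ_pi fun _ => isCompact_univ_pi fun _ => isCompact_univ_pi fun _ => ?_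
    exact isCompact_closedBall _ _
  refine IsCompact.of_isClosed_subset hK ?_ ?_
  · exact isClosed_eq (continuous_wt hp) continuous_const
  · intro Y hY a _ i _ j _
    have h1 : phi p (Y a) ≤ 1 := by
      rw [← show wt p Y = 1 from hY]
      exact Finset.single_le_sum (f := fun a => phi p (Y a)) (fun _ _ => phi_nonneg _ _)
        (Finset.mem_univ a)
    rw [mem_closedBall_zero_iff]
    apply Real.le_sqrt_of_sq_le
    exact entry_bound hp h1 i j

/-- The compact sphere of tuples. -/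
def Sph (p : ℝ) (m k : ℕ) : Type := {Y : Fin m → Matrix (Fin k) (Fin k) ℂ // wt p Y = 1}

noncomputable instance (p : ℝ) (m k : ℕ) : TopologicalSpace (Sph p m k) := instTopologicalSpaceSubtype
instance (p : ℝ) (m k : ℕ) : T2Space (Sph p m k) :=
  inferInstanceAs (T2Space {Y : Fin m → Matrix (Fin k) (Fin k) ℂ // wt p Y = 1})
noncomputable instance (p : ℝ) (m k : ℕ) : MeasurableSpace (Sph p m k) := borel _
instance (p : ℝ) (m k : ℕ) : BorelSpace (Sph p m k) := ⟨rfl⟩

theorem compactSpace_sph {p : ℝ} (hp : 0 < p) (m k : ℕ) : CompactSpace (Sph p m k) :=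
  isCompact_iff_compactSpace.mp (isCompact_sph hp m k)

theorem continuous_val_sph (p : ℝ) (m k : ℕ) :
    Continuous fun Y : Sph p m k => (Y.1 : Fin m → Matrix (Fin k) (Fin k) ℂ) :=
  continuous_subtype_val

/-- the evaluation functions on the sphere -/
theorem continuous_evalSph {p : ℝ} (hp : 0 < p) {m k : ℕ} (x : Fin m → ℂ) :
    Continuous fun Y : Sph p m k => phi p (comb x Y.1) :=
  (continuous_phi hp.le).comp ((continuous_comb x).comp (continuous_val_sph p m k))

end Pool.Agent.MP_cd6b85_an
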