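import Pool.Agent.Lib.MP_cd6b85_an.Phi
open Matrix
open scoped ComplexOrder
namespace Pool.Agent.MP_cd6b85_an

variable {ι : Type} [Fintype ι] [DecidableEq ι]

/-- nonzero eigenvalues lie in `S` -/
def Spec (S : Set ℝ) (A : Matrix ι ι ℂ) : Prop :=
  ∀ κ : ℝ, (∃ v : ι → ℂ, v ≠ 0 ∧ A *ᵥ v = (κ : ℂ) • v) → κ = 0 ∨ κ ∈ S

theorem udu_mul {U : Matrix ι ι ℂ} (hU : U ∈ unitaryGroup ι ℂ) (d e : ι → ℂ) :
    (U * diagonal d * Uᴴ) * (U * diagonal e * Uᴴ) = U * diagonal (fun i => d i * e i) * Uᴴ := by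
  calc (U * diagonal d * Uᴴ) * (U * diagonal e * Uᴴ)
      = U * diagonal d * (Uᴴ * U) * diagonal e * Uᴴ := by simp only [Matrix.mul_assoc]
    _ = _ := by
      rw [unitary_conj_mul hU, Matrix.mul_one, Matrix.mul_assoc U, Matrix.diagonal_mul_diagonal]

theorem udu_herm {U : Matrix ι ι ℂ} (d : ι → ℝ) :
    (U * diagonal (fun i => (d i : ℂ)) * Uᴴ).IsHermitian := by
  unfold Matrix.IsHermitian
  rw [Matrix.conjTranspose_mul, Matrix.conjTranspose_mul, Matrix.conjTranspose_conjTranspose,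
    Matrix.diagonal_conjTranspose, Matrix.mul_assoc]
  congr 3
  ext1 i
  exact Complex.conj_ofReal _

/-- functional calculus data -/
theorem calc_data {S : Set ℝ} (hS : ∀ s ∈ S, 0 < s) {A : Matrix ι ι ℂ} (hA : A.IsHermitian)
    (hSp : Spec S A) {γ : ℝ} (hγ : 0 < γ) (hγS : γ ∉ S) :
    ∃ R P B : Matrix ι ι ℂ, R.IsHermitian ∧ P.IsHermitian ∧ R * R = A ∧ P * P = P ∧ P * R = R ∧
      P = B * A ∧ (P = (γ⁻¹ : ℂ) • A → A = 0) := by
  have hU : (hA.eigenvectorUnitary : Matrix ι ι ℂ) ∈ unitaryGroup ι ℂ := hA.eigenvectorUnitary.2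
  have hd := herm_diag hA
  have hev : ∀ i, hA.eigenvalues i = 0 ∨ hA.eigenvalues i ∈ S := by
    intro i
    apply hSp
    refine ⟨⇑(hA.eigenvectorBasis i), ?_, ?_⟩
    · intro h0
      apply hA.eigenvectorBasis.orthonormal.ne_zero i
      ext j
      exact congrFun h0 j
    · rw [hA.mulVec_eigenvectorBasis]; rfl
  set U : Matrix ι ι ℂ := (hA.eigenvectorUnitary : Matrix ι ι ℂ) with hUdef
  set l : ι → ℝ := hA.eigenvalues with hl
  have hl0 : ∀ i, 0 ≤ l i := by
    intro i
    rcases hev i with h | h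
    · exact h.ge
    · exact (hS _ h).le
  let r : ι → ℝ := fun i => Real.sqrt (l i)
  let q : ι → ℝ := fun i => if l i = 0 then 0 else 1
  let b : ι → ℝ := fun i => (l i)⁻¹
  refine ⟨U * diagonal (fun i => (r i : ℂ)) * Uᴴ, U * diagonal (fun i => (q i : ℂ)) * Uᴴ,
    U * diagonal (fun i => (b i : ℂ)) * Uᴴ, udu_herm r, udu_herm q, ?_, ?_, ?_, ?_, ?_⟩
  · rw [udu_mul hU]
    conv_rhs => rw [hd]
    congr 3
    ext1 i
    rw [← Complex.ofReal_mul, Real.mul_self_sqrt (hl0 i)]
  · rw [udu_mul hU]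
    congr 3
    ext1 i
    simp only [q]
    split_ifs <;> simp
  · rw [udu_mul hU]
    congr 3
    ext1 i
    simp only [q, r]
    split_ifs with h
    · rw [h]; simp
    · simp
  · conv_rhs => rw [hd]
    rw [udu_mul hU]
    congr 3
    ext1 i
    simp only [q, b]
    split_ifs with h
    · rw [h]; simp
    · rw [Complex.ofReal_inv, inv_mul_cancel₀ (by exact_mod_cast h)]; simp
  · intro h
    have h1 : diagonal (fun i => (q i : ℂ)) = (γ⁻¹ : ℂ) • diagonal (fun i => (l i : ℂ)) := by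
      have e : ∀ M : Matrix ι ι ℂ, Uᴴ * (U * M * Uᴴ) * U = M := by
        intro M
        calc Uᴴ * (U * M * Uᴴ) * U = (Uᴴ * U) * M * (Uᴴ * U) := by simp only [Matrix.mul_assoc]
          _ = _ := by rw [unitary_conj_mul hU, Matrix.one_mul, Matrix.mul_one]
      rw [← e (diagonal (fun i => (q i : ℂ))), h]
      conv_lhs => rw [hd]
      rw [Matrix.mul_smul, Matrix.smul_mul, e]
    have h2 : ∀ i, l i = 0 := by
      intro i
      have h3 := congrFun (congrFun h1 i) i
      rw [Matrix.smul_apply, Matrix.diagonal_apply_eq, Matrix.diagonal_apply_eq, smul_eq_mul] at h3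
      by_contra hne
      simp only [q, if_neg hne] at h3
      have h4 : l i = γ := by
        have h5 : (γ : ℂ) ≠ 0 := by exact_mod_cast hγ.ne'
        have h6 : (l i : ℂ) = γ := by
          rw [inv_mul_eq_div, eq_div_iff h5] at h3
          rw [← h3]; simp
        exact_mod_cast h6
      rcases hev i with h | h
      · exact hne h
      · rw [h4] at h; exact hγS h
    rw [hd]
    have : (fun i => (l i : ℂ)) = fun _ => 0 := by
      ext1 i; rw [h2 i]; simp
    rw [this]
    simp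

/-- Star-shaped representations with `q` arms, support projection `Q`. -/
def Rep (q : ℕ) (S : Set ℝ) (γ : ℝ) : Prop :=
  ∃ (ι : Type) (_ : Fintype ι) (_ : DecidableEq ι) (Q : Matrix ι ι ℂ) (A : Fin q → Matrix ι ι ℂ),
    Q.IsHermitian ∧ Q * Q = Q ∧ Q ≠ 0 ∧ (∀ i, (A i).IsHermitian) ∧ (∀ i, A i * Q = A i) ∧
    (∀ i, Spec S (A i)) ∧ ∑ i, A i = (γ : ℂ) • Q

theorem Rep.flip {q : ℕ} {S : Set ℝ} {γ : ℝ} (h : Rep q S γ) (y : ℝ) :
    Rep q {κ | y - κ = 0 ∨ y - κ ∈ S} (q * y - γ) := by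
  obtain ⟨ι, _, _, Q, A, hQ, hQ2, hQ0, hA, hAQ, hS, hsum⟩ := h
  refine ⟨ι, inferInstance, inferInstance, Q, fun i => (y : ℂ) • Q - A i, hQ, hQ2, hQ0, ?_, ?_, ?_,
    ?_⟩
  · intro i
    apply Matrix.IsHermitian.sub _ (hA i)
    unfold Matrix.IsHermitian
    rw [Matrix.conjTranspose_smul, hQ.eq, Complex.star_def, Complex.conj_ofReal]
  · intro i
    simp only
    rw [Matrix.sub_mul, Matrix.smul_mul, hQ2, hAQ]
  · rintro i κ ⟨v, hv0, hv⟩
    by_cases hκ : κ = 0
    · exact Or.inl hκ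
    right
    have hQA : Q * A i = A i := by
      have := congrArg Matrix.conjTranspose (hAQ i)
      rwa [Matrix.conjTranspose_mul, (hA i).eq, hQ.eq] at this
    have h1 : Q *ᵥ ((κ : ℂ) • v) = (κ : ℂ) • v := by
      rw [← hv, Matrix.mulVec_mulVec, Matrix.mul_sub, Matrix.mul_smul, hQ2, hQA]
    have hκ' : (κ : ℂ) ≠ 0 := by exact_mod_cast hκ
    have h2 : Q *ᵥ v = v := by
      rw [Matrix.mulVec_smul] at h1
      exact smul_right_injective _ hκ' h1
    apply hS i
    refine ⟨v, hv0, ?_⟩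
    rw [Matrix.sub_mulVec, Matrix.smul_mulVec, h2] at hv
    push_cast
    rw [sub_smul, ← hv]; abel
  · rw [Finset.sum_sub_distrib, hsum, Finset.sum_const, Finset.card_univ, Fintype.card_fin]
    push_cast
    rw [sub_smul, ← Nat.cast_smul_eq_nsmul ℂ, smul_smul]


theorem Rep.reflect {q : ℕ} {S : Set ℝ} {γ : ℝ} (h : Rep q S γ) (hS : ∀ s ∈ S, 0 < s ∧ s < γ)
    (hγ : 0 < γ) : Rep q {κ | γ - κ ∈ S} γ := by
  obtain ⟨ι, _, _, Q, A, hQ, hQ2, hQ0, hA, hAQ, hSp, hsum⟩ := h
  have hγ' : (γ : ℂ) ≠ 0 := by exact_mod_cast hγ.ne'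
  have hcd := fun i => calc_data (fun s hs => (hS s hs).1) (hA i) (hSp i) hγ
    (fun hmem => lt_irrefl _ (hS γ hmem).2)
  choose R P B hR hP hRR hPP hPR hPB hPA using hcd
  have hQR : ∀ i, Q * R i = R i := by
    intro i
    have hQA : Q * A i = A i := by
      have := congrArg Matrix.conjTranspose (hAQ i)
      rwa [Matrix.conjTranspose_mul, (hA i).eq, hQ.eq] at this
    have h1 : (Q * R i - R i) * R i = 0 := by
      rw [Matrix.sub_mul, Matrix.mul_assoc, hRR, hQA, sub_self]
    have h2 : (Q * R i - R i) * (Q * R i - R i)ᴴ = 0 := by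
      rw [Matrix.conjTranspose_sub, Matrix.conjTranspose_mul, (hR i).eq, hQ.eq, Matrix.mul_sub,
        ← Matrix.mul_assoc, h1, Matrix.zero_mul, sub_zero]
    exact sub_eq_zero.mp (Matrix.self_mul_conjTranspose_eq_zero.mp h2)
  have hRP : ∀ i, R i * P i = R i := by
    intro i
    have := congrArg Matrix.conjTranspose (hPR i)
    rwa [Matrix.conjTranspose_mul, (hR i).eq, (hP i).eq] at this
  -- block matrices
  let D : Matrix (ι × Fin q) (ι × Fin q) ℂ := Matrix.blockDiagonal P
  let T : Matrix ι (ι × Fin q) ℂ := Matrix.of fun a x => R x.2 a x.1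
  have hDD : D * D = D := by
    simp only [D]
    rw [← Matrix.blockDiagonal_mul]
    congr 1
    ext1 i; exact hPP i
  have hDH : Dᴴ = D := by
    simp only [D]
    rw [Matrix.blockDiagonal_conjTranspose]
    congr 1
    ext1 i; exact hP i
  have hTT : T * Tᴴ = (γ : ℂ) • Q := by
    rw [← hsum]
    ext a b
    rw [Matrix.mul_apply, Fintype.sum_prod_type_right, Matrix.sum_apply]
    refine Finset.sum_congr rfl fun i _ => ?_
    rw [← hRR i, Matrix.mul_apply]
    refine Finset.sum_congr rfl fun c _ => ?_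
    simp only [T, Matrix.of_apply, Matrix.conjTranspose_apply]
    congr 1
    have := congrFun (congrFun (hR i) c) b
    rw [Matrix.conjTranspose_apply] at this
    exact this
  have hTD : T * D = T := by
    ext a ⟨b, i⟩
    rw [Matrix.mul_apply, Fintype.sum_prod_type_right, Finset.sum_eq_single i]
    · have := congrFun (congrFun (hRP i) a) b
      rw [Matrix.mul_apply] at this
      simp only [T, D, Matrix.of_apply, Matrix.blockDiagonal_apply_eq]
      exact this
    · intro j _ hj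
      apply Finset.sum_eq_zero
      intro c _
      simp only [D]
      rw [Matrix.blockDiagonal_apply_ne _ _ _ hj, mul_zero]
    · simp
  have hDT : D * Tᴴ = Tᴴ := by
    have := congrArg Matrix.conjTranspose hTD
    rwa [Matrix.conjTranspose_mul, hDH] at this
  have hQT : Q * T = T := by
    ext a ⟨b, i⟩
    have := congrFun (congrFun (hQR i) a) b
    rw [Matrix.mul_apply] at this ⊢
    exact this
  let Q' : Matrix (ι × Fin q) (ι × Fin q) ℂ := D - (γ⁻¹ : ℂ) • (Tᴴ * T)
  have hDQ' : D * Q' = Q' := by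
    simp only [Q']
    rw [Matrix.mul_sub, hDD, Matrix.mul_smul, ← Matrix.mul_assoc, hDT]
  have hstar : star (γ⁻¹ : ℂ) = (γ⁻¹ : ℂ) := by
    rw [← Complex.ofReal_inv]; exact Complex.conj_ofReal _
  have hQ'H : Q'ᴴ = Q' := by
    simp only [Q']
    rw [Matrix.conjTranspose_sub, hDH, Matrix.conjTranspose_smul, hstar, Matrix.conjTranspose_mul,
      Matrix.conjTranspose_conjTranspose]
  have hQ'2 : Q' * Q' = Q' := by
    have h1 : (Tᴴ * T) * D = Tᴴ * T := by rw [Matrix.mul_assoc, hTD]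
    have h2 : D * (Tᴴ * T) = Tᴴ * T := by rw [← Matrix.mul_assoc, hDT]
    have h3 : (Tᴴ * T) * (Tᴴ * T) = (γ : ℂ) • (Tᴴ * T) := by
      calc (Tᴴ * T) * (Tᴴ * T) = Tᴴ * (T * Tᴴ) * T := by simp only [Matrix.mul_assoc]
        _ = _ := by
          rw [hTT, Matrix.mul_smul, Matrix.smul_mul, Matrix.mul_assoc, hQT]
    simp only [Q']
    rw [Matrix.mul_sub, Matrix.sub_mul, Matrix.sub_mul, hDD, Matrix.smul_mul, h1, Matrix.mul_smul,
      h2, Matrix.mul_smul, Matrix.smul_mul, h3, smul_smul (γ⁻¹ : ℂ) (γ : ℂ),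
      inv_mul_cancel₀ hγ', one_smul]
    abel
  have hblock : ∀ (i : Fin q) (a b : ι), Q' (a, i) (b, i) = (P i - (γ⁻¹ : ℂ) • A i) a b := by
    intro i a b
    have h1 : (Tᴴ * T) (a, i) (b, i) = A i a b := by
      rw [← hRR i, Matrix.mul_apply, Matrix.mul_apply]
      refine Finset.sum_congr rfl fun c _ => ?_
      simp only [T, Matrix.of_apply, Matrix.conjTranspose_apply]
      congr 1
      have := congrFun (congrFun (hR i) a) c
      rw [Matrix.conjTranspose_apply] at this
      exact this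
    simp only [Q', D]
    rw [Matrix.sub_apply, Matrix.smul_apply, h1, Matrix.blockDiagonal_apply_eq, Matrix.sub_apply,
      Matrix.smul_apply]
  have hQ'0 : Q' ≠ 0 := by
    intro h0
    apply hQ0
    have h1 : ∀ i, A i = 0 := by
      intro i
      apply hPA i
      ext a b
      have := hblock i a b
      rw [h0, Matrix.zero_apply, Matrix.sub_apply] at this
      exact (sub_eq_zero.mp this.symm)
    have h2 : (γ : ℂ) • Q = 0 := by
      rw [← hsum]; exact Finset.sum_eq_zero fun i _ => h1 i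
    exact (smul_eq_zero.mp h2).resolve_left hγ'
  let E : Fin q → Matrix (ι × Fin q) (ι × Fin q) ℂ := fun i =>
    diagonal fun x => if x.2 = i then 1 else 0
  have hEH : ∀ i, (E i)ᴴ = E i := by
    intro i
    simp only [E]
    rw [Matrix.diagonal_conjTranspose]
    congr 1
    ext1 x
    rw [Pi.star_apply]
    split_ifs <;> simp
  have hEsum : ∑ i, E i = 1 := by
    simp only [E]
    ext x y
    rw [Matrix.sum_apply]
    by_cases hxy : x = y
    · subst hxy
      simp
    · rw [Matrix.one_apply_ne hxy]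
      apply Finset.sum_eq_zero
      intro i _
      exact Matrix.diagonal_apply_ne _ hxy
  refine ⟨ι × Fin q, inferInstance, inferInstance, Q', fun i => (γ : ℂ) • (Q' * E i * Q'), hQ'H,
    hQ'2, hQ'0, ?_, ?_, ?_, ?_⟩
  · intro i
    unfold Matrix.IsHermitian
    rw [Matrix.conjTranspose_smul, Matrix.conjTranspose_mul, Matrix.conjTranspose_mul, hQ'H, hEH,
      Complex.star_def, Complex.conj_ofReal]
    simp only [Matrix.mul_assoc]
  · intro i
    simp only
    rw [Matrix.smul_mul, Matrix.mul_assoc, hQ'2]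
  · rintro i κ ⟨v, hv0, hv⟩
    by_cases hκ : κ = 0
    · exact Or.inl hκ
    right
    have hκ' : (κ : ℂ) ≠ 0 := by exact_mod_cast hκ
    have hQv : Q' *ᵥ v = v := by
      have h1 : Q' *ᵥ ((κ : ℂ) • v) = (κ : ℂ) • v := by
        rw [← hv, Matrix.mulVec_mulVec, Matrix.mul_smul, ← Matrix.mul_assoc, ← Matrix.mul_assoc,
          hQ'2]
      rw [Matrix.mulVec_smul] at h1
      exact smul_right_injective _ hκ' h1
    have hDv : D *ᵥ v = v := by
      rw [← hQv, Matrix.mulVec_mulVec, hDQ']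
    have hv2 : (γ : ℂ) • (Q' *ᵥ (E i *ᵥ v)) = (κ : ℂ) • v := by
      rw [← hv, Matrix.smul_mulVec, ← Matrix.mulVec_mulVec, hQv, ← Matrix.mulVec_mulVec]
    let w : ι → ℂ := fun a => v (a, i)
    have hEv : ∀ x : ι × Fin q, (E i *ᵥ v) x = if x.2 = i then v x else 0 := by
      intro x
      simp only [E]
      rw [Matrix.mulVec_diagonal]
      split_ifs <;> simp
    have hw0 : w ≠ 0 := by
      intro h0
      have h1 : E i *ᵥ v = 0 := by
        ext x
        rw [hEv]
        split_ifs with hx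
        · obtain ⟨a, j⟩ := x
          simp only at hx
          subst hx
          exact congrFun h0 a
        · rfl
      rw [h1, Matrix.mulVec_zero, smul_zero] at hv2
      exact hv0 ((smul_eq_zero.mp hv2.symm).resolve_left hκ')
    have hPw : P i *ᵥ w = w := by
      ext a
      have h1 := congrFun hDv (a, i)
      rw [Matrix.mulVec, dotProduct, Fintype.sum_prod_type_right, Finset.sum_eq_single i] at h1
      · simp only [D, Matrix.blockDiagonal_apply_eq] at h1
        exact h1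
      · intro j _ hj
        apply Finset.sum_eq_zero
        intro c _
        simp only [D]
        rw [Matrix.blockDiagonal_apply_ne _ _ _ (Ne.symm hj), zero_mul]
      · simp
    have hkey : (γ : ℂ) • ((P i - (γ⁻¹ : ℂ) • A i) *ᵥ w) = (κ : ℂ) • w := by
      ext a
      have h1 := congrFun hv2 (a, i)
      rw [Pi.smul_apply, Matrix.mulVec, dotProduct, Fintype.sum_prod_type_right,
        Finset.sum_eq_single i] at h1
      · rw [Pi.smul_apply, Matrix.mulVec, dotProduct]
        rw [Pi.smul_apply] at h1 ⊢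
        rw [← show v (a, i) = w a from rfl, ← h1]
        congr 1
        refine Finset.sum_congr rfl fun c _ => ?_
        rw [hblock, hEv, if_pos rfl]
      · intro j _ hj
        apply Finset.sum_eq_zero
        intro c _
        rw [hEv, if_neg hj, mul_zero]
      · simp
    have hAw : A i *ᵥ w = ((γ - κ : ℝ) : ℂ) • w := by
      rw [Matrix.sub_mulVec, hPw, Matrix.smul_mulVec, smul_sub, smul_smul,
        mul_inv_cancel₀ hγ', one_smul] at hkey
      push_cast
      rw [sub_smul, ← hkey]; abel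
    rcases hSp i (γ - κ) ⟨w, hw0, hAw⟩ with h | h
    · exfalso
      rw [h, Complex.ofReal_zero, zero_smul] at hAw
      apply hw0
      rw [← hPw, hPB i, ← Matrix.mulVec_mulVec, hAw, Matrix.mulVec_zero]
    · exact h
  · rw [← Finset.smul_sum, ← Finset.sum_mul, ← Finset.mul_sum, hEsum, Matrix.mul_one, hQ'2]


theorem Rep.mono {q : ℕ} {S S' : Set ℝ} {γ : ℝ} (h : Rep q S γ) (hS : ∀ s ∈ S, s = 0 ∨ s ∈ S') :
    Rep q S' γ := by
  obtain ⟨ι, _, _, Q, A, hQ, hQ2, hQ0, hA, hAQ, hSp, hsum⟩ := h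
  refine ⟨ι, inferInstance, inferInstance, Q, A, hQ, hQ2, hQ0, hA, hAQ, ?_, hsum⟩
  intro i κ hκ
  rcases hSp i κ hκ with h | h
  · exact Or.inl h
  · exact hS κ h

theorem Rep.scale {q : ℕ} {S S' : Set ℝ} {γ c : ℝ} (hc : c ≠ 0) (h : Rep q S γ)
    (hS : ∀ s ∈ S, s / c = 0 ∨ s / c ∈ S') : Rep q S' (γ / c) := by
  obtain ⟨ι, _, _, Q, A, hQ, hQ2, hQ0, hA, hAQ, hSp, hsum⟩ := h
  have hc' : (c : ℂ) ≠ 0 := by exact_mod_cast hc
  refine ⟨ι, inferInstance, inferInstance, Q, fun i => ((c⁻¹ : ℝ) : ℂ) • A i, hQ, hQ2, hQ0, ?_, ?_, ?_, ?_⟩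
  · intro i
    unfold Matrix.IsHermitian
    rw [Matrix.conjTranspose_smul, (hA i).eq, Complex.star_def, Complex.conj_ofReal]
  · intro i
    simp only
    rw [Matrix.smul_mul, hAQ]
  · rintro i κ ⟨v, hv0, hv⟩
    have h1 : A i *ᵥ v = ((κ * c : ℝ) : ℂ) • v := by
      rw [Matrix.smul_mulVec] at hv
      have := congrArg (fun w => (c : ℂ) • w) hv
      simp only [smul_smul] at this
      rw [← Complex.ofReal_mul, mul_inv_cancel₀ hc, Complex.ofReal_one, one_smul] at this
      rw [this]; push_cast; ring_nf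
    rcases hSp i _ ⟨v, hv0, h1⟩ with h | h
    · left
      exact (mul_eq_zero.mp h).resolve_right hc
    · have := hS _ h
      rwa [mul_div_assoc, div_self hc, mul_one] at this
  · rw [← Finset.smul_sum, hsum, smul_smul]
    congr 1
    push_cast
    field_simp

theorem spec_one (c : ℝ) (S : Set ℝ) (hc : c = 0 ∨ c ∈ S) :
    Spec S ((c : ℂ) • (1 : Matrix Unit Unit ℂ)) := by
  rintro κ ⟨v, hv0, hv⟩
  rw [Matrix.smul_mulVec, Matrix.one_mulVec] at hv
  have h1 : ((c : ℂ) - κ) • v = 0 := by rw [sub_smul, hv, sub_self]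
  have h2 : (c : ℂ) - κ = 0 := (smul_eq_zero.mp h1).resolve_right hv0
  have h3 : c = κ := by exact_mod_cast sub_eq_zero.mp h2
  rw [← h3]; exact hc

theorem rep_base (q : ℕ) (S : Set ℝ) (c : Fin q → ℝ) (hc : ∀ i, c i = 0 ∨ c i ∈ S) :
    Rep q S (∑ i, c i) := by
  refine ⟨Unit, inferInstance, inferInstance, 1, fun i => (c i : ℂ) • 1, ?_, ?_, ?_, ?_, ?_, ?_, ?_⟩
  · exact Matrix.isHermitian_one
  · simp
  · exact one_ne_zero
  · intro i
    unfold Matrix.IsHermitian
    rw [Matrix.conjTranspose_smul, Matrix.conjTranspose_one, Complex.star_def, Complex.conj_ofReal]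
  · intro i; simp
  · intro i; exact spec_one _ _ (hc i)
  · rw [← Finset.sum_smul]; push_cast; rfl

theorem rep3_step {x y γ : ℝ} (hx : 0 < x) (hxy : x < y) (hy : y < γ) (h : Rep 3 {x, y} γ) :
    Rep 3 {y - x, γ - x} (2 * γ - 3 * x) := by
  have h1 := (h.reflect (by
    rintro s (rfl | rfl)
    · exact ⟨hx, by linarith⟩
    · exact ⟨by linarith, hy⟩) (by linarith)).flip (γ - x)
  have h2 : ((3 : ℕ) : ℝ) * (γ - x) - γ = 2 * γ - 3 * x := by push_cast; ring
  rw [h2] at h1
  apply h1.mono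
  rintro s (hs | hs)
  · right; right; simp only [Set.mem_singleton_iff]; linarith
  · simp only [Set.mem_ofPred_eq, Set.mem_insert_iff, Set.mem_singleton_iff] at hs
    rcases hs with hs | hs
    · left; linarith
    · right; left; linarith

theorem rep4_step {x γ : ℝ} (hx : 0 < x) (hy : x < γ) (h : Rep 4 {x} γ) :
    Rep 4 {γ - x} (3 * γ - 4 * x) := by
  have h1 := (h.reflect (by
    rintro s (rfl | rfl)
    exact ⟨hx, by linarith⟩) (by linarith)).flip (γ - x)
  have h2 : ((4 : ℕ) : ℝ) * (γ - x) - γ = 3 * γ - 4 * x := by push_cast; ring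
  rw [h2] at h1
  apply h1.mono
  rintro s (hs | hs)
  · right; simp only [Set.mem_singleton_iff]; linarith
  · simp only [Set.mem_ofPred_eq, Set.mem_singleton_iff] at hs
    left; linarith

theorem rep3_seq (j : ℕ) : Rep 3 {3 * (j : ℝ) + 1, 6 * (j : ℝ) + 2} (9 * (j : ℝ) + 6) := by
  induction j with
  | zero =>
    have h := rep_base 3 {1, 2} (fun _ => 2) (fun _ => Or.inr (by simp))
    have e : ∑ _i : Fin 3, (2 : ℝ) = 6 := by norm_num
    rw [e] at h
    simpa using h
  | succ j ih =>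
    have hj : (0 : ℝ) ≤ j := Nat.cast_nonneg j
    have h1 := rep3_step (by linarith) (by linarith) (by linarith) ih
    have h2 := rep3_step (by linarith) (by linarith) (by linarith) h1
    convert h2 using 1
    · push_cast
      congr 1
      · ring
      · congr 1; ring
    · push_cast; ring

theorem rep4_seq (j : ℕ) : Rep 4 {(j : ℝ) + 1} (2 * (j : ℝ) + 3) := by
  induction j with
  | zero =>
    have h := rep_base 4 {1} ![1, 1, 1, 0] (by
      intro i
      fin_cases i <;> simp)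
    have e : ∑ i : Fin 4, (![1, 1, 1, 0] : Fin 4 → ℝ) i = 3 := by
      simp [Fin.sum_univ_succ]; norm_num
    rw [e] at h
    simpa using h
  | succ j ih =>
    have hj : (0 : ℝ) ≤ j := Nat.cast_nonneg j
    have h1 := rep4_step (by linarith) (by linarith) ih
    convert h1 using 1
    · push_cast
      congr 1; ring
    · push_cast; ring

/-- three arms with spectra in `{0,1,2}` and large denominator -/
theorem exists_rep3 (k : ℕ) : ∃ γ : ℝ, 0 < γ ∧ Rep 3 {1, 2} γ ∧
    ∀ d : ℕ, 1 ≤ d → d ≤ k → ¬ ∃ z : ℤ, γ * d = z := by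
  have hn : (0 : ℝ) < 3 * (k : ℝ) + 1 := by positivity
  refine ⟨(9 * (k : ℝ) + 6) / (3 * (k : ℝ) + 1), by positivity, ?_, ?_⟩
  · apply (rep3_seq k).scale hn.ne'
    rintro s (rfl | rfl)
    · right; left; exact div_self hn.ne'
    · right; right
      simp only [Set.mem_singleton_iff]
      field_simp; ring
  · rintro d hd hdk ⟨z, hz⟩
    rw [div_mul_eq_mul_div, div_eq_iff hn.ne'] at hz
    have h1 : (9 * (k : ℤ) + 6) * d = z * (3 * k + 1) := by exact_mod_cast hz
    have h2 : (3 * (k : ℤ) + 1) ∣ 3 * d := ⟨z - 3 * d, by linear_combination h1⟩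
    have h3 : IsCoprime (3 * (k : ℤ) + 1) 3 := ⟨1, -k, by ring⟩
    have h4 : (3 * (k : ℤ) + 1) ∣ d := h3.dvd_of_dvd_mul_left h2
    have h5 := Int.le_of_dvd (by exact_mod_cast hd) h4
    have h6 : (d : ℤ) ≤ k := by exact_mod_cast hdk
    omega

/-- four projections with large denominator -/
theorem exists_rep4 (k : ℕ) : ∃ γ : ℝ, 0 < γ ∧ Rep 4 {1} γ ∧
    ∀ d : ℕ, 1 ≤ d → d ≤ k → ¬ ∃ z : ℤ, γ * d = z := by
  have hn : (0 : ℝ) < (k : ℝ) + 1 := by positivity
  refine ⟨(2 * (k : ℝ) + 3) / ((k : ℝ) + 1), by positivity, ?_, ?_⟩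
  · apply (rep4_seq k).scale hn.ne'
    rintro s rfl
    right; exact div_self hn.ne'
  · rintro d hd hdk ⟨z, hz⟩
    rw [div_mul_eq_mul_div, div_eq_iff hn.ne'] at hz
    have h1 : (2 * (k : ℤ) + 3) * d = z * (k + 1) := by exact_mod_cast hz
    have h2 : ((k : ℤ) + 1) ∣ d := ⟨z - 2 * d, by linear_combination h1⟩
    have h5 := Int.le_of_dvd (by exact_mod_cast hd) h2
    have h6 : (d : ℤ) ≤ k := by exact_mod_cast hdk
    omega

end Pool.Agent.MP_cd6b85_an
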