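import Pool.Agent.Lib.MP_cd6b85_an.Concave
open Matrix Filter Topology
open scoped ComplexOrder ENNReal
namespace Pool.Agent.MP_cd6b85_an

universe u

variable {n : Type u} {m l : Type*} [Fintype n] [DecidableEq n] [Fintype m] [DecidableEq m] [Fintype l]
  [DecidableEq l]

omit [DecidableEq m] in
/-- Thin singular value decomposition. -/
theorem thin_svd_aux (M : Matrix m n ℂ) :
    ∃ (ρ : Type u) (_ : Fintype ρ) (_ : DecidableEq ρ) (V : Matrix m ρ ℂ) (W : Matrix n ρ ℂ)
      (σ : ρ → ℝ), (∀ i, 0 < σ i) ∧ Vᴴ * V = 1 ∧ Wᴴ * W = 1 ∧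
      M = V * diagonal (fun i => (σ i : ℂ)) * Wᴴ := by
  obtain ⟨U, hU, d, hd, h⟩ := exists_gram_diag M
  let ρ := {i : n // d i ≠ 0}
  let W : Matrix n ρ ℂ := U.submatrix id Subtype.val
  let σ : ρ → ℝ := fun i => Real.sqrt (d i)
  have hσ : ∀ i, 0 < σ i := fun i => Real.sqrt_pos.mpr (lt_of_le_of_ne (hd i) (Ne.symm i.2))
  have hWW : Wᴴ * W = 1 := by
    ext i j
    have := congrFun (congrFun (unitary_conj_mul hU) i) j
    rw [Matrix.mul_apply] at this ⊢
    simp only [W, Matrix.conjTranspose_apply, Matrix.submatrix_apply, id] at this ⊢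
    rw [this, Matrix.one_apply, Matrix.one_apply]
    exact if_congr Subtype.ext_iff.symm rfl rfl
  have hGW : Mᴴ * M * W = W * diagonal (fun i : ρ => (d i : ℂ)) := by
    have h1 : Mᴴ * M * U = U * diagonal (fun i => (d i : ℂ)) := by
      rw [h, Matrix.mul_assoc, unitary_conj_mul hU, Matrix.mul_one]
    ext i j
    have := congrFun (congrFun h1 i) j
    rw [Matrix.mul_apply] at this ⊢
    simp only [Matrix.mul_diagonal] at this ⊢
    exact this
  have hσd : ∀ i : ρ, ((σ i : ℝ) : ℂ) * (σ i : ℂ) = (d i : ℂ) := fun i => by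
    rw [← Complex.ofReal_mul, Real.mul_self_sqrt (hd i)]
  let V : Matrix m ρ ℂ := M * W * diagonal (fun i => ((σ i : ℂ))⁻¹)
  have hVs : V * diagonal (fun i => (σ i : ℂ)) = M * W := by
    simp only [V]
    rw [Matrix.mul_assoc (M * W), Matrix.diagonal_mul_diagonal]
    have : (fun i => ((σ i : ℂ))⁻¹ * (σ i : ℂ)) = fun _ => 1 := by
      ext i
      rw [inv_mul_cancel₀]
      exact_mod_cast (hσ i).ne'
    rw [this, Matrix.diagonal_one, Matrix.mul_one]
  refine ⟨ρ, inferInstance, inferInstance, V, W, σ, hσ, ?_, hWW, ?_⟩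
  · have e : Vᴴ * V = diagonal (fun i => ((σ i : ℂ))⁻¹) * (Wᴴ * (Mᴴ * M * W)) *
        diagonal (fun i => ((σ i : ℂ))⁻¹) := by
      simp only [V, Matrix.conjTranspose_mul, Matrix.diagonal_conjTranspose, Matrix.mul_assoc]
      congr 2
      ext i
      simp
    rw [e, hGW, ← Matrix.mul_assoc Wᴴ, hWW, Matrix.one_mul, Matrix.diagonal_mul_diagonal,
      Matrix.diagonal_mul_diagonal, ← Matrix.diagonal_one]
    congr 1
    ext i
    have h0 : (σ i : ℂ) ≠ 0 := by exact_mod_cast (hσ i).ne'
    rw [← hσd i]
    field_simp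
  · rw [hVs]
    -- M (1 - W Wᴴ) = 0
    have hker : (M - M * W * Wᴴ) = 0 := by
      have hUs : M * U = M * W * (Wᴴ * U) := by
        ext i j
        by_cases hj : d j = 0
        · -- both sides vanish
          have hcol : (M * U)ᴴ * (M * U) = diagonal (fun i => (d i : ℂ)) := by
            rw [Matrix.conjTranspose_mul, Matrix.mul_assoc, ← Matrix.mul_assoc Mᴴ, h,
              Matrix.mul_assoc, Matrix.mul_assoc, unitary_conj_mul hU, Matrix.mul_one,
              ← Matrix.mul_assoc, unitary_conj_mul hU, Matrix.one_mul]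
          have h2 := congrFun (congrFun hcol j) j
          rw [Matrix.mul_apply, Matrix.diagonal_apply_eq, hj] at h2
          have h3 : ∑ x, ‖(M * U) x j‖ ^ 2 = 0 := by
            have : ((∑ x, ‖(M * U) x j‖ ^ 2 : ℝ) : ℂ) = 0 := by
              rw [← Complex.ofReal_zero, ← h2]
              push_cast
              refine Finset.sum_congr rfl fun x _ => ?_
              rw [Matrix.conjTranspose_apply, Complex.star_def,
                ← Complex.normSq_eq_conj_mul_self, Complex.normSq_eq_norm_sq]
              push_cast; rfl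
            exact_mod_cast this
          rw [Finset.sum_eq_zero_iff_of_nonneg (fun _ _ => by positivity)] at h3
          have h4 := h3 i (Finset.mem_univ i)
          have h5 : (M * U) i j = 0 := by simpa using h4
          rw [h5, Matrix.mul_apply]
          symm
          refine Finset.sum_eq_zero fun x _ => ?_
          have h6 : (Wᴴ * U) x j = 0 := by
            have := congrFun (congrFun (unitary_conj_mul hU) x) j
            rw [Matrix.mul_apply] at this ⊢
            simp only [W, Matrix.conjTranspose_apply, Matrix.submatrix_apply, id] at this ⊢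
            rw [this, Matrix.one_apply, if_neg]
            intro hx
            exact x.2 (hx ▸ hj)
          rw [h6, mul_zero]
        · have h6 : ∀ x : ρ, (Wᴴ * U) x j = if x = ⟨j, hj⟩ then 1 else 0 := by
            intro x
            have := congrFun (congrFun (unitary_conj_mul hU) x) j
            rw [Matrix.mul_apply] at this ⊢
            simp only [W, Matrix.conjTranspose_apply, Matrix.submatrix_apply, id] at this ⊢
            rw [this, Matrix.one_apply]
            exact if_congr ((Subtype.ext_iff (a1 := x) (a2 := ⟨j, hj⟩)).symm) rfl rfl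
          rw [Matrix.mul_apply (M := M * W)]
          simp only [h6, mul_ite, mul_one, mul_zero, Finset.sum_ite_eq', Finset.mem_univ, if_true]
          rw [Matrix.mul_apply, Matrix.mul_apply]
          rfl
      have : M = M * W * Wᴴ := by
        calc M = M * U * Uᴴ := by rw [Matrix.mul_assoc, unitary_mul_conj hU, Matrix.mul_one]
          _ = M * W * (Wᴴ * U) * Uᴴ := by rw [hUs]
          _ = M * W * Wᴴ := by
            rw [Matrix.mul_assoc, Matrix.mul_assoc Wᴴ, unitary_mul_conj hU, Matrix.mul_one]
      rw [sub_eq_zero]; exact this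
    rw [sub_eq_zero] at hker
    exact hker

omit [DecidableEq m] in
/-- Thin singular value decomposition, with index type `Fin r`. -/
theorem thin_svd (M : Matrix m n ℂ) :
    ∃ (r : ℕ) (V : Matrix m (Fin r) ℂ) (W : Matrix n (Fin r) ℂ)
      (σ : Fin r → ℝ), (∀ i, 0 < σ i) ∧ Vᴴ * V = 1 ∧ Wᴴ * W = 1 ∧
      M = V * diagonal (fun i => (σ i : ℂ)) * Wᴴ := by
  obtain ⟨ρ, _, _, V, W, σ, hσ, hV, hW, hM⟩ := thin_svd_aux M
  let e : Fin (Fintype.card ρ) ≃ ρ := (Fintype.equivFin ρ).symm
  refine ⟨Fintype.card ρ, V.submatrix id e, W.submatrix id e, σ ∘ e, fun i => hσ _, ?_, ?_, ?_⟩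
  · rw [Matrix.conjTranspose_submatrix, ← Matrix.submatrix_mul _ _ e id e Function.bijective_id,
      hV, Matrix.submatrix_one_equiv]
  · rw [Matrix.conjTranspose_submatrix, ← Matrix.submatrix_mul _ _ e id e Function.bijective_id,
      hW, Matrix.submatrix_one_equiv]
  · have h1 : diagonal (fun i => (((σ ∘ e) i : ℝ) : ℂ)) =
        (diagonal (fun i => (σ i : ℂ))).submatrix e e := by
      rw [Matrix.submatrix_diagonal_equiv]; rfl
    rw [h1, Matrix.conjTranspose_submatrix, ← Matrix.submatrix_mul _ _ id e e e.bijective,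
      ← Matrix.submatrix_mul _ _ id e id e.bijective, ← hM]
    rfl

end Pool.Agent.MP_cd6b85_an
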