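import Mathlib

/-!
Trace functions of matrices: `trF f A` is the sum of `f` over the real parts of the roots of the
characteristic polynomial.
-/

open Matrix

namespace Pool.Agent.MP_cd6b85_an

variable {n m : Type*} [Fintype n] [DecidableEq n] [Fintype m] [DecidableEq m]

/-- Sum of `f` over the eigenvalues. -/
noncomputable def trF (f : ℝ → ℝ) (A : Matrix n n ℂ) : ℝ :=
  (A.charpoly.roots.map fun z => f z.re).sum

theorem trF_eq (f : ℝ → ℝ) {A : Matrix n n ℂ} (hA : A.IsHermitian) :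
    trF f A = ∑ i, f (hA.eigenvalues i) := by
  unfold trF
  rw [hA.roots_charpoly_eq_eigenvalues, Multiset.map_map]
  rfl

theorem trF_mul_comm (f : ℝ → ℝ) (A B : Matrix n n ℂ) : trF f (A * B) = trF f (B * A) := by
  unfold trF
  rw [Matrix.charpoly_mul_comm]

theorem trF_diagonal (f : ℝ → ℝ) (d : n → ℂ) : trF f (diagonal d) = ∑ i, f (d i).re := by
  unfold trF
  rw [Matrix.charpoly_diagonal, Polynomial.roots_prod]
  · simp only [Polynomial.roots_X_sub_C, Multiset.bind_singleton, Multiset.map_map,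
      Function.comp_apply]
    rfl
  · simp [Finset.prod_ne_zero_iff, Polynomial.X_sub_C_ne_zero]

theorem trF_conj (f : ℝ → ℝ) (A U V : Matrix n n ℂ) (h : V * U = 1) :
    trF f (U * A * V) = trF f A := by
  rw [mul_assoc, trF_mul_comm, mul_assoc, h, mul_one]

/-- Rectangular version of `trF f (A B) = trF f (B A)`, for `f 0 = 0`. -/
theorem trF_mul_comm' (f : ℝ → ℝ) (hf : f 0 = 0) (A : Matrix m n ℂ) (B : Matrix n m ℂ) :
    trF f (A * B) = trF f (B * A) := by
  unfold trF
  have h := Matrix.charpoly_mul_comm' A B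
  have h1 : ((Polynomial.X ^ Fintype.card n * (A * B).charpoly).roots.map
      fun z : ℂ => f z.re).sum = ((A * B).charpoly.roots.map fun z : ℂ => f z.re).sum := by
    rw [Polynomial.roots_mul, Polynomial.roots_X_pow]
    · rw [Multiset.map_add, Multiset.sum_add, Multiset.map_nsmul, Multiset.sum_nsmul]
      simp [hf]
    · exact mul_ne_zero (pow_ne_zero _ Polynomial.X_ne_zero)
        (Matrix.charpoly_monic _).ne_zero
  have h2 : ((Polynomial.X ^ Fintype.card m * (B * A).charpoly).roots.map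
      fun z : ℂ => f z.re).sum = ((B * A).charpoly.roots.map fun z : ℂ => f z.re).sum := by
    rw [Polynomial.roots_mul, Polynomial.roots_X_pow]
    · rw [Multiset.map_add, Multiset.sum_add, Multiset.map_nsmul, Multiset.sum_nsmul]
      simp [hf]
    · exact mul_ne_zero (pow_ne_zero _ Polynomial.X_ne_zero)
        (Matrix.charpoly_monic _).ne_zero
  rw [← h1, ← h2, h]

/-- Spectral theorem in elementary form. -/
theorem herm_diag {A : Matrix n n ℂ} (hA : A.IsHermitian) :
    A = (hA.eigenvectorUnitary : Matrix n n ℂ) *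
      diagonal (fun i => (hA.eigenvalues i : ℂ)) *
      (hA.eigenvectorUnitary : Matrix n n ℂ)ᴴ := by
  have h := hA.spectral_theorem
  rw [Unitary.conjStarAlgAut_apply] at h
  exact h

theorem unitary_mul_conj {U : Matrix n n ℂ} (hU : U ∈ unitaryGroup n ℂ) : U * Uᴴ = 1 :=
  Matrix.mem_unitaryGroup_iff.mp hU

theorem unitary_conj_mul {U : Matrix n n ℂ} (hU : U ∈ unitaryGroup n ℂ) : Uᴴ * U = 1 :=
  Matrix.mem_unitaryGroup_iff'.mp hU

theorem col_sum {V : Matrix n n ℂ} (hV : Vᴴ * V = 1) (i : n) : ∑ j, ‖V j i‖ ^ 2 = 1 := by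
  have h := congrFun (congrFun hV i) i
  rw [Matrix.mul_apply, Matrix.one_apply_eq] at h
  have h2 : ((∑ j, ‖V j i‖ ^ 2 : ℝ) : ℂ) = 1 := by
    rw [← h]
    push_cast
    refine Finset.sum_congr rfl fun j _ => ?_
    rw [Matrix.conjTranspose_apply, Complex.star_def, ← Complex.normSq_eq_conj_mul_self,
      Complex.normSq_eq_norm_sq]
    push_cast
    rfl
  exact_mod_cast h2

theorem row_sum {V : Matrix n n ℂ} (hV : V * Vᴴ = 1) (j : n) : ∑ i, ‖V j i‖ ^ 2 = 1 := by
  have h := congrFun (congrFun hV j) j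
  rw [Matrix.mul_apply, Matrix.one_apply_eq] at h
  have h2 : ((∑ i, ‖V j i‖ ^ 2 : ℝ) : ℂ) = 1 := by
    rw [← h]
    push_cast
    refine Finset.sum_congr rfl fun i _ => ?_
    rw [Matrix.conjTranspose_apply, Complex.star_def, Complex.mul_conj,
      Complex.normSq_eq_norm_sq]
    push_cast
    rfl
  exact_mod_cast h2

omit [Fintype m] [DecidableEq m] in
theorem conj_diag_entry (d : n → ℝ) (V : Matrix n m ℂ) (i : m) :
    (Vᴴ * diagonal (fun j => (d j : ℂ)) * V) i i = ((∑ j, ‖V j i‖ ^ 2 * d j : ℝ) : ℂ) := by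
  rw [Matrix.mul_apply]
  push_cast
  refine Finset.sum_congr rfl fun j _ => ?_
  rw [Matrix.mul_diagonal, Matrix.conjTranspose_apply, Complex.star_def]
  rw [mul_right_comm, ← Complex.normSq_eq_conj_mul_self, Complex.normSq_eq_norm_sq]
  push_cast
  rfl

/-- Diagonal entries of a Hermitian matrix in another orthonormal basis. -/
theorem conj_entry {A : Matrix n n ℂ} (hA : A.IsHermitian) (W : Matrix n m ℂ) (i : m) :
    (Wᴴ * A * W) i i =
      ((∑ j, ‖((hA.eigenvectorUnitary : Matrix n n ℂ)ᴴ * W) j i‖ ^ 2 * hA.eigenvalues j : ℝ) : ℂ) := by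
  rw [← conj_diag_entry]
  conv_lhs => rw [herm_diag hA]
  simp only [Matrix.conjTranspose_mul, Matrix.conjTranspose_conjTranspose, Matrix.mul_assoc]

/-- Peierls inequality for concave functions. -/
theorem peierls_concave {s : Set ℝ} {f : ℝ → ℝ} (hf : ConcaveOn ℝ s f) {A : Matrix n n ℂ}
    (hA : A.IsHermitian) (hs : ∀ i, hA.eigenvalues i ∈ s) {W : Matrix n n ℂ}
    (hW : W ∈ unitaryGroup n ℂ) :
    trF f A ≤ ∑ i, f ((Wᴴ * A * W) i i).re := by
  set V := (hA.eigenvectorUnitary : Matrix n n ℂ)ᴴ * W with hV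
  have hVu : V ∈ unitaryGroup n ℂ := by
    apply mul_mem _ hW
    exact Unitary.star_mem hA.eigenvectorUnitary.2
  have h1 := unitary_mul_conj hVu
  have h2 := unitary_conj_mul hVu
  have key : ∀ i, ∑ j, ‖V j i‖ ^ 2 * f (hA.eigenvalues j) ≤ f ((Wᴴ * A * W) i i).re := by
    intro i
    rw [conj_entry hA, Complex.ofReal_re]
    have := hf.le_map_sum (t := Finset.univ) (w := fun j => ‖V j i‖ ^ 2)
      (p := fun j => hA.eigenvalues j) (fun j _ => by positivity) (col_sum h2 i)
      (fun j _ => hs j)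
    simpa only [smul_eq_mul] using this
  calc trF f A = ∑ j, f (hA.eigenvalues j) := trF_eq f hA
    _ = ∑ j, (∑ i, ‖V j i‖ ^ 2) * f (hA.eigenvalues j) := by
        refine Finset.sum_congr rfl fun j _ => ?_
        rw [row_sum h1 j, one_mul]
    _ = ∑ i, ∑ j, ‖V j i‖ ^ 2 * f (hA.eigenvalues j) := by
        rw [Finset.sum_comm]
        exact Finset.sum_congr rfl fun j _ => Finset.sum_mul _ _ _
    _ ≤ _ := Finset.sum_le_sum fun i _ => key i

/-- Peierls inequality for convex functions. -/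
theorem peierls_convex {s : Set ℝ} {f : ℝ → ℝ} (hf : ConvexOn ℝ s f) {A : Matrix n n ℂ}
    (hA : A.IsHermitian) (hs : ∀ i, hA.eigenvalues i ∈ s) {W : Matrix n n ℂ}
    (hW : W ∈ unitaryGroup n ℂ) :
    ∑ i, f ((Wᴴ * A * W) i i).re ≤ trF f A := by
  have h := peierls_concave hf.neg hA hs hW
  have e : trF (-f) A = -trF f A := by
    rw [trF_eq _ hA, trF_eq _ hA]; simp
  rw [e] at h
  simp only [Pi.neg_apply, Finset.sum_neg_distrib] at h
  linarith

theorem diag_pow_conj {A U : Matrix n n ℂ} {d : n → ℂ} (hU : Uᴴ * U = 1) (hU' : U * Uᴴ = 1)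
    (h : A = U * diagonal d * Uᴴ) (k : ℕ) : A ^ k = U * diagonal (fun i => d i ^ k) * Uᴴ := by
  induction k with
  | zero => simp [hU']
  | succ k ih =>
    rw [pow_succ, ih, h]
    have : U * diagonal (fun i => d i ^ k) * Uᴴ * (U * diagonal d * Uᴴ)
        = U * diagonal (fun i => d i ^ k) * (Uᴴ * U) * diagonal d * Uᴴ := by
      simp only [Matrix.mul_assoc]
    rw [this, hU, Matrix.mul_one, Matrix.mul_assoc U, Matrix.diagonal_mul_diagonal]
    simp only [pow_succ]

theorem trace_pow_eq {A : Matrix n n ℂ} (hA : A.IsHermitian) (k : ℕ) :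
    (A ^ k).trace = ∑ i, (hA.eigenvalues i : ℂ) ^ k := by
  have hU := hA.eigenvectorUnitary.2
  rw [diag_pow_conj (unitary_conj_mul hU) (unitary_mul_conj hU) (herm_diag hA) k,
    Matrix.trace_mul_comm, ← Matrix.mul_assoc, unitary_conj_mul hU, Matrix.one_mul,
    Matrix.trace_diagonal]

theorem trF_poly (q : Polynomial ℝ) {A : Matrix n n ℂ} (hA : A.IsHermitian) :
    trF (fun x => q.eval x) A =
      ∑ k ∈ Finset.range (q.natDegree + 1), q.coeff k * (A ^ k).trace.re := by
  rw [trF_eq _ hA]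
  simp only [Polynomial.eval_eq_sum_range]
  rw [Finset.sum_comm]
  refine Finset.sum_congr rfl fun k _ => ?_
  rw [← Finset.mul_sum, trace_pow_eq hA]
  congr 1
  rw [← Complex.ofReal_re (∑ i, hA.eigenvalues i ^ k)]
  push_cast
  rfl

theorem sum_sq_eigenvalues {A : Matrix n n ℂ} (hA : A.IsHermitian) :
    ∑ i, hA.eigenvalues i ^ 2 = ∑ i, ∑ j, ‖A i j‖ ^ 2 := by
  have h := trace_pow_eq hA 2
  have h2 : (A ^ 2).trace = ((∑ i, ∑ j, ‖A i j‖ ^ 2 : ℝ) : ℂ) := by
    rw [pow_two, Matrix.trace]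
    push_cast
    refine Finset.sum_congr rfl fun i _ => ?_
    rw [Matrix.diag_apply, Matrix.mul_apply]
    refine Finset.sum_congr rfl fun j _ => ?_
    have : A j i = star (A i j) := by
      rw [← hA.apply j i]
    rw [this, Complex.star_def, Complex.mul_conj, Complex.normSq_eq_norm_sq]
    push_cast; rfl
  rw [h2] at h
  exact_mod_cast h.symm

theorem continuousOn_trF {f : ℝ → ℝ} (hf : Continuous f) :
    ContinuousOn (trF f) {A : Matrix n n ℂ | A.IsHermitian} := by
  intro A hA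
  -- approximate
  rw [Metric.continuousWithinAt_iff']
  intro ε hε
  set R : ℝ := Real.sqrt ((∑ i, ∑ j, ‖A i j‖ ^ 2) + 1) with hR
  obtain ⟨q, hq⟩ := exists_polynomial_near_of_continuousOn (-R) R f hf.continuousOn
    (ε / (3 * (Fintype.card n + 1))) (by positivity)
  have hclose : ∀ B : Matrix n n ℂ, B.IsHermitian → (∑ i, ∑ j, ‖B i j‖ ^ 2) < R ^ 2 →
      |trF f B - trF (fun x => q.eval x) B| ≤ ε / 3 := by
    intro B hB hBR
    rw [trF_eq _ hB, trF_eq _ hB, ← Finset.sum_sub_distrib]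
    refine (Finset.abs_sum_le_sum_abs _ _).trans ?_
    have : ∀ i ∈ (Finset.univ : Finset n), |f (hB.eigenvalues i) - q.eval (hB.eigenvalues i)|
        ≤ ε / (3 * (Fintype.card n + 1)) := by
      intro i _
      rw [abs_sub_comm]
      refine (hq _ ?_).le
      have h1 : hB.eigenvalues i ^ 2 ≤ R ^ 2 := by
        calc hB.eigenvalues i ^ 2 ≤ ∑ i, hB.eigenvalues i ^ 2 :=
              Finset.single_le_sum (f := fun i => hB.eigenvalues i ^ 2)
                (fun i _ => sq_nonneg _) (Finset.mem_univ i)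
          _ ≤ R ^ 2 := by rw [sum_sq_eigenvalues]; exact hBR.le
      have h2 := abs_le_of_sq_le_sq h1 (Real.sqrt_nonneg _)
      exact abs_le.mp h2
    refine (Finset.sum_le_sum this).trans ?_
    rw [Finset.sum_const, nsmul_eq_mul, Finset.card_univ]
    rw [mul_div_assoc', div_le_div_iff₀ (by positivity) (by positivity)]
    nlinarith [hε.le, (Nat.cast_nonneg (Fintype.card n) : (0:ℝ) ≤ _)]
  have hcont : ContinuousOn (trF fun x => q.eval x) {A : Matrix n n ℂ | A.IsHermitian} := by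
    have : ContinuousOn (fun A : Matrix n n ℂ =>
        ∑ k ∈ Finset.range (q.natDegree + 1), q.coeff k * (A ^ k).trace.re)
        {A : Matrix n n ℂ | A.IsHermitian} := by
      apply Continuous.continuousOn
      fun_prop
    refine this.congr fun B hB => trF_poly q hB
  have hc := (Metric.continuousWithinAt_iff'.mp (hcont A hA)) (ε / 3) (by positivity)
  have hopen : ∀ᶠ B in nhdsWithin A {A : Matrix n n ℂ | A.IsHermitian},
      (∑ i, ∑ j, ‖B i j‖ ^ 2) < R ^ 2 := by
    have hc2 : Continuous fun B : Matrix n n ℂ => ∑ i, ∑ j, ‖B i j‖ ^ 2 := by fun_prop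
    have : ∀ᶠ B in nhds A, (∑ i, ∑ j, ‖B i j‖ ^ 2) < R ^ 2 := by
      apply hc2.continuousAt.eventually_lt continuousAt_const
      rw [hR, Real.sq_sqrt (by positivity)]
      linarith
    exact this.filter_mono nhdsWithin_le_nhds
  filter_upwards [hc, hopen, self_mem_nhdsWithin] with B hB1 hB2 hB3
  have hAR : (∑ i, ∑ j, ‖A i j‖ ^ 2) < R ^ 2 := by
    rw [hR, Real.sq_sqrt (by positivity)]
    linarith
  have e1 := hclose B hB3 hB2
  have e2 := hclose A hA hAR
  rw [Real.dist_eq] at hB1 ⊢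
  rw [abs_le] at e1 e2
  rw [abs_lt] at hB1 ⊢
  constructor <;> linarith [e1.1, e1.2, e2.1, e2.2, hB1.1, hB1.2]

omit [DecidableEq m] in
theorem continuous_trF_gram {f : ℝ → ℝ} (hf : Continuous f) :
    Continuous fun M : Matrix m n ℂ => trF f (Mᴴ * M) := by
  rw [← continuousOn_univ]
  exact (continuousOn_trF hf).comp (Continuous.continuousOn (by fun_prop))
    fun M _ => Matrix.isHermitian_conjTranspose_mul_self M

end Pool.Agent.MP_cd6b85_an
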